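import Mathlib

/-!
# Function clones, clone homomorphisms, oligomorphic clones

Conventions of the problem file: all arities are at least one, so `C.ops n` is the set of
members of arity `n + 1`.  The set `Op Ω n` of all operations of arity `n + 1` carries the topology
of pointwise convergence, `Ω` being discrete.
-/

namespace Pool.Agent.H818R3

/-- Operations of arity `n + 1` on `Ω`. -/
def Op (Ω : Type*) (n : ℕ) : Type _ := (Fin (n + 1) → Ω) → Ω

/-- The topology of pointwise convergence on `Op Ω n`, the set `Ω` being discrete. -/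
instance instTopOp (Ω : Type*) (n : ℕ) : TopologicalSpace (Op Ω n) :=
  @Pi.topologicalSpace (Fin (n + 1) → Ω) (fun _ => Ω) (fun _ => ⊥)

/-- A function clone on `Ω`: it contains all projections and is closed under composition. -/
structure FunctionClone (Ω : Type*) where
  /-- the members of arity `n + 1` -/
  ops : ∀ n : ℕ, Set (Op Ω n)
  proj_mem : ∀ (n : ℕ) (i : Fin (n + 1)), (fun x => x i : Op Ω n) ∈ ops n
  comp_mem : ∀ (n m : ℕ) (f : Op Ω n) (g : Fin (n + 1) → Op Ω m), f ∈ ops n →
    (∀ i, g i ∈ ops m) → (fun x => f (fun i => g i x) : Op Ω m) ∈ ops m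

variable {Ω : Type*} {Ω' : Type*}

/-- The `i`-th projection of arity `n + 1`, as a member of the clone. -/
def FunctionClone.proj (C : FunctionClone Ω) (n : ℕ) (i : Fin (n + 1)) : C.ops n :=
  ⟨fun x => x i, C.proj_mem n i⟩

/-- Composition of a member of arity `n + 1` with `n + 1` members of arity `m + 1`. -/
def FunctionClone.comp (C : FunctionClone Ω) {n m : ℕ} (f : C.ops n)
    (g : Fin (n + 1) → C.ops m) : C.ops m :=
  ⟨fun x => f.1 (fun i => (g i).1 x), C.comp_mem n m f.1 (fun i => (g i).1) f.2 (fun i => (g i).2)⟩

/-- The clone is closed (in every arity) for pointwise convergence. -/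
def FunctionClone.Closed (C : FunctionClone Ω) : Prop := ∀ n : ℕ, IsClosed (C.ops n)

/-- `α : Ω → Ω` is a unary member of the clone. -/
def FunctionClone.Unary (C : FunctionClone Ω) (α : Ω → Ω) : Prop :=
  (fun x => α (x 0) : Op Ω 0) ∈ C.ops 0

/-- The invertible unary members of the clone: permutations `α` of `Ω` such that `α` and its
inverse are unary members. -/
def FunctionClone.Invertible (C : FunctionClone Ω) (α : Equiv.Perm Ω) : Prop :=
  C.Unary α ∧ C.Unary α.symm

/-- The permutation group of the invertible unary members has only finitely many orbits on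
`Ω ^ n`, for every `n`: finitely many tuples represent all orbits. -/
def FunctionClone.Oligomorphic (C : FunctionClone Ω) : Prop :=
  ∀ n : ℕ, ∃ T : Set (Fin n → Ω), T.Finite ∧
    ∀ x : Fin n → Ω, ∃ t ∈ T, ∃ α : Equiv.Perm Ω, C.Invertible α ∧ x = fun i => α (t i)

/-- Clone homomorphisms: they preserve arities, projections and composition. -/
structure CloneHom (C : FunctionClone Ω) (D : FunctionClone Ω') where
  /-- the map in arity `n + 1` -/
  map : ∀ n : ℕ, C.ops n → D.ops n
  map_proj : ∀ (n : ℕ) (i : Fin (n + 1)), map n (C.proj n i) = D.proj n i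
  map_comp : ∀ (n m : ℕ) (f : C.ops n) (g : Fin (n + 1) → C.ops m),
    map m (C.comp f g) = D.comp (map n f) (fun i => map m (g i))

/-- A clone isomorphism is a bijective clone homomorphism. -/
def CloneHom.IsIso {C : FunctionClone Ω} {D : FunctionClone Ω'} (φ : CloneHom C D) : Prop :=
  ∀ n : ℕ, Function.Bijective (φ.map n)

/-- Continuity in every arity (that is, for the sum topologies). -/
def CloneHom.Cont {C : FunctionClone Ω} {D : FunctionClone Ω'} (φ : CloneHom C D) : Prop :=
  ∀ n : ℕ, Continuous (φ.map n)

/-- The clone homomorphism is a homeomorphism (in every arity, that is, for the sum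
topologies). -/
def CloneHom.IsHomeo {C : FunctionClone Ω} {D : FunctionClone Ω'} (φ : CloneHom C D) : Prop :=
  ∀ n : ℕ, IsHomeomorph (φ.map n)

/-- The clone `1` of all projections on a two-element set. -/
def projClone : FunctionClone Bool where
  ops n := {f | ∃ i : Fin (n + 1), f = fun x => x i}
  proj_mem n i := ⟨i, rfl⟩
  comp_mem n m f g hf hg := by
    obtain ⟨i, rfl⟩ := hf
    obtain ⟨j, hj⟩ := hg i
    exact ⟨j, by funext x; exact congrFun hj x⟩

end Pool.Agent.H818R3
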