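import Mathlib
import Pool.Agent.H562R2.KVSound

/-!
Exact semidefinite value of the canonical solution of the folded Khot-Vishnoi games, and games
exactly at the spectral threshold.
-/

set_option autoImplicit false

namespace Pool.Agent.H818R3.Defl

open Finset Pool.Agent.H562R2

variable {k a B : ℕ}

theorem kval_exact (hB : 0 < B) (haB : 2 * a ≤ B) :
    ∑ e : KE k B, ∑ c, kvec k (ks k B e) c ⬝ᵥ kvec k (kt k a B e) (kp k a B e c) =
      ((1 - 2 * a / B : ℝ) ^ 2 + (1 - (1 - 2 * a / B : ℝ) ^ 2) / 2 ^ k) *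
        Fintype.card (KE k B) := by
  have hB0 : (0 : ℝ) < B := by exact_mod_cast hB
  have h0 : (0 : ℝ) < 2 ^ k := by positivity
  obtain ⟨ρ, hρ⟩ : ∃ ρ : ℝ, ρ = 1 - 2 * a / B := ⟨_, rfl⟩
  have hN : (Fintype.card (Gam k) : ℝ) = 2 ^ k := by
    rw [Fintype.card_fun, Fintype.card_bool, Fintype.card_fin]; push_cast; rfl
  simp only [kedge_val]
  rw [Fintype.sum_prod_type]
  simp only
  have h1 : ∀ x y : Gam k, ∑ w : Gam k → Fin B, sg (nz k a B w x) * sg (nz k a B w y) =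
      (B : ℝ) ^ Fintype.card (Gam k) * (if x = y then 1 else ρ ^ 2) := by
    intro x y
    by_cases hxy : x = y
    · subst hxy
      simp only [sg_mul_self, if_true]
      rw [Finset.sum_const, Finset.card_univ, nsmul_eq_mul, Fintype.card_fun, Fintype.card_fin]
      push_cast
      ring
    · have h2 := sum_walsh_nz (k := k) hB (by omega : a ≤ B) {x, y}
      rw [Finset.card_pair hxy, ← hρ] at h2
      rw [if_neg hxy, ← h2]
      exact Finset.sum_congr rfl fun w _ => by rw [walsh, Finset.prod_pair hxy]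
  have h2 : ∑ w : Gam k → Fin B, ((∑ x, sg (nz k a B w x)) / (2 : ℝ) ^ k) ^ 2 =
      (B : ℝ) ^ Fintype.card (Gam k) * (ρ ^ 2 + (1 - ρ ^ 2) / 2 ^ k) := by
    have h3 : ∀ w : Gam k → Fin B, ((∑ x, sg (nz k a B w x)) / (2 : ℝ) ^ k) ^ 2 =
        (∑ x, ∑ y, sg (nz k a B w x) * sg (nz k a B w y)) / (2 ^ k) ^ 2 := by
      intro w
      rw [div_pow, sq (∑ x, sg (nz k a B w x)), Finset.sum_mul_sum]
    simp only [h3]
    rw [← Finset.sum_div, Finset.sum_comm]
    have h4 : ∀ x : Gam k, ∑ w : Gam k → Fin B, ∑ y, sg (nz k a B w x) * sg (nz k a B w y) =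
        (B : ℝ) ^ Fintype.card (Gam k) * (1 + (2 ^ k - 1) * ρ ^ 2) := by
      intro x
      rw [Finset.sum_comm]
      simp only [h1]
      rw [← Finset.mul_sum]
      congr 1
      have h5 : ∀ y : Gam k, (if x = y then (1 : ℝ) else ρ ^ 2) =
          ρ ^ 2 + (if x = y then 1 - ρ ^ 2 else 0) := by
        intro y
        by_cases h : x = y <;> simp [h]
      simp only [h5]
      rw [Finset.sum_add_distrib, Finset.sum_ite_eq, if_pos (Finset.mem_univ _), Finset.sum_const,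
        Finset.card_univ, nsmul_eq_mul, hN]
      ring
    simp only [h4]
    rw [Finset.sum_const, Finset.card_univ, nsmul_eq_mul, hN]
    field_simp
    ring
  simp only [h2]
  rw [Finset.sum_const, Finset.card_univ, nsmul_eq_mul, Fintype.card_prod,
    Fintype.card_fun (α := Gam k) (β := Fin B), Fintype.card_fin, ← hρ]
  push_cast
  ring

theorem gap_mono {U V E : Type} [Fintype E] {s : E → U} {t : E → V} {lam lam' : ℝ}
    (h : HasGap s t lam) (hle : lam' ≤ lam) : HasGap s t lam' := by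
  intro f g hf hg
  refine (h f g hf hg).trans ?_
  have : 0 ≤ ∑ e, f (s e) ^ 2 + ∑ e, g (t e) ^ 2 := by positivity
  exact mul_le_mul_of_nonneg_right (by linarith) this

/-- Unique games exactly at the spectral threshold. -/
theorem tight (ε δ : ℝ) (hε0 : 0 < ε) (hε1 : ε < 1) (hδ : 0 < δ) :
    ∃ k a B : ℕ, 0 < B ∧ HasGap (ks k B) (kt k a B) (2 * ε - ε ^ 2) ∧
      (1 - ε) * Fintype.card (KE k B) ≤
        ∑ e : KE k B, ∑ c, kvec k (ks k B e) c ⬝ᵥ kvec k (kt k a B e) (kp k a B e c) ∧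
      ∀ L M : Fn k → Gam k,
        ((Finset.univ.filter fun e => kp k a B e (L (ks k B e)) = M (kt k a B e)).card : ℝ) ≤
          δ * Fintype.card (KE k B) := by
  obtain ⟨r, hr⟩ : ∃ r : ℝ, r = Real.sqrt (1 - ε) := ⟨_, rfl⟩
  have hr0 : 0 < r := hr ▸ Real.sqrt_pos.mpr (by linarith)
  have hr2 : r ^ 2 = 1 - ε := hr ▸ Real.sq_sqrt (by linarith)
  have hr1 : r < 1 := by nlinarith
  obtain ⟨j, hj⟩ := exists_pow_lt_of_lt_one (half_pos hδ) hr1
  obtain ⟨k, hk⟩ : ∃ k : ℕ, 3 ^ j * Real.sqrt (1 / 2 ^ k) < δ / 2 := by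
    have h3 : (0 : ℝ) < 3 ^ j := by positivity
    obtain ⟨k, hk⟩ := exists_pow_lt_of_lt_one (show (0 : ℝ) < (δ / 2 / 3 ^ j) ^ 2 by positivity)
      (show (1 / 2 : ℝ) < 1 by norm_num)
    refine ⟨k, ?_⟩
    have h4 : Real.sqrt (1 / 2 ^ k) < δ / 2 / 3 ^ j := by
      rw [Real.sqrt_lt' (by positivity)]
      rwa [one_div, ← inv_pow, ← one_div]
    calc 3 ^ j * Real.sqrt (1 / 2 ^ k) < 3 ^ j * (δ / 2 / 3 ^ j) :=
          mul_lt_mul_of_pos_left h4 h3
      _ = δ / 2 := by field_simp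
  have h2k : (0 : ℝ) < 2 ^ k := by positivity
  -- a rational number just below `r`
  obtain ⟨low, hlow⟩ : ∃ low : ℝ, low = Real.sqrt (max 0 (1 - ε - ε / 2 ^ k)) := ⟨_, rfl⟩
  have hlowr : low < r := by
    rw [hlow, hr]
    apply Real.sqrt_lt_sqrt (le_max_left _ _)
    rw [max_lt_iff]
    refine ⟨by linarith, ?_⟩
    have : 0 < ε / 2 ^ k := by positivity
    linarith
  obtain ⟨q, hq1, hq2⟩ := exists_rat_btwn hlowr
  have hlow0 : 0 ≤ low := hlow ▸ Real.sqrt_nonneg _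
  have hq0 : (0 : ℝ) < q := lt_of_le_of_lt hlow0 hq1
  have hq1' : (q : ℝ) < 1 := hq2.trans hr1
  have hq0' : 0 < q := by exact_mod_cast hq0
  have hq1'' : q < 1 := by exact_mod_cast hq1'
  -- `a / B = (1 - q) / 2`
  obtain ⟨p, hp⟩ : ∃ p : ℚ, p = (1 - q) / 2 := ⟨_, rfl⟩
  have hp0 : 0 < p := by rw [hp]; linarith
  obtain ⟨a, ha⟩ : ∃ a : ℕ, (a : ℤ) = p.num := ⟨p.num.toNat, Int.toNat_of_nonneg
    (Rat.num_nonneg.mpr hp0.le)⟩
  have hden : 0 < p.den := p.den_pos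
  have hpq : (a : ℝ) / p.den = (1 - q) / 2 := by
    have h1 : ((p.num : ℚ) / p.den) = p := Rat.num_div_den p
    have h2 : (((p.num : ℚ) / p.den : ℚ) : ℝ) = ((p : ℚ) : ℝ) := by rw [h1]
    push_cast at h2
    rw [← ha] at h2
    push_cast at h2
    rw [h2, hp]
    push_cast
    ring
  have hdenR : (0 : ℝ) < p.den := by exact_mod_cast hden
  have hρ : (1 - 2 * a / p.den : ℝ) = q := by
    rw [mul_div_assoc, hpq]; ring
  have haB : 2 * a ≤ p.den := by
    have h1 : (2 * a : ℝ) / p.den ≤ 1 := by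
      rw [mul_div_assoc, hpq]
      linarith
    rw [div_le_one hdenR] at h1
    exact_mod_cast h1
  have hqr2 : (q : ℝ) ^ 2 ≤ 1 - ε := by
    rw [← hr2]
    exact pow_le_pow_left₀ hq0.le hq2.le 2
  have hql2 : 1 - ε - ε / 2 ^ k ≤ (q : ℝ) ^ 2 := by
    have h1 : low ^ 2 ≤ (q : ℝ) ^ 2 := pow_le_pow_left₀ hlow0 hq1.le 2
    rw [hlow, Real.sq_sqrt (le_max_left _ _)] at h1
    exact (le_max_right _ _).trans h1
  refine ⟨k, a, p.den, hden, ?_, ?_, ?_⟩
  · have h1 := khasGap (k := k) hden haB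
    rw [hρ] at h1
    refine gap_mono h1 ?_
    have h2 : (q : ℝ) ^ 4 ≤ (1 - ε) ^ 2 := by
      have : (q : ℝ) ^ 4 = ((q : ℝ) ^ 2) ^ 2 := by ring
      rw [this]
      exact pow_le_pow_left₀ (sq_nonneg _) hqr2 2
    nlinarith
  · rw [kval_exact hden haB, hρ]
    apply mul_le_mul_of_nonneg_right _ (Nat.cast_nonneg _)
    have h1 : ε / 2 ^ k ≤ (1 - (q : ℝ) ^ 2) / 2 ^ k :=
      div_le_div_of_nonneg_right (by linarith) h2k.le
    linarith
  · intro L M
    refine (kvalue hden haB L M j).trans ?_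
    apply mul_le_mul_of_nonneg_right _ (Nat.cast_nonneg _)
    rw [hρ]
    have h1 : (q : ℝ) ^ j ≤ r ^ j := pow_le_pow_left₀ hq0.le hq2.le j
    linarith

end Pool.Agent.H818R3.Defl
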