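import Mathlib
import Pool.Agent.H562R2.SdpGlobal

/-!
Deflation by powers of `1 - P`, where `P` is an average of orthogonal projections.
-/

set_option autoImplicit false

namespace Pool.Agent.H818R3.Defl

open Finset Pool.Agent.H562R2

section Lin

variable {D : Type} [Fintype D]

/-- A symmetric operator with `0 ≤ P` and `P ^ 2 ≤ P`. -/
structure Good (P : Module.End ℝ (D → ℝ)) : Prop where
  sym : ∀ v w, P v ⬝ᵥ w = v ⬝ᵥ P w
  pos : ∀ v, 0 ≤ v ⬝ᵥ P v
  sq : ∀ v, P v ⬝ᵥ P v ≤ v ⬝ᵥ P v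

variable {P : Module.End ℝ (D → ℝ)}

theorem Good.le_one (h : Good P) (v : D → ℝ) : v ⬝ᵥ P v ≤ v ⬝ᵥ v := by
  have h1 := dot_self_nonneg (v - P v)
  have h2 : (v - P v) ⬝ᵥ (v - P v) = v ⬝ᵥ v - 2 * (v ⬝ᵥ P v) + P v ⬝ᵥ P v := by
    rw [sub_dotProduct, dotProduct_sub, dotProduct_sub, dotProduct_comm (P v) v]
    ring
  have h3 := h.sq v
  rw [h2] at h1
  linarith

theorem Good.sub_norm (h : Good P) (v : D → ℝ) :
    v ⬝ᵥ P v + (1 - P) v ⬝ᵥ (1 - P) v ≤ v ⬝ᵥ v := by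
  have h2 : (1 - P) v ⬝ᵥ (1 - P) v = v ⬝ᵥ v - 2 * (v ⬝ᵥ P v) + P v ⬝ᵥ P v := by
    rw [LinearMap.sub_apply, Module.End.one_apply, sub_dotProduct, dotProduct_sub, dotProduct_sub,
      dotProduct_comm (P v) v]
    ring
  have h3 := h.sq v
  rw [h2]
  linarith

theorem Good.quad_sub (h : Good P) (v : D → ℝ) :
    (1 - P) v ⬝ᵥ P ((1 - P) v) ≤ v ⬝ᵥ P v := by
  have h2 : (1 - P) v ⬝ᵥ P ((1 - P) v) =
      v ⬝ᵥ P v - 2 * (P v ⬝ᵥ P v) + P v ⬝ᵥ P (P v) := by
    rw [LinearMap.sub_apply, Module.End.one_apply, map_sub, sub_dotProduct, dotProduct_sub,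
      dotProduct_sub, ← h.sym v (P v)]
    ring
  have h3 := h.le_one (P v)
  have h4 := dot_self_nonneg (P v)
  rw [h2]
  linarith

theorem Good.pow_bound (h : Good P) (v : D → ℝ) (J : ℕ) :
    (J + 1 : ℝ) * (((1 - P) ^ J) v ⬝ᵥ P (((1 - P) ^ J) v)) +
      ((1 - P) ^ (J + 1)) v ⬝ᵥ ((1 - P) ^ (J + 1)) v ≤ v ⬝ᵥ v := by
  induction J with
  | zero =>
    have := h.sub_norm v
    simpa using this
  | succ J ih =>
    have e1 : ((1 - P) ^ (J + 1)) v = (1 - P) (((1 - P) ^ J) v) := by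
      rw [pow_succ', Module.End.mul_apply]
    have e2 : ((1 - P) ^ (J + 1 + 1)) v = (1 - P) (((1 - P) ^ (J + 1)) v) := by
      rw [pow_succ' _ (J + 1), Module.End.mul_apply]
    have h1 := h.sub_norm (((1 - P) ^ (J + 1)) v)
    have h2 := h.quad_sub (((1 - P) ^ J) v)
    rw [← e1] at h2
    rw [← e2] at h1
    have h3 : (0 : ℝ) ≤ J + 1 := by positivity
    have h4 := mul_le_mul_of_nonneg_left h2 h3
    push_cast
    linarith

theorem Good.pow_norm (h : Good P) (v : D → ℝ) (J : ℕ) :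
    ((1 - P) ^ J) v ⬝ᵥ ((1 - P) ^ J) v ≤ v ⬝ᵥ v := by
  cases J with
  | zero => simp
  | succ J =>
    have h1 := h.pow_bound v J
    have h2 := h.pos (((1 - P) ^ J) v)
    have h3 : (0 : ℝ) ≤ (J + 1 : ℝ) * (((1 - P) ^ J) v ⬝ᵥ P (((1 - P) ^ J) v)) := by positivity
    linarith

theorem Good.pow_quad (h : Good P) (v : D → ℝ) (J : ℕ) :
    ((1 - P) ^ J) v ⬝ᵥ P (((1 - P) ^ J) v) ≤ (v ⬝ᵥ v) / (J + 1) := by
  have h1 := h.pow_bound v J
  have h2 := dot_self_nonneg (((1 - P) ^ (J + 1)) v)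
  rw [le_div_iff₀ (by positivity)]
  linarith

theorem Good.sub_sym (h : Good P) (v w : D → ℝ) : (1 - P) v ⬝ᵥ w = v ⬝ᵥ (1 - P) w := by
  rw [LinearMap.sub_apply, LinearMap.sub_apply, Module.End.one_apply, Module.End.one_apply,
    sub_dotProduct, dotProduct_sub, h.sym]

theorem Good.pow_sym (h : Good P) (n : ℕ) (v w : D → ℝ) :
    ((1 - P) ^ n) v ⬝ᵥ w = v ⬝ᵥ ((1 - P) ^ n) w := by
  induction n generalizing v w with
  | zero => simp
  | succ n ih =>
    rw [pow_succ' _ n, Module.End.mul_apply, h.sub_sym, ih, ← Module.End.mul_apply, ← pow_succ,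
      ← pow_succ']

/-- An alternating estimate: if a linear functional is small on the powers `P ^ (i + 1)` then it is
almost the same on `(1 - P) ^ N` as on `1`. -/
theorem lin_pow (L : Module.End ℝ (D → ℝ) →ₗ[ℝ] ℝ) (b : ℝ)
    (h : ∀ i, |L (P ^ (i + 1))| ≤ b) (N : ℕ) : L 1 - 2 ^ N * b ≤ L ((1 - P) ^ N) := by
  have hb : 0 ≤ b := (abs_nonneg _).trans (h 0)
  have key : ∀ j i, |L (P ^ (i + 1) * (1 - P) ^ j)| ≤ 2 ^ j * b := by
    intro j
    induction j with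
    | zero => intro i; simpa using h i
    | succ j ih =>
      intro i
      have e1 : P ^ (i + 1) * (1 - P) ^ (j + 1) =
          P ^ (i + 1) * (1 - P) ^ j - P ^ (i + 1 + 1) * (1 - P) ^ j := by
        have hc : Commute P ((1 - P) ^ j) :=
          ((Commute.one_right P).sub_right (Commute.refl P)).pow_right j
        rw [pow_succ (1 - P) j, mul_sub, mul_one, mul_sub, ← hc.eq, ← mul_assoc, ← pow_succ]
      rw [e1, map_sub]
      have h1 := abs_sub (L (P ^ (i + 1) * (1 - P) ^ j)) (L (P ^ (i + 1 + 1) * (1 - P) ^ j))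
      have h2 := ih i
      have h3 := ih (i + 1)
      have h4 : (2 : ℝ) ^ (j + 1) = 2 ^ j * 2 := pow_succ _ _
      rw [h4]
      linarith
  have main : ∀ N : ℕ, L 1 - (2 ^ N - 1) * b ≤ L ((1 - P) ^ N) := by
    intro N
    induction N with
    | zero => simp
    | succ N ih =>
      have e1 : (1 - P) ^ (N + 1) = (1 - P) ^ N - P ^ (0 + 1) * (1 - P) ^ N := by
        rw [zero_add, pow_one, pow_succ', sub_mul, one_mul]
      rw [e1, map_sub]
      have h2 := (abs_le.mp (key N 0)).2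
      have h4 : (2 : ℝ) ^ (N + 1) = 2 ^ N * 2 := pow_succ _ _
      rw [h4]
      linarith
  have h1 := main N
  linarith

end Lin

end Pool.Agent.H818R3.Defl
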