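import Mathlib
import Pool.Agent.H818R3.DeflLin

/-!
Deflation of the pairwise semidefinite relaxation by the average projector on the seeds.
-/

set_option autoImplicit false

namespace Pool.Agent.H818R3.Defl

open Finset Pool.Agent.H562R2

section Proj

variable {U E A D : Type} [Fintype E] [Fintype A] [Fintype D]

/-- The bilinear form of the average projector. -/
noncomputable def form (s : E → U) (x : U → A → D → ℝ) (v w : D → ℝ) : ℝ :=
  (∑ e, ∑ c, (x (s e) c ⬝ᵥ v) * (x (s e) c ⬝ᵥ w) / (x (s e) c ⬝ᵥ x (s e) c)) / Fintype.card E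

/-- The average projector on the spans of the label vectors. -/
noncomputable def proj (s : E → U) (x : U → A → D → ℝ) : Module.End ℝ (D → ℝ) where
  toFun v := (Fintype.card E : ℝ)⁻¹ •
    ∑ e, ∑ c, ((x (s e) c ⬝ᵥ v) / (x (s e) c ⬝ᵥ x (s e) c)) • x (s e) c
  map_add' v w := by
    rw [← smul_add, ← Finset.sum_add_distrib]
    congr 1
    refine Finset.sum_congr rfl fun e _ => ?_
    rw [← Finset.sum_add_distrib]
    refine Finset.sum_congr rfl fun c _ => ?_
    rw [dotProduct_add, add_div, add_smul]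
  map_smul' r v := by
    rw [RingHom.id_apply, smul_comm r]
    congr 1
    rw [Finset.smul_sum]
    refine Finset.sum_congr rfl fun e _ => ?_
    rw [Finset.smul_sum]
    refine Finset.sum_congr rfl fun c _ => ?_
    rw [dotProduct_smul, smul_eq_mul, mul_div_assoc, mul_smul]

theorem proj_apply (s : E → U) (x : U → A → D → ℝ) (v : D → ℝ) :
    proj s x v = (Fintype.card E : ℝ)⁻¹ •
      ∑ e, ∑ c, ((x (s e) c ⬝ᵥ v) / (x (s e) c ⬝ᵥ x (s e) c)) • x (s e) c := rfl

theorem proj_dot (s : E → U) (x : U → A → D → ℝ) (v w : D → ℝ) :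
    proj s x v ⬝ᵥ w = form s x v w := by
  rw [proj_apply, form, smul_dotProduct, sum_dotProduct, smul_eq_mul, div_eq_inv_mul]
  congr 1
  refine Finset.sum_congr rfl fun e _ => ?_
  rw [sum_dotProduct]
  refine Finset.sum_congr rfl fun c _ => ?_
  rw [smul_dotProduct, smul_eq_mul]
  ring

theorem form_comm (s : E → U) (x : U → A → D → ℝ) (v w : D → ℝ) :
    form s x v w = form s x w v := by
  rw [form, form]
  congr 1
  refine Finset.sum_congr rfl fun e _ => Finset.sum_congr rfl fun c _ => ?_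
  ring

theorem form_self_nonneg (s : E → U) (x : U → A → D → ℝ) (v : D → ℝ) : 0 ≤ form s x v v := by
  unfold form
  refine div_nonneg (Finset.sum_nonneg fun e _ => Finset.sum_nonneg fun c _ => ?_)
    (Nat.cast_nonneg _)
  exact div_nonneg (mul_self_nonneg _) (dot_self_nonneg _)

theorem form_self_le [Nonempty E] (s : E → U) (x : U → A → D → ℝ)
    (hx : ∀ u a a', a ≠ a' → x u a ⬝ᵥ x u a' = 0) (v : D → ℝ) : form s x v v ≤ v ⬝ᵥ v := by
  have hm : (0 : ℝ) < Fintype.card E := by exact_mod_cast Fintype.card_pos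
  unfold form
  rw [div_le_iff₀ hm]
  calc ∑ e, ∑ c, (x (s e) c ⬝ᵥ v) * (x (s e) c ⬝ᵥ v) / (x (s e) c ⬝ᵥ x (s e) c)
      ≤ ∑ _e : E, v ⬝ᵥ v := by
        refine Finset.sum_le_sum fun e _ => ?_
        refine le_trans (le_of_eq ?_) (dot_bessel (x (s e)) (hx (s e)) v)
        exact Finset.sum_congr rfl fun c _ => by ring
    _ = v ⬝ᵥ v * Fintype.card E := by
        rw [Finset.sum_const, Finset.card_univ, nsmul_eq_mul, mul_comm]

theorem form_le (s : E → U) (x : U → A → D → ℝ) (v w : D → ℝ) :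
    form s x v w ≤ (form s x v v + form s x w w) / 2 := by
  unfold form
  rw [← add_div, ← Finset.sum_add_distrib, div_div, mul_comm (Fintype.card E : ℝ) 2, ← div_div]
  apply div_le_div_of_nonneg_right _ (Nat.cast_nonneg _)
  rw [Finset.sum_div]
  refine Finset.sum_le_sum fun e _ => ?_
  rw [← Finset.sum_add_distrib, Finset.sum_div]
  refine Finset.sum_le_sum fun c _ => ?_
  rw [← add_div, div_right_comm]
  apply div_le_div_of_nonneg_right _ (dot_self_nonneg _)
  nlinarith [sq_nonneg ((x (s e) c ⬝ᵥ v) - (x (s e) c ⬝ᵥ w))]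

theorem good [Nonempty E] (s : E → U) (x : U → A → D → ℝ)
    (hx : ∀ u a a', a ≠ a' → x u a ⬝ᵥ x u a' = 0) : Good (proj s x) where
  sym v w := by
    rw [proj_dot, dotProduct_comm v, proj_dot, form_comm]
  pos v := by
    rw [dotProduct_comm, proj_dot]
    exact form_self_nonneg s x v
  sq v := by
    have h1 : proj s x v ⬝ᵥ proj s x v = form s x v (proj s x v) := proj_dot s x v _
    have h2 := form_le s x v (proj s x v)
    have h3 := form_self_le s x hx (proj s x v)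
    have h4 : v ⬝ᵥ proj s x v = form s x v v := by rw [dotProduct_comm, proj_dot]
    rw [h4]
    rw [← h1] at h2
    linarith

end Proj

section Seeds

variable {U V E A B D : Type} [Fintype U] [Fintype V] [Fintype E] [Fintype A] [Fintype B]
  [DecidableEq U] [DecidableEq V] [DecidableEq A] [DecidableEq B] [Fintype D]

/-- The edge form. -/
def edgeForm (s : E → U) (t : E → V) (π : E → A → B) (x : U → A → D → ℝ) (y : V → B → D → ℝ)
    (g h : D → ℝ) : ℝ := ∑ e, ∑ a, (x (s e) a ⬝ᵥ g) * (h ⬝ᵥ y (t e) (π e a))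

/-- Bounds on the edge form for two seeds. -/
theorem edge_seed (s : E → U) (t : E → V) (π : E → A → B) {x : U → A → D → ℝ}
    {y : V → B → D → ℝ} (h : SdpFeasible x y) (bd : ℝ)
    (hbd : ∀ (L : U → A) (M : V → B),
      ((Finset.univ.filter fun e => π e (L (s e)) = M (t e)).card : ℝ) ≤ bd)
    (u v : U) (c d : A) :
    0 ≤ edgeForm s t π x y (x u c) (x v d) ∧
      edgeForm s t π x y (x u c) (x v d) ≤
        bd * (x u c ⬝ᵥ x u c) * (x v d ⬝ᵥ x v d) := by
  obtain ⟨z, hx, hy⟩ := h.left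
  obtain ⟨-, -, -, -, -, -, hxx, hxy, -⟩ := h
  refine ⟨?_, ?_⟩
  · exact Finset.sum_nonneg fun e _ => Finset.sum_nonneg fun a _ =>
      mul_nonneg (hxx _ _ _ _) (hxy _ _ _ _)
  · rcases (dot_self_nonneg (x u c)).lt_or_eq with h0 | h0
    · rcases (dot_self_nonneg (x v d)).lt_or_eq with h1 | h1
      · have hz : x u c ⬝ᵥ z = x u c ⬝ᵥ x u c := (hx u).dot_z c
        have hz' : x v d ⬝ᵥ z = x v d ⬝ᵥ x v d := (hx v).dot_z d
        obtain ⟨L, M, hLM⟩ := derand s t π (fun w a => (x u c ⬝ᵥ x w a) / (x u c ⬝ᵥ x u c))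
          (fun w b => (x v d ⬝ᵥ y w b) / (x v d ⬝ᵥ x v d))
          (fun w a => div_nonneg (hxx _ _ _ _) h0.le)
          (fun w => by rw [← Finset.sum_div, ← dotProduct_sum, (hx w).sum, hz, div_self h0.ne'])
          (fun w b => div_nonneg (hxy _ _ _ _) h1.le)
          (fun w => by rw [← Finset.sum_div, ← dotProduct_sum, (hy w).sum, hz', div_self h1.ne'])
        have h2 := hLM.trans (hbd L M)
        have h3 : edgeForm s t π x y (x u c) (x v d) =
            (∑ e, ∑ a, (x u c ⬝ᵥ x (s e) a) / (x u c ⬝ᵥ x u c) *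
              ((x v d ⬝ᵥ y (t e) (π e a)) / (x v d ⬝ᵥ x v d))) *
              ((x u c ⬝ᵥ x u c) * (x v d ⬝ᵥ x v d)) := by
          rw [edgeForm, Finset.sum_mul]
          refine Finset.sum_congr rfl fun e _ => ?_
          rw [Finset.sum_mul]
          refine Finset.sum_congr rfl fun a _ => ?_
          rw [dotProduct_comm (x (s e) a)]
          field_simp
        rw [h3, mul_assoc]
        exact mul_le_mul_of_nonneg_right h2 (mul_nonneg h0.le h1.le)
      · have h2 : edgeForm s t π x y (x u c) (x v d) = 0 := by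
          refine Finset.sum_eq_zero fun e _ => Finset.sum_eq_zero fun a _ => ?_
          rw [dot_zero_of _ (y (t e) (π e a)) h1.symm, mul_zero]
        rw [h2, ← h1, mul_zero]
    · have h2 : edgeForm s t π x y (x u c) (x v d) = 0 := by
        refine Finset.sum_eq_zero fun e _ => Finset.sum_eq_zero fun a _ => ?_
        rw [dotProduct_comm (x (s e) a), dot_zero_of _ (x (s e) a) h0.symm, zero_mul]
      rw [h2, ← h0, mul_zero, zero_mul]

theorem edgeForm_eq (s : E → U) (t : E → V) (π : E → A → B) (x : U → A → D → ℝ)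
    (y : V → B → D → ℝ) (g h : D → ℝ) :
    edgeForm s t π x y g h = (∑ e, ∑ a, (h ⬝ᵥ y (t e) (π e a)) • x (s e) a) ⬝ᵥ g := by
  rw [edgeForm, sum_dotProduct]
  refine Finset.sum_congr rfl fun e _ => ?_
  rw [sum_dotProduct]
  refine Finset.sum_congr rfl fun a _ => ?_
  rw [smul_dotProduct, smul_eq_mul, mul_comm]

theorem dot_proj (s : E → U) (x : U → A → D → ℝ) (Q : Module.End ℝ (D → ℝ)) (g w : D → ℝ) :
    w ⬝ᵥ Q (proj s x g) = (Fintype.card E : ℝ)⁻¹ *
      ∑ e, ∑ c, (x (s e) c ⬝ᵥ g) / (x (s e) c ⬝ᵥ x (s e) c) * (w ⬝ᵥ Q (x (s e) c)) := by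
  have hQ : Q (proj s x g) = (Fintype.card E : ℝ)⁻¹ •
      ∑ e, ∑ c, ((x (s e) c ⬝ᵥ g) / (x (s e) c ⬝ᵥ x (s e) c)) • Q (x (s e) c) := by
    rw [proj_apply, map_smul, map_sum]
    congr 1
    refine Finset.sum_congr rfl fun e _ => ?_
    rw [map_sum]
    exact Finset.sum_congr rfl fun c _ => by rw [map_smul]
  rw [hQ, dotProduct_smul, smul_eq_mul, dotProduct_sum]
  congr 1
  refine Finset.sum_congr rfl fun e _ => ?_
  rw [dotProduct_sum]
  refine Finset.sum_congr rfl fun c _ => ?_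
  rw [dotProduct_smul, smul_eq_mul]

theorem edgeForm_proj (s : E → U) (t : E → V) (π : E → A → B) (x : U → A → D → ℝ)
    (y : V → B → D → ℝ) (Q : Module.End ℝ (D → ℝ)) (g h : D → ℝ) :
    edgeForm s t π x y (Q (proj s x g)) h = (Fintype.card E : ℝ)⁻¹ *
      ∑ e, ∑ c, (x (s e) c ⬝ᵥ g) / (x (s e) c ⬝ᵥ x (s e) c) *
        edgeForm s t π x y (Q (x (s e) c)) h := by
  simp only [edgeForm_eq]
  rw [dot_proj]

/-- Bounds on the edge form after powers of the average projector. -/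
theorem edge_seed_pow [Nonempty E] (s : E → U) (t : E → V) (π : E → A → B) {x : U → A → D → ℝ}
    {y : V → B → D → ℝ} (h : SdpFeasible x y) (bd : ℝ)
    (hbd : ∀ (L : U → A) (M : V → B),
      ((Finset.univ.filter fun e => π e (L (s e)) = M (t e)).card : ℝ) ≤ bd)
    (v : U) (d : A) (j : ℕ) : ∀ (u : U) (c : A),
    0 ≤ edgeForm s t π x y ((proj s x ^ j) (x u c)) (x v d) ∧
      edgeForm s t π x y ((proj s x ^ j) (x u c)) (x v d) ≤
        bd * (x u c ⬝ᵥ x u c) * (x v d ⬝ᵥ x v d) := by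
  obtain ⟨z, hx, hy⟩ := h.left
  have hxx := h.choose_spec.2.2.2.2.2.1
  have hm : (0 : ℝ) < Fintype.card E := by exact_mod_cast Fintype.card_pos
  induction j with
  | zero =>
    intro u c
    simpa using edge_seed s t π h bd hbd u v c d
  | succ j ih =>
    intro u c
    rw [pow_succ, Module.End.mul_apply, edgeForm_proj]
    refine ⟨?_, ?_⟩
    · refine mul_nonneg (inv_nonneg.mpr hm.le) (Finset.sum_nonneg fun e _ =>
        Finset.sum_nonneg fun c' _ => mul_nonneg (div_nonneg (hxx _ _ _ _) (dot_self_nonneg _))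
          (ih _ _).1)
    · have hbd0 : 0 ≤ bd * (x v d ⬝ᵥ x v d) ∨ True := Or.inr trivial
      have h1 : ∀ e, ∑ c', (x (s e) c' ⬝ᵥ x u c) / (x (s e) c' ⬝ᵥ x (s e) c') *
          edgeForm s t π x y ((proj s x ^ j) (x (s e) c')) (x v d) ≤
          bd * (x u c ⬝ᵥ x u c) * (x v d ⬝ᵥ x v d) := by
        intro e
        have hz : x u c ⬝ᵥ z = x u c ⬝ᵥ x u c := (hx u).dot_z c
        calc ∑ c', (x (s e) c' ⬝ᵥ x u c) / (x (s e) c' ⬝ᵥ x (s e) c') *
              edgeForm s t π x y ((proj s x ^ j) (x (s e) c')) (x v d)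
            ≤ ∑ c', (x (s e) c' ⬝ᵥ x u c) * (bd * (x v d ⬝ᵥ x v d)) := by
              refine Finset.sum_le_sum fun c' _ => ?_
              have h2 := (ih (s e) c').2
              have h3 := hxx (s e) c' u c
              rcases (dot_self_nonneg (x (s e) c')).lt_or_eq with h0 | h0
              · have h4 : 0 ≤ (x (s e) c' ⬝ᵥ x u c) / (x (s e) c' ⬝ᵥ x (s e) c') :=
                  div_nonneg h3 h0.le
                refine (mul_le_mul_of_nonneg_left h2 h4).trans (le_of_eq ?_)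
                field_simp
              · rw [dot_zero_of _ (x u c) h0.symm]
                simp
          _ = bd * (x u c ⬝ᵥ x u c) * (x v d ⬝ᵥ x v d) := by
              rw [← Finset.sum_mul, ← sum_dotProduct, (hx _).sum, dotProduct_comm, hz]
              ring
      have h2 := Finset.sum_le_sum fun e (_ : e ∈ (Finset.univ : Finset E)) => h1 e
      rw [Finset.sum_const, Finset.card_univ, nsmul_eq_mul] at h2
      rw [inv_mul_le_iff₀ hm]
      exact h2

/-- The trace functional. -/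
noncomputable def tr (s : E → U) (t : E → V) (π : E → A → B) (x : U → A → D → ℝ)
    (y : V → B → D → ℝ) : Module.End ℝ (D → ℝ) →ₗ[ℝ] ℝ where
  toFun Q := ∑ e, ∑ a, x (s e) a ⬝ᵥ Q (y (t e) (π e a))
  map_add' Q R := by
    rw [← Finset.sum_add_distrib]
    refine Finset.sum_congr rfl fun e _ => ?_
    rw [← Finset.sum_add_distrib]
    exact Finset.sum_congr rfl fun a _ => by rw [LinearMap.add_apply, dotProduct_add]
  map_smul' r Q := by
    rw [RingHom.id_apply, smul_eq_mul, Finset.mul_sum]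
    refine Finset.sum_congr rfl fun e _ => ?_
    rw [Finset.mul_sum]
    exact Finset.sum_congr rfl fun a _ => by
      rw [LinearMap.smul_apply, dotProduct_smul, smul_eq_mul]

theorem tr_apply (s : E → U) (t : E → V) (π : E → A → B) (x : U → A → D → ℝ)
    (y : V → B → D → ℝ) (Q : Module.End ℝ (D → ℝ)) :
    tr s t π x y Q = ∑ e, ∑ a, x (s e) a ⬝ᵥ Q (y (t e) (π e a)) := rfl

theorem tr_pow [Nonempty E] (s : E → U) (t : E → V) (π : E → A → B) {x : U → A → D → ℝ}
    {y : V → B → D → ℝ} (h : SdpFeasible x y) (bd : ℝ)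
    (hbd : ∀ (L : U → A) (M : V → B),
      ((Finset.univ.filter fun e => π e (L (s e)) = M (t e)).card : ℝ) ≤ bd) (i : ℕ) :
    |tr s t π x y (proj s x ^ (i + 1))| ≤ bd := by
  obtain ⟨z, hx, hy⟩ := h.left
  have hm : (0 : ℝ) < Fintype.card E := by exact_mod_cast Fintype.card_pos
  have key : tr s t π x y (proj s x ^ (i + 1)) = (Fintype.card E : ℝ)⁻¹ *
      ∑ e1, ∑ c, edgeForm s t π x y ((proj s x ^ i) (x (s e1) c)) (x (s e1) c) /
        (x (s e1) c ⬝ᵥ x (s e1) c) := by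
    rw [tr_apply]
    have h1 : ∀ e a, x (s e) a ⬝ᵥ (proj s x ^ (i + 1)) (y (t e) (π e a)) =
        (Fintype.card E : ℝ)⁻¹ * ∑ e1, ∑ c, ((x (s e) a ⬝ᵥ (proj s x ^ i) (x (s e1) c)) *
          (x (s e1) c ⬝ᵥ y (t e) (π e a))) / (x (s e1) c ⬝ᵥ x (s e1) c) := by
      intro e a
      rw [pow_succ, Module.End.mul_apply, dot_proj]
      congr 1
      refine Finset.sum_congr rfl fun e1 _ => Finset.sum_congr rfl fun c _ => ?_
      ring
    simp only [h1]
    simp only [← Finset.mul_sum]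
    congr 1
    calc ∑ e, ∑ a, ∑ e1, ∑ c, ((x (s e) a ⬝ᵥ (proj s x ^ i) (x (s e1) c)) *
          (x (s e1) c ⬝ᵥ y (t e) (π e a))) / (x (s e1) c ⬝ᵥ x (s e1) c)
        = ∑ p : E × A, ∑ q : E × A, ((x (s p.1) p.2 ⬝ᵥ (proj s x ^ i) (x (s q.1) q.2)) *
          (x (s q.1) q.2 ⬝ᵥ y (t p.1) (π p.1 p.2))) / (x (s q.1) q.2 ⬝ᵥ x (s q.1) q.2) := by
          rw [Fintype.sum_prod_type]
          refine Finset.sum_congr rfl fun e _ => Finset.sum_congr rfl fun a _ => ?_
          rw [Fintype.sum_prod_type]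
      _ = ∑ q : E × A, ∑ p : E × A, ((x (s p.1) p.2 ⬝ᵥ (proj s x ^ i) (x (s q.1) q.2)) *
          (x (s q.1) q.2 ⬝ᵥ y (t p.1) (π p.1 p.2))) / (x (s q.1) q.2 ⬝ᵥ x (s q.1) q.2) :=
          Finset.sum_comm
      _ = _ := by
          rw [Fintype.sum_prod_type]
          refine Finset.sum_congr rfl fun e _ => Finset.sum_congr rfl fun a _ => ?_
          rw [Fintype.sum_prod_type, edgeForm, Finset.sum_div]
          refine Finset.sum_congr rfl fun e' _ => ?_
          rw [Finset.sum_div]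
  have hterm : ∀ e1 c, 0 ≤ edgeForm s t π x y ((proj s x ^ i) (x (s e1) c)) (x (s e1) c) /
        (x (s e1) c ⬝ᵥ x (s e1) c) ∧
      edgeForm s t π x y ((proj s x ^ i) (x (s e1) c)) (x (s e1) c) /
        (x (s e1) c ⬝ᵥ x (s e1) c) ≤ bd * (x (s e1) c ⬝ᵥ x (s e1) c) := by
    intro e1 c
    obtain ⟨h1, h2⟩ := edge_seed_pow s t π h bd hbd (s e1) c i (s e1) c
    refine ⟨div_nonneg h1 (dot_self_nonneg _), ?_⟩
    rcases (dot_self_nonneg (x (s e1) c)).lt_or_eq with h0 | h0
    · rw [div_le_iff₀ h0]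
      exact h2
    · rw [← h0]; simp
  rw [key, abs_of_nonneg]
  · rw [inv_mul_le_iff₀ hm]
    calc ∑ e1, ∑ c, edgeForm s t π x y ((proj s x ^ i) (x (s e1) c)) (x (s e1) c) /
        (x (s e1) c ⬝ᵥ x (s e1) c)
        ≤ ∑ e1, ∑ c, bd * (x (s e1) c ⬝ᵥ x (s e1) c) :=
          Finset.sum_le_sum fun e1 _ => Finset.sum_le_sum fun c _ => (hterm e1 c).2
      _ = Fintype.card E * bd := by
          simp only [← Finset.mul_sum, (hx _).sum_norm, mul_one]
          rw [Finset.sum_const, Finset.card_univ, nsmul_eq_mul]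
  · exact mul_nonneg (inv_nonneg.mpr hm.le) (Finset.sum_nonneg fun e1 _ =>
      Finset.sum_nonneg fun c _ => (hterm e1 c).1)

/-- Most of the objective value survives the deflation. -/
theorem tr_defl [Nonempty E] (s : E → U) (t : E → V) (π : E → A → B) {x : U → A → D → ℝ}
    {y : V → B → D → ℝ} (h : SdpFeasible x y) (bd : ℝ)
    (hbd : ∀ (L : U → A) (M : V → B),
      ((Finset.univ.filter fun e => π e (L (s e)) = M (t e)).card : ℝ) ≤ bd) (n : ℕ) :
    (∑ e, ∑ a, x (s e) a ⬝ᵥ y (t e) (π e a)) - 4 ^ n * bd ≤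
      ∑ e, ∑ a, ((1 - proj s x) ^ n) (x (s e) a) ⬝ᵥ ((1 - proj s x) ^ n) (y (t e) (π e a)) := by
  obtain ⟨z, hx, hy⟩ := h.left
  have hg := good s x (fun u => (hx u).orth)
  have h1 := lin_pow (P := proj s x) (tr s t π x y) bd (tr_pow s t π h bd hbd) (n + n)
  have h2 : tr s t π x y 1 = ∑ e, ∑ a, x (s e) a ⬝ᵥ y (t e) (π e a) := rfl
  have h3 : tr s t π x y ((1 - proj s x) ^ (n + n)) =
      ∑ e, ∑ a, ((1 - proj s x) ^ n) (x (s e) a) ⬝ᵥ ((1 - proj s x) ^ n) (y (t e) (π e a)) := by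
    rw [tr_apply]
    refine Finset.sum_congr rfl fun e _ => Finset.sum_congr rfl fun a _ => ?_
    rw [pow_add, Module.End.mul_apply, ← hg.pow_sym]
  have h4 : (2 : ℝ) ^ (n + n) = 4 ^ n := by
    rw [← two_mul, pow_mul]; norm_num
  rw [h2, h3, h4] at h1
  exact h1

end Seeds

section Features

variable {A B D : Type} [Fintype A] [Fintype B] [Fintype D]

/-- Deflated kernel. -/
noncomputable def dker (T : Module.End ℝ (D → ℝ)) (x : A → D → ℝ) (y : B → D → ℝ) : ℝ :=
  ∑ a, ∑ b, (T (x a) ⬝ᵥ T (y b)) ^ 2 / (Real.sqrt (x a ⬝ᵥ x a) * Real.sqrt (y b ⬝ᵥ y b))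

/-- Deflated features. -/
noncomputable def dfeat (T : Module.End ℝ (D → ℝ)) (x : A → D → ℝ) (i : D × D) : ℝ :=
  ∑ a, T (x a) i.1 * T (x a) i.2 / Real.sqrt (x a ⬝ᵥ x a)

theorem dfeat_dot (T : Module.End ℝ (D → ℝ)) (x : A → D → ℝ) (y : B → D → ℝ) :
    ∑ i, dfeat T x i * dfeat T y i = dker T x y := by
  unfold dfeat dker
  have h1 : ∀ i : D × D, (∑ a, T (x a) i.1 * T (x a) i.2 / Real.sqrt (x a ⬝ᵥ x a)) *
      (∑ b, T (y b) i.1 * T (y b) i.2 / Real.sqrt (y b ⬝ᵥ y b)) =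
      ∑ a, ∑ b, ((T (x a) i.1 * T (x a) i.2) * (T (y b) i.1 * T (y b) i.2)) *
        (Real.sqrt (x a ⬝ᵥ x a) * Real.sqrt (y b ⬝ᵥ y b))⁻¹ := by
    intro i
    rw [Finset.sum_mul_sum]
    refine Finset.sum_congr rfl fun a _ => Finset.sum_congr rfl fun b _ => ?_
    rw [mul_inv]; ring
  simp only [h1]
  rw [Finset.sum_comm]
  refine Finset.sum_congr rfl fun a _ => ?_
  rw [Finset.sum_comm]
  refine Finset.sum_congr rfl fun b _ => ?_
  rw [← Finset.sum_mul, dot_tensor, div_eq_mul_inv]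

/-- Weighted splitting of the deflated kernel. -/
theorem split_term (r p q α : ℝ) (hp : 0 ≤ p) (hq : 0 ≤ q) (hα : 0 < α) :
    r ^ 2 / (Real.sqrt p * Real.sqrt q) ≤ α / 2 * (r ^ 2 / p) + 1 / (2 * α) * (r ^ 2 / q) := by
  rcases hp.lt_or_eq with hp0 | hp0
  · rcases hq.lt_or_eq with hq0 | hq0
    · have h1 := Real.sq_sqrt hp
      have h2 := Real.sq_sqrt hq
      have h3 := Real.sqrt_pos.mpr hp0
      have h4 := Real.sqrt_pos.mpr hq0
      set P := Real.sqrt p
      set Q := Real.sqrt q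
      rw [← h1, ← h2]
      have h5 : α / 2 * (r ^ 2 / P ^ 2) + 1 / (2 * α) * (r ^ 2 / Q ^ 2) - r ^ 2 / (P * Q) =
          (r * (α * Q - P)) ^ 2 / (2 * α * P ^ 2 * Q ^ 2) := by
        field_simp
        ring
      have h6 : 0 ≤ (r * (α * Q - P)) ^ 2 / (2 * α * P ^ 2 * Q ^ 2) := by positivity
      linarith
    · rw [← hq0]
      simp only [Real.sqrt_zero, mul_zero, div_zero, add_zero]
      positivity
  · rw [← hp0]
    simp only [Real.sqrt_zero, zero_mul, div_zero, mul_zero, zero_add]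
    positivity

theorem dker_le (T : Module.End ℝ (D → ℝ)) (x : A → D → ℝ) (y : B → D → ℝ) (α : ℝ)
    (hα : 0 < α) : dker T x y ≤
      α / 2 * (∑ b, ∑ a, (T (x a) ⬝ᵥ T (y b)) ^ 2 / (x a ⬝ᵥ x a)) +
        1 / (2 * α) * (∑ a, ∑ b, (T (x a) ⬝ᵥ T (y b)) ^ 2 / (y b ⬝ᵥ y b)) := by
  unfold dker
  rw [Finset.sum_comm (s := (Finset.univ : Finset B)), Finset.mul_sum, Finset.mul_sum,
    ← Finset.sum_add_distrib]
  refine Finset.sum_le_sum fun a _ => ?_
  rw [Finset.mul_sum, Finset.mul_sum, ← Finset.sum_add_distrib]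
  refine Finset.sum_le_sum fun b _ => ?_
  exact split_term _ _ _ _ (dot_self_nonneg _) (dot_self_nonneg _) hα

end Features

end Pool.Agent.H818R3.Defl
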