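import Mathlib
import Pool.Agent.H818R3.Defl

/-!
The spectral threshold of the pairwise semidefinite relaxation for `d`-to-one games.
-/

set_option autoImplicit false

namespace Pool.Agent.H818R3.Defl

open Finset Pool.Agent.H562R2

section Corr

variable {U V E J : Type} [Fintype E] [Fintype J]

/-- Correlation on expanders for vectors of norm at most one. -/
theorem corr_le [Nonempty E] (s : E → U) (t : E → V) (lam : ℝ) (hlam : lam ≤ 1)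
    (hgap : HasGap s t lam)
    (Y : U → J → ℝ) (Z : V → J → ℝ) (hY : ∀ u, ∑ j, Y u j ^ 2 ≤ 1)
    (hZ : ∀ v, ∑ j, Z v j ^ 2 ≤ 1) :
    (Fintype.card E : ℝ) * ∑ e, ∑ j, Y (s e) j * Z (t e) j ≤
      (∑ e, ∑ e', ∑ j, Y (s e) j * Z (t e') j) + (1 - lam) * (Fintype.card E : ℝ) ^ 2 := by
  have hm : (0 : ℝ) < Fintype.card E := by exact_mod_cast Fintype.card_pos
  obtain ⟨m, hmdef⟩ : ∃ m : ℝ, m = Fintype.card E := ⟨_, rfl⟩
  rw [← hmdef] at hm ⊢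
  obtain ⟨yb, hyb⟩ : ∃ yb : J → ℝ, ∀ j, m * yb j = ∑ e, Y (s e) j :=
    ⟨fun j => (∑ e, Y (s e) j) / m, fun j => by field_simp⟩
  obtain ⟨zb, hzb⟩ : ∃ zb : J → ℝ, ∀ j, m * zb j = ∑ e, Z (t e) j :=
    ⟨fun j => (∑ e, Z (t e) j) / m, fun j => by field_simp⟩
  have hcard : ∀ c : ℝ, ∑ _e : E, c = m * c := by
    intro c
    rw [Finset.sum_const, Finset.card_univ, nsmul_eq_mul, hmdef]
  have h1 : ∀ j, 2 * (∑ e, Y (s e) j * Z (t e) j - m * (yb j * zb j)) ≤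
      (1 - lam) * (∑ e, Y (s e) j ^ 2 + ∑ e, Z (t e) j ^ 2) := by
    intro j
    have h2 := hgap (fun u => Y u j - yb j) (fun v => Z v j - zb j)
      (by rw [Finset.sum_sub_distrib, hcard, hyb]; ring)
      (by rw [Finset.sum_sub_distrib, hcard, hzb]; ring)
    have h3 : ∑ e, (Y (s e) j - yb j) * (Z (t e) j - zb j) =
        ∑ e, Y (s e) j * Z (t e) j - m * (yb j * zb j) := by
      have : ∀ e, (Y (s e) j - yb j) * (Z (t e) j - zb j) =
          Y (s e) j * Z (t e) j - yb j * Z (t e) j - zb j * Y (s e) j + yb j * zb j := by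
        intro e; ring
      simp only [this]
      rw [Finset.sum_add_distrib, Finset.sum_sub_distrib, Finset.sum_sub_distrib,
        ← Finset.mul_sum, ← Finset.mul_sum, hcard, ← hyb, ← hzb]
      ring
    have h4 : ∀ (W : E → ℝ) (c : ℝ), m * c = ∑ e, W e → ∑ e, (W e - c) ^ 2 ≤ ∑ e, W e ^ 2 := by
      intro W c hc
      have : ∀ e, (W e - c) ^ 2 = W e ^ 2 - 2 * c * W e + c ^ 2 := by intro e; ring
      simp only [this]
      rw [Finset.sum_add_distrib, Finset.sum_sub_distrib, ← Finset.mul_sum, hcard, ← hc]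
      nlinarith [mul_nonneg hm.le (sq_nonneg c)]
    rw [h3] at h2
    have h5 := h4 (fun e => Y (s e) j) (yb j) (hyb j)
    have h6 := h4 (fun e => Z (t e) j) (zb j) (hzb j)
    have h7 : (1 - lam) * (∑ e, (Y (s e) j - yb j) ^ 2 + ∑ e, (Z (t e) j - zb j) ^ 2) ≤
        (1 - lam) * (∑ e, Y (s e) j ^ 2 + ∑ e, Z (t e) j ^ 2) :=
      mul_le_mul_of_nonneg_left (add_le_add h5 h6) (by linarith)
    exact h2.trans h7
  have h2 := Finset.sum_le_sum fun j (_ : j ∈ (Finset.univ : Finset J)) => h1 j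
  rw [← Finset.mul_sum, Finset.sum_sub_distrib, ← Finset.mul_sum, ← Finset.mul_sum,
    Finset.sum_add_distrib] at h2
  have h3 : ∑ j, ∑ e, Y (s e) j ^ 2 ≤ m := by
    rw [Finset.sum_comm]
    calc ∑ e, ∑ j, Y (s e) j ^ 2 ≤ ∑ _e : E, (1 : ℝ) := Finset.sum_le_sum fun e _ => hY _
      _ = m := by rw [hcard, mul_one]
  have h4 : ∑ j, ∑ e, Z (t e) j ^ 2 ≤ m := by
    rw [Finset.sum_comm]
    calc ∑ e, ∑ j, Z (t e) j ^ 2 ≤ ∑ _e : E, (1 : ℝ) := Finset.sum_le_sum fun e _ => hZ _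
      _ = m := by rw [hcard, mul_one]
  have h5 : ∑ e, ∑ e', ∑ j, Y (s e) j * Z (t e') j = m * (m * ∑ j, yb j * zb j) := by
    have : ∀ e, ∑ e', ∑ j, Y (s e) j * Z (t e') j = ∑ j, Y (s e) j * (m * zb j) := by
      intro e
      rw [Finset.sum_comm]
      refine Finset.sum_congr rfl fun j _ => ?_
      rw [← Finset.mul_sum, hzb]
    simp only [this]
    rw [Finset.sum_comm, Finset.mul_sum, Finset.mul_sum]
    refine Finset.sum_congr rfl fun j _ => ?_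
    rw [← Finset.sum_mul, ← hyb]
    ring
  have h6 : ∑ e, ∑ j, Y (s e) j * Z (t e) j = ∑ j, ∑ e, Y (s e) j * Z (t e) j :=
    Finset.sum_comm
  rw [h5, h6]
  have h7 : (1 - lam) * (∑ j, ∑ e, Y (s e) j ^ 2 + ∑ j, ∑ e, Z (t e) j ^ 2) ≤
      (1 - lam) * (m + m) := mul_le_mul_of_nonneg_left (add_le_add h3 h4) (by linarith)
  have h8 : ∑ j, ∑ e, Y (s e) j * Z (t e) j ≤ m * ∑ j, yb j * zb j + (1 - lam) * m := by
    linarith
  calc m * ∑ j, ∑ e, Y (s e) j * Z (t e) j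
      ≤ m * (m * ∑ j, yb j * zb j + (1 - lam) * m) := mul_le_mul_of_nonneg_left h8 hm.le
    _ = _ := by ring

end Corr

section Bound

variable {A B D : Type} [Fintype A] [Fintype B] [Fintype D]

/-- Bessel bound for one side of the deflated kernel. -/
theorem left_sum (T : Module.End ℝ (D → ℝ)) (hsym : ∀ v w, T v ⬝ᵥ w = v ⬝ᵥ T w)
    (hcon : ∀ v, T v ⬝ᵥ T v ≤ v ⬝ᵥ v) (x : A → D → ℝ)
    (hx : ∀ a a', a ≠ a' → x a ⬝ᵥ x a' = 0) (w : D → ℝ) :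
    ∑ a, (T (x a) ⬝ᵥ T w) ^ 2 / (x a ⬝ᵥ x a) ≤ w ⬝ᵥ w := by
  calc ∑ a, (T (x a) ⬝ᵥ T w) ^ 2 / (x a ⬝ᵥ x a)
      = ∑ a, (x a ⬝ᵥ T (T w)) ^ 2 / (x a ⬝ᵥ x a) :=
        Finset.sum_congr rfl fun a _ => by rw [hsym]
    _ ≤ T (T w) ⬝ᵥ T (T w) := dot_bessel x hx _
    _ ≤ T w ⬝ᵥ T w := hcon _
    _ ≤ w ⬝ᵥ w := hcon _

theorem dfeat_norm (T : Module.End ℝ (D → ℝ)) (hsym : ∀ v w, T v ⬝ᵥ w = v ⬝ᵥ T w)
    (hcon : ∀ v, T v ⬝ᵥ T v ≤ v ⬝ᵥ v) {z : D → ℝ} {x : A → D → ℝ} (hx : Fam z x) :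
    ∑ i, dfeat T x i ^ 2 ≤ 1 := by
  have h1 : ∑ i, dfeat T x i ^ 2 = dker T x x := by
    rw [← dfeat_dot]
    exact Finset.sum_congr rfl fun i _ => by ring
  have h2 := dker_le T x x 1 one_pos
  have h3 : ∑ b, ∑ a, (T (x a) ⬝ᵥ T (x b)) ^ 2 / (x a ⬝ᵥ x a) ≤ 1 := by
    rw [← hx.sum_norm]
    exact Finset.sum_le_sum fun b _ => left_sum T hsym hcon x hx.orth (x b)
  have h4 : ∑ a, ∑ b, (T (x a) ⬝ᵥ T (x b)) ^ 2 / (x b ⬝ᵥ x b) ≤ 1 := by
    refine le_trans (le_of_eq ?_) h3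
    refine Finset.sum_congr rfl fun a _ => Finset.sum_congr rfl fun b _ => ?_
    rw [dotProduct_comm]
  rw [h1]
  linarith

/-- Edge estimate for the deflated kernel. -/
theorem dker_edge [DecidableEq B] (T : Module.End ℝ (D → ℝ)) {z : D → ℝ} {x : A → D → ℝ}
    {y : B → D → ℝ}
    (hx : Fam z x) (hy : Fam z y) (π : A → B) (d : ℕ)
    (hfib : ∀ b, (Finset.univ.filter fun a => π a = b).card ≤ d) :
    (∑ a, T (x a) ⬝ᵥ T (y (π a))) ^ 2 ≤ Real.sqrt d * dker T x y := by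
  have hz0 : ∀ v : D → ℝ, v ⬝ᵥ v = 0 → v = 0 := by
    intro v hv
    exact dotProduct_self_eq_zero.mp hv
  have h1 := Finset.sum_sq_le_sum_mul_sum_of_sq_le_mul (Finset.univ : Finset A)
    (r := fun a => T (x a) ⬝ᵥ T (y (π a)))
    (f := fun a => Real.sqrt (x a ⬝ᵥ x a) * Real.sqrt (y (π a) ⬝ᵥ y (π a)))
    (g := fun a => (T (x a) ⬝ᵥ T (y (π a))) ^ 2 /
      (Real.sqrt (x a ⬝ᵥ x a) * Real.sqrt (y (π a) ⬝ᵥ y (π a))))
    (fun a _ => by positivity)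
    (fun a _ => by positivity)
    (fun a _ => by
      by_cases h : Real.sqrt (x a ⬝ᵥ x a) * Real.sqrt (y (π a) ⬝ᵥ y (π a)) = 0
      · rw [h, zero_mul]
        rcases mul_eq_zero.mp h with h' | h'
        · rw [Real.sqrt_eq_zero (dot_self_nonneg _)] at h'
          rw [hz0 _ h', map_zero, zero_dotProduct]; simp
        · rw [Real.sqrt_eq_zero (dot_self_nonneg _)] at h'
          rw [hz0 _ h', map_zero, dotProduct_zero]; simp
      · rw [mul_div_assoc', mul_div_cancel_left₀ _ h])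
  have h2 : ∑ a, Real.sqrt (x a ⬝ᵥ x a) * Real.sqrt (y (π a) ⬝ᵥ y (π a)) ≤ Real.sqrt d := by
    have h3 := Real.sum_sqrt_mul_sqrt_le (Finset.univ : Finset A)
      (f := fun a => x a ⬝ᵥ x a) (g := fun a => y (π a) ⬝ᵥ y (π a))
      (fun a => dot_self_nonneg _) (fun a => dot_self_nonneg _)
    have h4 : ∑ a, y (π a) ⬝ᵥ y (π a) ≤ d := by
      calc ∑ a, y (π a) ⬝ᵥ y (π a)
          = ∑ b, ∑ a ∈ Finset.univ.filter (fun a => π a = b), y (π a) ⬝ᵥ y (π a) :=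
            (Finset.sum_fiberwise _ _ _).symm
        _ = ∑ b, ((Finset.univ.filter fun a => π a = b).card : ℝ) * (y b ⬝ᵥ y b) := by
            refine Finset.sum_congr rfl fun b _ => ?_
            rw [← nsmul_eq_mul, ← Finset.sum_const]
            refine Finset.sum_congr rfl fun a ha => ?_
            rw [(Finset.mem_filter.mp ha).2]
        _ ≤ ∑ b, (d : ℝ) * (y b ⬝ᵥ y b) := by
            refine Finset.sum_le_sum fun b _ => ?_
            exact mul_le_mul_of_nonneg_right (by exact_mod_cast hfib b) (dot_self_nonneg _)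
        _ = d := by rw [← Finset.mul_sum, hy.sum_norm, mul_one]
    refine h3.trans ?_
    rw [hx.sum_norm, Real.sqrt_one, one_mul]
    exact Real.sqrt_le_sqrt h4
  have h4 : ∑ a, (T (x a) ⬝ᵥ T (y (π a))) ^ 2 /
      (Real.sqrt (x a ⬝ᵥ x a) * Real.sqrt (y (π a) ⬝ᵥ y (π a))) ≤ dker T x y := by
    unfold dker
    refine Finset.sum_le_sum fun a _ => ?_
    exact Finset.single_le_sum (f := fun b => (T (x a) ⬝ᵥ T (y b)) ^ 2 /
      (Real.sqrt (x a ⬝ᵥ x a) * Real.sqrt (y b ⬝ᵥ y b))) (fun b _ => by positivity)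
      (Finset.mem_univ (π a))
  have h5 : 0 ≤ ∑ a, (T (x a) ⬝ᵥ T (y (π a))) ^ 2 /
      (Real.sqrt (x a ⬝ᵥ x a) * Real.sqrt (y (π a) ⬝ᵥ y (π a))) :=
    Finset.sum_nonneg fun a _ => by positivity
  calc (∑ a, T (x a) ⬝ᵥ T (y (π a))) ^ 2 ≤ _ := h1
    _ ≤ Real.sqrt d * ∑ a, (T (x a) ⬝ᵥ T (y (π a))) ^ 2 /
      (Real.sqrt (x a ⬝ᵥ x a) * Real.sqrt (y (π a) ⬝ᵥ y (π a))) :=
        mul_le_mul_of_nonneg_right h2 h5
    _ ≤ Real.sqrt d * dker T x y := mul_le_mul_of_nonneg_left h4 (Real.sqrt_nonneg _)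

end Bound

section Main

variable {U V E A B D : Type} [Fintype U] [Fintype V] [Fintype E] [Fintype A] [Fintype B]
  [DecidableEq U] [DecidableEq V] [DecidableEq A] [DecidableEq B] [Fintype D]

/-- The deflated kernel is small on average over independent pairs of edges. -/
theorem dker_global [Nonempty E] (s : E → U) (t : E → V) {x : U → A → D → ℝ}
    {y : V → B → D → ℝ} (h : SdpFeasible x y) (n : ℕ) :
    ∑ e, ∑ e', dker ((1 - proj s x) ^ n) (x (s e)) (y (t e')) ≤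
      (Fintype.card E : ℝ) ^ 2 / Real.sqrt (2 * n + 1) := by
  obtain ⟨z, hx, hy⟩ := h.left
  have hg := good s x (fun u => (hx u).orth)
  have hm : (0 : ℝ) < Fintype.card E := by exact_mod_cast Fintype.card_pos
  obtain ⟨m, hmdef⟩ : ∃ m : ℝ, m = Fintype.card E := ⟨_, rfl⟩
  have hN : (0 : ℝ) < 2 * n + 1 := by positivity
  obtain ⟨α, hα⟩ : ∃ α : ℝ, α = Real.sqrt (2 * n + 1) := ⟨_, rfl⟩
  have hα0 : 0 < α := hα ▸ Real.sqrt_pos.mpr hN
  have hα2 : α ^ 2 = 2 * n + 1 := hα ▸ Real.sq_sqrt hN.le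
  obtain ⟨T, hT⟩ : ∃ T, T = (1 - proj s x) ^ n := ⟨_, rfl⟩
  have hsym : ∀ v w, T v ⬝ᵥ w = v ⬝ᵥ T w := by rw [hT]; exact hg.pow_sym n
  have hcon : ∀ v, T v ⬝ᵥ T v ≤ v ⬝ᵥ v := by rw [hT]; exact fun v => hg.pow_norm v n
  rw [← hT, ← hα, ← hmdef]
  rw [← hmdef] at hm
  have h1 : ∑ e, ∑ e', ∑ b, ∑ a, (T (x (s e) a) ⬝ᵥ T (y (t e') b)) ^ 2 /
      (x (s e) a ⬝ᵥ x (s e) a) ≤ m ^ 2 / (2 * n + 1) := by
    rw [Finset.sum_comm]
    have h2 : ∀ w : D → ℝ, ∑ e, ∑ a, (T (x (s e) a) ⬝ᵥ T w) ^ 2 / (x (s e) a ⬝ᵥ x (s e) a) ≤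
        m * ((w ⬝ᵥ w) / (2 * n + 1)) := by
      intro w
      have h3 := hg.pow_quad w (n + n)
      rw [dotProduct_comm, proj_dot, form, ← hmdef, div_le_iff₀ hm, mul_comm _ m] at h3
      have h4 : ((1 - proj s x) ^ (n + n)) w = T (T w) := by
        rw [pow_add, Module.End.mul_apply, hT]
      rw [h4] at h3
      have h5 : ((n + n : ℕ) : ℝ) + 1 = 2 * n + 1 := by push_cast; ring
      rw [h5] at h3
      refine le_trans (le_of_eq ?_) h3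
      refine Finset.sum_congr rfl fun e _ => Finset.sum_congr rfl fun a _ => ?_
      rw [hsym, sq]
    calc ∑ e', ∑ e, ∑ b, ∑ a, (T (x (s e) a) ⬝ᵥ T (y (t e') b)) ^ 2 /
          (x (s e) a ⬝ᵥ x (s e) a)
        = ∑ e', ∑ b, ∑ e, ∑ a, (T (x (s e) a) ⬝ᵥ T (y (t e') b)) ^ 2 /
          (x (s e) a ⬝ᵥ x (s e) a) :=
          Finset.sum_congr rfl fun e' _ => Finset.sum_comm
      _ ≤ ∑ e', ∑ b, m * ((y (t e') b ⬝ᵥ y (t e') b) / (2 * n + 1)) :=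
          Finset.sum_le_sum fun e' _ => Finset.sum_le_sum fun b _ => h2 _
      _ = m ^ 2 / (2 * n + 1) := by
          have : ∀ e', ∑ b, m * ((y (t e') b ⬝ᵥ y (t e') b) / (2 * n + 1)) =
              m / (2 * n + 1) := by
            intro e'
            rw [← Finset.mul_sum, ← Finset.sum_div, (hy _).sum_norm]
            ring
          simp only [this]
          rw [Finset.sum_const, Finset.card_univ, nsmul_eq_mul, ← hmdef]
          ring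
  have h2 : ∑ e, ∑ e', ∑ a, ∑ b, (T (x (s e) a) ⬝ᵥ T (y (t e') b)) ^ 2 /
      (y (t e') b ⬝ᵥ y (t e') b) ≤ m ^ 2 := by
    calc ∑ e, ∑ e', ∑ a, ∑ b, (T (x (s e) a) ⬝ᵥ T (y (t e') b)) ^ 2 /
          (y (t e') b ⬝ᵥ y (t e') b)
        ≤ ∑ e, ∑ e' : E, ∑ a, x (s e) a ⬝ᵥ x (s e) a := by
          refine Finset.sum_le_sum fun e _ => Finset.sum_le_sum fun e' _ =>
            Finset.sum_le_sum fun a _ => ?_
          refine le_trans (le_of_eq ?_)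
            (left_sum T hsym hcon (y (t e')) (hy (t e')).orth (x (s e) a))
          exact Finset.sum_congr rfl fun b _ => by rw [dotProduct_comm]
      _ = m ^ 2 := by
          simp only [(hx _).sum_norm]
          rw [Finset.sum_const, Finset.card_univ, nsmul_eq_mul, Finset.sum_const,
            Finset.card_univ, nsmul_eq_mul, ← hmdef]
          ring
  calc ∑ e, ∑ e', dker T (x (s e)) (y (t e'))
      ≤ ∑ e, ∑ e', (α / 2 * (∑ b, ∑ a, (T (x (s e) a) ⬝ᵥ T (y (t e') b)) ^ 2 /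
          (x (s e) a ⬝ᵥ x (s e) a)) +
        1 / (2 * α) * (∑ a, ∑ b, (T (x (s e) a) ⬝ᵥ T (y (t e') b)) ^ 2 /
          (y (t e') b ⬝ᵥ y (t e') b))) :=
        Finset.sum_le_sum fun e _ => Finset.sum_le_sum fun e' _ => dker_le T _ _ α hα0
    _ = α / 2 * (∑ e, ∑ e', ∑ b, ∑ a, (T (x (s e) a) ⬝ᵥ T (y (t e') b)) ^ 2 /
          (x (s e) a ⬝ᵥ x (s e) a)) +
        1 / (2 * α) * (∑ e, ∑ e', ∑ a, ∑ b, (T (x (s e) a) ⬝ᵥ T (y (t e') b)) ^ 2 /
          (y (t e') b ⬝ᵥ y (t e') b)) := by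
        simp only [Finset.sum_add_distrib, Finset.mul_sum]
    _ ≤ α / 2 * (m ^ 2 / (2 * n + 1)) + 1 / (2 * α) * m ^ 2 :=
        add_le_add (mul_le_mul_of_nonneg_left h1 (by positivity))
          (mul_le_mul_of_nonneg_left h2 (by positivity))
    _ = m ^ 2 / α := by
        rw [← hα2]
        field_simp
        ring

/-- Main inequality. -/
theorem main_ineq [Nonempty E] (s : E → U) (t : E → V) (π : E → A → B) (d : ℕ)
    (hfib : ∀ e b, (Finset.univ.filter fun a => π e a = b).card ≤ d) (lam ε δ : ℝ)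
    (hlam1 : lam ≤ 1) (hgap : HasGap s t lam) {x : U → A → D → ℝ} {y : V → B → D → ℝ}
    (h : SdpFeasible x y)
    (hval : (1 - ε) * Fintype.card E ≤ ∑ e, ∑ a, x (s e) a ⬝ᵥ y (t e) (π e a))
    (hbd : ∀ (L : U → A) (M : V → B),
      ((Finset.univ.filter fun e => π e (L (s e)) = M (t e)).card : ℝ) ≤ δ * Fintype.card E)
    (n : ℕ) (hn : 4 ^ n * δ ≤ 1 - ε) :
    (1 - ε - 4 ^ n * δ) ^ 2 ≤ Real.sqrt d * (1 / Real.sqrt (2 * n + 1) + (1 - lam)) := by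
  obtain ⟨z, hx, hy⟩ := h.left
  have hg := good s x (fun u => (hx u).orth)
  have hm : (0 : ℝ) < Fintype.card E := by exact_mod_cast Fintype.card_pos
  have htr := tr_defl s t π h _ hbd n
  have hglob := dker_global s t h n
  obtain ⟨m, hmdef⟩ : ∃ m : ℝ, m = Fintype.card E := ⟨_, rfl⟩
  obtain ⟨T, hT⟩ : ∃ T, T = (1 - proj s x) ^ n := ⟨_, rfl⟩
  have hsym : ∀ v w, T v ⬝ᵥ w = v ⬝ᵥ T w := by rw [hT]; exact hg.pow_sym n
  have hcon : ∀ v, T v ⬝ᵥ T v ≤ v ⬝ᵥ v := by rw [hT]; exact fun v => hg.pow_norm v n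
  have hcorr := corr_le s t lam hlam1 hgap (fun u => dfeat T (x u)) (fun v => dfeat T (y v))
    (fun u => dfeat_norm T hsym hcon (hx u)) (fun v => dfeat_norm T hsym hcon (hy v))
  simp only [dfeat_dot] at hcorr
  rw [← hT] at htr hglob
  rw [← hmdef] at hm htr hglob hcorr hval
  obtain ⟨σ, hσ⟩ : ∃ σ : E → ℝ, ∀ e, σ e = ∑ a, T (x (s e) a) ⬝ᵥ T (y (t e) (π e a)) :=
    ⟨_, fun _ => rfl⟩
  simp only [← hσ] at htr
  have h1 : m * (1 - ε - 4 ^ n * δ) ≤ ∑ e, σ e := by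
    have : 4 ^ n * (δ * m) = m * (4 ^ n * δ) := by ring
    rw [this] at htr
    linarith
  have h2 : (∑ e, σ e) ^ 2 ≤ m * ∑ e, σ e ^ 2 := by
    have := sq_sum_le_card_mul_sum_sq (s := (Finset.univ : Finset E)) (f := σ)
    rw [Finset.card_univ, ← hmdef] at this
    exact this
  have h3 : ∑ e, σ e ^ 2 ≤ Real.sqrt d * ∑ e, dker T (x (s e)) (y (t e)) := by
    rw [Finset.mul_sum]
    refine Finset.sum_le_sum fun e _ => ?_
    rw [hσ]
    exact dker_edge T (hx _) (hy _) (π e) d (hfib e)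
  have h4 : (m * (1 - ε - 4 ^ n * δ)) ^ 2 ≤ (∑ e, σ e) ^ 2 :=
    pow_le_pow_left₀ (mul_nonneg hm.le (by linarith)) h1 2
  have h5 : m ^ 2 * (1 - ε - 4 ^ n * δ) ^ 2 ≤
      m ^ 2 * (Real.sqrt d * (1 / Real.sqrt (2 * n + 1) + (1 - lam))) := by
    calc m ^ 2 * (1 - ε - 4 ^ n * δ) ^ 2 = (m * (1 - ε - 4 ^ n * δ)) ^ 2 := by ring
      _ ≤ (∑ e, σ e) ^ 2 := h4
      _ ≤ m * ∑ e, σ e ^ 2 := h2
      _ ≤ m * (Real.sqrt d * ∑ e, dker T (x (s e)) (y (t e))) :=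
          mul_le_mul_of_nonneg_left h3 hm.le
      _ = Real.sqrt d * (m * ∑ e, dker T (x (s e)) (y (t e))) := by ring
      _ ≤ Real.sqrt d * (m ^ 2 / Real.sqrt (2 * n + 1) + (1 - lam) * m ^ 2) :=
          mul_le_mul_of_nonneg_left (hcorr.trans (add_le_add_left hglob _)) (Real.sqrt_nonneg _)
      _ = _ := by ring
  exact le_of_mul_le_mul_left h5 (by positivity)

/-- Explicit lower bound on the value above the spectral threshold. -/
theorem value_ge [Nonempty E] (s : E → U) (t : E → V) (π : E → A → B) (d : ℕ) (hd : 1 ≤ d)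
    (hfib : ∀ e b, (Finset.univ.filter fun a => π e a = b).card ≤ d) (lam ε Δ : ℝ)
    (hlam1 : lam ≤ 1) (hgap : HasGap s t lam) {x : U → A → D → ℝ} {y : V → B → D → ℝ}
    (h : SdpFeasible x y) (hε0 : 0 ≤ ε) (hε1 : ε ≤ 1) (hΔ : 0 < Δ)
    (hth : Real.sqrt d * (1 - lam + Δ) ≤ (1 - ε) ^ 2)
    (hval : (1 - ε) * Fintype.card E ≤ ∑ e, ∑ a, x (s e) a ⬝ᵥ y (t e) (π e a)) :
    ∃ (L : U → A) (M : V → B), Δ * (16 : ℝ) ^ (-(1 + 1 / Δ ^ 2)) * Fintype.card E ≤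
      ((Finset.univ.filter fun e => π e (L (s e)) = M (t e)).card : ℝ) := by
  by_contra hcon
  push Not at hcon
  obtain ⟨n, hn⟩ : ∃ n : ℕ, n = ⌈2 / Δ ^ 2⌉₊ := ⟨_, rfl⟩
  obtain ⟨δ, hδ⟩ : ∃ δ : ℝ, δ = Δ * (16 : ℝ) ^ (-(1 + 1 / Δ ^ 2)) := ⟨_, rfl⟩
  have hd1 : 1 ≤ Real.sqrt d := by
    rw [Real.one_le_sqrt]
    exact_mod_cast hd
  have hnle : 2 / Δ ^ 2 ≤ n := hn ▸ Nat.le_ceil _
  have hnlt : (n : ℝ) < 2 / Δ ^ 2 + 1 := hn ▸ Nat.ceil_lt_add_one (by positivity)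
  have hs : 1 / Real.sqrt (2 * n + 1) ≤ Δ / 2 := by
    rw [div_le_div_iff₀ (Real.sqrt_pos.mpr (by positivity)) two_pos, one_mul]
    have h1 : (2 : ℝ) ≤ Δ * Real.sqrt (2 * n + 1) := by
      have h2 : Δ * Real.sqrt (2 * n + 1) = Real.sqrt (Δ ^ 2 * (2 * n + 1)) := by
        rw [Real.sqrt_mul (sq_nonneg Δ), Real.sqrt_sq hΔ.le]
      rw [h2]
      apply Real.le_sqrt_of_sq_le
      have h3 : 2 ≤ n * Δ ^ 2 := by
        rwa [div_le_iff₀ (by positivity)] at hnle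
      nlinarith [sq_nonneg Δ]
    exact h1
  have h4n : 4 ^ n * δ < Δ / 4 := by
    have h1 : (4 : ℝ) ^ n = (16 : ℝ) ^ ((n : ℝ) / 2) := by
      rw [← Real.rpow_natCast, show (16 : ℝ) = 4 ^ (2 : ℝ) by norm_num, ← Real.rpow_mul (by norm_num)]
      congr 1
      ring
    have h2 : (4 : ℝ) ^ n * δ = Δ * (16 : ℝ) ^ ((n : ℝ) / 2 + -(1 + 1 / Δ ^ 2)) := by
      rw [hδ, h1, Real.rpow_add (by norm_num)]
      ring
    have h3 : (n : ℝ) / 2 + -(1 + 1 / Δ ^ 2) < -(1 / 2) := by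
      have : (2 / Δ ^ 2 : ℝ) = 2 * (1 / Δ ^ 2) := by ring
      rw [this] at hnlt
      linarith
    have h4 : (16 : ℝ) ^ ((n : ℝ) / 2 + -(1 + 1 / Δ ^ 2)) < (16 : ℝ) ^ (-(1 / 2) : ℝ) :=
      Real.rpow_lt_rpow_of_exponent_lt (by norm_num) h3
    have h5 : (16 : ℝ) ^ (-(1 / 2) : ℝ) = 1 / 4 := by
      rw [Real.rpow_neg (by norm_num), show (16 : ℝ) = 4 ^ (2 : ℝ) by norm_num,
        ← Real.rpow_mul (by norm_num)]
      norm_num
    rw [h2]
    rw [h5] at h4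
    nlinarith
  have hδ0 : 0 < δ := by rw [hδ]; positivity
  have h4n0 : 0 < 4 ^ n * δ := by positivity
  have h1ε : Δ ≤ (1 - ε) ^ 2 := by
    have : 0 ≤ 1 - lam := by linarith
    nlinarith
  have h1ε' : Δ ≤ 1 - ε := by nlinarith
  have hmain := main_ineq s t π d hfib lam ε δ hlam1 hgap h hval
    (fun L M => by rw [hδ]; exact (hcon L M).le) n (by linarith)
  have h6 : Real.sqrt d * (1 / Real.sqrt (2 * n + 1) + (1 - lam)) ≤
      Real.sqrt d * (Δ / 2 + (1 - lam)) :=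
    mul_le_mul_of_nonneg_left (by linarith) (Real.sqrt_nonneg _)
  have h7 : (1 - ε) ^ 2 - Δ / 2 < (1 - ε - 4 ^ n * δ) ^ 2 := by
    nlinarith [sq_nonneg (4 ^ n * δ)]
  nlinarith

end Main

end Pool.Agent.H818R3.Defl
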