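import Mathlib
import Pool.Agent.H818R3.DeflMain

/-!
Deflation of the pairwise semidefinite relaxation by the seeds of both sides.
-/

set_option autoImplicit false

namespace Pool.Agent.H818R3.Defl

open Finset Pool.Agent.H562R2

section Abs

variable {K D : Type} [Fintype K] [Fintype D]

/-- Weighted sum of the projectors onto the lines of the vectors `w k`. -/
noncomputable def pk (c : ℝ) (w : K → D → ℝ) : Module.End ℝ (D → ℝ) where
  toFun v := c • ∑ k, ((w k ⬝ᵥ v) / (w k ⬝ᵥ w k)) • w k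
  map_add' v v' := by
    rw [← smul_add, ← Finset.sum_add_distrib]
    congr 1
    refine Finset.sum_congr rfl fun k _ => ?_
    rw [dotProduct_add, add_div, add_smul]
  map_smul' r v := by
    rw [RingHom.id_apply, smul_comm r]
    congr 1
    rw [Finset.smul_sum]
    refine Finset.sum_congr rfl fun k _ => ?_
    rw [dotProduct_smul, smul_eq_mul, mul_div_assoc, mul_smul]

theorem pk_apply (c : ℝ) (w : K → D → ℝ) (v : D → ℝ) :
    pk c w v = c • ∑ k, ((w k ⬝ᵥ v) / (w k ⬝ᵥ w k)) • w k := rfl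

theorem pk_dot (c : ℝ) (w : K → D → ℝ) (v v' : D → ℝ) :
    pk c w v ⬝ᵥ v' = c * ∑ k, (w k ⬝ᵥ v) * (w k ⬝ᵥ v') / (w k ⬝ᵥ w k) := by
  rw [pk_apply, smul_dotProduct, sum_dotProduct, smul_eq_mul]
  congr 1
  refine Finset.sum_congr rfl fun k _ => ?_
  rw [smul_dotProduct, smul_eq_mul]
  ring

theorem dot_pk (c : ℝ) (w : K → D → ℝ) (Q : Module.End ℝ (D → ℝ)) (g v : D → ℝ) :
    v ⬝ᵥ Q (pk c w g) = c * ∑ k, (w k ⬝ᵥ g) / (w k ⬝ᵥ w k) * (v ⬝ᵥ Q (w k)) := by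
  rw [pk_apply, map_smul, map_sum, dotProduct_smul, smul_eq_mul, dotProduct_sum]
  congr 1
  refine Finset.sum_congr rfl fun k _ => ?_
  rw [map_smul, dotProduct_smul, smul_eq_mul]

theorem pk_good (c : ℝ) (hc : 0 ≤ c) (w : K → D → ℝ)
    (h4 : ∀ v, c * ∑ k, (w k ⬝ᵥ v) ^ 2 / (w k ⬝ᵥ w k) ≤ v ⬝ᵥ v) : Good (pk c w) where
  sym v v' := by
    rw [pk_dot, dotProduct_comm v, pk_dot]
    congr 1
    refine Finset.sum_congr rfl fun k _ => ?_
    ring
  pos v := by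
    rw [dotProduct_comm, pk_dot]
    exact mul_nonneg hc (Finset.sum_nonneg fun k _ =>
      div_nonneg (mul_self_nonneg _) (dot_self_nonneg _))
  sq v := by
    have h1 : pk c w v ⬝ᵥ pk c w v ≤ (v ⬝ᵥ pk c w v + pk c w v ⬝ᵥ pk c w v) / 2 := by
      obtain ⟨u, hu⟩ : ∃ u, u = pk c w v := ⟨_, rfl⟩
      have e1 : pk c w v ⬝ᵥ u = c * ∑ k, (w k ⬝ᵥ v) * (w k ⬝ᵥ u) / (w k ⬝ᵥ w k) :=
        pk_dot c w v u
      have e2 : v ⬝ᵥ pk c w v = c * ∑ k, (w k ⬝ᵥ v) ^ 2 / (w k ⬝ᵥ w k) := by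
        rw [dotProduct_comm, pk_dot]
        congr 1
        refine Finset.sum_congr rfl fun k _ => ?_
        rw [sq]
      have e3 := h4 u
      have e4 : c * ∑ k, (w k ⬝ᵥ v) * (w k ⬝ᵥ u) / (w k ⬝ᵥ w k) ≤
          (c * ∑ k, (w k ⬝ᵥ v) ^ 2 / (w k ⬝ᵥ w k) +
            c * ∑ k, (w k ⬝ᵥ u) ^ 2 / (w k ⬝ᵥ w k)) / 2 := by
        rw [← mul_add, mul_div_assoc]
        apply mul_le_mul_of_nonneg_left _ hc
        rw [← Finset.sum_add_distrib, Finset.sum_div]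
        refine Finset.sum_le_sum fun k _ => ?_
        rw [← add_div, div_right_comm]
        apply div_le_div_of_nonneg_right _ (dot_self_nonneg _)
        nlinarith [sq_nonneg ((w k ⬝ᵥ v) - (w k ⬝ᵥ u))]
      have e5 : pk c w v ⬝ᵥ u ≤ (v ⬝ᵥ pk c w v + u ⬝ᵥ u) / 2 := by
        rw [e1, e2]
        linarith
      rw [hu] at e5
      exact e5
    linarith

variable {I : Type} [Fintype I]

/-- The trace functional of a family of pairs of vectors. -/
noncomputable def trk (p q : I → D → ℝ) : Module.End ℝ (D → ℝ) →ₗ[ℝ] ℝ where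
  toFun Q := ∑ i, p i ⬝ᵥ Q (q i)
  map_add' Q R := by
    rw [← Finset.sum_add_distrib]
    exact Finset.sum_congr rfl fun i _ => by rw [LinearMap.add_apply, dotProduct_add]
  map_smul' r Q := by
    rw [RingHom.id_apply, smul_eq_mul, Finset.mul_sum]
    exact Finset.sum_congr rfl fun i _ => by
      rw [LinearMap.smul_apply, dotProduct_smul, smul_eq_mul]

theorem trk_apply (p q : I → D → ℝ) (Q : Module.End ℝ (D → ℝ)) :
    trk p q Q = ∑ i, p i ⬝ᵥ Q (q i) := rfl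

/-- The bilinear form of a family of pairs of vectors. -/
def bil (p q : I → D → ℝ) (g h : D → ℝ) : ℝ := ∑ i, (p i ⬝ᵥ g) * (h ⬝ᵥ q i)

theorem bil_eq (p q : I → D → ℝ) (g h : D → ℝ) :
    bil p q g h = (∑ i, (h ⬝ᵥ q i) • p i) ⬝ᵥ g := by
  rw [bil, sum_dotProduct]
  refine Finset.sum_congr rfl fun i _ => ?_
  rw [smul_dotProduct, smul_eq_mul, mul_comm]

theorem bil_pk (p q : I → D → ℝ) (c : ℝ) (w : K → D → ℝ) (Q : Module.End ℝ (D → ℝ))
    (g h : D → ℝ) : bil p q (Q (pk c w g)) h =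
      c * ∑ k, (w k ⬝ᵥ g) / (w k ⬝ᵥ w k) * bil p q (Q (w k)) h := by
  simp only [bil_eq]
  rw [dot_pk]

theorem bil_pow (p q : I → D → ℝ) (c : ℝ) (hc : 0 ≤ c) (w : K → D → ℝ)
    (h1 : ∀ k l, 0 ≤ w k ⬝ᵥ w l) (h2 : ∀ l, c * ∑ k, w k ⬝ᵥ w l = w l ⬝ᵥ w l) (bd : ℝ)
    (hb : ∀ k l, 0 ≤ bil p q (w k) (w l) ∧
      bil p q (w k) (w l) ≤ bd * (w k ⬝ᵥ w k) * (w l ⬝ᵥ w l)) (l : K) (j : ℕ) :
    ∀ k, 0 ≤ bil p q ((pk c w ^ j) (w k)) (w l) ∧
      bil p q ((pk c w ^ j) (w k)) (w l) ≤ bd * (w k ⬝ᵥ w k) * (w l ⬝ᵥ w l) := by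
  induction j with
  | zero =>
    intro k
    simpa using hb k l
  | succ j ih =>
    intro k
    rw [pow_succ, Module.End.mul_apply, bil_pk]
    refine ⟨?_, ?_⟩
    · exact mul_nonneg hc (Finset.sum_nonneg fun i _ =>
        mul_nonneg (div_nonneg (h1 _ _) (dot_self_nonneg _)) (ih _).1)
    · have h3 : ∀ i, (w i ⬝ᵥ w k) / (w i ⬝ᵥ w i) * bil p q ((pk c w ^ j) (w i)) (w l) ≤
          (w i ⬝ᵥ w k) * (bd * (w l ⬝ᵥ w l)) := by
        intro i
        have h4 := (ih i).2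
        rcases (dot_self_nonneg (w i)).lt_or_eq with h0 | h0
        · refine (mul_le_mul_of_nonneg_left h4 (div_nonneg (h1 i k) h0.le)).trans (le_of_eq ?_)
          field_simp
        · rw [dot_zero_of _ (w k) h0.symm]
          simp
      calc c * ∑ i, (w i ⬝ᵥ w k) / (w i ⬝ᵥ w i) * bil p q ((pk c w ^ j) (w i)) (w l)
          ≤ c * ∑ i, (w i ⬝ᵥ w k) * (bd * (w l ⬝ᵥ w l)) :=
            mul_le_mul_of_nonneg_left (Finset.sum_le_sum fun i _ => h3 i) hc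
        _ = (c * ∑ i, w i ⬝ᵥ w k) * (bd * (w l ⬝ᵥ w l)) := by
            rw [← Finset.sum_mul, mul_assoc]
        _ = _ := by rw [h2]; ring

theorem trk_pow (p q : I → D → ℝ) (c : ℝ) (hc : 0 ≤ c) (w : K → D → ℝ)
    (h1 : ∀ k l, 0 ≤ w k ⬝ᵥ w l) (h2 : ∀ l, c * ∑ k, w k ⬝ᵥ w l = w l ⬝ᵥ w l)
    (h3 : c * ∑ k, w k ⬝ᵥ w k = 1) (bd : ℝ)
    (hb : ∀ k l, 0 ≤ bil p q (w k) (w l) ∧
      bil p q (w k) (w l) ≤ bd * (w k ⬝ᵥ w k) * (w l ⬝ᵥ w l)) (i : ℕ) :
    |trk p q (pk c w ^ (i + 1))| ≤ bd := by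
  have key : trk p q (pk c w ^ (i + 1)) =
      c * ∑ k, bil p q ((pk c w ^ i) (w k)) (w k) / (w k ⬝ᵥ w k) := by
    rw [trk_apply]
    have e1 : ∀ j, p j ⬝ᵥ (pk c w ^ (i + 1)) (q j) =
        c * ∑ k, ((p j ⬝ᵥ (pk c w ^ i) (w k)) * (w k ⬝ᵥ q j)) / (w k ⬝ᵥ w k) := by
      intro j
      rw [pow_succ, Module.End.mul_apply, dot_pk]
      congr 1
      refine Finset.sum_congr rfl fun k _ => ?_
      ring
    simp only [e1]
    rw [← Finset.mul_sum, Finset.sum_comm]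
    congr 1
    refine Finset.sum_congr rfl fun k _ => ?_
    rw [bil, Finset.sum_div]
  have hterm : ∀ k, 0 ≤ bil p q ((pk c w ^ i) (w k)) (w k) / (w k ⬝ᵥ w k) ∧
      bil p q ((pk c w ^ i) (w k)) (w k) / (w k ⬝ᵥ w k) ≤ bd * (w k ⬝ᵥ w k) := by
    intro k
    obtain ⟨e1, e2⟩ := bil_pow p q c hc w h1 h2 bd hb k i k
    refine ⟨div_nonneg e1 (dot_self_nonneg _), ?_⟩
    rcases (dot_self_nonneg (w k)).lt_or_eq with h0 | h0
    · rw [div_le_iff₀ h0]
      exact e2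
    · rw [← h0]; simp
  rw [key, abs_of_nonneg (mul_nonneg hc (Finset.sum_nonneg fun k _ => (hterm k).1))]
  calc c * ∑ k, bil p q ((pk c w ^ i) (w k)) (w k) / (w k ⬝ᵥ w k)
      ≤ c * ∑ k, bd * (w k ⬝ᵥ w k) :=
        mul_le_mul_of_nonneg_left (Finset.sum_le_sum fun k _ => (hterm k).2) hc
    _ = bd * (c * ∑ k, w k ⬝ᵥ w k) := by rw [← Finset.mul_sum]; ring
    _ = bd := by rw [h3, mul_one]

end Abs

section Corr

variable {X E J : Type} [Fintype E] [Fintype J] {r : ℕ}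

/-- Projection of a vector valued function onto few functions. -/
theorem top_small [Nonempty E] (s : E → X) (f : Fin r → X → ℝ)
    (hf : ∀ i j, ∑ e, f i (s e) * f j (s e) = if i = j then (Fintype.card E : ℝ) else 0)
    (Y : X → J → ℝ) (κ : ℝ)
    (hκ : ∀ φ : E → ℝ, ∑ e, ∑ e', φ e * φ e' * ∑ j, Y (s e) j * Y (s e') j ≤
      κ * Fintype.card E * ∑ e, φ e ^ 2)
    (Yt : X → J → ℝ)
    (hYt : ∀ x j, Yt x j = ∑ i, f i x * ((∑ e, f i (s e) * Y (s e) j) / Fintype.card E)) :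
    ∑ e, ∑ j, Yt (s e) j ^ 2 ≤ Fintype.card E * (r * κ) := by
  have hm : (0 : ℝ) < Fintype.card E := by exact_mod_cast Fintype.card_pos
  obtain ⟨m, hmdef⟩ : ∃ m : ℝ, m = Fintype.card E := ⟨_, rfl⟩
  simp only [← hmdef] at hm hf hκ hYt ⊢
  obtain ⟨h, hh⟩ : ∃ h : Fin r → J → ℝ, ∀ i j, h i j = (∑ e, f i (s e) * Y (s e) j) / m :=
    ⟨_, fun _ _ => rfl⟩
  simp only [← hh] at hYt
  have h1 : ∑ e, ∑ j, Yt (s e) j ^ 2 = m * ∑ i, ∑ j, h i j ^ 2 := by
    have e1 : ∀ e j, Yt (s e) j ^ 2 =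
        ∑ i, ∑ i', (f i (s e) * f i' (s e)) * (h i j * h i' j) := by
      intro e j
      rw [hYt, sq, Finset.sum_mul_sum]
      refine Finset.sum_congr rfl fun i _ => Finset.sum_congr rfl fun i' _ => ?_
      ring
    simp only [e1]
    rw [Finset.sum_comm]
    have e2 : ∀ j, ∑ e, ∑ i, ∑ i', (f i (s e) * f i' (s e)) * (h i j * h i' j) =
        m * ∑ i, h i j ^ 2 := by
      intro j
      rw [Finset.sum_comm, Finset.mul_sum]
      refine Finset.sum_congr rfl fun i _ => ?_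
      rw [Finset.sum_comm]
      have e3 : ∀ i', ∑ e, (f i (s e) * f i' (s e)) * (h i j * h i' j) =
          if i = i' then m * h i j ^ 2 else 0 := by
        intro i'
        rw [← Finset.sum_mul, hf]
        by_cases hi : i = i'
        · rw [if_pos hi, if_pos hi, ← hi]; ring
        · rw [if_neg hi, if_neg hi, zero_mul]
      simp only [e3]
      rw [Finset.sum_ite_eq, if_pos (Finset.mem_univ _)]
    simp only [e2]
    rw [← Finset.mul_sum, Finset.sum_comm]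
  have h2 : ∀ i, ∑ j, h i j ^ 2 ≤ κ := by
    intro i
    have e1 : m ^ 2 * ∑ j, h i j ^ 2 =
        ∑ e, ∑ e', f i (s e) * f i (s e') * ∑ j, Y (s e) j * Y (s e') j := by
      rw [Finset.mul_sum]
      have e2 : ∀ j, m ^ 2 * h i j ^ 2 =
          ∑ e, ∑ e', (f i (s e) * Y (s e) j) * (f i (s e') * Y (s e') j) := by
        intro j
        rw [← Finset.sum_mul_sum, hh]
        field_simp
      simp only [e2]
      rw [Finset.sum_comm]
      refine Finset.sum_congr rfl fun e _ => ?_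
      rw [Finset.sum_comm]
      refine Finset.sum_congr rfl fun e' _ => ?_
      rw [Finset.mul_sum]
      refine Finset.sum_congr rfl fun j _ => ?_
      ring
    have e3 := hκ (fun e => f i (s e))
    have e4 : ∑ e, f i (s e) ^ 2 = m := by
      have := hf i i
      rw [if_pos rfl] at this
      rw [← this]
      exact Finset.sum_congr rfl fun e _ => by ring
    rw [← e1, e4] at e3
    have e5 : κ * m * m = m ^ 2 * κ := by ring
    rw [e5] at e3
    exact le_of_mul_le_mul_left e3 (by positivity)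
  rw [h1]
  apply mul_le_mul_of_nonneg_left _ hm.le
  calc ∑ i, ∑ j, h i j ^ 2 ≤ ∑ _i : Fin r, κ := Finset.sum_le_sum fun i _ => h2 i
    _ = r * κ := by rw [Finset.sum_const, Finset.card_univ, Fintype.card_fin, nsmul_eq_mul]

end Corr

end Pool.Agent.H818R3.Defl
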