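import Mathlib
import Pool.Agent.H818R3.RankA

/-!
The pairwise semidefinite relaxation of `d`-to-one games on graphs of bounded threshold rank.
-/

set_option autoImplicit false

namespace Pool.Agent.H818R3.Defl

open Finset Pool.Agent.H562R2

/-- At most `r` large singular values, in variational form. -/
def RankGap {U V E : Type} [Fintype E] (s : E → U) (t : E → V) (lam : ℝ) (r : ℕ) : Prop :=
  ∃ (f : Fin r → U → ℝ) (g : Fin r → V → ℝ),
    (∀ i j, ∑ e, f i (s e) * f j (s e) = if i = j then (Fintype.card E : ℝ) else 0) ∧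
    (∀ i j, ∑ e, g i (t e) * g j (t e) = if i = j then (Fintype.card E : ℝ) else 0) ∧
    ∀ (p : U → ℝ) (q : V → ℝ), (∀ i, ∑ e, p (s e) * f i (s e) = 0) →
      (∀ i, ∑ e, q (t e) * g i (t e) = 0) →
      2 * ∑ e, p (s e) * q (t e) ≤ (1 - lam) * (∑ e, p (s e) ^ 2 + ∑ e, q (t e) ^ 2)

section Corr

variable {U V X E J : Type} [Fintype E] [Fintype J] {r : ℕ}

theorem top_orth [Nonempty E] (s : E → X) (f : Fin r → X → ℝ)
    (hf : ∀ i j, ∑ e, f i (s e) * f j (s e) = if i = j then (Fintype.card E : ℝ) else 0)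
    (Y : X → J → ℝ) (Yt : X → J → ℝ)
    (hYt : ∀ x j, Yt x j = ∑ i, f i x * ((∑ e, f i (s e) * Y (s e) j) / Fintype.card E))
    (j : J) (i : Fin r) : ∑ e, (Y (s e) j - Yt (s e) j) * f i (s e) = 0 := by
  have hm : (0 : ℝ) < Fintype.card E := by exact_mod_cast Fintype.card_pos
  have h1 : ∑ e, Yt (s e) j * f i (s e) = ∑ e, f i (s e) * Y (s e) j := by
    have e1 : ∀ e, Yt (s e) j * f i (s e) =
        ∑ i', (f i (s e) * f i' (s e)) *
          ((∑ e, f i' (s e) * Y (s e) j) / Fintype.card E) := by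
      intro e
      rw [hYt, Finset.sum_mul]
      refine Finset.sum_congr rfl fun i' _ => ?_
      ring
    simp only [e1]
    rw [Finset.sum_comm]
    have e2 : ∀ i', ∑ e, (f i (s e) * f i' (s e)) *
          ((∑ e, f i' (s e) * Y (s e) j) / Fintype.card E) =
        if i = i' then ∑ e, f i (s e) * Y (s e) j else 0 := by
      intro i'
      rw [← Finset.sum_mul, hf]
      by_cases hi : i = i'
      · rw [if_pos hi, if_pos hi, ← hi]
        field_simp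
      · rw [if_neg hi, if_neg hi, zero_mul]
    simp only [e2]
    rw [Finset.sum_ite_eq, if_pos (Finset.mem_univ _)]
  have h2 : ∀ e, (Y (s e) j - Yt (s e) j) * f i (s e) =
      f i (s e) * Y (s e) j - Yt (s e) j * f i (s e) := by intro e; ring
  simp only [h2]
  rw [Finset.sum_sub_distrib, h1, sub_self]

theorem top_norm [Nonempty E] (s : E → X) (f : Fin r → X → ℝ)
    (hf : ∀ i j, ∑ e, f i (s e) * f j (s e) = if i = j then (Fintype.card E : ℝ) else 0)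
    (Y : X → J → ℝ) (Yt : X → J → ℝ)
    (hYt : ∀ x j, Yt x j = ∑ i, f i x * ((∑ e, f i (s e) * Y (s e) j) / Fintype.card E))
    (j : J) : ∑ e, (Y (s e) j - Yt (s e) j) ^ 2 ≤ ∑ e, Y (s e) j ^ 2 := by
  have h1 : ∑ e, (Y (s e) j - Yt (s e) j) * Yt (s e) j = 0 := by
    have e1 : ∀ e, (Y (s e) j - Yt (s e) j) * Yt (s e) j =
        ∑ i, ((∑ e, f i (s e) * Y (s e) j) / Fintype.card E) *
          ((Y (s e) j - Yt (s e) j) * f i (s e)) := by
      intro e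
      rw [hYt (s e) j, Finset.mul_sum]
      refine Finset.sum_congr rfl fun i' _ => ?_
      ring
    simp only [e1]
    rw [Finset.sum_comm]
    refine Finset.sum_eq_zero fun i _ => ?_
    rw [← Finset.mul_sum, top_orth s f hf Y Yt hYt j i, mul_zero]
  have h2 : ∑ e, Y (s e) j ^ 2 = ∑ e, (Y (s e) j - Yt (s e) j) ^ 2 +
      2 * ∑ e, (Y (s e) j - Yt (s e) j) * Yt (s e) j + ∑ e, Yt (s e) j ^ 2 := by
    rw [Finset.mul_sum, ← Finset.sum_add_distrib, ← Finset.sum_add_distrib]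
    refine Finset.sum_congr rfl fun e _ => ?_
    ring
  have h3 : 0 ≤ ∑ e, Yt (s e) j ^ 2 := Finset.sum_nonneg fun e _ => sq_nonneg _
  rw [h2, h1]
  linarith

theorem cs_le (P Q : E → J → ℝ) (m a : ℝ) (hm : 0 ≤ m) (ha : 0 ≤ a)
    (hP : ∑ e, ∑ j, P e j ^ 2 ≤ m * a) (hQ : ∑ e, ∑ j, Q e j ^ 2 ≤ m) :
    ∑ e, ∑ j, P e j * Q e j ≤ m * Real.sqrt a := by
  have h1 := Finset.sum_mul_sq_le_sq_mul_sq (Finset.univ : Finset (E × J))
    (fun p => P p.1 p.2) (fun p => Q p.1 p.2)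
  rw [Fintype.sum_prod_type, Fintype.sum_prod_type, Fintype.sum_prod_type] at h1
  have h2 : (∑ e, ∑ j, P e j * Q e j) ^ 2 ≤ m ^ 2 * a := by
    refine h1.trans ?_
    calc (∑ e, ∑ j, P e j ^ 2) * ∑ e, ∑ j, Q e j ^ 2 ≤ (m * a) * m :=
          mul_le_mul hP hQ (Finset.sum_nonneg fun _ _ => Finset.sum_nonneg fun _ _ => sq_nonneg _)
            (mul_nonneg hm ha)
      _ = m ^ 2 * a := by ring
  have h3 := Real.le_sqrt_of_sq_le h2
  rwa [Real.sqrt_mul (sq_nonneg m), Real.sqrt_sq hm] at h3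

theorem corr_rank [Nonempty E] (s : E → U) (t : E → V) (lam : ℝ) (hlam : lam ≤ 1)
    (hgap : RankGap s t lam r) (Y : U → J → ℝ) (Z : V → J → ℝ)
    (hY : ∀ u, ∑ j, Y u j ^ 2 ≤ 1) (hZ : ∀ v, ∑ j, Z v j ^ 2 ≤ 1) (κ : ℝ) (hκ0 : 0 ≤ κ)
    (hYκ : ∀ φ : E → ℝ, ∑ e, ∑ e', φ e * φ e' * ∑ j, Y (s e) j * Y (s e') j ≤
      κ * Fintype.card E * ∑ e, φ e ^ 2)
    (hZκ : ∀ φ : E → ℝ, ∑ e, ∑ e', φ e * φ e' * ∑ j, Z (t e) j * Z (t e') j ≤
      κ * Fintype.card E * ∑ e, φ e ^ 2) :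
    ∑ e, ∑ j, Y (s e) j * Z (t e) j ≤
      Fintype.card E * ((1 - lam) + 2 * Real.sqrt (r * κ)) := by
  obtain ⟨f, g, hf, hg, hgap⟩ := hgap
  have hm : (0 : ℝ) < Fintype.card E := by exact_mod_cast Fintype.card_pos
  obtain ⟨Yt, hYt⟩ : ∃ Yt : U → J → ℝ, ∀ x j, Yt x j =
      ∑ i, f i x * ((∑ e, f i (s e) * Y (s e) j) / Fintype.card E) := ⟨_, fun _ _ => rfl⟩
  obtain ⟨Zt, hZt⟩ : ∃ Zt : V → J → ℝ, ∀ x j, Zt x j =
      ∑ i, g i x * ((∑ e, g i (t e) * Z (t e) j) / Fintype.card E) := ⟨_, fun _ _ => rfl⟩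
  have hYs := top_small s f hf Y κ hYκ Yt hYt
  have hZs := top_small t g hg Z κ hZκ Zt hZt
  obtain ⟨m, hmdef⟩ : ∃ m : ℝ, m = Fintype.card E := ⟨_, rfl⟩
  have hcard : ∀ c : ℝ, ∑ _e : E, c = m * c := by
    intro c
    rw [Finset.sum_const, Finset.card_univ, nsmul_eq_mul, hmdef]
  have hYm : ∑ e, ∑ j, Y (s e) j ^ 2 ≤ m := by
    calc ∑ e, ∑ j, Y (s e) j ^ 2 ≤ ∑ _e : E, (1 : ℝ) := Finset.sum_le_sum fun e _ => hY _
      _ = m := by rw [hcard, mul_one]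
  have hZm : ∑ e, ∑ j, Z (t e) j ^ 2 ≤ m := by
    calc ∑ e, ∑ j, Z (t e) j ^ 2 ≤ ∑ _e : E, (1 : ℝ) := Finset.sum_le_sum fun e _ => hZ _
      _ = m := by rw [hcard, mul_one]
  have hYm' : ∑ e, ∑ j, (Y (s e) j - Yt (s e) j) ^ 2 ≤ m := by
    refine le_trans ?_ hYm
    rw [Finset.sum_comm, Finset.sum_comm (s := (Finset.univ : Finset E))]
    exact Finset.sum_le_sum fun j _ => top_norm s f hf Y Yt hYt j
  have hZm' : ∑ e, ∑ j, (Z (t e) j - Zt (t e) j) ^ 2 ≤ m := by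
    refine le_trans ?_ hZm
    rw [Finset.sum_comm, Finset.sum_comm (s := (Finset.univ : Finset E))]
    exact Finset.sum_le_sum fun j _ => top_norm t g hg Z Zt hZt j
  have h1 : 2 * ∑ e, ∑ j, (Y (s e) j - Yt (s e) j) * (Z (t e) j - Zt (t e) j) ≤
      (1 - lam) * (m + m) := by
    have h2 : ∀ j, 2 * ∑ e, (Y (s e) j - Yt (s e) j) * (Z (t e) j - Zt (t e) j) ≤
        (1 - lam) * (∑ e, (Y (s e) j - Yt (s e) j) ^ 2 +
          ∑ e, (Z (t e) j - Zt (t e) j) ^ 2) := fun j =>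
      hgap (fun u => Y u j - Yt u j) (fun v => Z v j - Zt v j)
        (fun i => top_orth s f hf Y Yt hYt j i) (fun i => top_orth t g hg Z Zt hZt j i)
    have h3 := Finset.sum_le_sum fun j (_ : j ∈ (Finset.univ : Finset J)) => h2 j
    rw [← Finset.mul_sum, ← Finset.mul_sum, Finset.sum_add_distrib] at h3
    rw [Finset.sum_comm]
    refine h3.trans (mul_le_mul_of_nonneg_left (add_le_add ?_ ?_) (by linarith))
    · rw [Finset.sum_comm]; exact hYm'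
    · rw [Finset.sum_comm]; exact hZm'
  obtain ⟨b, hb⟩ : ∃ b : ℝ, b = r * κ := ⟨_, rfl⟩
  have hb0 : 0 ≤ b := by rw [hb]; positivity
  rw [← hb, ← hmdef] at hYs hZs ⊢
  rw [← hmdef] at hm
  have h4 : ∑ e, ∑ j, Yt (s e) j * Z (t e) j ≤ m * Real.sqrt b :=
    cs_le (fun e j => Yt (s e) j) (fun e j => Z (t e) j) m b hm.le hb0 hYs hZm
  have h5 : ∑ e, ∑ j, Zt (t e) j * (Y (s e) j - Yt (s e) j) ≤ m * Real.sqrt b :=
    cs_le (fun e j => Zt (t e) j) (fun e j => Y (s e) j - Yt (s e) j) m b hm.le hb0 hZs hYm'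
  have h6 : ∑ e, ∑ j, Y (s e) j * Z (t e) j =
      ∑ e, ∑ j, (Y (s e) j - Yt (s e) j) * (Z (t e) j - Zt (t e) j) +
        ∑ e, ∑ j, Yt (s e) j * Z (t e) j +
        ∑ e, ∑ j, Zt (t e) j * (Y (s e) j - Yt (s e) j) := by
    rw [← Finset.sum_add_distrib, ← Finset.sum_add_distrib]
    refine Finset.sum_congr rfl fun e _ => ?_
    rw [← Finset.sum_add_distrib, ← Finset.sum_add_distrib]
    refine Finset.sum_congr rfl fun j _ => ?_
    ring
  rw [h6]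
  nlinarith

end Corr

theorem split_phi (u v r p q : ℝ) (hp : 0 ≤ p) (hq : 0 ≤ q) :
    u * v * (r ^ 2 / (Real.sqrt p * Real.sqrt q)) ≤
      1 / 2 * (v ^ 2 * (r ^ 2 / p)) + 1 / 2 * (u ^ 2 * (r ^ 2 / q)) := by
  rcases hp.lt_or_eq with hp0 | hp0
  · rcases hq.lt_or_eq with hq0 | hq0
    · have h1 := Real.sq_sqrt hp
      have h2 := Real.sq_sqrt hq
      have h3 := Real.sqrt_pos.mpr hp0
      have h4 := Real.sqrt_pos.mpr hq0
      set P := Real.sqrt p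
      set Q := Real.sqrt q
      rw [← h1, ← h2]
      have h5 : 1 / 2 * (v ^ 2 * (r ^ 2 / P ^ 2)) + 1 / 2 * (u ^ 2 * (r ^ 2 / Q ^ 2)) -
          u * v * (r ^ 2 / (P * Q)) = (r * (v * Q - u * P)) ^ 2 / (2 * P ^ 2 * Q ^ 2) := by
        field_simp
        ring
      have h6 : 0 ≤ (r * (v * Q - u * P)) ^ 2 / (2 * P ^ 2 * Q ^ 2) := by positivity
      linarith
    · rw [← hq0]
      simp only [Real.sqrt_zero, mul_zero, div_zero, add_zero]
      positivity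
  · rw [← hp0]
    simp only [Real.sqrt_zero, zero_mul, div_zero, mul_zero, zero_add]
    positivity

section Main

variable {U V E A B D : Type} [Fintype U] [Fintype V] [Fintype E] [Fintype A] [Fintype B]
  [DecidableEq U] [DecidableEq V] [DecidableEq A] [DecidableEq B] [Fintype D]

/-- Bounds on the edge form for two general seeds. -/
theorem edge_gen (s : E → U) (t : E → V) (π : E → A → B) {x : U → A → D → ℝ}
    {y : V → B → D → ℝ} {z : D → ℝ} (hx : ∀ u, Fam z (x u)) (hy : ∀ v, Fam z (y v)) (bd : ℝ)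
    (hbd : ∀ (L : U → A) (M : V → B),
      ((Finset.univ.filter fun e => π e (L (s e)) = M (t e)).card : ℝ) ≤ bd)
    (g h : D → ℝ) (hg : ∀ u a, 0 ≤ g ⬝ᵥ x u a) (hh : ∀ v b, 0 ≤ h ⬝ᵥ y v b)
    (hgz : g ⬝ᵥ z = g ⬝ᵥ g) (hhz : h ⬝ᵥ z = h ⬝ᵥ h) :
    0 ≤ bil (fun p : E × A => x (s p.1) p.2) (fun p : E × A => y (t p.1) (π p.1 p.2)) g h ∧
      bil (fun p : E × A => x (s p.1) p.2) (fun p : E × A => y (t p.1) (π p.1 p.2)) g h ≤
        bd * (g ⬝ᵥ g) * (h ⬝ᵥ h) := by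
  refine ⟨?_, ?_⟩
  · exact Finset.sum_nonneg fun p _ =>
      mul_nonneg (by rw [dotProduct_comm]; exact hg _ _) (hh _ _)
  · rcases (dot_self_nonneg g).lt_or_eq with h0 | h0
    · rcases (dot_self_nonneg h).lt_or_eq with h1 | h1
      · obtain ⟨L, M, hLM⟩ := derand s t π (fun w a => (g ⬝ᵥ x w a) / (g ⬝ᵥ g))
          (fun w b => (h ⬝ᵥ y w b) / (h ⬝ᵥ h))
          (fun w a => div_nonneg (hg _ _) h0.le)
          (fun w => by rw [← Finset.sum_div, ← dotProduct_sum, (hx w).sum, hgz, div_self h0.ne'])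
          (fun w b => div_nonneg (hh _ _) h1.le)
          (fun w => by rw [← Finset.sum_div, ← dotProduct_sum, (hy w).sum, hhz, div_self h1.ne'])
        have h2 := hLM.trans (hbd L M)
        have h3 : bil (fun p : E × A => x (s p.1) p.2)
            (fun p : E × A => y (t p.1) (π p.1 p.2)) g h =
            (∑ e, ∑ a, (g ⬝ᵥ x (s e) a) / (g ⬝ᵥ g) *
              ((h ⬝ᵥ y (t e) (π e a)) / (h ⬝ᵥ h))) * ((g ⬝ᵥ g) * (h ⬝ᵥ h)) := by
          rw [bil, Fintype.sum_prod_type, Finset.sum_mul]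
          refine Finset.sum_congr rfl fun e _ => ?_
          rw [Finset.sum_mul]
          refine Finset.sum_congr rfl fun a _ => ?_
          rw [dotProduct_comm (x (s e) a)]
          field_simp
        rw [h3, mul_assoc]
        exact mul_le_mul_of_nonneg_right h2 (mul_nonneg h0.le h1.le)
      · have h2 : bil (fun p : E × A => x (s p.1) p.2)
            (fun p : E × A => y (t p.1) (π p.1 p.2)) g h = 0 := by
          refine Finset.sum_eq_zero fun p _ => ?_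
          rw [dot_zero_of _ (y (t p.1) (π p.1 p.2)) h1.symm, mul_zero]
        rw [h2, ← h1, mul_zero]
    · have h2 : bil (fun p : E × A => x (s p.1) p.2)
          (fun p : E × A => y (t p.1) (π p.1 p.2)) g h = 0 := by
        refine Finset.sum_eq_zero fun p _ => ?_
        rw [dotProduct_comm (x (s p.1) p.2), dot_zero_of _ (x (s p.1) p.2) h0.symm, zero_mul]
      rw [h2, ← h0, mul_zero, zero_mul]

/-- All seeds. -/
def seeds (s : E → U) (t : E → V) (x : U → A → D → ℝ) (y : V → B → D → ℝ) :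
    (E × A) ⊕ (E × B) → D → ℝ :=
  Sum.elim (fun p => x (s p.1) p.2) (fun p => y (t p.1) p.2)

theorem seeds_sum (s : E → U) (t : E → V) (x : U → A → D → ℝ) (y : V → B → D → ℝ)
    (F : (D → ℝ) → ℝ) : ∑ k, F (seeds s t x y k) =
      (∑ e, ∑ a, F (x (s e) a)) + ∑ e, ∑ b, F (y (t e) b) := by
  rw [Fintype.sum_sum_type, Fintype.sum_prod_type, Fintype.sum_prod_type]
  rfl

/-- Main inequality for bounded threshold rank. -/
theorem main_rank [Nonempty E] (s : E → U) (t : E → V) (π : E → A → B) (d : ℕ)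
    (hfib : ∀ e b, (Finset.univ.filter fun a => π e a = b).card ≤ d) (lam ε δ : ℝ) (r : ℕ)
    (hlam1 : lam ≤ 1) (hgap : RankGap s t lam r) {x : U → A → D → ℝ} {y : V → B → D → ℝ}
    (h : SdpFeasible x y)
    (hval : (1 - ε) * Fintype.card E ≤ ∑ e, ∑ a, x (s e) a ⬝ᵥ y (t e) (π e a))
    (hbd : ∀ (L : U → A) (M : V → B),
      ((Finset.univ.filter fun e => π e (L (s e)) = M (t e)).card : ℝ) ≤ δ * Fintype.card E)
    (n : ℕ) (hn : 4 ^ n * δ ≤ 1 - ε) :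
    (1 - ε - 4 ^ n * δ) ^ 2 ≤
      Real.sqrt d * ((1 - lam) + 2 * Real.sqrt (r * (2 / (2 * n + 1)))) := by
  obtain ⟨z, hx, hy⟩ := h.left
  obtain ⟨-, -, -, -, -, -, hxx, hxy, hyy⟩ := h
  have hm : (0 : ℝ) < Fintype.card E := by exact_mod_cast Fintype.card_pos
  obtain ⟨m, hmdef⟩ : ∃ m : ℝ, m = Fintype.card E := ⟨_, rfl⟩
  rw [← hmdef] at hm
  have hcard : ∀ c : ℝ, ∑ _e : E, c = m * c := by
    intro c
    rw [Finset.sum_const, Finset.card_univ, nsmul_eq_mul, hmdef]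
  obtain ⟨w, hw⟩ : ∃ w, w = seeds s t x y := ⟨_, rfl⟩
  obtain ⟨c, hc⟩ : ∃ c : ℝ, c = 1 / (2 * m) := ⟨_, rfl⟩
  have hc0 : 0 ≤ c := by rw [hc]; positivity
  have hseed : ∀ k, (∀ u a, 0 ≤ w k ⬝ᵥ x u a) ∧ (∀ v b, 0 ≤ w k ⬝ᵥ y v b) ∧
      w k ⬝ᵥ z = w k ⬝ᵥ w k := by
    intro k
    rw [hw]
    rcases k with p | p
    · exact ⟨fun u a => hxx _ _ _ _, fun v b => hxy _ _ _ _, (hx _).dot_z _⟩
    · exact ⟨fun u a => by
        change 0 ≤ y (t p.1) p.2 ⬝ᵥ x u a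
        rw [dotProduct_comm]; exact hxy _ _ _ _, fun v b => hyy _ _ _ _, (hy _).dot_z _⟩
  have h1 : ∀ k l, 0 ≤ w k ⬝ᵥ w l := by
    intro k l
    have hk := hseed k
    rw [hw] at hk ⊢
    rcases l with p | p
    · exact hk.1 _ _
    · exact hk.2.1 _ _
  have h2 : ∀ l, c * ∑ k, w k ⬝ᵥ w l = w l ⬝ᵥ w l := by
    intro l
    have e1 : ∑ k, w k ⬝ᵥ w l = m * (w l ⬝ᵥ w l) + m * (w l ⬝ᵥ w l) := by
      have e2 := seeds_sum s t x y (fun v => v ⬝ᵥ w l)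
      rw [← hw] at e2
      rw [e2]
      congr 1
      · rw [← hcard]
        refine Finset.sum_congr rfl fun e _ => ?_
        rw [(hx _).sum_dot, dotProduct_comm, (hseed l).2.2]
      · rw [← hcard]
        refine Finset.sum_congr rfl fun e _ => ?_
        rw [(hy _).sum_dot, dotProduct_comm, (hseed l).2.2]
    rw [e1, hc]
    field_simp
    ring
  have h3 : c * ∑ k, w k ⬝ᵥ w k = 1 := by
    have e2 := seeds_sum s t x y (fun v => v ⬝ᵥ v)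
    rw [← hw] at e2
    rw [e2]
    simp only [(hx _).sum_norm, (hy _).sum_norm, hcard]
    rw [hc]
    field_simp
    ring
  have h4 : ∀ v, c * ∑ k, (w k ⬝ᵥ v) ^ 2 / (w k ⬝ᵥ w k) ≤ v ⬝ᵥ v := by
    intro v
    have e2 := seeds_sum s t x y (fun u => (u ⬝ᵥ v) ^ 2 / (u ⬝ᵥ u))
    rw [← hw] at e2
    have e3 : ∑ k, (w k ⬝ᵥ v) ^ 2 / (w k ⬝ᵥ w k) ≤ m * (v ⬝ᵥ v) + m * (v ⬝ᵥ v) := by
      rw [e2]
      apply add_le_add
      · rw [← hcard]
        exact Finset.sum_le_sum fun e _ => dot_bessel (x (s e)) (hx _).orth v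
      · rw [← hcard]
        exact Finset.sum_le_sum fun e _ => dot_bessel (y (t e)) (hy _).orth v
    calc c * ∑ k, (w k ⬝ᵥ v) ^ 2 / (w k ⬝ᵥ w k) ≤ c * (m * (v ⬝ᵥ v) + m * (v ⬝ᵥ v)) :=
          mul_le_mul_of_nonneg_left e3 hc0
      _ = v ⬝ᵥ v := by rw [hc]; field_simp; ring
  obtain ⟨P, hP⟩ : ∃ P, P = pk c w := ⟨_, rfl⟩
  have hg : Good P := hP ▸ pk_good c hc0 w h4
  have hb : ∀ k l, 0 ≤ bil (fun p : E × A => x (s p.1) p.2)
        (fun p : E × A => y (t p.1) (π p.1 p.2)) (w k) (w l) ∧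
      bil (fun p : E × A => x (s p.1) p.2)
        (fun p : E × A => y (t p.1) (π p.1 p.2)) (w k) (w l) ≤
        δ * m * (w k ⬝ᵥ w k) * (w l ⬝ᵥ w l) := fun k l =>
    edge_gen s t π hx hy (δ * m) (by rw [hmdef]; exact hbd) (w k) (w l) (hseed k).1 (hseed l).2.1
      (hseed k).2.2 (hseed l).2.2
  have htr0 := lin_pow (P := P) (trk (fun p : E × A => x (s p.1) p.2)
    (fun p : E × A => y (t p.1) (π p.1 p.2))) (δ * m)
    (fun i => by rw [hP]; exact trk_pow _ _ c hc0 w h1 h2 h3 (δ * m) hb i) (n + n)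
  obtain ⟨T, hT⟩ : ∃ T, T = (1 - P) ^ n := ⟨_, rfl⟩
  have hsym : ∀ v w, T v ⬝ᵥ w = v ⬝ᵥ T w := by rw [hT]; exact hg.pow_sym n
  have hcon : ∀ v, T v ⬝ᵥ T v ≤ v ⬝ᵥ v := by rw [hT]; exact fun v => hg.pow_norm v n
  have hTT : ∀ v, ((1 - P) ^ (n + n)) v = T (T v) := by
    intro v
    rw [pow_add, Module.End.mul_apply, hT]
  have htr : m * (1 - ε) - 4 ^ n * (δ * m) ≤
      ∑ e, ∑ a, T (x (s e) a) ⬝ᵥ T (y (t e) (π e a)) := by
    have e1 : trk (fun p : E × A => x (s p.1) p.2)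
        (fun p : E × A => y (t p.1) (π p.1 p.2)) 1 =
        ∑ e, ∑ a, x (s e) a ⬝ᵥ y (t e) (π e a) := by
      rw [trk_apply, Fintype.sum_prod_type]
      rfl
    have e2 : trk (fun p : E × A => x (s p.1) p.2)
        (fun p : E × A => y (t p.1) (π p.1 p.2)) ((1 - P) ^ (n + n)) =
        ∑ e, ∑ a, T (x (s e) a) ⬝ᵥ T (y (t e) (π e a)) := by
      rw [trk_apply, Fintype.sum_prod_type]
      refine Finset.sum_congr rfl fun e _ => Finset.sum_congr rfl fun a _ => ?_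
      rw [hTT, hsym]
    have e3 : (2 : ℝ) ^ (n + n) = 4 ^ n := by
      rw [← two_mul, pow_mul]; norm_num
    rw [e1, e2, e3] at htr0
    rw [← hmdef] at hval
    linarith
  -- one-sided bounds
  have hquad : ∀ v : D → ℝ, c * ∑ k, (w k ⬝ᵥ T (T v)) ^ 2 / (w k ⬝ᵥ w k) ≤
      (v ⬝ᵥ v) / (2 * n + 1) := by
    intro v
    have e1 := hg.pow_quad v (n + n)
    rw [hTT, dotProduct_comm, hP, pk_dot] at e1
    have e2 : ((n + n : ℕ) : ℝ) + 1 = 2 * n + 1 := by push_cast; ring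
    rw [e2] at e1
    refine le_trans (le_of_eq ?_) e1
    congr 1
    exact Finset.sum_congr rfl fun k _ => by rw [sq]
  have hN : (0 : ℝ) < 2 * n + 1 := by positivity
  have hside : ∀ v : D → ℝ,
      (∑ e, ∑ a, (T (x (s e) a) ⬝ᵥ T v) ^ 2 / (x (s e) a ⬝ᵥ x (s e) a)) +
        (∑ e, ∑ b, (T (y (t e) b) ⬝ᵥ T v) ^ 2 / (y (t e) b ⬝ᵥ y (t e) b)) ≤
      2 * m * ((v ⬝ᵥ v) / (2 * n + 1)) := by
    intro v
    have e1 := hquad v
    have e2 := seeds_sum s t x y (fun u => (u ⬝ᵥ T (T v)) ^ 2 / (u ⬝ᵥ u))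
    rw [← hw] at e2
    rw [e2, hc, one_div, inv_mul_le_iff₀ (by positivity)] at e1
    refine le_trans (le_of_eq ?_) e1
    congr 1
    · exact Finset.sum_congr rfl fun e _ => Finset.sum_congr rfl fun a _ => by rw [hsym]
    · exact Finset.sum_congr rfl fun e _ => Finset.sum_congr rfl fun a _ => by rw [hsym]
  have hsideX : ∀ v : D → ℝ,
      (∑ e, ∑ a, (T (x (s e) a) ⬝ᵥ T v) ^ 2 / (x (s e) a ⬝ᵥ x (s e) a)) ≤
      2 * m * ((v ⬝ᵥ v) / (2 * n + 1)) := by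
    intro v
    have e1 : 0 ≤ ∑ e, ∑ b, (T (y (t e) b) ⬝ᵥ T v) ^ 2 / (y (t e) b ⬝ᵥ y (t e) b) :=
      Finset.sum_nonneg fun _ _ => Finset.sum_nonneg fun _ _ =>
        div_nonneg (sq_nonneg _) (dot_self_nonneg _)
    linarith [hside v]
  have hsideY : ∀ v : D → ℝ,
      (∑ e, ∑ b, (T (y (t e) b) ⬝ᵥ T v) ^ 2 / (y (t e) b ⬝ᵥ y (t e) b)) ≤
      2 * m * ((v ⬝ᵥ v) / (2 * n + 1)) := by
    intro v
    have e1 : 0 ≤ ∑ e, ∑ a, (T (x (s e) a) ⬝ᵥ T v) ^ 2 / (x (s e) a ⬝ᵥ x (s e) a) :=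
      Finset.sum_nonneg fun _ _ => Finset.sum_nonneg fun _ _ =>
        div_nonneg (sq_nonneg _) (dot_self_nonneg _)
    linarith [hside v]
  have hpair : ∀ {X C : Type} [Fintype C] (q : E → X) (v : X → C → D → ℝ)
      (hv : ∀ i, Fam z (v i))
      (hs : ∀ u : D → ℝ, (∑ e, ∑ a, (T (v (q e) a) ⬝ᵥ T u) ^ 2 / (v (q e) a ⬝ᵥ v (q e) a)) ≤
        2 * m * ((u ⬝ᵥ u) / (2 * n + 1))) (φ : E → ℝ),
      ∑ e, ∑ e', φ e * φ e' * dker T (v (q e)) (v (q e')) ≤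
        (2 / (2 * n + 1)) * m * ∑ e, φ e ^ 2 := by
    intro X C _ q v hv hs φ
    have e1 : ∑ e, ∑ e', φ e' ^ 2 * ∑ b, ∑ a, (T (v (q e) a) ⬝ᵥ T (v (q e') b)) ^ 2 /
        (v (q e) a ⬝ᵥ v (q e) a) ≤ (2 / (2 * n + 1)) * m * ∑ e, φ e ^ 2 := by
      rw [Finset.sum_comm, Finset.mul_sum]
      refine Finset.sum_le_sum fun e' _ => ?_
      rw [← Finset.mul_sum, mul_comm (2 / (2 * (n : ℝ) + 1) * m)]
      apply mul_le_mul_of_nonneg_left _ (sq_nonneg _)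
      calc ∑ e, ∑ b, ∑ a, (T (v (q e) a) ⬝ᵥ T (v (q e') b)) ^ 2 /
            (v (q e) a ⬝ᵥ v (q e) a)
          = ∑ b, ∑ e, ∑ a, (T (v (q e) a) ⬝ᵥ T (v (q e') b)) ^ 2 /
            (v (q e) a ⬝ᵥ v (q e) a) := Finset.sum_comm
        _ ≤ ∑ b, 2 * m * ((v (q e') b ⬝ᵥ v (q e') b) / (2 * n + 1)) :=
            Finset.sum_le_sum fun b _ => hs _
        _ = 2 / (2 * n + 1) * m := by
            rw [← Finset.mul_sum, ← Finset.sum_div, (hv _).sum_norm]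
            ring
    have e2 : ∑ e, ∑ e', φ e ^ 2 * ∑ a, ∑ b, (T (v (q e) a) ⬝ᵥ T (v (q e') b)) ^ 2 /
        (v (q e') b ⬝ᵥ v (q e') b) ≤ (2 / (2 * n + 1)) * m * ∑ e, φ e ^ 2 := by
      refine le_trans (le_of_eq ?_) e1
      rw [Finset.sum_comm]
      refine Finset.sum_congr rfl fun e _ => Finset.sum_congr rfl fun e' _ => ?_
      congr 1
      refine Finset.sum_congr rfl fun a _ => Finset.sum_congr rfl fun b _ => ?_
      rw [dotProduct_comm]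
    have e3 : ∀ e e', φ e * φ e' * dker T (v (q e)) (v (q e')) ≤
        1 / 2 * (φ e' ^ 2 * ∑ b, ∑ a, (T (v (q e) a) ⬝ᵥ T (v (q e') b)) ^ 2 /
          (v (q e) a ⬝ᵥ v (q e) a)) +
        1 / 2 * (φ e ^ 2 * ∑ a, ∑ b, (T (v (q e) a) ⬝ᵥ T (v (q e') b)) ^ 2 /
          (v (q e') b ⬝ᵥ v (q e') b)) := by
      intro e e'
      unfold dker
      rw [Finset.sum_comm (s := (Finset.univ : Finset C)) (t := (Finset.univ : Finset C))
        (f := fun b a => (T (v (q e) a) ⬝ᵥ T (v (q e') b)) ^ 2 / (v (q e) a ⬝ᵥ v (q e) a))]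
      simp only [Finset.mul_sum]
      rw [← Finset.sum_add_distrib]
      refine Finset.sum_le_sum fun a _ => ?_
      rw [← Finset.sum_add_distrib]
      refine Finset.sum_le_sum fun b _ => ?_
      exact split_phi _ _ _ _ _ (dot_self_nonneg _) (dot_self_nonneg _)
    calc ∑ e, ∑ e', φ e * φ e' * dker T (v (q e)) (v (q e'))
        ≤ ∑ e, ∑ e', (1 / 2 * (φ e' ^ 2 * ∑ b, ∑ a, (T (v (q e) a) ⬝ᵥ T (v (q e') b)) ^ 2 /
            (v (q e) a ⬝ᵥ v (q e) a)) +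
          1 / 2 * (φ e ^ 2 * ∑ a, ∑ b, (T (v (q e) a) ⬝ᵥ T (v (q e') b)) ^ 2 /
            (v (q e') b ⬝ᵥ v (q e') b))) :=
          Finset.sum_le_sum fun e _ => Finset.sum_le_sum fun e' _ => e3 e e'
      _ = 1 / 2 * (∑ e, ∑ e', φ e' ^ 2 * ∑ b, ∑ a, (T (v (q e) a) ⬝ᵥ T (v (q e') b)) ^ 2 /
            (v (q e) a ⬝ᵥ v (q e) a)) +
          1 / 2 * (∑ e, ∑ e', φ e ^ 2 * ∑ a, ∑ b, (T (v (q e) a) ⬝ᵥ T (v (q e') b)) ^ 2 /
            (v (q e') b ⬝ᵥ v (q e') b)) := by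
          simp only [Finset.sum_add_distrib, ← Finset.mul_sum]
      _ ≤ _ := by linarith
  have hcorr := corr_rank s t lam hlam1 hgap (fun u => dfeat T (x u)) (fun v => dfeat T (y v))
    (fun u => dfeat_norm T hsym hcon (hx u)) (fun v => dfeat_norm T hsym hcon (hy v))
    (2 / (2 * n + 1)) (by positivity)
    (fun φ => by simp only [dfeat_dot]; rw [← hmdef]; exact hpair s x hx hsideX φ)
    (fun φ => by simp only [dfeat_dot]; rw [← hmdef]; exact hpair t y hy hsideY φ)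
  simp only [dfeat_dot] at hcorr
  rw [← hmdef] at hcorr
  obtain ⟨σ, hσ⟩ : ∃ σ : E → ℝ, ∀ e, σ e = ∑ a, T (x (s e) a) ⬝ᵥ T (y (t e) (π e a)) :=
    ⟨_, fun _ => rfl⟩
  simp only [← hσ] at htr
  have g1 : m * (1 - ε - 4 ^ n * δ) ≤ ∑ e, σ e := by
    have : 4 ^ n * (δ * m) = m * (4 ^ n * δ) := by ring
    rw [this] at htr
    linarith
  have g2 : (∑ e, σ e) ^ 2 ≤ m * ∑ e, σ e ^ 2 := by
    have := sq_sum_le_card_mul_sum_sq (s := (Finset.univ : Finset E)) (f := σ)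
    rw [Finset.card_univ, ← hmdef] at this
    exact this
  have g3 : ∑ e, σ e ^ 2 ≤ Real.sqrt d * ∑ e, dker T (x (s e)) (y (t e)) := by
    rw [Finset.mul_sum]
    refine Finset.sum_le_sum fun e _ => ?_
    rw [hσ]
    exact dker_edge T (hx _) (hy _) (π e) d (hfib e)
  have g4 : (m * (1 - ε - 4 ^ n * δ)) ^ 2 ≤ (∑ e, σ e) ^ 2 :=
    pow_le_pow_left₀ (mul_nonneg hm.le (by linarith)) g1 2
  have g5 : m ^ 2 * (1 - ε - 4 ^ n * δ) ^ 2 ≤ m ^ 2 * (Real.sqrt d *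
      ((1 - lam) + 2 * Real.sqrt (r * (2 / (2 * n + 1))))) := by
    calc m ^ 2 * (1 - ε - 4 ^ n * δ) ^ 2 = (m * (1 - ε - 4 ^ n * δ)) ^ 2 := by ring
      _ ≤ (∑ e, σ e) ^ 2 := g4
      _ ≤ m * ∑ e, σ e ^ 2 := g2
      _ ≤ m * (Real.sqrt d * ∑ e, dker T (x (s e)) (y (t e))) :=
          mul_le_mul_of_nonneg_left g3 hm.le
      _ ≤ m * (Real.sqrt d * (m * ((1 - lam) +
            2 * Real.sqrt (r * (2 / (2 * n + 1)))))) :=
          mul_le_mul_of_nonneg_left (mul_le_mul_of_nonneg_left hcorr (Real.sqrt_nonneg _)) hm.le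
      _ = _ := by ring
  exact le_of_mul_le_mul_left g5 (by positivity)

/-- Explicit lower bound on the value, bounded threshold rank. -/
theorem value_rank [Nonempty E] (s : E → U) (t : E → V) (π : E → A → B) (d : ℕ) (hd : 1 ≤ d)
    (hfib : ∀ e b, (Finset.univ.filter fun a => π e a = b).card ≤ d) (lam ε Δ : ℝ) (r : ℕ)
    (hlam1 : lam ≤ 1) (hgap : RankGap s t lam r) {x : U → A → D → ℝ} {y : V → B → D → ℝ}
    (h : SdpFeasible x y) (hε0 : 0 ≤ ε) (hε1 : ε ≤ 1) (hΔ : 0 < Δ)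
    (hth : Real.sqrt d * (1 - lam + Δ) ≤ (1 - ε) ^ 2)
    (hval : (1 - ε) * Fintype.card E ≤ ∑ e, ∑ a, x (s e) a ⬝ᵥ y (t e) (π e a)) :
    ∃ (L : U → A) (M : V → B),
      Δ / 16 * (2 : ℝ) ^ (-(32 * r / Δ ^ 2)) * Fintype.card E ≤
        ((Finset.univ.filter fun e => π e (L (s e)) = M (t e)).card : ℝ) := by
  by_contra hcon
  push Not at hcon
  obtain ⟨n, hn⟩ : ∃ n : ℕ, n = ⌈16 * r / Δ ^ 2⌉₊ := ⟨_, rfl⟩
  obtain ⟨δ, hδ⟩ : ∃ δ : ℝ, δ = Δ / 16 * (2 : ℝ) ^ (-(32 * r / Δ ^ 2)) := ⟨_, rfl⟩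
  have hd1 : 1 ≤ Real.sqrt d := by
    rw [Real.one_le_sqrt]
    exact_mod_cast hd
  have hr0 : (0 : ℝ) ≤ r := Nat.cast_nonneg r
  have hnle : 16 * r / Δ ^ 2 ≤ n := hn ▸ Nat.le_ceil _
  have hnlt : (n : ℝ) < 16 * r / Δ ^ 2 + 1 := hn ▸ Nat.ceil_lt_add_one (by positivity)
  have hs : 2 * Real.sqrt (r * (2 / (2 * n + 1))) ≤ Δ / 2 := by
    have h1 : r * (2 / (2 * n + 1) : ℝ) ≤ (Δ / 4) ^ 2 := by
      rw [div_le_iff₀ (by positivity)] at hnle
      rw [mul_div_assoc', div_le_iff₀ (by positivity)]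
      nlinarith [pow_pos hΔ 2]
    have h3 : Real.sqrt (r * (2 / (2 * n + 1) : ℝ)) ≤ Δ / 4 :=
      Real.sqrt_le_iff.mpr ⟨by positivity, h1⟩
    linarith
  have h4n : 4 ^ n * δ < Δ / 4 := by
    have h1 : (4 : ℝ) ^ n = (2 : ℝ) ^ (2 * (n : ℝ)) := by
      rw [Real.rpow_mul (by norm_num), Real.rpow_natCast]
      norm_num
    have h2 : (4 : ℝ) ^ n * δ = Δ / 16 * (2 : ℝ) ^ (2 * (n : ℝ) + -(32 * r / Δ ^ 2)) := by
      rw [hδ, h1, Real.rpow_add (by norm_num)]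
      ring
    have h3 : 2 * (n : ℝ) + -(32 * r / Δ ^ 2) < 2 := by
      have : (32 * r / Δ ^ 2 : ℝ) = 2 * (16 * r / Δ ^ 2) := by ring
      rw [this]
      linarith
    have h4 : (2 : ℝ) ^ (2 * (n : ℝ) + -(32 * r / Δ ^ 2)) < (2 : ℝ) ^ (2 : ℝ) :=
      Real.rpow_lt_rpow_of_exponent_lt (by norm_num) h3
    have h5 : (2 : ℝ) ^ (2 : ℝ) = 4 := by norm_num
    rw [h2]
    rw [h5] at h4
    nlinarith
  have hδ0 : 0 < δ := by rw [hδ]; positivity
  have h4n0 : 0 < 4 ^ n * δ := by positivity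
  have h1ε : Δ ≤ (1 - ε) ^ 2 := by
    have : 0 ≤ 1 - lam := by linarith
    nlinarith
  have h1ε' : Δ ≤ 1 - ε := by nlinarith
  have hmain := main_rank s t π d hfib lam ε δ r hlam1 hgap h hval
    (fun L M => by rw [hδ]; exact (hcon L M).le) n (by linarith)
  have h6 : Real.sqrt d * ((1 - lam) + 2 * Real.sqrt (r * (2 / (2 * n + 1)))) ≤
      Real.sqrt d * ((1 - lam) + Δ / 2) :=
    mul_le_mul_of_nonneg_left (by linarith) (Real.sqrt_nonneg _)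
  have h7 : (1 - ε) ^ 2 - Δ / 2 < (1 - ε - 4 ^ n * δ) ^ 2 := by
    nlinarith [sq_nonneg (4 ^ n * δ)]
  nlinarith

end Main

end Pool.Agent.H818R3.Defl
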