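import Mathlib
import Pool.Agent.H818R3.RankB

/-!
Two-step deflation: polynomial lower bounds for the value of games on graphs of bounded threshold
rank.
-/

set_option autoImplicit false

namespace Pool.Agent.H818R3.Defl

open Finset Pool.Agent.H562R2

/-- At most `r` singular values larger than `1 - lam` (one-sided variational form). -/
def FewLarge {U V E : Type} [Fintype E] (s : E → U) (t : E → V) (lam : ℝ) (r : ℕ) : Prop :=
  ∃ f : Fin r → U → ℝ,
    (∀ i j, ∑ e, f i (s e) * f j (s e) = if i = j then (Fintype.card E : ℝ) else 0) ∧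
    ∀ (p : U → ℝ) (q : V → ℝ), (∀ i, ∑ e, p (s e) * f i (s e) = 0) →
      2 * ∑ e, p (s e) * q (t e) ≤ (1 - lam) * (∑ e, p (s e) ^ 2 + ∑ e, q (t e) ^ 2)

section Avg

variable {V E : Type} [Fintype V] [DecidableEq V] [Fintype E]

/-- Number of edges at a vertex. -/
def dg (t : E → V) (v : V) : ℝ := ((Finset.univ.filter fun e => t e = v).card : ℝ)

/-- Average over the edges at a vertex. -/
noncomputable def avg (t : E → V) (φ : E → ℝ) (v : V) : ℝ :=
  (∑ e ∈ Finset.univ.filter (fun e => t e = v), φ e) / dg t v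

theorem dg_pos (t : E → V) (e : E) : 0 < dg t (t e) := by
  unfold dg
  exact_mod_cast Finset.card_pos.mpr ⟨e, by simp⟩

theorem avg_adj (t : E → V) (φ : E → ℝ) (q : V → ℝ) :
    ∑ e, φ e * q (t e) = ∑ e, avg t φ (t e) * q (t e) := by
  have h : ∀ ψ : E → ℝ, ∑ e, ψ e = ∑ v, ∑ e ∈ Finset.univ.filter (fun e => t e = v), ψ e :=
    fun ψ => (Finset.sum_fiberwise _ _ _).symm
  rw [h, h (fun e => avg t φ (t e) * q (t e))]
  refine Finset.sum_congr rfl fun v _ => ?_
  have h1 : ∑ e ∈ Finset.univ.filter (fun e => t e = v), φ e * q (t e) =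
      (∑ e ∈ Finset.univ.filter (fun e => t e = v), φ e) * q v := by
    rw [Finset.sum_mul]
    refine Finset.sum_congr rfl fun e he => ?_
    rw [(Finset.mem_filter.mp he).2]
  have h2 : ∑ e ∈ Finset.univ.filter (fun e => t e = v), avg t φ (t e) * q (t e) =
      dg t v * (avg t φ v * q v) := by
    rw [dg, ← nsmul_eq_mul, ← Finset.sum_const]
    refine Finset.sum_congr rfl fun e he => ?_
    rw [(Finset.mem_filter.mp he).2]
  rw [h1, h2]
  by_cases h0 : dg t v = 0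
  · have hemp : Finset.univ.filter (fun e => t e = v) = ∅ := by
      unfold dg at h0
      have h0' : (Finset.univ.filter fun e => t e = v).card = 0 := by exact_mod_cast h0
      exact Finset.card_eq_zero.mp h0'
    rw [hemp, Finset.sum_empty, h0]; simp
  · unfold avg
    field_simp

theorem avg_sum_eq (t : E → V) (φ : E → ℝ) :
    ∑ e, φ e * avg t φ (t e) = ∑ e, avg t φ (t e) ^ 2 := by
  rw [avg_adj]
  exact Finset.sum_congr rfl fun e _ => by ring

theorem avg_contr (t : E → V) (φ : E → ℝ) : ∑ e, avg t φ (t e) ^ 2 ≤ ∑ e, φ e ^ 2 := by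
  have h1 := avg_sum_eq t φ
  have h2 : 0 ≤ ∑ e, (φ e - avg t φ (t e)) ^ 2 := Finset.sum_nonneg fun e _ => sq_nonneg _
  have h3 : ∑ e, (φ e - avg t φ (t e)) ^ 2 =
      ∑ e, φ e ^ 2 - 2 * ∑ e, φ e * avg t φ (t e) + ∑ e, avg t φ (t e) ^ 2 := by
    rw [Finset.mul_sum, ← Finset.sum_sub_distrib, ← Finset.sum_add_distrib]
    refine Finset.sum_congr rfl fun e _ => ?_
    ring
  rw [h3, h1] at h2
  linarith

theorem avg_add (t : E → V) (φ ψ : E → ℝ) (v : V) :
    avg t (fun e => φ e + ψ e) v = avg t φ v + avg t ψ v := by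
  unfold avg
  rw [Finset.sum_add_distrib, add_div]

theorem avg_sum {I : Type} (S : Finset I) (t : E → V) (φ : I → E → ℝ) (v : V) :
    avg t (fun e => ∑ i ∈ S, φ i e) v = ∑ i ∈ S, avg t (φ i) v := by
  unfold avg
  rw [Finset.sum_comm, Finset.sum_div]

theorem avg_mul (t : E → V) (c : ℝ) (φ : E → ℝ) (v : V) :
    avg t (fun e => c * φ e) v = c * avg t φ v := by
  unfold avg
  rw [← Finset.mul_sum, mul_div_assoc]

theorem avg_nonneg (t : E → V) (φ : E → ℝ) (h : ∀ e, 0 ≤ φ e) (v : V) : 0 ≤ avg t φ v :=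
  div_nonneg (Finset.sum_nonneg fun e _ => h e) (Nat.cast_nonneg _)

theorem avg_const (t : E → V) (c : ℝ) (v : V) (h : ∃ e, t e = v) :
    avg t (fun _ => c) v = c := by
  obtain ⟨e, rfl⟩ := h
  have := dg_pos t e
  unfold avg
  rw [Finset.sum_const, nsmul_eq_mul]
  change dg t (t e) * c / dg t (t e) = c
  field_simp

end Avg

section Up

variable {U V E J : Type} [Fintype V] [DecidableEq V] [Fintype E] [Fintype J] {r : ℕ}

theorem avg_gap {s : E → U} {t : E → V} {lam : ℝ} (hlam : lam ≤ 1) {f : Fin r → U → ℝ}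
    (hgap : ∀ (p : U → ℝ) (q : V → ℝ), (∀ i, ∑ e, p (s e) * f i (s e) = 0) →
      2 * ∑ e, p (s e) * q (t e) ≤ (1 - lam) * (∑ e, p (s e) ^ 2 + ∑ e, q (t e) ^ 2))
    (p : U → ℝ) (hp : ∀ i, ∑ e, p (s e) * f i (s e) = 0) :
    ∑ e, avg t (fun e => p (s e)) (t e) ^ 2 ≤ (1 - lam) ^ 2 * ∑ e, p (s e) ^ 2 := by
  obtain ⟨Q, hQ⟩ : ∃ Q, Q = ∑ e, avg t (fun e => p (s e)) (t e) ^ 2 := ⟨_, rfl⟩
  have h1 : ∑ e, p (s e) * avg t (fun e => p (s e)) (t e) = Q := by
    rw [hQ]; exact avg_sum_eq t (fun e => p (s e))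
  have key : ∀ β : ℝ, 2 * (β * Q) ≤ (1 - lam) * (∑ e, p (s e) ^ 2 + β ^ 2 * Q) := by
    intro β
    have h2 := hgap p (fun v => β * avg t (fun e => p (s e)) v) hp
    have h3 : ∑ e, p (s e) * (β * avg t (fun e => p (s e)) (t e)) = β * Q := by
      rw [← h1, Finset.mul_sum]
      exact Finset.sum_congr rfl fun e _ => by ring
    have h4 : ∑ e, (β * avg t (fun e => p (s e)) (t e)) ^ 2 = β ^ 2 * Q := by
      rw [hQ, Finset.mul_sum]
      exact Finset.sum_congr rfl fun e _ => by ring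
    rw [h3, h4] at h2
    exact h2
  rw [← hQ]
  rcases (sub_nonneg.mpr hlam).lt_or_eq with h0 | h0
  · have h2 := key (1 / (1 - lam))
    have h3 : (1 - lam) * (∑ e, p (s e) ^ 2 + (1 / (1 - lam)) ^ 2 * Q) =
        (1 - lam) * ∑ e, p (s e) ^ 2 + (1 / (1 - lam)) * Q := by
      field_simp
    rw [h3] at h2
    have h4 : (1 / (1 - lam)) * Q ≤ (1 - lam) * ∑ e, p (s e) ^ 2 := by linarith
    rw [one_div, inv_mul_le_iff₀ h0] at h4
    calc Q ≤ (1 - lam) * ((1 - lam) * ∑ e, p (s e) ^ 2) := h4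
      _ = _ := by ring
  · have h2 := key 1
    rw [← h0] at h2 ⊢
    have hp0 : 0 ≤ ∑ e, p (s e) ^ 2 := Finset.sum_nonneg fun e _ => sq_nonneg _
    nlinarith

/-- Upper bound on the mean square of the averaged vectors. -/
theorem avg_rank [Nonempty E] (s : E → U) (t : E → V) (lam : ℝ) (hlam : lam ≤ 1)
    (hgap : FewLarge s t lam r) (Y : U → J → ℝ)
    (hY : ∀ u, ∑ j, Y u j ^ 2 ≤ 1) (κ : ℝ) (hκ0 : 0 ≤ κ)
    (hYκ : ∀ φ : E → ℝ, ∑ e, ∑ e', φ e * φ e' * ∑ j, Y (s e) j * Y (s e') j ≤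
      κ * Fintype.card E * ∑ e, φ e ^ 2) :
    ∑ e, ∑ j, avg t (fun e => Y (s e) j) (t e) ^ 2 ≤
      Fintype.card E * ((1 - lam) + Real.sqrt (r * κ)) ^ 2 := by
  obtain ⟨f, hf, hgap⟩ := hgap
  have hm : (0 : ℝ) < Fintype.card E := by exact_mod_cast Fintype.card_pos
  obtain ⟨Yt, hYt⟩ : ∃ Yt : U → J → ℝ, ∀ x j, Yt x j =
      ∑ i, f i x * ((∑ e, f i (s e) * Y (s e) j) / Fintype.card E) := ⟨_, fun _ _ => rfl⟩
  have hYs := top_small s f hf Y κ hYκ Yt hYt
  obtain ⟨m, hmdef⟩ : ∃ m : ℝ, m = Fintype.card E := ⟨_, rfl⟩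
  have hcard : ∀ c : ℝ, ∑ _e : E, c = m * c := by
    intro c
    rw [Finset.sum_const, Finset.card_univ, nsmul_eq_mul, hmdef]
  have hYm : ∑ e, ∑ j, Y (s e) j ^ 2 ≤ m := by
    calc ∑ e, ∑ j, Y (s e) j ^ 2 ≤ ∑ _e : E, (1 : ℝ) := Finset.sum_le_sum fun e _ => hY _
      _ = m := by rw [hcard, mul_one]
  have hYm' : ∑ e, ∑ j, (Y (s e) j - Yt (s e) j) ^ 2 ≤ m := by
    refine le_trans ?_ hYm
    rw [Finset.sum_comm, Finset.sum_comm (s := (Finset.univ : Finset E))]
    exact Finset.sum_le_sum fun j _ => top_norm s f hf Y Yt hYt j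
  rw [← hmdef] at hYs hm ⊢
  obtain ⟨b, hb⟩ : ∃ b : ℝ, b = r * κ := ⟨_, rfl⟩
  have hb0 : 0 ≤ b := by rw [hb]; positivity
  rw [← hb] at hYs ⊢
  -- the two parts
  have h1 : ∑ e, ∑ j, avg t (fun e => Yt (s e) j) (t e) ^ 2 ≤ m * b := by
    refine le_trans ?_ hYs
    rw [Finset.sum_comm, Finset.sum_comm (s := (Finset.univ : Finset E))]
    exact Finset.sum_le_sum fun j _ => avg_contr t (fun e => Yt (s e) j)
  have h2 : ∑ e, ∑ j, avg t (fun e => Y (s e) j - Yt (s e) j) (t e) ^ 2 ≤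
      m * (1 - lam) ^ 2 := by
    rw [Finset.sum_comm]
    calc ∑ j, ∑ e, avg t (fun e => Y (s e) j - Yt (s e) j) (t e) ^ 2
        ≤ ∑ j, (1 - lam) ^ 2 * ∑ e, (Y (s e) j - Yt (s e) j) ^ 2 := by
          refine Finset.sum_le_sum fun j _ => ?_
          exact avg_gap hlam hgap (fun u => Y u j - Yt u j)
            (fun i => top_orth s f hf Y Yt hYt j i)
      _ = (1 - lam) ^ 2 * ∑ e, ∑ j, (Y (s e) j - Yt (s e) j) ^ 2 := by
          rw [← Finset.mul_sum, Finset.sum_comm]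
      _ ≤ (1 - lam) ^ 2 * m := mul_le_mul_of_nonneg_left hYm' (sq_nonneg _)
      _ = _ := by ring
  have h3 : ∀ e j, avg t (fun e => Y (s e) j) (t e) =
      avg t (fun e => Y (s e) j - Yt (s e) j) (t e) + avg t (fun e => Yt (s e) j) (t e) := by
    intro e j
    rw [← avg_add]
    congr 1
    funext e'
    ring
  obtain ⟨a, ha⟩ : ∃ a : E → J → ℝ, ∀ e j, a e j =
      avg t (fun e => Y (s e) j - Yt (s e) j) (t e) := ⟨_, fun _ _ => rfl⟩
  obtain ⟨c, hc⟩ : ∃ c : E → J → ℝ, ∀ e j, c e j = avg t (fun e => Yt (s e) j) (t e) :=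
    ⟨_, fun _ _ => rfl⟩
  simp only [h3]
  simp only [← ha] at h2 ⊢
  simp only [← hc] at h1 ⊢
  have h4 : ∑ e, ∑ j, a e j * c e j ≤ m * ((1 - lam) * Real.sqrt b) := by
    have h5 := Finset.sum_mul_sq_le_sq_mul_sq (Finset.univ : Finset (E × J))
      (fun p => a p.1 p.2) (fun p => c p.1 p.2)
    rw [Fintype.sum_prod_type, Fintype.sum_prod_type, Fintype.sum_prod_type] at h5
    have h6 : (∑ e, ∑ j, a e j * c e j) ^ 2 ≤ (m * (1 - lam)) ^ 2 * b := by
      refine h5.trans ?_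
      calc (∑ e, ∑ j, a e j ^ 2) * ∑ e, ∑ j, c e j ^ 2 ≤ (m * (1 - lam) ^ 2) * (m * b) :=
            mul_le_mul h2 h1 (Finset.sum_nonneg fun _ _ => Finset.sum_nonneg fun _ _ =>
              sq_nonneg _) (by positivity)
        _ = (m * (1 - lam)) ^ 2 * b := by ring
    have h7 := Real.le_sqrt_of_sq_le h6
    rw [Real.sqrt_mul (sq_nonneg _), Real.sqrt_sq (mul_nonneg hm.le (by linarith))] at h7
    calc _ ≤ m * (1 - lam) * Real.sqrt b := h7
      _ = _ := by ring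
  have h5 : ∑ e, ∑ j, (a e j + c e j) ^ 2 =
      ∑ e, ∑ j, a e j ^ 2 + 2 * ∑ e, ∑ j, a e j * c e j + ∑ e, ∑ j, c e j ^ 2 := by
    rw [Finset.mul_sum, ← Finset.sum_add_distrib, ← Finset.sum_add_distrib]
    refine Finset.sum_congr rfl fun e _ => ?_
    rw [Finset.mul_sum, ← Finset.sum_add_distrib, ← Finset.sum_add_distrib]
    refine Finset.sum_congr rfl fun j _ => ?_
    ring
  rw [h5]
  have h6 : Real.sqrt b ^ 2 = b := Real.sq_sqrt hb0
  nlinarith

end Up

section Low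

variable {A A' B D : Type} [Fintype A] [Fintype A'] [Fintype B] [DecidableEq B] [Fintype D]

/-- Two-step edge estimate for the deflated kernel. -/
theorem two_edge (T : Module.End ℝ (D → ℝ)) {z : D → ℝ} {x : A → D → ℝ} {x' : A' → D → ℝ}
    (hx : Fam z x) (hx' : Fam z x') (π : A → B) (π' : A' → B) (d : ℕ)
    (hfib : ∀ b, (Finset.univ.filter fun a => π a = b).card ≤ d)
    (hfib' : ∀ b, (Finset.univ.filter fun a => π' a = b).card ≤ d) :
    (∑ a, ∑ a', if π a = π' a' then T (x a) ⬝ᵥ T (x' a') else 0) ^ 2 ≤ d * dker T x x' := by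
  have hz0 : ∀ v : D → ℝ, v ⬝ᵥ v = 0 → v = 0 := fun v hv => dotProduct_self_eq_zero.mp hv
  have h1 := Finset.sum_sq_le_sum_mul_sum_of_sq_le_mul (Finset.univ : Finset (A × A'))
    (r := fun p => if π p.1 = π' p.2 then T (x p.1) ⬝ᵥ T (x' p.2) else 0)
    (f := fun p => if π p.1 = π' p.2 then
      Real.sqrt (x p.1 ⬝ᵥ x p.1) * Real.sqrt (x' p.2 ⬝ᵥ x' p.2) else 0)
    (g := fun p => (T (x p.1) ⬝ᵥ T (x' p.2)) ^ 2 /
      (Real.sqrt (x p.1 ⬝ᵥ x p.1) * Real.sqrt (x' p.2 ⬝ᵥ x' p.2)))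
    (fun p _ => by split_ifs <;> positivity)
    (fun p _ => by positivity)
    (fun p _ => by
      split_ifs with hp
      · by_cases h : Real.sqrt (x p.1 ⬝ᵥ x p.1) * Real.sqrt (x' p.2 ⬝ᵥ x' p.2) = 0
        · rw [h, zero_mul]
          rcases mul_eq_zero.mp h with h' | h'
          · rw [Real.sqrt_eq_zero (dot_self_nonneg _)] at h'
            rw [hz0 _ h', map_zero, zero_dotProduct]; simp
          · rw [Real.sqrt_eq_zero (dot_self_nonneg _)] at h'
            rw [hz0 _ h', map_zero, dotProduct_zero]; simp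
        · rw [mul_div_assoc', mul_div_cancel_left₀ _ h]
      · simp)
  rw [Fintype.sum_prod_type, Fintype.sum_prod_type, Fintype.sum_prod_type] at h1
  have h2 : ∑ a, ∑ a', (if π a = π' a' then
      Real.sqrt (x a ⬝ᵥ x a) * Real.sqrt (x' a' ⬝ᵥ x' a') else 0) ≤ d := by
    have e1 : ∀ a a', (if π a = π' a' then
        Real.sqrt (x a ⬝ᵥ x a) * Real.sqrt (x' a' ⬝ᵥ x' a') else 0) ≤
        (if π' a' = π a then x a ⬝ᵥ x a else 0) / 2 +
          (if π a = π' a' then x' a' ⬝ᵥ x' a' else 0) / 2 := by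
      intro a a'
      by_cases h : π a = π' a'
      · rw [if_pos h, if_pos h, if_pos h.symm]
        have e1 := Real.sq_sqrt (dot_self_nonneg (x a))
        have e2 := Real.sq_sqrt (dot_self_nonneg (x' a'))
        nlinarith [sq_nonneg (Real.sqrt (x a ⬝ᵥ x a) - Real.sqrt (x' a' ⬝ᵥ x' a'))]
      · rw [if_neg h, if_neg h, if_neg (fun h' => h h'.symm)]; simp
    have e2 : ∑ a, ∑ a', (if π' a' = π a then x a ⬝ᵥ x a else 0) ≤ d := by
      calc ∑ a, ∑ a', (if π' a' = π a then x a ⬝ᵥ x a else 0)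
          = ∑ a, ((Finset.univ.filter fun a' => π' a' = π a).card : ℝ) * (x a ⬝ᵥ x a) := by
            refine Finset.sum_congr rfl fun a _ => ?_
            rw [← Finset.sum_filter, Finset.sum_const, nsmul_eq_mul]
        _ ≤ ∑ a, (d : ℝ) * (x a ⬝ᵥ x a) := by
            refine Finset.sum_le_sum fun a _ => ?_
            exact mul_le_mul_of_nonneg_right (by exact_mod_cast hfib' _) (dot_self_nonneg _)
        _ = d := by rw [← Finset.mul_sum, hx.sum_norm, mul_one]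
    have e3 : ∑ a, ∑ a', (if π a = π' a' then x' a' ⬝ᵥ x' a' else 0) ≤ d := by
      rw [Finset.sum_comm]
      calc ∑ a', ∑ a, (if π a = π' a' then x' a' ⬝ᵥ x' a' else 0)
          = ∑ a', ((Finset.univ.filter fun a => π a = π' a').card : ℝ) * (x' a' ⬝ᵥ x' a') := by
            refine Finset.sum_congr rfl fun a _ => ?_
            rw [← Finset.sum_filter, Finset.sum_const, nsmul_eq_mul]
        _ ≤ ∑ a', (d : ℝ) * (x' a' ⬝ᵥ x' a') := by
            refine Finset.sum_le_sum fun a _ => ?_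
            exact mul_le_mul_of_nonneg_right (by exact_mod_cast hfib _) (dot_self_nonneg _)
        _ = d := by rw [← Finset.mul_sum, hx'.sum_norm, mul_one]
    have e4 := Finset.sum_le_sum fun a (_ : a ∈ (Finset.univ : Finset A)) =>
      Finset.sum_le_sum fun a' (_ : a' ∈ (Finset.univ : Finset A')) => e1 a a'
    refine e4.trans ?_
    simp only [Finset.sum_add_distrib, ← Finset.sum_div]
    linarith
  have h5 : 0 ≤ dker T x x' :=
    Finset.sum_nonneg fun a _ => Finset.sum_nonneg fun b _ => by positivity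
  refine h1.trans ?_
  exact mul_le_mul_of_nonneg_right h2 h5

end Low

end Pool.Agent.H818R3.Defl
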