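import Mathlib
import Pool.Agent.H818R3.Two

/-!
Two-step deflation: polynomial lower bounds for the value of games on graphs of bounded threshold
rank.
-/

set_option autoImplicit false

namespace Pool.Agent.H818R3.Defl

open Finset Pool.Agent.H562R2

section VAvg

variable {V E D : Type} [Fintype V] [DecidableEq V] [Fintype E] [Fintype D]

/-- Vector average over the edges at a vertex. -/
noncomputable def vavg (t : E → V) (F : E → D → ℝ) (v : V) : D → ℝ :=
  (dg t v)⁻¹ • ∑ e ∈ Finset.univ.filter (fun e => t e = v), F e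

theorem vavg_dot (t : E → V) (F : E → D → ℝ) (g : D → ℝ) (v : V) :
    g ⬝ᵥ vavg t F v = avg t (fun e => g ⬝ᵥ F e) v := by
  rw [vavg, dotProduct_smul, dotProduct_sum, smul_eq_mul, avg, div_eq_inv_mul]

theorem vavg_map (t : E → V) (F : E → D → ℝ) (T : Module.End ℝ (D → ℝ)) (v : V) :
    T (vavg t F v) = vavg t (fun e => T (F e)) v := by
  rw [vavg, map_smul, map_sum, vavg]

theorem vavg_adj (t : E → V) (F : E → D → ℝ) (q : V → D → ℝ) :
    ∑ e, F e ⬝ᵥ q (t e) = ∑ e, vavg t F (t e) ⬝ᵥ q (t e) := by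
  have h1 : ∀ e, vavg t F (t e) ⬝ᵥ q (t e) = ∑ i, avg t (fun e => F e i) (t e) * q (t e) i := by
    intro e
    rw [dotProduct]
    refine Finset.sum_congr rfl fun i _ => ?_
    congr 1
    rw [vavg, Pi.smul_apply, Finset.sum_apply, smul_eq_mul, avg, div_eq_inv_mul]
  simp only [h1]
  rw [Finset.sum_comm]
  simp only [dotProduct]
  rw [Finset.sum_comm]
  refine Finset.sum_congr rfl fun i _ => ?_
  exact avg_adj t (fun e => F e i) (fun v => q v i)

theorem avg_mono (t : E → V) {φ ψ : E → ℝ} (h : ∀ e, φ e ≤ ψ e) (v : V) :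
    avg t φ v ≤ avg t ψ v :=
  div_le_div_of_nonneg_right (Finset.sum_le_sum fun e _ => h e) (Nat.cast_nonneg _)

theorem avg_sq_le (t : E → V) (φ : E → ℝ) (v : V) :
    avg t φ v ^ 2 ≤ avg t (fun e => φ e ^ 2) v := by
  unfold avg
  have h := sq_sum_le_card_mul_sum_sq (s := Finset.univ.filter (fun e => t e = v)) (f := φ)
  change _ ≤ dg t v * _ at h
  have hd : 0 ≤ dg t v := Nat.cast_nonneg _
  rcases hd.lt_or_eq with h0 | h0
  · rw [div_pow, div_le_div_iff₀ (by positivity) h0]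
    nlinarith
  · rw [← h0]; simp

end VAvg

section Fib

variable {U V E A B D : Type} [Fintype V] [Fintype E] [Fintype A] [Fintype B]
  [DecidableEq V] [DecidableEq B] [Fintype D]

/-- Sum of the label vectors over a fibre. -/
def fib (s : E → U) (π : E → A → B) (x : U → A → D → ℝ) (b : B) (e : E) : D → ℝ :=
  ∑ a ∈ Finset.univ.filter (fun a => π e a = b), x (s e) a

/-- Averaged fibre vectors. -/
noncomputable def xb (s : E → U) (t : E → V) (π : E → A → B) (x : U → A → D → ℝ) (v : V)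
    (b : B) : D → ℝ :=
  vavg t (fib s π x b) v

theorem fib_sum (s : E → U) (π : E → A → B) (x : U → A → D → ℝ) (e : E) (g : D → ℝ)
    (c : B → ℝ) : ∑ b, (g ⬝ᵥ fib s π x b e) * c b = ∑ a, (g ⬝ᵥ x (s e) a) * c (π e a) := by
  have h : ∀ b, (g ⬝ᵥ fib s π x b e) * c b =
      ∑ a ∈ Finset.univ.filter (fun a => π e a = b), (g ⬝ᵥ x (s e) a) * c (π e a) := by
    intro b
    rw [fib, dotProduct_sum, Finset.sum_mul]
    refine Finset.sum_congr rfl fun a ha => ?_
    rw [(Finset.mem_filter.mp ha).2]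
  simp only [h]
  exact Finset.sum_fiberwise _ _ _

theorem fib_dot (s : E → U) (π : E → A → B) (x : U → A → D → ℝ) (e : E)
    (F : B → D → ℝ) : ∑ b, fib s π x b e ⬝ᵥ F b = ∑ a, x (s e) a ⬝ᵥ F (π e a) := by
  have h : ∀ b, fib s π x b e ⬝ᵥ F b =
      ∑ a ∈ Finset.univ.filter (fun a => π e a = b), x (s e) a ⬝ᵥ F (π e a) := by
    intro b
    rw [fib, sum_dotProduct]
    refine Finset.sum_congr rfl fun a ha => ?_
    rw [(Finset.mem_filter.mp ha).2]
  simp only [h]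
  exact Finset.sum_fiberwise _ _ _

theorem xb_val (s : E → U) (t : E → V) (π : E → A → B) (x : U → A → D → ℝ)
    (y : V → B → D → ℝ) :
    ∑ e, ∑ b, xb s t π x (t e) b ⬝ᵥ y (t e) b = ∑ e, ∑ a, x (s e) a ⬝ᵥ y (t e) (π e a) := by
  rw [Finset.sum_comm]
  have h : ∀ b, ∑ e, xb s t π x (t e) b ⬝ᵥ y (t e) b = ∑ e, fib s π x b e ⬝ᵥ y (t e) b := fun b =>
    (vavg_adj t (fib s π x b) (fun v => y v b)).symm
  simp only [h]
  rw [Finset.sum_comm]
  exact Finset.sum_congr rfl fun e _ => fib_dot s π x e (fun b => y (t e) b)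

theorem xb_sq (s : E → U) (t : E → V) (π : E → A → B) (x : U → A → D → ℝ)
    (T : Module.End ℝ (D → ℝ)) :
    ∑ e, ∑ b, T (xb s t π x (t e) b) ⬝ᵥ T (xb s t π x (t e) b) =
      ∑ e, avg t (fun e' => ∑ b, T (fib s π x b e) ⬝ᵥ T (fib s π x b e')) (t e) := by
  rw [Finset.sum_comm]
  have h : ∀ b, ∑ e, T (xb s t π x (t e) b) ⬝ᵥ T (xb s t π x (t e) b) =
      ∑ e, T (fib s π x b e) ⬝ᵥ T (xb s t π x (t e) b) := by
    intro b
    have h := vavg_adj t (fun e => T (fib s π x b e)) (fun v => T (xb s t π x v b))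
    simp only [← vavg_map] at h
    exact h.symm
  simp only [h]
  rw [Finset.sum_comm]
  refine Finset.sum_congr rfl fun e _ => ?_
  rw [avg_sum]
  refine Finset.sum_congr rfl fun b _ => ?_
  rw [xb, vavg_map, vavg_dot]

/-- The averaged vectors have small correlation with every seed. -/
theorem seed_two [Fintype U] [DecidableEq U] [DecidableEq A] (s : E → U) (t : E → V)
    (π : E → A → B) {x : U → A → D → ℝ} {y : V → B → D → ℝ} {z : D → ℝ}
    (hx : ∀ u, Fam z (x u)) (hy : ∀ v, Fam z (y v)) (bd : ℝ)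
    (hbd : ∀ (L : U → A) (M : V → B),
      ((Finset.univ.filter fun e => π e (L (s e)) = M (t e)).card : ℝ) ≤ bd)
    (g : D → ℝ) (hg : ∀ u a, 0 ≤ g ⬝ᵥ x u a) (hh : ∀ v b, 0 ≤ g ⬝ᵥ y v b)
    (hgz : g ⬝ᵥ z = g ⬝ᵥ g) :
    ∑ e, ∑ b, (g ⬝ᵥ xb s t π x (t e) b) ^ 2 ≤ bd * (g ⬝ᵥ g) ^ 2 := by
  classical
  rcases (dot_self_nonneg g).lt_or_eq with h0 | h0
  · have hfn : ∀ b e, 0 ≤ g ⬝ᵥ fib s π x b e := by
      intro b e
      rw [fib, dotProduct_sum]
      exact Finset.sum_nonneg fun a _ => hg _ _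
    have hxn : ∀ v b, 0 ≤ g ⬝ᵥ xb s t π x v b := by
      intro v b
      rw [xb, vavg_dot]
      exact avg_nonneg t _ (fun e => hfn b e) v
    have hsum : ∀ v, (∃ e, t e = v) → ∑ b, g ⬝ᵥ xb s t π x v b = g ⬝ᵥ g := by
      intro v hv
      have h1 : ∀ b, g ⬝ᵥ xb s t π x v b = avg t (fun e => g ⬝ᵥ fib s π x b e) v := fun b => by
        rw [xb, vavg_dot]
      simp only [h1]
      rw [← avg_sum Finset.univ t (fun b e => g ⬝ᵥ fib s π x b e) v]
      have h2 : (fun e => ∑ b, g ⬝ᵥ fib s π x b e) = fun _ => g ⬝ᵥ g := by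
        funext e
        have h3 := fib_sum s π x e g (fun _ => 1)
        simp only [mul_one] at h3
        rw [h3, ← dotProduct_sum, (hx _).sum, hgz]
      rw [h2]
      exact avg_const t _ v hv
    obtain ⟨L, M, hLM⟩ := derand s t π (fun w a => (g ⬝ᵥ x w a) / (g ⬝ᵥ g))
      (fun w b => if ∃ e, t e = w then (g ⬝ᵥ xb s t π x w b) / (g ⬝ᵥ g)
        else (g ⬝ᵥ y w b) / (g ⬝ᵥ g))
      (fun w a => div_nonneg (hg _ _) h0.le)
      (fun w => by rw [← Finset.sum_div, ← dotProduct_sum, (hx w).sum, hgz, div_self h0.ne'])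
      (fun w b => by
        split_ifs
        · exact div_nonneg (hxn _ _) h0.le
        · exact div_nonneg (hh _ _) h0.le)
      (fun w => by
        by_cases hw : ∃ e, t e = w
        · simp only [hw, if_true]
          rw [← Finset.sum_div, hsum w hw, div_self h0.ne']
        · simp only [hw, if_false]
          rw [← Finset.sum_div, ← dotProduct_sum, (hy w).sum, hgz, div_self h0.ne'])
    have h2 := hLM.trans (hbd L M)
    have h3 : ∑ e, ∑ b, (g ⬝ᵥ xb s t π x (t e) b) ^ 2 =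
        ∑ e, ∑ a, (g ⬝ᵥ x (s e) a) * (g ⬝ᵥ xb s t π x (t e) (π e a)) := by
      rw [Finset.sum_comm]
      have h4 : ∀ b, ∑ e, (g ⬝ᵥ xb s t π x (t e) b) ^ 2 =
          ∑ e, (g ⬝ᵥ fib s π x b e) * (g ⬝ᵥ xb s t π x (t e) b) := by
        intro b
        have h5 := avg_sum_eq t (fun e => g ⬝ᵥ fib s π x b e)
        simp only [← vavg_dot] at h5
        exact h5.symm
      simp only [h4]
      rw [Finset.sum_comm]
      exact Finset.sum_congr rfl fun e _ => fib_sum s π x e g (fun b => g ⬝ᵥ xb s t π x (t e) b)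
    have h4 : ∑ e, ∑ a, (g ⬝ᵥ x (s e) a) * (g ⬝ᵥ xb s t π x (t e) (π e a)) =
        (∑ e, ∑ a, (g ⬝ᵥ x (s e) a) / (g ⬝ᵥ g) *
          (if ∃ e', t e' = t e then (g ⬝ᵥ xb s t π x (t e) (π e a)) / (g ⬝ᵥ g)
            else (g ⬝ᵥ y (t e) (π e a)) / (g ⬝ᵥ g))) * (g ⬝ᵥ g) ^ 2 := by
      rw [Finset.sum_mul]
      refine Finset.sum_congr rfl fun e _ => ?_
      rw [Finset.sum_mul]
      refine Finset.sum_congr rfl fun a _ => ?_
      rw [if_pos ⟨e, rfl⟩]
      field_simp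
    rw [h3, h4]
    exact mul_le_mul_of_nonneg_right h2 (sq_nonneg _)
  · have hz : g = 0 := dotProduct_self_eq_zero.mp h0.symm
    subst hz
    simp

end Fib

section Pow

variable {D : Type} [Fintype D] {P : Module.End ℝ (D → ℝ)}

theorem Good.pow_low (h : Good P) (v : D → ℝ) (n : ℕ) :
    v ⬝ᵥ v - 2 * n * (v ⬝ᵥ P v) ≤ ((1 - P) ^ n) v ⬝ᵥ ((1 - P) ^ n) v ∧
      ((1 - P) ^ n) v ⬝ᵥ P (((1 - P) ^ n) v) ≤ v ⬝ᵥ P v := by
  induction n with
  | zero => simp
  | succ n ih =>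
    obtain ⟨h1, h2⟩ := ih
    have e1 : ((1 - P) ^ (n + 1)) v = (1 - P) (((1 - P) ^ n) v) := by
      rw [pow_succ', Module.End.mul_apply]
    obtain ⟨w, hw⟩ : ∃ w, w = ((1 - P) ^ n) v := ⟨_, rfl⟩
    rw [e1, ← hw]
    rw [← hw] at h1 h2
    refine ⟨?_, (h.quad_sub w).trans h2⟩
    have e2 : (1 - P) w ⬝ᵥ (1 - P) w = w ⬝ᵥ w - 2 * (w ⬝ᵥ P w) + P w ⬝ᵥ P w := by
      rw [LinearMap.sub_apply, Module.End.one_apply, sub_dotProduct, dotProduct_sub,
        dotProduct_sub, dotProduct_comm (P w) w]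
      ring
    have e3 := dot_self_nonneg (P w)
    rw [e2]
    push_cast
    linarith

end Pow

section Main

variable {U V E A B D : Type} [Fintype U] [Fintype V] [Fintype E] [Fintype A] [Fintype B]
  [DecidableEq U] [DecidableEq V] [DecidableEq A] [DecidableEq B] [Fintype D]

/-- Main inequality of the two-step deflation. -/
theorem two_main [Nonempty E] (s : E → U) (t : E → V) (π : E → A → B) (d : ℕ)
    (hfib : ∀ e b, (Finset.univ.filter fun a => π e a = b).card ≤ d) (lam ε δ : ℝ) (r : ℕ)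
    (hlam1 : lam ≤ 1) (hε1 : ε ≤ 1) (hgap : FewLarge s t lam r) {x : U → A → D → ℝ}
    {y : V → B → D → ℝ} (h : SdpFeasible x y)
    (hval : (1 - ε) * Fintype.card E ≤ ∑ e, ∑ a, x (s e) a ⬝ᵥ y (t e) (π e a))
    (hbd : ∀ (L : U → A) (M : V → B),
      ((Finset.univ.filter fun e => π e (L (s e)) = M (t e)).card : ℝ) ≤ δ * Fintype.card E)
    (n : ℕ) :
    (1 - ε) ^ 2 - 2 * n * δ ≤
      Real.sqrt d * ((1 - lam) + Real.sqrt (r * (1 / (2 * n + 1)))) := by
  obtain ⟨z, hx, hy⟩ := h.left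
  obtain ⟨-, -, -, -, -, -, hxx, hxy, hyy⟩ := h
  have hm : (0 : ℝ) < Fintype.card E := by exact_mod_cast Fintype.card_pos
  obtain ⟨m, hmdef⟩ : ∃ m : ℝ, m = Fintype.card E := ⟨_, rfl⟩
  have hcard : ∀ c : ℝ, ∑ _e : E, c = m * c := by
    intro c
    rw [Finset.sum_const, Finset.card_univ, nsmul_eq_mul, hmdef]
  have hg := good s x (fun u => (hx u).orth)
  obtain ⟨P, hP⟩ : ∃ P, P = proj s x := ⟨_, rfl⟩
  obtain ⟨T, hT⟩ : ∃ T, T = (1 - P) ^ n := ⟨_, rfl⟩
  rw [← hP] at hg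
  rw [← hmdef] at hm hval
  simp only [← hmdef] at hbd
  have hsym : ∀ v w, T v ⬝ᵥ w = v ⬝ᵥ T w := by rw [hT]; exact hg.pow_sym n
  have hcon : ∀ v, T v ⬝ᵥ T v ≤ v ⬝ᵥ v := by rw [hT]; exact fun v => hg.pow_norm v n
  -- the averaged vectors carry the value
  have s1 : (1 - ε) ^ 2 * m ≤
      ∑ e, ∑ b, xb s t π x (t e) b ⬝ᵥ xb s t π x (t e) b := by
    rw [← xb_val s t π x y] at hval
    have e1 : ∀ e b, 2 * (1 - ε) * (xb s t π x (t e) b ⬝ᵥ y (t e) b) -
        (1 - ε) ^ 2 * (y (t e) b ⬝ᵥ y (t e) b) ≤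
        xb s t π x (t e) b ⬝ᵥ xb s t π x (t e) b := by
      intro e b
      have e2 := dot_self_nonneg (xb s t π x (t e) b - (1 - ε) • y (t e) b)
      have e3 : (xb s t π x (t e) b - (1 - ε) • y (t e) b) ⬝ᵥ
          (xb s t π x (t e) b - (1 - ε) • y (t e) b) =
          xb s t π x (t e) b ⬝ᵥ xb s t π x (t e) b -
            2 * (1 - ε) * (xb s t π x (t e) b ⬝ᵥ y (t e) b) +
            (1 - ε) ^ 2 * (y (t e) b ⬝ᵥ y (t e) b) := by
        rw [sub_dotProduct, dotProduct_sub, dotProduct_sub, smul_dotProduct, dotProduct_smul,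
          smul_dotProduct, dotProduct_smul, dotProduct_comm (y (t e) b) (xb s t π x (t e) b)]
        simp only [smul_eq_mul]
        ring
      rw [e3] at e2
      linarith
    have e4 := Finset.sum_le_sum fun e (_ : e ∈ (Finset.univ : Finset E)) =>
      Finset.sum_le_sum fun b (_ : b ∈ (Finset.univ : Finset B)) => e1 e b
    simp only [Finset.sum_sub_distrib, ← Finset.mul_sum, (hy _).sum_norm] at e4
    rw [hcard] at e4
    have e5 : (1 - ε) * ((1 - ε) * m) ≤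
        (1 - ε) * ∑ e, ∑ b, xb s t π x (t e) b ⬝ᵥ y (t e) b :=
      mul_le_mul_of_nonneg_left hval (by linarith)
    linarith
  -- the projector is small on them
  have s2 : ∑ e, ∑ b, xb s t π x (t e) b ⬝ᵥ P (xb s t π x (t e) b) ≤ δ * m := by
    have e1 : ∀ v : D → ℝ, v ⬝ᵥ P v =
        (∑ e, ∑ c, (x (s e) c ⬝ᵥ v) ^ 2 / (x (s e) c ⬝ᵥ x (s e) c)) / m := by
      intro v
      rw [dotProduct_comm, hP, proj_dot, form, ← hmdef]
      congr 1
      exact Finset.sum_congr rfl fun e _ => Finset.sum_congr rfl fun c _ => by rw [sq]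
    simp only [e1]
    simp only [← Finset.sum_div]
    rw [div_le_iff₀ hm]
    have e2 : ∑ e, ∑ b, ∑ e', ∑ c, (x (s e') c ⬝ᵥ xb s t π x (t e) b) ^ 2 /
        (x (s e') c ⬝ᵥ x (s e') c) =
        ∑ e', ∑ c, (∑ e, ∑ b, (x (s e') c ⬝ᵥ xb s t π x (t e) b) ^ 2) /
          (x (s e') c ⬝ᵥ x (s e') c) := by
      calc ∑ e, ∑ b, ∑ e', ∑ c, (x (s e') c ⬝ᵥ xb s t π x (t e) b) ^ 2 /
            (x (s e') c ⬝ᵥ x (s e') c)
          = ∑ p : E × B, ∑ q : E × A, (x (s q.1) q.2 ⬝ᵥ xb s t π x (t p.1) p.2) ^ 2 /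
            (x (s q.1) q.2 ⬝ᵥ x (s q.1) q.2) := by
            rw [Fintype.sum_prod_type]
            refine Finset.sum_congr rfl fun e _ => Finset.sum_congr rfl fun b _ => ?_
            rw [Fintype.sum_prod_type]
        _ = ∑ q : E × A, ∑ p : E × B, (x (s q.1) q.2 ⬝ᵥ xb s t π x (t p.1) p.2) ^ 2 /
            (x (s q.1) q.2 ⬝ᵥ x (s q.1) q.2) := Finset.sum_comm
        _ = _ := by
            rw [Fintype.sum_prod_type]
            refine Finset.sum_congr rfl fun e _ => Finset.sum_congr rfl fun a _ => ?_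
            rw [Fintype.sum_prod_type, Finset.sum_div]
            refine Finset.sum_congr rfl fun e' _ => ?_
            rw [Finset.sum_div]
    rw [e2]
    have e3 : ∀ e' c, (∑ e, ∑ b, (x (s e') c ⬝ᵥ xb s t π x (t e) b) ^ 2) /
        (x (s e') c ⬝ᵥ x (s e') c) ≤ δ * m * (x (s e') c ⬝ᵥ x (s e') c) := by
      intro e' c
      have e4 := seed_two s t π hx hy (δ * m) hbd (x (s e') c) (fun u a => hxx _ _ _ _)
        (fun v b => hxy _ _ _ _) ((hx _).dot_z c)
      rcases (dot_self_nonneg (x (s e') c)).lt_or_eq with h0 | h0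
      · rw [div_le_iff₀ h0]
        refine e4.trans (le_of_eq ?_)
        ring
      · rw [← h0]; simp
    calc ∑ e', ∑ c, (∑ e, ∑ b, (x (s e') c ⬝ᵥ xb s t π x (t e) b) ^ 2) /
          (x (s e') c ⬝ᵥ x (s e') c)
        ≤ ∑ e', ∑ c, δ * m * (x (s e') c ⬝ᵥ x (s e') c) :=
          Finset.sum_le_sum fun e _ => Finset.sum_le_sum fun c _ => e3 e c
      _ = δ * m * m := by
          simp only [← Finset.mul_sum, (hx _).sum_norm]
          rw [hcard, mul_one]
  have s3 : m * ((1 - ε) ^ 2 - 2 * n * δ) ≤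
      ∑ e, ∑ b, T (xb s t π x (t e) b) ⬝ᵥ T (xb s t π x (t e) b) := by
    have e1 := Finset.sum_le_sum fun e (_ : e ∈ (Finset.univ : Finset E)) =>
      Finset.sum_le_sum fun b (_ : b ∈ (Finset.univ : Finset B)) =>
        (hg.pow_low (xb s t π x (t e) b) n).1
    rw [← hT] at e1
    simp only [Finset.sum_sub_distrib, ← Finset.mul_sum] at e1
    have e2 : (2 * n : ℝ) * ∑ e, ∑ b, xb s t π x (t e) b ⬝ᵥ P (xb s t π x (t e) b) ≤
        (2 * n : ℝ) * (δ * m) := mul_le_mul_of_nonneg_left s2 (by positivity)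
    linarith
  -- one-sided bound
  have hN : (0 : ℝ) < 2 * n + 1 := by positivity
  have hside : ∀ w : D → ℝ, ∑ e, ∑ a, (T (x (s e) a) ⬝ᵥ T w) ^ 2 / (x (s e) a ⬝ᵥ x (s e) a) ≤
      m * ((w ⬝ᵥ w) / (2 * n + 1)) := by
    intro w
    have h3 := hg.pow_quad w (n + n)
    rw [dotProduct_comm, hP, proj_dot, form, ← hmdef, div_le_iff₀ hm, mul_comm _ m, ← hP] at h3
    have h4 : ((1 - P) ^ (n + n)) w = T (T w) := by
      rw [pow_add, Module.End.mul_apply, hT]
    rw [h4] at h3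
    have h5 : ((n + n : ℕ) : ℝ) + 1 = 2 * n + 1 := by push_cast; ring
    rw [h5] at h3
    refine le_trans (le_of_eq ?_) h3
    refine Finset.sum_congr rfl fun e _ => Finset.sum_congr rfl fun a _ => ?_
    rw [hsym, sq]
  have hpair : ∀ φ : E → ℝ, ∑ e, ∑ e', φ e * φ e' * dker T (x (s e)) (x (s e')) ≤
      (1 / (2 * n + 1)) * m * ∑ e, φ e ^ 2 := by
    intro φ
    have e1 : ∑ e, ∑ e', φ e' ^ 2 * ∑ b, ∑ a, (T (x (s e) a) ⬝ᵥ T (x (s e') b)) ^ 2 /
        (x (s e) a ⬝ᵥ x (s e) a) ≤ (1 / (2 * n + 1)) * m * ∑ e, φ e ^ 2 := by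
      rw [Finset.sum_comm, Finset.mul_sum]
      refine Finset.sum_le_sum fun e' _ => ?_
      rw [← Finset.mul_sum, mul_comm (1 / (2 * (n : ℝ) + 1) * m)]
      apply mul_le_mul_of_nonneg_left _ (sq_nonneg _)
      calc ∑ e, ∑ b, ∑ a, (T (x (s e) a) ⬝ᵥ T (x (s e') b)) ^ 2 /
            (x (s e) a ⬝ᵥ x (s e) a)
          = ∑ b, ∑ e, ∑ a, (T (x (s e) a) ⬝ᵥ T (x (s e') b)) ^ 2 /
            (x (s e) a ⬝ᵥ x (s e) a) := Finset.sum_comm
        _ ≤ ∑ b, m * ((x (s e') b ⬝ᵥ x (s e') b) / (2 * n + 1)) :=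
            Finset.sum_le_sum fun b _ => hside _
        _ = 1 / (2 * n + 1) * m := by
            rw [← Finset.mul_sum, ← Finset.sum_div, (hx _).sum_norm]
            ring
    have e2 : ∑ e, ∑ e', φ e ^ 2 * ∑ a, ∑ b, (T (x (s e) a) ⬝ᵥ T (x (s e') b)) ^ 2 /
        (x (s e') b ⬝ᵥ x (s e') b) ≤ (1 / (2 * n + 1)) * m * ∑ e, φ e ^ 2 := by
      refine le_trans (le_of_eq ?_) e1
      rw [Finset.sum_comm]
      refine Finset.sum_congr rfl fun e _ => Finset.sum_congr rfl fun e' _ => ?_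
      congr 1
      refine Finset.sum_congr rfl fun a _ => Finset.sum_congr rfl fun b _ => ?_
      rw [dotProduct_comm]
    have e3 : ∀ e e', φ e * φ e' * dker T (x (s e)) (x (s e')) ≤
        1 / 2 * (φ e' ^ 2 * ∑ b, ∑ a, (T (x (s e) a) ⬝ᵥ T (x (s e') b)) ^ 2 /
          (x (s e) a ⬝ᵥ x (s e) a)) +
        1 / 2 * (φ e ^ 2 * ∑ a, ∑ b, (T (x (s e) a) ⬝ᵥ T (x (s e') b)) ^ 2 /
          (x (s e') b ⬝ᵥ x (s e') b)) := by
      intro e e'
      unfold dker
      rw [Finset.sum_comm (s := (Finset.univ : Finset A)) (t := (Finset.univ : Finset A))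
        (f := fun b a => (T (x (s e) a) ⬝ᵥ T (x (s e') b)) ^ 2 / (x (s e) a ⬝ᵥ x (s e) a))]
      simp only [Finset.mul_sum]
      rw [← Finset.sum_add_distrib]
      refine Finset.sum_le_sum fun a _ => ?_
      rw [← Finset.sum_add_distrib]
      refine Finset.sum_le_sum fun b _ => ?_
      exact split_phi _ _ _ _ _ (dot_self_nonneg _) (dot_self_nonneg _)
    calc ∑ e, ∑ e', φ e * φ e' * dker T (x (s e)) (x (s e'))
        ≤ ∑ e, ∑ e', (1 / 2 * (φ e' ^ 2 * ∑ b, ∑ a, (T (x (s e) a) ⬝ᵥ T (x (s e') b)) ^ 2 /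
            (x (s e) a ⬝ᵥ x (s e) a)) +
          1 / 2 * (φ e ^ 2 * ∑ a, ∑ b, (T (x (s e) a) ⬝ᵥ T (x (s e') b)) ^ 2 /
            (x (s e') b ⬝ᵥ x (s e') b))) :=
          Finset.sum_le_sum fun e _ => Finset.sum_le_sum fun e' _ => e3 e e'
      _ = 1 / 2 * (∑ e, ∑ e', φ e' ^ 2 * ∑ b, ∑ a, (T (x (s e) a) ⬝ᵥ T (x (s e') b)) ^ 2 /
            (x (s e) a ⬝ᵥ x (s e) a)) +
          1 / 2 * (∑ e, ∑ e', φ e ^ 2 * ∑ a, ∑ b, (T (x (s e) a) ⬝ᵥ T (x (s e') b)) ^ 2 /
            (x (s e') b ⬝ᵥ x (s e') b)) := by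
          simp only [Finset.sum_add_distrib, ← Finset.mul_sum]
      _ ≤ _ := by linarith
  -- upper bound
  have hup := avg_rank s t lam hlam1 hgap (fun u => dfeat T (x u))
    (fun u => dfeat_norm T hsym hcon (hx u)) (1 / (2 * n + 1)) (by positivity)
    (fun φ => by simp only [dfeat_dot]; rw [← hmdef]; exact hpair φ)
  rw [← hmdef] at hup
  -- lower bound
  obtain ⟨W, hW⟩ : ∃ W, W = ∑ e, ∑ j, avg t (fun e => dfeat T (x (s e)) j) (t e) ^ 2 := ⟨_, rfl⟩
  have hWk : W = ∑ e, avg t (fun e' => dker T (x (s e)) (x (s e'))) (t e) := by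
    have e1 : ∀ j, ∑ e, avg t (fun e => dfeat T (x (s e)) j) (t e) ^ 2 =
        ∑ e, dfeat T (x (s e)) j * avg t (fun e => dfeat T (x (s e)) j) (t e) := fun j =>
      (avg_sum_eq t (fun e => dfeat T (x (s e)) j)).symm
    rw [hW, Finset.sum_comm]
    simp only [e1]
    rw [Finset.sum_comm]
    refine Finset.sum_congr rfl fun e _ => ?_
    simp only [← avg_mul]
    rw [← avg_sum]
    congr 1
    funext e'
    exact dfeat_dot T _ _
  obtain ⟨S, hS⟩ : ∃ S, S = ∑ e, ∑ b, T (xb s t π x (t e) b) ⬝ᵥ T (xb s t π x (t e) b) :=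
    ⟨_, rfl⟩
  have hS0 : 0 ≤ S := by
    rw [hS]
    exact Finset.sum_nonneg fun e _ => Finset.sum_nonneg fun b _ => dot_self_nonneg _
  have hSW : S ^ 2 ≤ m * (d * W) := by
    obtain ⟨σ, hσ⟩ : ∃ σ : E → E → ℝ, ∀ e e', σ e e' =
        ∑ b, T (fib s π x b e) ⬝ᵥ T (fib s π x b e') := ⟨_, fun _ _ => rfl⟩
    have e1 : S = ∑ e, avg t (fun e' => σ e e') (t e) := by
      rw [hS, xb_sq]
      simp only [hσ]
    have e2 : ∀ e e', σ e e' ^ 2 ≤ d * dker T (x (s e)) (x (s e')) := by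
      intro e e'
      have e3 : σ e e' = ∑ a, ∑ a', if π e a = π e' a' then T (x (s e) a) ⬝ᵥ T (x (s e') a')
          else 0 := by
        rw [hσ]
        have e4 : ∀ b, T (fib s π x b e) ⬝ᵥ T (fib s π x b e') =
            fib s π x b e ⬝ᵥ T (T (fib s π x b e')) := fun b => hsym _ _
        simp only [e4]
        rw [fib_dot s π x e (fun b => T (T (fib s π x b e')))]
        refine Finset.sum_congr rfl fun a _ => ?_
        rw [← hsym, fib, map_sum, dotProduct_sum, Finset.sum_filter]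
        refine Finset.sum_congr rfl fun a' _ => ?_
        by_cases hab : π e a = π e' a'
        · rw [if_pos hab, if_pos hab.symm]
        · rw [if_neg hab, if_neg (fun h => hab h.symm)]
      rw [e3]
      exact two_edge T (hx _) (hx _) (π e) (π e') d (hfib e) (hfib e')
    calc S ^ 2 = (∑ e, avg t (fun e' => σ e e') (t e)) ^ 2 := by rw [e1]
      _ ≤ m * ∑ e, avg t (fun e' => σ e e') (t e) ^ 2 := by
          have := sq_sum_le_card_mul_sum_sq (s := (Finset.univ : Finset E))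
            (f := fun e => avg t (fun e' => σ e e') (t e))
          rw [Finset.card_univ, ← hmdef] at this
          exact this
      _ ≤ m * ∑ e, avg t (fun e' => σ e e' ^ 2) (t e) :=
          mul_le_mul_of_nonneg_left (Finset.sum_le_sum fun e _ => avg_sq_le t _ _) hm.le
      _ ≤ m * ∑ e, avg t (fun e' => d * dker T (x (s e)) (x (s e'))) (t e) :=
          mul_le_mul_of_nonneg_left
            (Finset.sum_le_sum fun e _ => avg_mono t (fun e' => e2 e e') _) hm.le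
      _ = m * (d * W) := by
          simp only [avg_mul]
          rw [← Finset.mul_sum, hWk]
  rw [← hW] at hup
  rw [← hS] at s3
  obtain ⟨G, hG⟩ : ∃ G, G = (1 - lam) + Real.sqrt (r * (1 / (2 * n + 1))) := ⟨_, rfl⟩
  have hG0 : 0 ≤ G := by
    rw [hG]
    have := Real.sqrt_nonneg (r * (1 / (2 * n + 1) : ℝ))
    linarith
  rw [← hG] at hup ⊢
  have h1 : S ^ 2 ≤ (m * (Real.sqrt d * G)) ^ 2 := by
    calc S ^ 2 ≤ m * (d * W) := hSW
      _ ≤ m * (d * (m * G ^ 2)) :=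
          mul_le_mul_of_nonneg_left (mul_le_mul_of_nonneg_left hup (Nat.cast_nonneg _)) hm.le
      _ = (m * (Real.sqrt d * G)) ^ 2 := by
          have : Real.sqrt d ^ 2 = d := Real.sq_sqrt (Nat.cast_nonneg _)
          rw [mul_pow, mul_pow, this]
          ring
  have h2 : S ≤ m * (Real.sqrt d * G) :=
    (sq_le_sq₀ hS0 (mul_nonneg hm.le (mul_nonneg (Real.sqrt_nonneg _) hG0))).mp h1
  exact le_of_mul_le_mul_left (s3.trans h2) hm

/-- Polynomial lower bound on the value, bounded threshold rank. -/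
theorem value_two [Nonempty E] (s : E → U) (t : E → V) (π : E → A → B) (d : ℕ) (hd : 1 ≤ d)
    (hfib : ∀ e b, (Finset.univ.filter fun a => π e a = b).card ≤ d) (lam ε Δ : ℝ) (r : ℕ)
    (hlam1 : lam ≤ 1) (hgap : FewLarge s t lam r) {x : U → A → D → ℝ} {y : V → B → D → ℝ}
    (h : SdpFeasible x y) (hε0 : 0 ≤ ε) (hε1 : ε ≤ 1) (hΔ : 0 < Δ)
    (hth : Real.sqrt d * (1 - lam + Δ) ≤ (1 - ε) ^ 2)
    (hval : (1 - ε) * Fintype.card E ≤ ∑ e, ∑ a, x (s e) a ⬝ᵥ y (t e) (π e a)) :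
    ∃ (L : U → A) (M : V → B), Δ ^ 3 / (12 * r) * Fintype.card E ≤
        ((Finset.univ.filter fun e => π e (L (s e)) = M (t e)).card : ℝ) := by
  by_contra hcon
  push Not at hcon
  have hd1 : 1 ≤ Real.sqrt d := by
    rw [Real.one_le_sqrt]
    exact_mod_cast hd
  have h1ε : Δ ≤ (1 - ε) ^ 2 := by
    have : 0 ≤ 1 - lam := by linarith
    nlinarith
  have hΔ1 : Δ ≤ 1 := by nlinarith
  have hr : 0 < r := by
    rcases Nat.eq_zero_or_pos r with h0 | h0
    · exfalso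
      obtain ⟨z, hx, hy⟩ := h.left
      obtain ⟨e⟩ := ‹Nonempty E›
      have h1 : ∀ (F : Type) [Fintype F] (w : F → D → ℝ), Fam z w → Nonempty F := by
        intro F _ w hw
        by_contra hF
        rw [not_nonempty_iff] at hF
        have := hw.sum_norm
        rw [Finset.univ_eq_empty, Finset.sum_empty] at this
        exact zero_ne_one this
      have hA : ∀ u : U, Nonempty A := fun u => h1 A _ (hx u)
      have hB : ∀ v : V, Nonempty B := fun v => h1 B _ (hy v)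
      have h2 := hcon (fun u => (hA u).some) (fun v => (hB v).some)
      rw [h0] at h2
      simp only [Nat.cast_zero, mul_zero, div_zero, zero_mul] at h2
      exact absurd h2 (not_lt.mpr (Nat.cast_nonneg _))
    · exact h0
  have hr1 : (1 : ℝ) ≤ r := by exact_mod_cast hr
  obtain ⟨n, hn⟩ : ∃ n : ℕ, n = ⌈2 * r / Δ ^ 2⌉₊ := ⟨_, rfl⟩
  obtain ⟨δ, hδ⟩ : ∃ δ : ℝ, δ = Δ ^ 3 / (12 * r) := ⟨_, rfl⟩
  have hδ0 : 0 < δ := by rw [hδ]; positivity
  have hnle : 2 * r / Δ ^ 2 ≤ n := hn ▸ Nat.le_ceil _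
  have hnlt : (n : ℝ) < 2 * r / Δ ^ 2 + 1 := hn ▸ Nat.ceil_lt_add_one (by positivity)
  have hs : Real.sqrt (r * (1 / (2 * n + 1))) ≤ Δ / 2 := by
    have h1 : r * (1 / (2 * n + 1) : ℝ) ≤ (Δ / 2) ^ 2 := by
      rw [div_le_iff₀ (by positivity)] at hnle
      rw [mul_one_div, div_le_iff₀ (by positivity)]
      nlinarith [pow_pos hΔ 2]
    exact Real.sqrt_le_iff.mpr ⟨by positivity, h1⟩
  have h2n : 2 * n * δ < Δ / 2 := by
    have h1 : 2 * n * δ < 2 * (2 * r / Δ ^ 2 + 1) * δ := by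
      apply mul_lt_mul_of_pos_right _ hδ0
      linarith
    have h2 : 2 * (2 * r / Δ ^ 2 + 1) * δ = Δ / 3 + Δ ^ 3 / (6 * r) := by
      rw [hδ]
      field_simp
      ring
    have h3 : Δ ^ 3 / (6 * r) ≤ Δ / 6 := by
      rw [div_le_div_iff₀ (by positivity) (by norm_num)]
      have h4 : Δ ^ 3 ≤ Δ := by nlinarith [pow_pos hΔ 2]
      nlinarith
    linarith
  have hmain := two_main s t π d hfib lam ε δ r hlam1 hε1 hgap h hval
    (fun L M => by rw [hδ]; exact (hcon L M).le) n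
  have h6 : Real.sqrt d * ((1 - lam) + Real.sqrt (r * (1 / (2 * n + 1)))) ≤
      Real.sqrt d * ((1 - lam) + Δ / 2) :=
    mul_le_mul_of_nonneg_left (by linarith) (Real.sqrt_nonneg _)
  nlinarith

end Main

end Pool.Agent.H818R3.Defl
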