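import Mathlib
import Pool.Agent.H818R3.TwoMain

/-!
The spectral gap is the case of one large singular value.
-/

set_option autoImplicit false

namespace Pool.Agent.H818R3.Defl

open Finset Pool.Agent.H562R2

theorem few_of_gap {U V E : Type} [Fintype E] [Nonempty E] {s : E → U} {t : E → V} {lam : ℝ}
    (hlam : lam ≤ 1) (h : HasGap s t lam) : FewLarge s t lam 1 := by
  refine ⟨fun _ _ => 1, ?_, ?_⟩
  · intro i j
    rw [if_pos (Subsingleton.elim i j)]
    simp
  · intro p q hp
    have hm : (0 : ℝ) < Fintype.card E := by exact_mod_cast Fintype.card_pos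
    obtain ⟨m, hmdef⟩ : ∃ m : ℝ, m = Fintype.card E := ⟨_, rfl⟩
    rw [← hmdef] at hm
    have hp0 : ∑ e, p (s e) = 0 := by
      have := hp 0
      simpa using this
    have hcard : ∀ c : ℝ, ∑ _e : E, c = m * c := by
      intro c
      rw [Finset.sum_const, Finset.card_univ, nsmul_eq_mul, hmdef]
    obtain ⟨qb, hqb⟩ : ∃ qb : ℝ, m * qb = ∑ e, q (t e) :=
      ⟨(∑ e, q (t e)) / m, by field_simp⟩
    have h1 := h p (fun v => q v - qb) hp0
      (by rw [Finset.sum_sub_distrib, hcard, hqb]; ring)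
    have h2 : ∑ e, p (s e) * (q (t e) - qb) = ∑ e, p (s e) * q (t e) := by
      have : ∀ e, p (s e) * (q (t e) - qb) = p (s e) * q (t e) - p (s e) * qb :=
        fun e => by ring
      simp only [this]
      rw [Finset.sum_sub_distrib, ← Finset.sum_mul, hp0, zero_mul, sub_zero]
    have h3 : ∑ e, (q (t e) - qb) ^ 2 ≤ ∑ e, q (t e) ^ 2 := by
      have : ∀ e, (q (t e) - qb) ^ 2 = q (t e) ^ 2 - 2 * qb * q (t e) + qb ^ 2 :=
        fun e => by ring
      simp only [this]
      rw [Finset.sum_add_distrib, Finset.sum_sub_distrib, ← Finset.mul_sum, hcard, ← hqb]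
      nlinarith [mul_nonneg hm.le (sq_nonneg qb)]
    rw [h2] at h1
    refine h1.trans (mul_le_mul_of_nonneg_left (by linarith) (by linarith))

theorem lam_of_few_zero {U V E : Type} [Fintype E] [Nonempty E] {s : E → U} {t : E → V} {lam : ℝ}
    (h : FewLarge s t lam 0) : lam ≤ 0 := by
  obtain ⟨f, -, h⟩ := h
  have hm : (0 : ℝ) < Fintype.card E := by exact_mod_cast Fintype.card_pos
  have h1 := h (fun _ => 1) (fun _ => 1) (fun i => i.elim0)
  simp only [mul_one, one_pow, Finset.sum_const, Finset.card_univ, nsmul_eq_mul] at h1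
  nlinarith

/-- Polynomial lower bound, at most `r` large singular values. -/
theorem value_few {U V E A B D : Type} [Fintype U] [Fintype V] [Fintype E] [Fintype A] [Fintype B]
    [DecidableEq U] [DecidableEq V] [DecidableEq A] [DecidableEq B] [Fintype D] [Nonempty E]
    (s : E → U) (t : E → V) (π : E → A → B) (d : ℕ) (hd : 1 ≤ d)
    (hfib : ∀ e b, (Finset.univ.filter fun a => π e a = b).card ≤ d) (lam ε Δ : ℝ) (k r : ℕ)
    (hkr : k ≤ r)
    (hlam1 : lam ≤ 1) (hgap : FewLarge s t lam k) {x : U → A → D → ℝ} {y : V → B → D → ℝ}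
    (h : SdpFeasible x y) (hε0 : 0 ≤ ε) (hε1 : ε ≤ 1) (hΔ : 0 < Δ)
    (hth : Real.sqrt d * (1 - lam + Δ) ≤ (1 - ε) ^ 2)
    (hval : (1 - ε) * Fintype.card E ≤ ∑ e, ∑ a, x (s e) a ⬝ᵥ y (t e) (π e a)) :
    ∃ (L : U → A) (M : V → B), Δ ^ 3 / (12 * r) * Fintype.card E ≤
        ((Finset.univ.filter fun e => π e (L (s e)) = M (t e)).card : ℝ) := by
  rcases Nat.eq_zero_or_pos k with h0 | h0
  · exfalso
    subst h0
    have h1 := lam_of_few_zero hgap
    have hd1 : 1 ≤ Real.sqrt d := by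
      rw [Real.one_le_sqrt]
      exact_mod_cast hd
    have h2 : (1 - ε) ^ 2 ≤ 1 := by nlinarith
    nlinarith
  · obtain ⟨L, M, hLM⟩ := value_two s t π d hd hfib lam ε Δ k hlam1 hgap h hε0 hε1 hΔ hth hval
    refine ⟨L, M, le_trans ?_ hLM⟩
    have hk : (0 : ℝ) < k := by exact_mod_cast h0
    have hkr' : (k : ℝ) ≤ r := by exact_mod_cast hkr
    apply mul_le_mul_of_nonneg_right _ (Nat.cast_nonneg _)
    apply div_le_div_of_nonneg_left (by positivity) (by positivity)
    linarith

end Pool.Agent.H818R3.Defl
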