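import Mathlib
import Pool.Agent.H818R3.KVExact
import Pool.Agent.H818R3.TwoGap

/-!
Threshold rank of the folded Khot-Vishnoi games: the value can decay polynomially in the rank.
-/

set_option autoImplicit false

namespace Pool.Agent.H818R3.Defl

open Finset Pool.Agent.H562R2

variable {k a B : ℕ}

open Classical in
/-- Low degree Walsh functions that descend to the quotient by affine functions. -/
noncomputable def lowInv (k : ℕ) : Finset (Finset (Gam k)) :=
  Finset.univ.filter fun S => S.card < 6 ∧ walsh S (cst k 1) = 1 ∧ ∀ i, walsh S (chi i) = 1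

theorem mem_lowInv (S : Finset (Gam k)) : S ∈ lowInv k ↔
    S.card < 6 ∧ walsh S (cst k 1) = 1 ∧ ∀ i, walsh S (chi i) = 1 := by
  unfold lowInv
  simp

theorem lowInv_rep {S : Finset (Gam k)} (hS : S ∈ lowInv k) (h : Fn k) :
    walsh S (rep h) = walsh S h := by
  rw [mem_lowInv] at hS
  have h1 : rep h = h + (cst k (h 0) + chi (idx h)) := rfl
  rw [h1, walsh_add, walsh_add, hS.2.2]
  have h2 : walsh S (cst k (h 0)) = 1 := by
    cases hc : h 0
    · have : cst k false = 0 := rfl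
      rw [this]
      have h3 : walsh S (0 : Fn k) * walsh S (0 : Fn k) = walsh S (0 : Fn k) := by
        rw [← walsh_add, add_zero]
      have h4 := walsh_mul_self S (0 : Fn k)
      rw [h3] at h4
      exact h4
    · exact hS.2.1
  rw [h2]
  ring

theorem card_lowInv (k : ℕ) : (lowInv k).card ≤ 6 * (2 ^ k) ^ 5 := by
  have h1 : lowInv k ⊆ (Finset.range 6).biUnion fun i =>
      Finset.powersetCard i (Finset.univ : Finset (Gam k)) := by
    intro S hS
    rw [mem_lowInv] at hS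
    rw [Finset.mem_biUnion]
    exact ⟨S.card, Finset.mem_range.mpr hS.1, by rw [Finset.mem_powersetCard]; simp⟩
  refine (Finset.card_le_card h1).trans ?_
  refine Finset.card_biUnion_le.trans ?_
  have hN : Fintype.card (Gam k) = 2 ^ k := by
    rw [Fintype.card_fun, Fintype.card_bool, Fintype.card_fin]
  calc ∑ i ∈ Finset.range 6, (Finset.powersetCard i (Finset.univ : Finset (Gam k))).card
      ≤ ∑ _i ∈ Finset.range 6, (2 ^ k) ^ 5 := by
        refine Finset.sum_le_sum fun i hi => ?_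
        rw [Finset.card_powersetCard, Finset.card_univ, hN]
        refine (Nat.choose_le_pow (2 ^ k) i).trans ?_
        exact Nat.pow_le_pow_right (by positivity) (by rw [Finset.mem_range] at hi; omega)
    _ = 6 * (2 ^ k) ^ 5 := by rw [Finset.sum_const, Finset.card_range, smul_eq_mul]

theorem kfew (hB : 0 < B) (haB : 2 * a ≤ B) :
    FewLarge (ks k B) (kt k a B) (1 - (1 - 2 * a / B : ℝ) ^ 6) (lowInv k).card := by
  have hB0 : (0 : ℝ) < B := by exact_mod_cast hB
  have hBN : (0 : ℝ) < (B : ℝ) ^ Fintype.card (Gam k) := by positivity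
  have h2N : (0 : ℝ) < 2 ^ Fintype.card (Gam k) := by positivity
  obtain ⟨ρ, hρ⟩ : ∃ ρ : ℝ, ρ = 1 - 2 * a / B := ⟨_, rfl⟩
  have hρ0 : 0 ≤ ρ := by
    rw [hρ, sub_nonneg, div_le_one hB0]
    exact_mod_cast haB
  have hρ1 : ρ ≤ 1 := by
    rw [hρ]
    have : (0 : ℝ) ≤ 2 * a / B := by positivity
    linarith
  obtain ⟨σ, hσ⟩ : ∃ σ : Fin (lowInv k).card ≃ lowInv k, True :=
    ⟨(lowInv k).equivFin.symm, trivial⟩
  refine ⟨fun i u => walsh (σ i : Finset (Gam k)) u, ?_, ?_⟩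
  · intro i j
    have h1 := sum_src_k (k := k) (B := B)
      (fun u => walsh (σ i : Finset (Gam k)) u * walsh (σ j : Finset (Gam k)) u)
    rw [h1]
    simp only [lowInv_rep (σ i).2, lowInv_rep (σ j).2]
    rw [walsh_orth]
    by_cases hij : i = j
    · rw [if_pos (by rw [hij]), if_pos hij, Fintype.card_prod,
        Fintype.card_fun (α := Gam k) (β := Fin B), Fintype.card_fin,
        Fintype.card_fun (α := Gam k) (β := Bool), Fintype.card_bool]
      push_cast
      ring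
    · rw [if_neg (fun h => hij (σ.injective (Subtype.ext h))), if_neg hij, mul_zero]
  · intro f g hf
    have hfc : ∀ S : Finset (Gam k), S.card < 6 → fc (fun h => f (rep h)) S = 0 := by
      intro S hS
      by_cases hmem : S ∈ lowInv k
      · have h1 := hf (σ.symm ⟨S, hmem⟩)
        simp only [Equiv.apply_symm_apply] at h1
        have h2 := sum_src_k (k := k) (B := B) (fun u => f u * walsh S u)
        rw [h2] at h1
        have h3 : ∑ h, f (rep h) * walsh S (rep h) = 0 := by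
          rcases mul_eq_zero.mp h1 with h | h
          · exact absurd h hBN.ne'
          · exact h
        simp only [lowInv_rep hmem] at h3
        rw [fc, h3, zero_div]
      · rw [mem_lowInv] at hmem
        push Not at hmem
        by_cases hc : walsh S (cst k 1) = 1
        · obtain ⟨i, hi⟩ := hmem hS hc
          refine fc_shift _ (chi i) (fun h => by rw [rep_chi]) S ?_
          rcases mul_self_eq_one_iff.mp (walsh_mul_self S (chi i)) with h | h
          · exact absurd h hi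
          · exact h
        · refine fc_shift _ (cst k 1) (fun h => by rw [rep_cst]) S ?_
          rcases mul_self_eq_one_iff.mp (walsh_mul_self S (cst k 1)) with h | h
          · exact absurd h hc
          · exact h
    have q1 := sum_src_k (k := k) (B := B) (fun u => f u ^ 2)
    have q2 := sum_tgt_k (k := k) (a := a) (B := B) (fun v => g v ^ 2)
    rw [q1, q2]
    have h1 : ∑ e : KE k B, f (ks k B e) * g (kt k a B e) =
        ∑ h, ∑ w, (fun h => f (rep h)) h * (fun h => g (rep h)) (h + nz k a B w) := by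
      rw [Fintype.sum_prod_type]
      rfl
    have h1' := conv_nz hB (by omega : a ≤ B) (fun h => f (rep h)) (fun h => g (rep h))
    rw [h1, h1', ← hρ]
    have h2 : ∀ S : Finset (Gam k), ρ ^ S.card * (fc (fun h => f (rep h)) S *
        fc (fun h => g (rep h)) S) ≤ ρ ^ 6 * ((fc (fun h => f (rep h)) S ^ 2 +
          fc (fun h => g (rep h)) S ^ 2) / 2) := by
      intro S
      by_cases hc : S.card < 6
      · rw [hfc S hc]
        simp only [zero_mul, mul_zero]
        positivity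
      · have e1 : ρ ^ S.card ≤ ρ ^ 6 := pow_le_pow_of_le_one hρ0 hρ1 (by omega)
        have e2 : 0 ≤ ρ ^ S.card := by positivity
        set p := fc (fun h => f (rep h)) S
        set q := fc (fun h => g (rep h)) S
        calc ρ ^ S.card * (p * q) ≤ ρ ^ S.card * ((p ^ 2 + q ^ 2) / 2) := by
              apply mul_le_mul_of_nonneg_left _ e2
              nlinarith [sq_nonneg (p - q)]
          _ ≤ ρ ^ 6 * ((p ^ 2 + q ^ 2) / 2) :=
              mul_le_mul_of_nonneg_right e1 (by positivity)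
    have h3 := Finset.sum_le_sum fun S (_ : S ∈ (Finset.univ : Finset (Finset (Gam k)))) => h2 S
    rw [← Finset.mul_sum, ← Finset.sum_div, Finset.sum_add_distrib] at h3
    have h4 : ∀ F : Fn k → ℝ, ∑ S, fc F S ^ 2 = (∑ h, F h ^ 2) / 2 ^ Fintype.card (Gam k) := by
      intro F
      have := parseval F F
      simp only [← sq] at this
      exact this
    rw [h4, h4] at h3
    have h5 : 2 ^ Fintype.card (Gam k) * ((B : ℝ) ^ Fintype.card (Gam k) *
        ∑ S, ρ ^ S.card * (fc (fun h => f (rep h)) S * fc (fun h => g (rep h)) S)) ≤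
        2 ^ Fintype.card (Gam k) * ((B : ℝ) ^ Fintype.card (Gam k) *
        (ρ ^ 6 * (((∑ h, f (rep h) ^ 2) / 2 ^ Fintype.card (Gam k) +
          (∑ h, g (rep h) ^ 2) / 2 ^ Fintype.card (Gam k)) / 2))) :=
      mul_le_mul_of_nonneg_left (mul_le_mul_of_nonneg_left h3 hBN.le) h2N.le
    have h6 : (2 : ℝ) ^ Fintype.card (Gam k) * ((B : ℝ) ^ Fintype.card (Gam k) *
        (ρ ^ 6 * (((∑ h, f (rep h) ^ 2) / 2 ^ Fintype.card (Gam k) +
          (∑ h, g (rep h) ^ 2) / 2 ^ Fintype.card (Gam k)) / 2))) =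
        ρ ^ 6 * ((B : ℝ) ^ Fintype.card (Gam k) * ∑ h, f (rep h) ^ 2 +
          (B : ℝ) ^ Fintype.card (Gam k) * ∑ h, g (rep h) ^ 2) / 2 := by
      field_simp
    rw [h6] at h5
    have h7 : 1 - (1 - ρ ^ 6) = ρ ^ 6 := by ring
    rw [h7]
    linarith

theorem rat_noise (q : ℚ) (h0 : 0 < q) (h1 : q < 1) :
    ∃ a B : ℕ, 0 < B ∧ 2 * a ≤ B ∧ (1 - 2 * a / B : ℝ) = q := by
  obtain ⟨p, hp⟩ : ∃ p : ℚ, p = (1 - q) / 2 := ⟨_, rfl⟩
  have hp0 : 0 < p := by rw [hp]; linarith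
  obtain ⟨a, ha⟩ : ∃ a : ℕ, (a : ℤ) = p.num := ⟨p.num.toNat, Int.toNat_of_nonneg
    (Rat.num_nonneg.mpr hp0.le)⟩
  have hden : 0 < p.den := p.den_pos
  have hpq : (a : ℝ) / p.den = (1 - q) / 2 := by
    have h1 : ((p.num : ℚ) / p.den) = p := Rat.num_div_den p
    have h2 : (((p.num : ℚ) / p.den : ℚ) : ℝ) = ((p : ℚ) : ℝ) := by rw [h1]
    push_cast at h2
    rw [← ha] at h2
    push_cast at h2
    rw [h2, hp]
    push_cast
    ring
  have hdenR : (0 : ℝ) < p.den := by exact_mod_cast hden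
  have hρ : (1 - 2 * a / p.den : ℝ) = q := by
    rw [mul_div_assoc, hpq]; ring
  refine ⟨a, p.den, hden, ?_, hρ⟩
  have h2 : (2 * a : ℝ) / p.den ≤ 1 := by
    have : (0 : ℝ) < q := by exact_mod_cast h0
    linarith
  rw [div_le_one hdenR] at h2
  exact_mod_cast h2

/-- Games above the threshold whose value decays polynomially in the threshold rank. -/
theorem rank_needed (ε : ℝ) (hε0 : 0 < ε) (hε1 : ε < 1) :
    ∃ Δ c C : ℝ, 0 < Δ ∧ 2 * ε - ε ^ 2 + Δ ≤ 1 ∧ 0 < c ∧ 0 < C ∧ ∀ R : ℕ, ∃ k a B r : ℕ,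
      R ≤ r ∧ 0 < B ∧
      (∃ r' : ℕ, r' ≤ r ∧ FewLarge (ks k B) (kt k a B) (2 * ε - ε ^ 2 + Δ) r') ∧
      (1 - ε) * Fintype.card (KE k B) ≤
        ∑ e : KE k B, ∑ c, kvec k (ks k B e) c ⬝ᵥ kvec k (kt k a B e) (kp k a B e c) ∧
      ∀ L M : Fn k → Gam k,
        ((Finset.univ.filter fun e => kp k a B e (L (ks k B e)) = M (kt k a B e)).card : ℝ) ≤
          C * (r : ℝ) ^ (-c) * Fintype.card (KE k B) := by
  have hb0 : 0 < 1 - ε := by linarith
  have hb1 : 1 - ε < 1 := by linarith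
  have h12 : (1 - ε) ^ (1 / 2 : ℝ) < (1 - ε) ^ (1 / 3 : ℝ) :=
    Real.rpow_lt_rpow_of_exponent_gt hb0 hb1 (by norm_num)
  obtain ⟨q, hq1, hq2⟩ := exists_rat_btwn h12
  have hq0 : (0 : ℝ) < q := lt_trans (Real.rpow_pos_of_pos hb0 _) hq1
  have hq1' : (q : ℝ) < 1 := hq2.trans (Real.rpow_lt_one hb0.le hb1 (by norm_num))
  obtain ⟨a, B, hB, haB, hρ⟩ := rat_noise q (by exact_mod_cast hq0) (by exact_mod_cast hq1')
  have hqe : 1 - ε ≤ (q : ℝ) ^ 2 := by
    have h1 : ((1 - ε) ^ (1 / 2 : ℝ)) ^ 2 ≤ (q : ℝ) ^ 2 :=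
      pow_le_pow_left₀ (Real.rpow_nonneg hb0.le _) hq1.le 2
    rw [← Real.rpow_natCast, ← Real.rpow_mul hb0.le] at h1
    norm_num at h1
    linarith
  have hq6 : (q : ℝ) ^ 6 < (1 - ε) ^ 2 := by
    have h1 : (q : ℝ) ^ 6 < ((1 - ε) ^ (1 / 3 : ℝ)) ^ 6 :=
      pow_lt_pow_left₀ hq2 hq0.le (by norm_num)
    rw [← Real.rpow_natCast ((1 - ε) ^ (1 / 3 : ℝ)), ← Real.rpow_mul hb0.le] at h1
    norm_num at h1
    exact h1
  obtain ⟨θ, hθ⟩ : ∃ θ : ℝ, θ = max (3 / 16) (q : ℝ) := ⟨_, rfl⟩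
  have hθ0 : 0 < θ := hθ ▸ lt_max_of_lt_right hq0
  have hθ1 : θ < 1 := hθ ▸ max_lt (by norm_num) hq1'
  have hθa : 3 / 16 ≤ θ := hθ ▸ le_max_left _ _
  have hθb : (q : ℝ) ≤ θ := hθ ▸ le_max_right _ _
  obtain ⟨c, hc⟩ : ∃ c : ℝ, c = Real.logb 2 (1 / θ) / 40 := ⟨_, rfl⟩
  have hc0 : 0 < c := by
    rw [hc]
    apply div_pos (Real.logb_pos (by norm_num) _) (by norm_num)
    rw [lt_div_iff₀ hθ0]
    linarith
  have hcθ : (2 : ℝ) ^ (-(40 * c)) = θ := by
    rw [hc]
    have : -(40 * (Real.logb 2 (1 / θ) / 40)) = Real.logb 2 θ := by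
      rw [one_div, Real.logb_inv]
      ring
    rw [this]
    exact Real.rpow_logb (by norm_num) (by norm_num) hθ0
  refine ⟨(1 - ε) ^ 2 - (q : ℝ) ^ 6, c, 2 * (6 : ℝ) ^ c, by linarith, ?_, hc0, by positivity, ?_⟩
  · have : 0 ≤ (q : ℝ) ^ 6 := by positivity
    nlinarith
  intro R
  obtain ⟨k, hk⟩ : ∃ k : ℕ, k = 8 * R := ⟨_, rfl⟩
  refine ⟨k, a, B, 6 * (2 ^ k) ^ 5, ?_, hB, ⟨(lowInv k).card, card_lowInv k, ?_⟩, ?_, ?_⟩
  · have h1 : R < 2 ^ R := Nat.lt_two_pow_self
    have h2 : 2 ^ R ≤ 2 ^ k := Nat.pow_le_pow_right (by norm_num) (by omega)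
    have h3 : 2 ^ k ≤ (2 ^ k) ^ 5 := Nat.le_self_pow (by norm_num) _
    omega
  · have h1 := kfew (k := k) hB haB
    rw [hρ] at h1
    have h2 : 2 * ε - ε ^ 2 + ((1 - ε) ^ 2 - (q : ℝ) ^ 6) = 1 - (q : ℝ) ^ 6 := by ring
    rw [h2]
    exact h1
  · rw [kval_exact hB haB, hρ]
    apply mul_le_mul_of_nonneg_right _ (Nat.cast_nonneg _)
    have h1 : 0 ≤ (1 - (q : ℝ) ^ 2) / 2 ^ k := by
      apply div_nonneg _ (by positivity)
      nlinarith
    linarith
  · intro L M
    refine (kvalue hB haB L M R).trans ?_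
    apply mul_le_mul_of_nonneg_right _ (Nat.cast_nonneg _)
    rw [hρ]
    have h1 : 3 ^ R * Real.sqrt (1 / 2 ^ k) = (3 / 16 : ℝ) ^ R := by
      have h2 : (1 : ℝ) / 2 ^ k = ((1 / 16 : ℝ) ^ R) ^ 2 := by
        rw [hk, pow_mul 2 8 R, ← pow_mul (1 / 16 : ℝ) R 2, mul_comm R 2,
          pow_mul (1 / 16 : ℝ) 2 R, ← one_div_pow]
        norm_num
      rw [h2, Real.sqrt_sq (by positivity), div_pow, div_pow, one_pow]
      ring
    have h2 : (3 / 16 : ℝ) ^ R ≤ θ ^ R := pow_le_pow_left₀ (by norm_num) hθa R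
    have h3 : (q : ℝ) ^ R ≤ θ ^ R := pow_le_pow_left₀ hq0.le hθb R
    have h4 : 2 * (6 : ℝ) ^ c * (((6 * (2 ^ k) ^ 5 : ℕ) : ℝ)) ^ (-c) = 2 * θ ^ R := by
      have e1 : (((6 * (2 ^ k) ^ 5 : ℕ) : ℝ)) = 6 * (2 : ℝ) ^ ((40 * R : ℕ) : ℝ) := by
        rw [Real.rpow_natCast]
        push_cast
        rw [hk]
        congr 1
        rw [← pow_mul]
        congr 1
        ring
      rw [e1, Real.mul_rpow (by norm_num) (by positivity), Real.rpow_neg (by norm_num : (0:ℝ) ≤ 6),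
        ← Real.rpow_mul (by norm_num)]
      have e2 : ((40 * R : ℕ) : ℝ) * -c = (-(40 * c)) * R := by push_cast; ring
      rw [e2, Real.rpow_mul (by norm_num), hcθ, Real.rpow_natCast]
      have e3 : (6 : ℝ) ^ c ≠ 0 := (Real.rpow_pos_of_pos (by norm_num) _).ne'
      field_simp
    rw [h1, h4]
    linarith

end Pool.Agent.H818R3.Defl
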