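import Mathlib
import Pool.Agent.H818R3.KVRank

/-!
Just above the threshold the value of expanding games can be polynomially small in the distance.
-/

set_option autoImplicit false

namespace Pool.Agent.H818R3.Defl

open Finset Pool.Agent.H562R2

/-- Expanding games close to the threshold whose value decays polynomially in the distance to the
threshold. -/
theorem delta_needed (ε : ℝ) (hε0 : 0 < ε) (hε1 : ε < 1) :
    ∃ c C : ℝ, 0 < c ∧ 0 < C ∧ ∀ η : ℝ, 0 < η → ∃ Δ : ℝ, 0 < Δ ∧ Δ < η ∧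
      2 * ε - ε ^ 2 + Δ ≤ 1 ∧ ∃ k a B : ℕ, 0 < B ∧
      HasGap (ks k B) (kt k a B) (2 * ε - ε ^ 2 + Δ) ∧
      (1 - ε) * Fintype.card (KE k B) ≤
        ∑ e : KE k B, ∑ c, kvec k (ks k B e) c ⬝ᵥ kvec k (kt k a B e) (kp k a B e c) ∧
      ∀ L M : Fn k → Gam k,
        ((Finset.univ.filter fun e => kp k a B e (L (ks k B e)) = M (kt k a B e)).card : ℝ) ≤
          C * Δ ^ c * Fintype.card (KE k B) := by
  obtain ⟨u, hu⟩ : ∃ u : ℝ, u = 1 - ε := ⟨_, rfl⟩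
  have hu0 : 0 < u := by linarith
  have hu1 : u < 1 := by linarith
  obtain ⟨r, hr⟩ : ∃ r : ℝ, r = Real.sqrt u := ⟨_, rfl⟩
  have hr0 : 0 < r := hr ▸ Real.sqrt_pos.mpr hu0
  have hr2 : r ^ 2 = u := hr ▸ Real.sq_sqrt hu0.le
  have hr1 : r < 1 := by nlinarith
  obtain ⟨θ, hθ⟩ : ∃ θ : ℝ, θ = max (3 / 16) r := ⟨_, rfl⟩
  have hθ0 : 0 < θ := hθ ▸ lt_max_of_lt_right hr0
  have hθ1 : θ < 1 := hθ ▸ max_lt (by norm_num) hr1
  have hθa : 3 / 16 ≤ θ := hθ ▸ le_max_left _ _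
  have hθb : r ≤ θ := hθ ▸ le_max_right _ _
  obtain ⟨c, hc⟩ : ∃ c : ℝ, c = Real.logb 2 (1 / θ) / 8 := ⟨_, rfl⟩
  have hc0 : 0 < c := by
    rw [hc]
    apply div_pos (Real.logb_pos (by norm_num) _) (by norm_num)
    rw [lt_div_iff₀ hθ0]
    linarith
  have hcθ : (2 : ℝ) ^ (-(8 * c)) = θ := by
    rw [hc]
    have : -(8 * (Real.logb 2 (1 / θ) / 8)) = Real.logb 2 θ := by
      rw [one_div, Real.logb_inv]
      ring
    rw [this]
    exact Real.rpow_logb (by norm_num) (by norm_num) hθ0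
  have heu : 0 < ε * u / 2 := by positivity
  refine ⟨c, 2 * (ε * u / 2) ^ (-c), hc0, by positivity, ?_⟩
  intro η hη
  obtain ⟨R, hR⟩ := pow_unbounded_of_one_lt (2 * ε / η + 2 * ε / u) (show (1 : ℝ) < 256 by norm_num)
  obtain ⟨k, hk⟩ : ∃ k : ℕ, k = 8 * R := ⟨_, rfl⟩
  obtain ⟨w, hw⟩ : ∃ w : ℝ, w = 2 ^ k := ⟨_, rfl⟩
  have hwR : w = 256 ^ R := by
    rw [hw, hk, pow_mul]; norm_num
  have hw0 : 0 < w := by rw [hw]; positivity
  rw [← hwR] at hR
  have hw1 : 2 * ε / w < η := by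
    have h1 : 2 * ε / η < w := lt_of_le_of_lt (by
      have : 0 ≤ 2 * ε / u := by positivity
      linarith) hR
    rw [div_lt_iff₀ hη] at h1
    rw [div_lt_iff₀ hw0]
    linarith
  have hw2 : ε / w < u / 2 := by
    have h1 : 2 * ε / u < w := lt_of_le_of_lt (by
      have : 0 ≤ 2 * ε / η := by positivity
      linarith) hR
    rw [div_lt_iff₀ hu0] at h1
    rw [div_lt_iff₀ hw0]
    linarith
  have hew : 0 < ε / w := by positivity
  obtain ⟨q, hq1, hq2⟩ := exists_rat_btwn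
    (show Real.sqrt (u - ε / w) < Real.sqrt (u - ε / w / 2) from
      Real.sqrt_lt_sqrt (by linarith) (by linarith))
  have hq0 : (0 : ℝ) < q := lt_of_le_of_lt (Real.sqrt_nonneg _) hq1
  have hql : u - ε / w < (q : ℝ) ^ 2 := by
    have h1 : Real.sqrt (u - ε / w) ^ 2 < (q : ℝ) ^ 2 :=
      pow_lt_pow_left₀ hq1 (Real.sqrt_nonneg _) (by norm_num)
    rwa [Real.sq_sqrt (by linarith)] at h1
  have hqu : (q : ℝ) ^ 2 < u - ε / w / 2 := by
    have h1 : (q : ℝ) ^ 2 < Real.sqrt (u - ε / w / 2) ^ 2 :=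
      pow_lt_pow_left₀ hq2 hq0.le (by norm_num)
    rwa [Real.sq_sqrt (by linarith)] at h1
  have hqr : (q : ℝ) < r := by
    rw [hr]
    exact hq2.trans (Real.sqrt_lt_sqrt (by linarith) (by linarith))
  obtain ⟨a, B, hB, haB, hρ⟩ := rat_noise q (by exact_mod_cast hq0)
    (by exact_mod_cast hqr.trans hr1)
  obtain ⟨Δ, hΔ⟩ : ∃ Δ : ℝ, Δ = u ^ 2 - (q : ℝ) ^ 4 := ⟨_, rfl⟩
  have hΔf : Δ = (u - (q : ℝ) ^ 2) * (u + (q : ℝ) ^ 2) := by rw [hΔ]; ring
  have hq2p : 0 < (q : ℝ) ^ 2 := by positivity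
  have hΔl : ε * u / 2 / w ≤ Δ := by
    rw [hΔf]
    calc ε * u / 2 / w = (ε / w / 2) * u := by ring
      _ ≤ (u - (q : ℝ) ^ 2) * (u + (q : ℝ) ^ 2) :=
          mul_le_mul (by linarith) (by linarith) hu0.le (by linarith)
  have hΔ0 : 0 < Δ := lt_of_lt_of_le (by positivity) hΔl
  have hΔη : Δ < η := by
    refine lt_of_le_of_lt ?_ hw1
    rw [hΔf]
    calc (u - (q : ℝ) ^ 2) * (u + (q : ℝ) ^ 2) ≤ (ε / w) * 2 :=
          mul_le_mul (by linarith) (by linarith) (by linarith) hew.le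
      _ = 2 * ε / w := by ring
  have hlam : 2 * ε - ε ^ 2 + Δ = 1 - (q : ℝ) ^ 4 := by
    rw [hΔ, hu]; ring
  refine ⟨Δ, hΔ0, hΔη, ?_, k, a, B, hB, ?_, ?_, ?_⟩
  · rw [hlam]
    have : 0 ≤ (q : ℝ) ^ 4 := by positivity
    linarith
  · have h1 := khasGap (k := k) hB haB
    rw [hρ] at h1
    rw [hlam]
    exact h1
  · rw [kval_exact hB haB, hρ]
    apply mul_le_mul_of_nonneg_right _ (Nat.cast_nonneg _)
    rw [← hw]
    have h1 : ε / w ≤ (1 - (q : ℝ) ^ 2) / w :=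
      div_le_div_of_nonneg_right (by linarith) hw0.le
    linarith
  · intro L M
    refine (kvalue hB haB L M R).trans ?_
    apply mul_le_mul_of_nonneg_right _ (Nat.cast_nonneg _)
    rw [hρ]
    have h1 : 3 ^ R * Real.sqrt (1 / 2 ^ k) = (3 / 16 : ℝ) ^ R := by
      have h2 : (1 : ℝ) / 2 ^ k = ((1 / 16 : ℝ) ^ R) ^ 2 := by
        rw [hk, pow_mul 2 8 R, ← pow_mul (1 / 16 : ℝ) R 2, mul_comm R 2,
          pow_mul (1 / 16 : ℝ) 2 R, ← one_div_pow]
        norm_num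
      rw [h2, Real.sqrt_sq (by positivity), div_pow, div_pow, one_pow]
      ring
    have h2 : (3 / 16 : ℝ) ^ R ≤ θ ^ R := pow_le_pow_left₀ (by norm_num) hθa R
    have h3 : (q : ℝ) ^ R ≤ θ ^ R := pow_le_pow_left₀ hq0.le (hqr.le.trans hθb) R
    have h4 : 2 * θ ^ R ≤ 2 * (ε * u / 2) ^ (-c) * Δ ^ c := by
      have e1 : (ε * u / 2 / w) ^ c ≤ Δ ^ c :=
        Real.rpow_le_rpow (by positivity) hΔl hc0.le
      have e2 : (ε * u / 2 / w) ^ c = (ε * u / 2) ^ c * θ ^ R := by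
        rw [Real.div_rpow heu.le hw0.le, div_eq_mul_inv, ← Real.rpow_neg hw0.le]
        congr 1
        have e3 : w = (2 : ℝ) ^ ((8 * R : ℕ) : ℝ) := by
          rw [Real.rpow_natCast, hw, hk]
        rw [e3, ← Real.rpow_mul (by norm_num)]
        have e4 : ((8 * R : ℕ) : ℝ) * -c = (-(8 * c)) * R := by push_cast; ring
        rw [e4, Real.rpow_mul (by norm_num), hcθ, Real.rpow_natCast]
      have e5 : 2 * (ε * u / 2) ^ (-c) * (ε * u / 2 / w) ^ c = 2 * θ ^ R := by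
        rw [e2, Real.rpow_neg heu.le]
        have e6 : (ε * u / 2) ^ c ≠ 0 := (Real.rpow_pos_of_pos heu _).ne'
        field_simp
      rw [← e5]
      exact mul_le_mul_of_nonneg_left e1 (by positivity)
    rw [h1]
    linarith

end Pool.Agent.H818R3.Defl
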