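import Mathlib
import Pool.Agent.H818R3.KVDelta
import Pool.Agent.H562R2.DHyperGame

/-!
`2^j`-to-one games that fool the pairwise semidefinite relaxation: a Boolean function is perturbed by
noise and by a random function of a random linear map to `F_2^j`.
-/

set_option autoImplicit false

namespace Pool.Agent.H818R3.Defl

open Finset Pool.Agent.H562R2

variable {j m a B : ℕ}

/-- The random linear map. -/
def lm (G : Mx j m) (x : Gam (j + m)) : Gam j := fstb x + mv G (sndb x)

/-- A function of the linear map. -/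
def cl (G : Mx j m) (c : Gam j → Bool) : Fn (j + m) := fun x => c (lm G x)

/-- Edges. -/
abbrev NE (j m B : ℕ) :=
  (Mx j m × (Gam j → Bool)) × (Fn (j + m) × (Gam (j + m) → Fin B))

/-- Left endpoint. -/
def ns : NE j m B → Fn (j + m) := fun e => rep e.2.1

/-- Right endpoint. -/
def nt (a : ℕ) : NE j m B → Mx j m × Fn (j + m) := fun e =>
  (e.1.1, e.2.1 + nz (j + m) a B e.2.2 + cl e.1.1 e.1.2)

/-- Projection. -/
def np (e : NE j m B) (b : Gam (j + m)) : Gam m := pm e.1.1 (b + idx e.2.1)

/-- Right vectors. -/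
noncomputable def nyv (v : Mx j m × Fn (j + m)) (b : Gam m) :
    Gam (j + m) × Gam (j + m) → ℝ :=
  ∑ c ∈ Finset.univ.filter (fun c => pm v.1 c = b), kvec (j + m) v.2 c

theorem np_card (e : NE j m B) (b : Gam m) :
    (Finset.univ.filter fun c => np e c = b).card = 2 ^ j := by
  rw [← fiber_card e.1.1 b]
  refine Finset.card_bij' (fun c _ => c + idx e.2.1) (fun c _ => c + idx e.2.1) ?_ ?_ ?_ ?_
  · intro c hc
    rw [Finset.mem_filter] at hc ⊢
    exact ⟨Finset.mem_univ _, hc.2⟩
  · intro c hc
    rw [Finset.mem_filter] at hc ⊢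
    refine ⟨Finset.mem_univ _, ?_⟩
    rw [np, add_assoc, pi_add_self, add_zero]
    exact hc.2
  · intro c _
    change c + idx e.2.1 + idx e.2.1 = c
    rw [add_assoc, pi_add_self, add_zero]
  · intro c _
    change c + idx e.2.1 + idx e.2.1 = c
    rw [add_assoc, pi_add_self, add_zero]

theorem nfeasible : SdpFeasible (kvec (j + m)) (nyv (j := j) (m := m)) := by
  obtain ⟨z, hz, h1, -, h2, -, h3, -, -⟩ := kvec_feasible (k := j + m)
  refine ⟨z, hz, h1, ?_, h2, ?_, h3, ?_, ?_⟩
  · intro v
    rw [← h1 v.2]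
    exact Finset.sum_fiberwise _ _ _
  · intro v b b' hbb
    rw [nyv, nyv, sum_dotProduct]
    refine Finset.sum_eq_zero fun c hc => ?_
    rw [dotProduct_sum]
    refine Finset.sum_eq_zero fun c' hc' => ?_
    apply h2
    intro h
    apply hbb
    rw [← (Finset.mem_filter.mp hc).2, ← (Finset.mem_filter.mp hc').2, h]
  · intro u c v b
    rw [nyv, dotProduct_sum]
    exact Finset.sum_nonneg fun c' _ => h3 _ _ _ _
  · intro v b v' b'
    rw [nyv, nyv, sum_dotProduct]
    refine Finset.sum_nonneg fun c _ => ?_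
    rw [dotProduct_sum]
    exact Finset.sum_nonneg fun c' _ => h3 _ _ _ _

theorem coset_sum (G : Mx j m) (a0 : Gam (j + m)) (F : Gam (j + m) → ℝ) :
    ∑ c with pm G c = pm G a0, F c = ∑ β : Gam j, F (a0 + Fin.append β (tv G β)) := by
  have hpm : ∀ β : Gam j, pm G (Fin.append β (tv G β)) = 0 := by
    intro β
    rw [pm, sndb_append, fstb_append, pi_add_self]
  refine Finset.sum_bij' (fun c _ => fstb (a0 + c)) (fun β _ => a0 + Fin.append β (tv G β))
    ?_ ?_ ?_ ?_ ?_
  · intro c _; exact Finset.mem_univ _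
  · intro β _
    rw [Finset.mem_filter]
    refine ⟨Finset.mem_univ _, ?_⟩
    rw [pm_add, hpm, add_zero]
  · intro c hc
    rw [Finset.mem_filter] at hc
    have h1 : pm G (a0 + c) = 0 := by rw [pm_add, hc.2, pi_add_self]
    have h2 : sndb (a0 + c) = tv G (fstb (a0 + c)) := by
      rw [pm] at h1
      calc sndb (a0 + c) = sndb (a0 + c) + (tv G (fstb (a0 + c)) + tv G (fstb (a0 + c))) := by
            rw [pi_add_self, add_zero]
        _ = (sndb (a0 + c) + tv G (fstb (a0 + c))) + tv G (fstb (a0 + c)) := by rw [add_assoc]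
        _ = _ := by rw [h1, zero_add]
    change a0 + Fin.append (fstb (a0 + c)) (tv G (fstb (a0 + c))) = c
    rw [← h2, append_fs, ← add_assoc, pi_add_self, zero_add]
  · intro β _
    change fstb (a0 + (a0 + Fin.append β (tv G β))) = β
    rw [← add_assoc, pi_add_self, zero_add, fstb_append]
  · intro c hc
    rw [Finset.mem_filter] at hc
    have h1 : pm G (a0 + c) = 0 := by rw [pm_add, hc.2, pi_add_self]
    have h2 : sndb (a0 + c) = tv G (fstb (a0 + c)) := by
      rw [pm] at h1
      calc sndb (a0 + c) = sndb (a0 + c) + (tv G (fstb (a0 + c)) + tv G (fstb (a0 + c))) := by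
            rw [pi_add_self, add_zero]
        _ = (sndb (a0 + c) + tv G (fstb (a0 + c))) + tv G (fstb (a0 + c)) := by rw [add_assoc]
        _ = _ := by rw [h1, zero_add]
    have h3 : a0 + Fin.append (fstb (a0 + c)) (tv G (fstb (a0 + c))) = c := by
      rw [← h2, append_fs, ← add_assoc, pi_add_self, zero_add]
    change F c = F (a0 + Fin.append (fstb (a0 + c)) (tv G (fstb (a0 + c))))
    rw [h3]

theorem chi_em (G : Mx j m) (β : Gam j) (x : Gam (j + m)) :
    chi (Fin.append β (tv G β)) x = chi β (lm G x) := by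
  rw [chi_split, fstb_append, sndb_append, chi_tv, ← chi_at_add]
  rfl

theorem lm_card (G : Mx j m) (y : Gam j) :
    (Finset.univ.filter fun x => lm G x = y).card = 2 ^ m := by
  have h : (Finset.univ : Finset (Gam m)).card = 2 ^ m := by
    rw [Finset.card_univ, Fintype.card_fun, Fintype.card_bool, Fintype.card_fin]
  rw [← h]
  refine Finset.card_bij' (fun x _ => sndb x) (fun z _ => Fin.append (y + mv G z) z) ?_ ?_ ?_ ?_
  · intro x _; exact Finset.mem_univ _
  · intro z _
    rw [Finset.mem_filter]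
    refine ⟨Finset.mem_univ _, ?_⟩
    rw [lm, sndb_append, fstb_append, add_assoc, pi_add_self, add_zero]
  · intro x hx
    rw [Finset.mem_filter] at hx
    have h1 : y + mv G (sndb x) = fstb x := by
      rw [← hx.2, lm, add_assoc, pi_add_self, add_zero]
    change Fin.append (y + mv G (sndb x)) (sndb x) = x
    rw [h1, append_fs]
  · intro z _
    exact sndb_append _ _

/-- Value of one edge. -/
theorem nedge_val (e : NE j m B) :
    ∑ c, kvec (j + m) (ns e) c ⬝ᵥ nyv (nt a e) (np e c) =
      (2 : ℝ) ^ j / ((2 : ℝ) ^ (j + m)) ^ 2 * ∑ x, ∑ x', if lm e.1.1 x = lm e.1.1 x' then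
        sg (nz (j + m) a B e.2.2 x) * sg (nz (j + m) a B e.2.2 x') else 0 := by
  obtain ⟨⟨G, c0⟩, ⟨f, w⟩⟩ := e
  have h0 : (0 : ℝ) < 2 ^ (j + m) := by positivity
  obtain ⟨η, hη⟩ : ∃ η : Fn (j + m), η = nz (j + m) a B w := ⟨_, rfl⟩
  have h1 : ∀ c, kvec (j + m) (ns (((G, c0), (f, w)) : NE j m B)) c ⬝ᵥ
      nyv (nt a (((G, c0), (f, w)) : NE j m B)) (np (((G, c0), (f, w)) : NE j m B) c) =
      ∑ β : Gam j, (1 / (2 : ℝ) ^ (j + m)) ^ 3 *
        (∑ x, sg (η x) * sg (c0 (lm G x)) * sg (chi β (lm G x))) ^ 2 := by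
    intro c
    change kvec (j + m) (rep f) c ⬝ᵥ ∑ c' ∈ Finset.univ.filter
      (fun c' => pm G c' = pm G (c + idx f)), kvec (j + m) (f + nz (j + m) a B w + cl G c0) c' = _
    rw [dotProduct_sum, coset_sum G (c + idx f) (fun c' => kvec (j + m) (rep f) c ⬝ᵥ
      kvec (j + m) (f + nz (j + m) a B w + cl G c0) c')]
    refine Finset.sum_congr rfl fun β _ => ?_
    rw [kvec_dot, ← hη]
    congr 1
    have h2 : ∀ x, sg (rep f x + (f + η + cl G c0) x +
        chi (c + (c + idx f + Fin.append β (tv G β))) x) =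
        sg (f 0) * (sg (η x) * sg (c0 (lm G x)) * sg (chi β (lm G x))) := by
      intro x
      have h3 : c + (c + idx f + Fin.append β (tv G β)) = idx f + Fin.append β (tv G β) := by
        rw [add_assoc c, ← add_assoc c c, pi_add_self, zero_add]
      rw [h3, chi_add, ← sg_add, ← sg_add, ← sg_add]
      congr 1
      simp only [rep, Pi.add_apply, chi_em]
      have e1 := bool_add_self (f x)
      have e3 := bool_add_self (chi (idx f) x)
      calc f x + (f 0 + chi (idx f) x) + (f x + η x + cl G c0 x) +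
            (chi (idx f) x + chi β (lm G x))
          = (f x + f x) + (chi (idx f) x + chi (idx f) x) +
            (f 0 + (η x + cl G c0 x + chi β (lm G x))) := by ring
        _ = f 0 + (η x + c0 (lm G x) + chi β (lm G x)) := by rw [e1, e3]; simp [cl]
    simp only [h2]
    rw [← Finset.mul_sum, mul_pow, sq (sg (f 0)), sg_mul_self, one_mul]
  simp only [h1]
  rw [Finset.sum_const, Finset.card_univ, nsmul_eq_mul]
  have h3 : (Fintype.card (Gam (j + m)) : ℝ) = 2 ^ (j + m) := by
    rw [Fintype.card_fun, Fintype.card_bool, Fintype.card_fin]; push_cast; rfl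
  rw [h3, ← Finset.mul_sum]
  have h4 : ∑ β : Gam j, (∑ x, sg (η x) * sg (c0 (lm G x)) * sg (chi β (lm G x))) ^ 2 =
      2 ^ j * ∑ x, ∑ x', if lm G x = lm G x' then sg (η x) * sg (η x') else 0 := by
    have h5 : ∀ β : Gam j, (∑ x, sg (η x) * sg (c0 (lm G x)) * sg (chi β (lm G x))) ^ 2 =
        ∑ x, ∑ x', (sg (η x) * sg (c0 (lm G x)) * (sg (η x') * sg (c0 (lm G x')))) *
          sg (chi (lm G x + lm G x') β) := by
      intro β
      rw [sq, Finset.sum_mul_sum]
      refine Finset.sum_congr rfl fun x _ => Finset.sum_congr rfl fun x' _ => ?_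
      rw [chi_comm (lm G x + lm G x') β, chi_at_add, sg_add]
      ring
    simp only [h5]
    rw [Finset.sum_comm, Finset.mul_sum]
    refine Finset.sum_congr rfl fun x _ => ?_
    rw [Finset.sum_comm, Finset.mul_sum]
    refine Finset.sum_congr rfl fun x' _ => ?_
    rw [← Finset.mul_sum, sum_chi]
    by_cases hx : lm G x = lm G x'
    · rw [if_pos (by rw [hx, pi_add_self]), if_pos hx, hx]
      have := sg_mul_self (c0 (lm G x'))
      calc sg (η x) * sg (c0 (lm G x')) * (sg (η x') * sg (c0 (lm G x'))) * 2 ^ j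
          = 2 ^ j * (sg (η x) * sg (η x')) * (sg (c0 (lm G x')) * sg (c0 (lm G x'))) := by ring
        _ = _ := by rw [this]; ring
    · rw [if_neg, if_neg hx, mul_zero, mul_zero]
      intro h6
      apply hx
      calc lm G x = lm G x + (lm G x' + lm G x') := by rw [pi_add_self, add_zero]
        _ = (lm G x + lm G x') + lm G x' := by rw [add_assoc]
        _ = lm G x' := by rw [h6, zero_add]
  rw [h4, ← hη]
  field_simp

end Pool.Agent.H818R3.Defl
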