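import Mathlib
import Pool.Agent.H818R3.DNoise

/-!
Value, spectral gap and soundness of the noisy `2^j`-to-one games.
-/

set_option autoImplicit false

namespace Pool.Agent.H818R3.Defl

open Finset Pool.Agent.H562R2

variable {j m a B : ℕ}

theorem nz_corr {k : ℕ} (hB : 0 < B) (haB : a ≤ B) (x y : Gam k) :
    ∑ w : Gam k → Fin B, sg (nz k a B w x) * sg (nz k a B w y) =
      (B : ℝ) ^ Fintype.card (Gam k) * (if x = y then 1 else (1 - 2 * a / B : ℝ) ^ 2) := by
  by_cases hxy : x = y
  · subst hxy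
    simp only [sg_mul_self, if_true]
    rw [Finset.sum_const, Finset.card_univ, nsmul_eq_mul, Fintype.card_fun, Fintype.card_fin]
    push_cast
    ring
  · have h2 := sum_walsh_nz (k := k) hB haB {x, y}
    rw [Finset.card_pair hxy] at h2
    rw [if_neg hxy, ← h2]
    exact Finset.sum_congr rfl fun w _ => by rw [walsh, Finset.prod_pair hxy]

theorem card_NE : (Fintype.card (NE j m B) : ℝ) =
    Fintype.card (Mx j m × (Gam j → Bool)) * (2 ^ Fintype.card (Gam (j + m)) *
      (B : ℝ) ^ Fintype.card (Gam (j + m))) := by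
  have h1 : Fintype.card (NE j m B) = Fintype.card (Mx j m × (Gam j → Bool)) *
      (Fintype.card (Fn (j + m)) * Fintype.card (Gam (j + m) → Fin B)) := by
    rw [Fintype.card_prod, Fintype.card_prod (Fn (j + m))]
  rw [h1, Fintype.card_fun (α := Gam (j + m)) (β := Fin B), Fintype.card_fin,
    Fintype.card_fun (α := Gam (j + m)) (β := Bool), Fintype.card_bool]
  push_cast
  ring

/-- Exact semidefinite value. -/
theorem nval (hB : 0 < B) (haB : 2 * a ≤ B) :
    ∑ e : NE j m B, ∑ c, kvec (j + m) (ns e) c ⬝ᵥ nyv (nt a e) (np e c) =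
      ((1 - 2 * a / B : ℝ) ^ 2 + (1 - (1 - 2 * a / B : ℝ) ^ 2) / 2 ^ m) *
        Fintype.card (NE j m B) := by
  obtain ⟨ρ, hρ⟩ : ∃ ρ : ℝ, ρ = 1 - 2 * a / B := ⟨_, rfl⟩
  simp only [nedge_val]
  rw [← hρ, Fintype.sum_prod_type, card_NE]
  have h1 : ∀ p : Mx j m × (Gam j → Bool), ∑ q : Fn (j + m) × (Gam (j + m) → Fin B),
      (2 : ℝ) ^ j / ((2 : ℝ) ^ (j + m)) ^ 2 * (∑ x, ∑ x', if lm p.1 x = lm p.1 x' then
        sg (nz (j + m) a B q.2 x) * sg (nz (j + m) a B q.2 x') else 0) =
      (ρ ^ 2 + (1 - ρ ^ 2) / 2 ^ m) * (2 ^ Fintype.card (Gam (j + m)) *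
      (B : ℝ) ^ Fintype.card (Gam (j + m))) := by
    intro p
    rw [Fintype.sum_prod_type]
    simp only
    rw [Finset.sum_const, Finset.card_univ, nsmul_eq_mul,
      Fintype.card_fun (α := Gam (j + m)) (β := Bool), Fintype.card_bool, ← Finset.mul_sum,
      Finset.sum_comm]
    have h2 : ∀ x : Gam (j + m), ∑ w : Gam (j + m) → Fin B, ∑ x',
        (if lm p.1 x = lm p.1 x' then
          sg (nz (j + m) a B w x) * sg (nz (j + m) a B w x') else 0) =
        (B : ℝ) ^ Fintype.card (Gam (j + m)) * (ρ ^ 2 * 2 ^ m + (1 - ρ ^ 2)) := by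
      intro x
      rw [Finset.sum_comm]
      have h3 : ∀ x' : Gam (j + m), ∑ w : Gam (j + m) → Fin B,
          (if lm p.1 x = lm p.1 x' then
            sg (nz (j + m) a B w x) * sg (nz (j + m) a B w x') else 0) =
          (B : ℝ) ^ Fintype.card (Gam (j + m)) * ((if lm p.1 x' = lm p.1 x then ρ ^ 2 else 0) +
            (if x = x' then 1 - ρ ^ 2 else 0)) := by
        intro x'
        by_cases hl : lm p.1 x = lm p.1 x'
        · simp only [hl, if_true]
          rw [nz_corr hB (by omega), ← hρ]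
          by_cases hx : x = x'
          · simp [hx]
          · simp [hx]
        · have hx : x ≠ x' := fun h => hl (by rw [h])
          have hl' : ¬ lm p.1 x' = lm p.1 x := fun h => hl h.symm
          simp only [if_neg hl, if_neg hl', if_neg hx]
          simp
      simp only [h3]
      rw [← Finset.mul_sum, Finset.sum_add_distrib, Finset.sum_ite_eq,
        if_pos (Finset.mem_univ _), ← Finset.sum_filter, Finset.sum_const, lm_card,
        nsmul_eq_mul]
      push_cast
      ring
    simp only [h2]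
    have h3 : (Fintype.card (Gam (j + m)) : ℝ) = 2 ^ (j + m) := by
      rw [Fintype.card_fun, Fintype.card_bool, Fintype.card_fin]; push_cast; rfl
    rw [Finset.sum_const, Finset.card_univ, nsmul_eq_mul, h3, pow_add]
    push_cast
    field_simp
  simp only [h1]
  rw [Finset.sum_const, Finset.card_univ, nsmul_eq_mul]
  ring

end Pool.Agent.H818R3.Defl
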