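import Mathlib
import Pool.Agent.H818R3.DNoise

/-!
Value, spectral gap and soundness of the noisy `2^j`-to-one games.
-/

set_option autoImplicit false

namespace Pool.Agent.H818R3.Defl

open Finset Pool.Agent.H562R2

variable {j m a B : ℕ}

theorem fc_trans {k : ℕ} (H : Fn k → ℝ) (d : Fn k) (S : Finset (Gam k)) :
    fc (fun h => H (h + d)) S = walsh S d * fc H S := by
  have h1 : ∑ x, H (x + d) * walsh S x = walsh S d * ∑ x, H x * walsh S x := by
    rw [← sum_shift (fun x => H (x + d) * walsh S x) d, Finset.mul_sum]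
    refine Finset.sum_congr rfl fun x _ => ?_
    rw [add_assoc, pi_add_self, add_zero, walsh_add]
    ring
  rw [fc, fc, h1, mul_div_assoc]

/-- Correlation of a Walsh function with the functions of the linear map. -/
def kap (G : Mx j m) (S : Finset (Gam (j + m))) : ℝ := ∑ c : Gam j → Bool, walsh S (cl G c)

theorem kap_le (G : Mx j m) (S : Finset (Gam (j + m))) :
    |kap G S| ≤ Fintype.card (Gam j → Bool) := by
  unfold kap
  refine (Finset.abs_sum_le_sum_abs _ _).trans ?_
  have h : ∀ c : Gam j → Bool, |walsh S (cl G c)| = 1 := by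
    intro c
    have h1 := walsh_mul_self S (cl G c)
    rcases mul_self_eq_one_iff.mp h1 with h | h <;> rw [h] <;> norm_num
  simp only [h]
  rw [Finset.sum_const, Finset.card_univ, nsmul_eq_mul, mul_one]

theorem kap_zero (G : Mx j m) (S : Finset (Gam (j + m))) (x0 : Gam (j + m)) (hx0 : x0 ∈ S)
    (h : ∀ y ∈ S, y ≠ x0 → lm G y ≠ lm G x0) : kap G S = 0 := by
  have h1 : ∀ c : Gam j → Bool, walsh S (cl G (c + Pi.single (lm G x0) 1)) =
      - walsh S (cl G c) := by
    intro c
    have h2 : cl G (c + Pi.single (lm G x0) 1) = cl G c + cl G (Pi.single (lm G x0) 1) := rfl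
    rw [h2, walsh_add]
    have h3 : walsh S (cl G (Pi.single (lm G x0) 1)) = -1 := by
      rw [walsh, Finset.prod_eq_single x0]
      · rw [cl, Pi.single_eq_same, sg_one]
      · intro y hy hne
        rw [cl, Pi.single_eq_of_ne (h y hy hne), sg_zero]
      · intro h4; exact absurd hx0 h4
    rw [h3]
    ring
  have h2 : kap G S = ∑ c : Gam j → Bool, walsh S (cl G (c + Pi.single (lm G x0) 1)) :=
    (sum_shift (k := j) (fun c => walsh S (cl G c)) (Pi.single (lm G x0) 1)).symm
  simp only [h1] at h2
  rw [Finset.sum_neg_distrib] at h2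
  have h3 : kap G S = - kap G S := h2
  linarith

theorem lm_coll (x y : Gam (j + m)) (hxy : y ≠ x) :
    ((Finset.univ.filter fun G : Mx j m => lm G y = lm G x).card : ℝ) * 2 ^ j ≤
      Fintype.card (Mx j m) := by
  have hz : y + x ≠ 0 := by
    intro h
    apply hxy
    calc y = y + (x + x) := by rw [pi_add_self, add_zero]
      _ = (y + x) + x := by rw [add_assoc]
      _ = x := by rw [h, zero_add]
  have h1 := gset_card (j := j) (m := m) {0, y + x}
  rw [Finset.card_pair hz.symm] at h1
  have h2 : (Finset.univ.filter fun G : Mx j m => lm G y = lm G x) ⊆ gset {0, y + x} := by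
    intro G hG
    have hG' : lm G y = lm G x := (Finset.mem_filter.mp hG).2
    rw [gset, Finset.mem_filter]
    refine ⟨Finset.mem_univ _, fun z hz' => ?_⟩
    rw [Finset.mem_insert, Finset.mem_singleton] at hz'
    rcases hz' with rfl | rfl
    · have : sndb (0 : Gam (j + m)) = 0 := rfl
      rw [this, io_zero]
    · rw [mem_io]
      have e1 : fstb (y + x) = fstb y + fstb x := rfl
      have e2 : sndb (y + x) = sndb y + sndb x := rfl
      have e3 : mv G (sndb y + sndb x) = mv G (sndb y) + mv G (sndb x) := by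
        funext i; exact chi_at_add _ _ _
      rw [e1, e2, e3]
      unfold lm at hG'
      calc fstb y + fstb x = fstb y + (mv G (sndb y) + mv G (sndb y)) + fstb x := by
            rw [pi_add_self, add_zero]
        _ = (fstb y + mv G (sndb y)) + mv G (sndb y) + fstb x := by rw [← add_assoc]
        _ = (fstb x + mv G (sndb x)) + mv G (sndb y) + fstb x := by rw [hG']
        _ = (fstb x + fstb x) + (mv G (sndb y) + mv G (sndb x)) := by ring
        _ = _ := by rw [pi_add_self, zero_add]
  have h3 := (Nat.mul_le_mul_right (2 ^ j) (Finset.card_le_card h2)).trans h1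
  exact_mod_cast h3

open Classical in
theorem kap_count (S : Finset (Gam (j + m))) (hS : S.Nonempty) :
    ((Finset.univ.filter fun G : Mx j m => kap G S ≠ 0).card : ℝ) * 2 ^ j ≤
      ((S.card : ℝ) - 1) * Fintype.card (Mx j m) := by
  obtain ⟨x0, hx0⟩ := hS
  have h1 : (Finset.univ.filter fun G : Mx j m => kap G S ≠ 0) ⊆
      (S.erase x0).biUnion fun y => Finset.univ.filter fun G : Mx j m => lm G y = lm G x0 := by
    intro G hG
    have hG' : kap G S ≠ 0 := (Finset.mem_filter.mp hG).2
    by_contra hcon
    apply hG'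
    apply kap_zero G S x0 hx0
    intro y hy hne hyx
    apply hcon
    rw [Finset.mem_biUnion]
    exact ⟨y, Finset.mem_erase.mpr ⟨hne, hy⟩, Finset.mem_filter.mpr ⟨Finset.mem_univ _, hyx⟩⟩
  have h2 : ((Finset.univ.filter fun G : Mx j m => kap G S ≠ 0).card : ℝ) ≤
      ∑ y ∈ S.erase x0, ((Finset.univ.filter fun G : Mx j m => lm G y = lm G x0).card : ℝ) := by
    exact_mod_cast (Finset.card_le_card h1).trans Finset.card_biUnion_le
  calc ((Finset.univ.filter fun G : Mx j m => kap G S ≠ 0).card : ℝ) * 2 ^ j
      ≤ (∑ y ∈ S.erase x0,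
          ((Finset.univ.filter fun G : Mx j m => lm G y = lm G x0).card : ℝ)) * 2 ^ j :=
        mul_le_mul_of_nonneg_right h2 (by positivity)
    _ = ∑ y ∈ S.erase x0,
          ((Finset.univ.filter fun G : Mx j m => lm G y = lm G x0).card : ℝ) * 2 ^ j := by
        rw [Finset.sum_mul]
    _ ≤ ∑ y ∈ S.erase x0, (Fintype.card (Mx j m) : ℝ) :=
        Finset.sum_le_sum fun y hy => lm_coll x0 y (Finset.ne_of_mem_erase hy)
    _ = ((S.card : ℝ) - 1) * Fintype.card (Mx j m) := by
        rw [Finset.sum_const, Finset.card_erase_of_mem hx0, nsmul_eq_mul,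
          Nat.cast_sub (Finset.card_pos.mpr ⟨x0, hx0⟩), Nat.cast_one]

end Pool.Agent.H818R3.Defl
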