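import Mathlib
import Pool.Agent.H818R3.DNoise

/-!
Value, spectral gap and soundness of the noisy `2^j`-to-one games.
-/

set_option autoImplicit false

namespace Pool.Agent.H818R3.Defl

open Finset Pool.Agent.H562R2

variable {j m a B : ℕ}

theorem sum_ns (g : Fn (j + m) → ℝ) :
    ∑ e : NE j m B, g (ns e) = (Fintype.card (Mx j m × (Gam j → Bool)) : ℝ) *
      ((B : ℝ) ^ Fintype.card (Gam (j + m)) * ∑ h, g (rep h)) := by
  rw [Fintype.sum_prod_type]
  have h1 : ∀ p : Mx j m × (Gam j → Bool), ∑ q : Fn (j + m) × (Gam (j + m) → Fin B),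
      g (ns ((p, q) : NE j m B)) = (B : ℝ) ^ Fintype.card (Gam (j + m)) * ∑ h, g (rep h) := by
    intro p
    have := sum_src_k (k := j + m) (B := B) g
    exact this
  simp only [h1]
  rw [Finset.sum_const, Finset.card_univ, nsmul_eq_mul]

theorem sum_nt (g : Mx j m × Fn (j + m) → ℝ) :
    ∑ e : NE j m B, g (nt a e) = (Fintype.card (Gam j → Bool) : ℝ) *
      ((B : ℝ) ^ Fintype.card (Gam (j + m)) * ∑ G, ∑ h, g (G, h)) := by
  rw [Fintype.sum_prod_type, Fintype.sum_prod_type]
  have h1 : ∀ (G : Mx j m) (c : Gam j → Bool), ∑ q : Fn (j + m) × (Gam (j + m) → Fin B),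
      g (nt a (((G, c), q) : NE j m B)) =
      (B : ℝ) ^ Fintype.card (Gam (j + m)) * ∑ h, g (G, h) := by
    intro G c
    rw [Fintype.sum_prod_type_right]
    have h2 : ∀ w : Gam (j + m) → Fin B, ∑ f : Fn (j + m), g (nt a (((G, c), (f, w)) :
        NE j m B)) = ∑ h, g (G, h) := by
      intro w
      have h3 := sum_shift (fun h => g (G, h)) (nz (j + m) a B w + cl G c)
      rw [← h3]
      refine Finset.sum_congr rfl fun f _ => ?_
      rw [nt]
      simp only
      rw [add_assoc]
    simp only [h2]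
    rw [Finset.sum_const, Finset.card_univ, nsmul_eq_mul, Fintype.card_fun, Fintype.card_fin]
    push_cast
    ring
  simp only [h1]
  simp only [Finset.sum_const, Finset.card_univ, nsmul_eq_mul]
  rw [Finset.mul_sum, Finset.mul_sum]

end Pool.Agent.H818R3.Defl
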