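import Mathlib
import Pool.Agent.H818R3.DNoiseB
import Pool.Agent.H818R3.DNoiseS

/-!
Value, spectral gap and soundness of the noisy `2^j`-to-one games.
-/

set_option autoImplicit false

namespace Pool.Agent.H818R3.Defl

open Finset Pool.Agent.H562R2

variable {j m a B : ℕ}

open Classical in
theorem ngap (hB : 0 < B) (haB : 2 * a ≤ B) (σ : ℝ) (hσ0 : 0 < σ)
    (hσ : ∀ n : ℕ, 4 ≤ n → ((n : ℝ) - 1) * ((1 - 2 * a / B : ℝ) ^ 2) ^ n ≤ 2 ^ j * σ ^ 2) :
    HasGap (ns (j := j) (m := m) (B := B)) (nt a) (1 - σ) := by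
  intro F H hF _
  have hB0 : (0 : ℝ) < B := by exact_mod_cast hB
  have hBN : (0 : ℝ) < (B : ℝ) ^ Fintype.card (Gam (j + m)) := by positivity
  have h2N : (0 : ℝ) < 2 ^ Fintype.card (Gam (j + m)) := by positivity
  obtain ⟨ρ, hρ⟩ : ∃ ρ : ℝ, ρ = 1 - 2 * a / B := ⟨_, rfl⟩
  rw [← hρ] at hσ
  have hρ0 : 0 ≤ ρ := by
    rw [hρ, sub_nonneg, div_le_one hB0]
    exact_mod_cast haB
  obtain ⟨M0, hM0⟩ : ∃ M0 : ℝ, M0 = Fintype.card (Mx j m) := ⟨_, rfl⟩
  obtain ⟨C0, hC0⟩ : ∃ C0 : ℝ, C0 = Fintype.card (Gam j → Bool) := ⟨_, rfl⟩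
  have hM0p : 0 < M0 := by rw [hM0]; exact_mod_cast Fintype.card_pos
  have hC0p : 0 < C0 := by rw [hC0]; exact_mod_cast Fintype.card_pos
  have hMC : (Fintype.card (Mx j m × (Gam j → Bool)) : ℝ) = M0 * C0 := by
    rw [Fintype.card_prod, hM0, hC0]; push_cast; rfl
  obtain ⟨Bn, hBn⟩ : ∃ Bn : ℝ, Bn = (B : ℝ) ^ Fintype.card (Gam (j + m)) := ⟨_, rfl⟩
  obtain ⟨Tn, hTn⟩ : ∃ Tn : ℝ, Tn = (2 : ℝ) ^ Fintype.card (Gam (j + m)) := ⟨_, rfl⟩
  rw [sum_ns, hMC, ← hBn] at hF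
  rw [← hBn] at hBN
  rw [← hTn] at h2N
  have hF' : ∑ h, F (rep h) = 0 := by
    rcases mul_eq_zero.mp hF with h | h
    · exact absurd h (by positivity)
    · rcases mul_eq_zero.mp h with h | h
      · exact absurd h hBN.ne'
      · exact h
  have q1 := sum_ns (j := j) (m := m) (B := B) (fun u => F u ^ 2)
  have q2 := sum_nt (j := j) (m := m) (a := a) (B := B) (fun v => H v ^ 2)
  rw [q1, q2, hMC, ← hBn, ← hC0]
  obtain ⟨P, hP⟩ : ∃ P : Fn (j + m) → ℝ, P = fun h => F (rep h) := ⟨_, rfl⟩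
  obtain ⟨Ph, hPh⟩ : ∃ Ph : Finset (Gam (j + m)) → ℝ, ∀ S, Ph S = fc P S := ⟨_, fun _ => rfl⟩
  obtain ⟨Hh, hHh⟩ : ∃ Hh : Mx j m → Finset (Gam (j + m)) → ℝ, ∀ G S,
      Hh G S = fc (fun h => H (G, h)) S := ⟨_, fun _ _ => rfl⟩
  have hPlow : ∀ S : Finset (Gam (j + m)), S.card < 4 → Ph S = 0 := by
    intro S hS
    rw [hPh, hP]
    rcases S.eq_empty_or_nonempty with h | h
    · rw [h, fc]
      simp only [walsh_empty, mul_one]
      rw [hF', zero_div]
    · exact fc_low F S h hS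
  have hbil : ∑ e : NE j m B, F (ns e) * H (nt a e) =
      Tn * (Bn * ∑ G, ∑ S, ρ ^ S.card * Ph S * Hh G S * kap G S) := by
    rw [Fintype.sum_prod_type, Fintype.sum_prod_type, Finset.mul_sum, Finset.mul_sum]
    refine Finset.sum_congr rfl fun G _ => ?_
    have h1 : ∀ c : Gam j → Bool, ∑ q : Fn (j + m) × (Gam (j + m) → Fin B),
        F (ns (((G, c), q) : NE j m B)) * H (nt a (((G, c), q) : NE j m B)) =
        Tn * (Bn * ∑ S, ρ ^ S.card * Ph S * Hh G S * walsh S (cl G c)) := by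
      intro c
      have h2 := conv_nz (k := j + m) hB (by omega : a ≤ B) P (fun h => H (G, h + cl G c))
      rw [← hρ, ← hTn, ← hBn] at h2
      have h3 : ∑ h, ∑ w, P h * (fun h => H (G, h + cl G c)) (h + nz (j + m) a B w) =
          ∑ q : Fn (j + m) × (Gam (j + m) → Fin B),
          F (ns (((G, c), q) : NE j m B)) * H (nt a (((G, c), q) : NE j m B)) := by
        rw [Fintype.sum_prod_type, hP]
        rfl
      rw [← h3, h2]
      congr 2
      refine Finset.sum_congr rfl fun S _ => ?_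
      rw [fc_trans (fun h => H (G, h)) (cl G c) S, hPh, hHh]
      ring
    simp only [h1]
    rw [← Finset.mul_sum, ← Finset.mul_sum, Finset.sum_comm]
    congr 2
    refine Finset.sum_congr rfl fun S _ => ?_
    rw [← Finset.mul_sum, kap]
  have hparP : Tn * ∑ S, Ph S ^ 2 = ∑ h, F (rep h) ^ 2 := by
    have h1 := parseval P P
    simp only [← sq, ← hPh] at h1
    rw [h1, ← hTn, hP]
    field_simp
  have hparH : ∀ G, Tn * ∑ S, Hh G S ^ 2 = ∑ h, H (G, h) ^ 2 := by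
    intro G
    have h1 := parseval (fun h => H (G, h)) (fun h => H (G, h))
    simp only [← sq, ← hHh] at h1
    rw [h1, ← hTn]
    field_simp
  -- termwise estimate
  obtain ⟨ind, hind⟩ : ∃ ind : Mx j m → Finset (Gam (j + m)) → ℝ, ∀ G S, ind G S =
      if kap G S ≠ 0 then 1 else 0 := ⟨_, fun _ _ => rfl⟩
  have hterm : ∀ G S, ρ ^ S.card * Ph S * Hh G S * kap G S ≤
      C0 * (ind G S * ((ρ ^ 2) ^ S.card * Ph S ^ 2) / (2 * σ) + σ * Hh G S ^ 2 / 2) := by
    intro G S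
    by_cases hk : kap G S = 0
    · rw [hk, mul_zero, hind, if_neg (by simpa using hk)]
      positivity
    · rw [hind, if_pos hk, one_mul]
      have h1 := kap_le G S
      rw [← hC0] at h1
      have h2 : ρ ^ S.card * Ph S * Hh G S * kap G S ≤ |ρ ^ S.card * Ph S * Hh G S| * C0 := by
        calc ρ ^ S.card * Ph S * Hh G S * kap G S ≤ |ρ ^ S.card * Ph S * Hh G S * kap G S| :=
              le_abs_self _
          _ = |ρ ^ S.card * Ph S * Hh G S| * |kap G S| := abs_mul _ _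
          _ ≤ _ := mul_le_mul_of_nonneg_left h1 (abs_nonneg _)
      have h3 : |ρ ^ S.card * Ph S * Hh G S| ≤
          (ρ ^ 2) ^ S.card * Ph S ^ 2 / (2 * σ) + σ * Hh G S ^ 2 / 2 := by
        have e1 : (ρ ^ 2) ^ S.card * Ph S ^ 2 = (ρ ^ S.card * Ph S) ^ 2 := by
          rw [mul_pow, ← pow_mul, ← pow_mul, mul_comm 2]
        rw [e1]
        obtain ⟨p, hp⟩ : ∃ p, p = ρ ^ S.card * Ph S := ⟨_, rfl⟩
        rw [← hp, abs_le]
        have e2 : p ^ 2 / (2 * σ) + σ * Hh G S ^ 2 / 2 = (p ^ 2 + (σ * Hh G S) ^ 2) / (2 * σ) := by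
          field_simp
        rw [e2, le_div_iff₀ (by positivity), ← neg_div, div_le_iff₀ (by positivity)]
        constructor
        · nlinarith [sq_nonneg (p + σ * Hh G S)]
        · nlinarith [sq_nonneg (p - σ * Hh G S)]
      calc _ ≤ |ρ ^ S.card * Ph S * Hh G S| * C0 := h2
        _ ≤ ((ρ ^ 2) ^ S.card * Ph S ^ 2 / (2 * σ) + σ * Hh G S ^ 2 / 2) * C0 :=
            mul_le_mul_of_nonneg_right h3 hC0p.le
        _ = _ := by ring
  have hcount : ∀ S, (∑ G, ind G S) * ((ρ ^ 2) ^ S.card * Ph S ^ 2) ≤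
      M0 * σ ^ 2 * Ph S ^ 2 := by
    intro S
    by_cases hS : S.card < 4
    · rw [hPlow S hS]
      simp
    · have hne : S.Nonempty := by
        rw [← Finset.card_pos]; omega
      have h1 := kap_count (j := j) (m := m) S hne
      have h2 : ∑ G, ind G S = ((Finset.univ.filter fun G : Mx j m => kap G S ≠ 0).card : ℝ) := by
        simp only [hind]
        rw [← Finset.sum_filter]
        simp
      rw [← h2, ← hM0] at h1
      have h3 := hσ S.card (by omega)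
      have h4 : (2 : ℝ) ^ j * ((∑ G, ind G S) * (ρ ^ 2) ^ S.card) ≤ 2 ^ j * (M0 * σ ^ 2) := by
        calc (2 : ℝ) ^ j * ((∑ G, ind G S) * (ρ ^ 2) ^ S.card)
            = ((∑ G, ind G S) * 2 ^ j) * (ρ ^ 2) ^ S.card := by ring
          _ ≤ (((S.card : ℝ) - 1) * M0) * (ρ ^ 2) ^ S.card :=
              mul_le_mul_of_nonneg_right h1 (by positivity)
          _ = M0 * (((S.card : ℝ) - 1) * (ρ ^ 2) ^ S.card) := by ring
          _ ≤ M0 * (2 ^ j * σ ^ 2) := mul_le_mul_of_nonneg_left h3 hM0p.le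
          _ = _ := by ring
      have h5 := le_of_mul_le_mul_left h4 (by positivity)
      calc (∑ G, ind G S) * ((ρ ^ 2) ^ S.card * Ph S ^ 2)
          = ((∑ G, ind G S) * (ρ ^ 2) ^ S.card) * Ph S ^ 2 := by ring
        _ ≤ _ := mul_le_mul_of_nonneg_right h5 (sq_nonneg _)
  have hsum : ∑ G, ∑ S, ρ ^ S.card * Ph S * Hh G S * kap G S ≤
      C0 * (M0 * σ * (∑ S, Ph S ^ 2) / 2 + σ * (∑ G, ∑ S, Hh G S ^ 2) / 2) := by
    calc ∑ G, ∑ S, ρ ^ S.card * Ph S * Hh G S * kap G S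
        ≤ ∑ G, ∑ S, C0 * (ind G S * ((ρ ^ 2) ^ S.card * Ph S ^ 2) / (2 * σ) +
            σ * Hh G S ^ 2 / 2) :=
          Finset.sum_le_sum fun G _ => Finset.sum_le_sum fun S _ => hterm G S
      _ = C0 * ((∑ S, (∑ G, ind G S) * ((ρ ^ 2) ^ S.card * Ph S ^ 2)) / (2 * σ) +
            σ * (∑ G, ∑ S, Hh G S ^ 2) / 2) := by
          simp only [Finset.sum_mul]
          rw [Finset.sum_comm (s := (Finset.univ : Finset (Finset (Gam (j + m)))))]
          simp only [Finset.mul_sum, Finset.sum_div, ← Finset.sum_add_distrib]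
      _ ≤ C0 * ((∑ S, M0 * σ ^ 2 * Ph S ^ 2) / (2 * σ) +
            σ * (∑ G, ∑ S, Hh G S ^ 2) / 2) := by
          apply mul_le_mul_of_nonneg_left _ hC0p.le
          apply add_le_add_left
          apply div_le_div_of_nonneg_right _ (by positivity)
          exact Finset.sum_le_sum fun S _ => hcount S
      _ = _ := by
          rw [← Finset.mul_sum]
          field_simp
  rw [hbil]
  have hsum2 : Tn * (Bn * ∑ G, ∑ S, ρ ^ S.card * Ph S * Hh G S * kap G S) ≤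
      Tn * (Bn * (C0 * (M0 * σ * (∑ S, Ph S ^ 2) / 2 + σ * (∑ G, ∑ S, Hh G S ^ 2) / 2))) :=
    mul_le_mul_of_nonneg_left (mul_le_mul_of_nonneg_left hsum hBN.le) h2N.le
  have hfin : Tn * (Bn * (C0 * (M0 * σ * (∑ S, Ph S ^ 2) / 2 +
      σ * (∑ G, ∑ S, Hh G S ^ 2) / 2))) =
      Bn * (C0 * (σ / 2)) * (M0 * (Tn * ∑ S, Ph S ^ 2) + ∑ G, Tn * ∑ S, Hh G S ^ 2) := by
    rw [← Finset.mul_sum]
    ring
  rw [hfin, hparP] at hsum2
  simp only [hparH] at hsum2
  have h7 : 1 - (1 - σ) = σ := by ring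
  rw [h7]
  nlinarith

end Pool.Agent.H818R3.Defl
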