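import Mathlib
import Pool.Agent.H818R3.DNoise

/-!
Soundness of the noisy `2^j`-to-one games.
-/

set_option autoImplicit false

namespace Pool.Agent.H818R3.Defl

open Finset Pool.Agent.H562R2

variable {j m a B : ℕ}

/-- Indicator of agreement on the right side. -/
def dag (M : Mx j m × Fn (j + m) → Gam m) (G : Mx j m) (c : Gam j → Bool) (b : Gam (j + m))
    (h : Fn (j + m)) : ℝ := if pm G b = M (G, h + cl G c) then 1 else 0

theorem nvalue (hB : 0 < B) (haB : 2 * a ≤ B) (L : Fn (j + m) → Gam (j + m))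
    (M : Mx j m × Fn (j + m) → Gam m) (i : ℕ) (τ : ℝ) (hτ : 0 < τ) :
    ((Finset.univ.filter fun e : NE j m B => np e (L (ns e)) = M (nt a e)).card : ℝ) ≤
      ((3 ^ i * Real.sqrt (1 / 2 ^ (j + m)) + ((1 - 2 * a / B : ℝ) ^ 2) ^ i) / (2 * τ) +
        τ * 2 ^ j / 2) * Fintype.card (NE j m B) := by
  have hB0 : (0 : ℝ) < B := by exact_mod_cast hB
  obtain ⟨ρ, hρ⟩ : ∃ ρ : ℝ, ρ = 1 - 2 * a / B := ⟨_, rfl⟩
  have hρ0 : 0 ≤ ρ := by
    rw [hρ, sub_nonneg, div_le_one hB0]
    exact_mod_cast haB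
  have hρ1 : ρ ≤ 1 := by
    rw [hρ]
    have : (0 : ℝ) ≤ 2 * a / B := by positivity
    linarith
  obtain ⟨μ, hμ⟩ : ∃ μ : ℝ, μ = 1 / 2 ^ (j + m) := ⟨_, rfl⟩
  have hμ0 : 0 ≤ μ := by rw [hμ]; positivity
  have hτ2 : Real.sqrt μ ^ 2 = μ := Real.sq_sqrt hμ0
  obtain ⟨Bn, hBn⟩ : ∃ Bn : ℝ, Bn = (B : ℝ) ^ Fintype.card (Gam (j + m)) := ⟨_, rfl⟩
  obtain ⟨Tn, hTn⟩ : ∃ Tn : ℝ, Tn = (2 : ℝ) ^ Fintype.card (Gam (j + m)) := ⟨_, rfl⟩
  have hBn0 : 0 < Bn := by rw [hBn]; positivity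
  have hTn0 : 0 < Tn := by rw [hTn]; positivity
  have hK : (Fintype.card (Gam (j + m)) : ℝ) = 2 ^ (j + m) := by
    rw [Fintype.card_fun, Fintype.card_bool, Fintype.card_fin]; push_cast; rfl
  -- stability of the left sides
  have hstab : ∀ b, ∑ S, (ρ ^ 2) ^ S.card * fc (chosen L b) S ^ 2 ≤
      (3 ^ i * Real.sqrt μ + (ρ ^ 2) ^ i) * μ := fun b =>
    stab_small (chosen L b) (fun h => by
      unfold chosen
      by_cases h1 : idx h + L (rep h) = b <;> simp [h1]) μ (Real.sqrt μ) (ρ ^ 2)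
      (by rw [sum_chosen, hμ]) (Real.sqrt_nonneg _) hτ2 (by positivity)
      (pow_le_one₀ hρ0 hρ1) i
  have hleft : ∑ b : Gam (j + m), ∑ S, (ρ ^ 2) ^ S.card * fc (chosen L b) S ^ 2 ≤
      3 ^ i * Real.sqrt μ + (ρ ^ 2) ^ i := by
    calc ∑ b : Gam (j + m), ∑ S, (ρ ^ 2) ^ S.card * fc (chosen L b) S ^ 2
        ≤ ∑ _b : Gam (j + m), (3 ^ i * Real.sqrt μ + (ρ ^ 2) ^ i) * μ :=
          Finset.sum_le_sum fun b _ => hstab b
      _ = 3 ^ i * Real.sqrt μ + (ρ ^ 2) ^ i := by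
          rw [Finset.sum_const, Finset.card_univ, nsmul_eq_mul, hK, hμ]
          field_simp
  have hright : ∀ G c, ∑ b : Gam (j + m), ∑ S, fc (dag M G c b) S ^ 2 = 2 ^ j := by
    intro G c
    have h1 : ∀ b, ∑ S, fc (dag M G c b) S ^ 2 = (∑ h, dag M G c b h) / Tn := by
      intro b
      have h2 := parseval (dag M G c b) (dag M G c b)
      simp only [← sq] at h2
      rw [h2, ← hTn]
      congr 1
      refine Finset.sum_congr rfl fun h _ => ?_
      unfold dag
      by_cases h3 : pm G b = M (G, h + cl G c) <;> simp [h3]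
    simp only [h1]
    rw [← Finset.sum_div, Finset.sum_comm]
    have h2 : ∀ h, ∑ b, dag M G c b h = 2 ^ j := by
      intro h
      unfold dag
      rw [← Finset.sum_filter, Finset.sum_const, fiber_card, nsmul_eq_mul]
      push_cast
      ring
    simp only [h2]
    rw [Finset.sum_const, Finset.card_univ, nsmul_eq_mul,
      Fintype.card_fun (α := Gam (j + m)) (β := Bool), Fintype.card_bool]
    push_cast
    rw [← hTn]
    field_simp
  -- one choice of the right data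
  have hone : ∀ (G : Mx j m) (c : Gam j → Bool),
      ∑ b : Gam (j + m), ∑ h, ∑ w, chosen L b h * dag M G c b (h + nz (j + m) a B w) ≤
      Tn * (Bn * ((3 ^ i * Real.sqrt μ + (ρ ^ 2) ^ i) / (2 * τ) + τ * 2 ^ j / 2)) := by
    intro G c
    have h1 : ∀ b, ∑ h, ∑ w, chosen L b h * dag M G c b (h + nz (j + m) a B w) =
        Tn * (Bn * ∑ S, ρ ^ S.card * (fc (chosen L b) S * fc (dag M G c b) S)) := by
      intro b
      rw [conv_nz hB (by omega : a ≤ B), ← hρ, ← hTn, ← hBn]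
    simp only [h1]
    rw [← Finset.mul_sum, ← Finset.mul_sum]
    apply mul_le_mul_of_nonneg_left _ hTn0.le
    apply mul_le_mul_of_nonneg_left _ hBn0.le
    have h2 : ∀ (b : Gam (j + m)) (S : Finset (Gam (j + m))),
        ρ ^ S.card * (fc (chosen L b) S * fc (dag M G c b) S) ≤
        (ρ ^ 2) ^ S.card * fc (chosen L b) S ^ 2 / (2 * τ) + τ * fc (dag M G c b) S ^ 2 / 2 := by
      intro b S
      have e1 : (ρ ^ 2) ^ S.card * fc (chosen L b) S ^ 2 =
          (ρ ^ S.card * fc (chosen L b) S) ^ 2 := by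
        rw [mul_pow, ← pow_mul, ← pow_mul, mul_comm 2]
      rw [e1, ← mul_assoc]
      obtain ⟨p, hp⟩ : ∃ p, p = ρ ^ S.card * fc (chosen L b) S := ⟨_, rfl⟩
      obtain ⟨q, hq⟩ : ∃ q, q = fc (dag M G c b) S := ⟨_, rfl⟩
      rw [← hp, ← hq]
      have e2 : p ^ 2 / (2 * τ) + τ * q ^ 2 / 2 = (p ^ 2 + (τ * q) ^ 2) / (2 * τ) := by
        field_simp
      rw [e2, le_div_iff₀ (by positivity)]
      nlinarith [sq_nonneg (p - τ * q)]
    calc ∑ b : Gam (j + m), ∑ S, ρ ^ S.card * (fc (chosen L b) S * fc (dag M G c b) S)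
        ≤ ∑ b : Gam (j + m), ∑ S, ((ρ ^ 2) ^ S.card * fc (chosen L b) S ^ 2 / (2 * τ) +
            τ * fc (dag M G c b) S ^ 2 / 2) :=
          Finset.sum_le_sum fun b _ => Finset.sum_le_sum fun S _ => h2 b S
      _ = (∑ b : Gam (j + m), ∑ S, (ρ ^ 2) ^ S.card * fc (chosen L b) S ^ 2) / (2 * τ) +
            τ * (∑ b : Gam (j + m), ∑ S, fc (dag M G c b) S ^ 2) / 2 := by
          simp only [Finset.mul_sum, Finset.sum_div, ← Finset.sum_add_distrib]
      _ ≤ (3 ^ i * Real.sqrt μ + (ρ ^ 2) ^ i) / (2 * τ) + τ * 2 ^ j / 2 := by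
          rw [hright]
          apply add_le_add_left
          exact div_le_div_of_nonneg_right hleft (by positivity)
  have hcount : ((Finset.univ.filter fun e : NE j m B => np e (L (ns e)) = M (nt a e)).card : ℝ) =
      ∑ p : Mx j m × (Gam j → Bool), ∑ b : Gam (j + m), ∑ h, ∑ w,
        chosen L b h * dag M p.1 p.2 b (h + nz (j + m) a B w) := by
    have h1 : ((Finset.univ.filter fun e : NE j m B => np e (L (ns e)) = M (nt a e)).card : ℝ) =
        ∑ e : NE j m B, if np e (L (ns e)) = M (nt a e) then (1 : ℝ) else 0 := by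
      rw [← Finset.sum_filter]; simp
    rw [h1, Fintype.sum_prod_type]
    refine Finset.sum_congr rfl fun p _ => ?_
    rw [Fintype.sum_prod_type, Finset.sum_comm]
    rw [Finset.sum_comm]
    rw [Finset.sum_comm (s := (Finset.univ : Finset (Gam (j + m))))]
    refine Finset.sum_congr rfl fun f _ => ?_
    rw [Finset.sum_comm]
    refine Finset.sum_congr rfl fun w _ => ?_
    have h2 : ∀ b, chosen L b f * dag M p.1 p.2 b (f + nz (j + m) a B w) =
        if idx f + L (rep f) = b then dag M p.1 p.2 b (f + nz (j + m) a B w) else 0 := by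
      intro b
      unfold chosen
      by_cases h3 : idx f + L (rep f) = b <;> simp [h3]
    simp only [h2]
    rw [Finset.sum_ite_eq, if_pos (Finset.mem_univ _)]
    unfold dag
    rw [add_comm (idx f)]
    rfl
  have hcardE : (Fintype.card (NE j m B) : ℝ) =
      Fintype.card (Mx j m × (Gam j → Bool)) * (Tn * Bn) := by
    have h1 : Fintype.card (NE j m B) = Fintype.card (Mx j m × (Gam j → Bool)) *
        (Fintype.card (Fn (j + m)) * Fintype.card (Gam (j + m) → Fin B)) := by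
      rw [Fintype.card_prod, Fintype.card_prod (Fn (j + m))]
    rw [h1, Fintype.card_fun (α := Gam (j + m)) (β := Fin B), Fintype.card_fin,
      Fintype.card_fun (α := Gam (j + m)) (β := Bool), Fintype.card_bool, hTn, hBn]
    push_cast
    ring
  rw [hcount, ← hρ, ← hμ, hcardE]
  calc ∑ p : Mx j m × (Gam j → Bool), ∑ b : Gam (j + m), ∑ h, ∑ w,
        chosen L b h * dag M p.1 p.2 b (h + nz (j + m) a B w)
      ≤ ∑ _p : Mx j m × (Gam j → Bool),
        Tn * (Bn * ((3 ^ i * Real.sqrt μ + (ρ ^ 2) ^ i) / (2 * τ) + τ * 2 ^ j / 2)) :=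
        Finset.sum_le_sum fun p _ => hone p.1 p.2
    _ = _ := by
        rw [Finset.sum_const, Finset.card_univ, nsmul_eq_mul]
        ring

end Pool.Agent.H818R3.Defl
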