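import Mathlib
import Pool.Agent.H818R3.DNoiseA
import Pool.Agent.H818R3.DNoiseC
import Pool.Agent.H818R3.DNoiseD

/-!
Choice of parameters for the noisy `2^j`-to-one games.
-/

set_option autoImplicit false

namespace Pool.Agent.H818R3.Defl

open Finset Pool.Agent.H562R2

theorem geom_bound (v : ℝ) (hv0 : 0 ≤ v) (hv1 : v < 1) (n : ℕ) :
    (n : ℝ) * v ^ n * (1 - v) ≤ v * (1 - v ^ n) := by
  induction n with
  | zero => simp
  | succ n ih =>
    have h1 : v ^ n ≤ 1 := pow_le_one₀ hv0 hv1.le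
    have h2 : 0 ≤ v ^ n := by positivity
    have h3 := mul_le_mul_of_nonneg_left ih hv0
    rw [pow_succ]
    push_cast
    nlinarith [mul_nonneg (mul_nonneg hv0 (sub_nonneg.mpr hv1.le)) (sub_nonneg.mpr h1)]

theorem level_bound (ε u : ℝ) (hε0 : 0 < ε) (hε1 : ε < 1) (hu0 : 0 ≤ u) (hu : u ≤ 1 - ε) (n : ℕ)
    (hn : 4 ≤ n) : ((n : ℝ) - 1) * u ^ n ≤ (2 + 1 / ε) * (1 - ε) ^ 4 := by
  obtain ⟨v, hv⟩ : ∃ v : ℝ, v = 1 - ε := ⟨_, rfl⟩
  have hv0 : 0 < v := by linarith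
  have hv1 : v < 1 := by linarith
  rw [← hv] at hu ⊢
  obtain ⟨q, rfl⟩ := Nat.exists_eq_add_of_le hn
  have h1 : u ^ (4 + q) ≤ v ^ (4 + q) := pow_le_pow_left₀ hu0 hu _
  have h2 : v ^ q ≤ 1 := pow_le_one₀ hv0.le hv1.le
  have h3 : 0 ≤ v ^ q := by positivity
  have h4 := geom_bound v hv0.le hv1 q
  have hεv : ε = 1 - v := by linarith
  have h5 : (q : ℝ) * v ^ q ≤ 1 / ε - 1 := by
    have e1 : (1 / ε - 1) = v / ε := by
      rw [hεv]
      have : (1 - v) ≠ 0 := by linarith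
      field_simp
      ring
    rw [e1, le_div_iff₀ hε0, hεv]
    nlinarith
  have hq : (0 : ℝ) ≤ q := Nat.cast_nonneg q
  have h6 : (((4 + q : ℕ) : ℝ) - 1) * u ^ (4 + q) ≤ (((4 + q : ℕ) : ℝ) - 1) * v ^ (4 + q) := by
    apply mul_le_mul_of_nonneg_left h1
    push_cast
    linarith
  refine h6.trans ?_
  have h7 : (((4 + q : ℕ) : ℝ) - 1) * v ^ (4 + q) = (3 * v ^ q + q * v ^ q) * v ^ 4 := by
    push_cast
    ring
  rw [h7]
  apply mul_le_mul_of_nonneg_right _ (by positivity)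
  linarith

/-- Games of spectral gap close to the threshold and of arbitrarily small value. -/
theorem d_sharp (j : ℕ) (ε δ : ℝ) (hε0 : 0 < ε) (hε1 : ε < 1) (hδ : 0 < δ) :
    ∃ m a B : ℕ, 0 < B ∧
      HasGap (ns (j := j) (m := m) (B := B)) (nt a)
        (1 - Real.sqrt (2 + 1 / ε) * (1 - ε) ^ 2 / Real.sqrt (2 ^ j)) ∧
      (1 - ε) * Fintype.card (NE j m B) ≤
        ∑ e : NE j m B, ∑ c, kvec (j + m) (ns e) c ⬝ᵥ nyv (nt a e) (np e c) ∧
      ∀ (L : Fn (j + m) → Gam (j + m)) (M : Mx j m × Fn (j + m) → Gam m),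
        ((Finset.univ.filter fun e : NE j m B => np e (L (ns e)) = M (nt a e)).card : ℝ) ≤
          δ * Fintype.card (NE j m B) := by
  obtain ⟨v, hv⟩ : ∃ v : ℝ, v = 1 - ε := ⟨_, rfl⟩
  have hv0 : 0 < v := by linarith
  have hv1 : v < 1 := by linarith
  have hd : (0 : ℝ) < 2 ^ j := by positivity
  obtain ⟨κ, hκ⟩ : ∃ κ : ℝ, κ = δ ^ 2 / 2 ^ j / 2 := ⟨_, rfl⟩
  have hκ0 : 0 < κ := by rw [hκ]; positivity
  obtain ⟨i, hi⟩ := exists_pow_lt_of_lt_one hκ0 hv1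
  obtain ⟨m, hm⟩ : ∃ m : ℕ, 3 ^ i * Real.sqrt (1 / 2 ^ m) < κ := by
    have h3 : (0 : ℝ) < 3 ^ i := by positivity
    obtain ⟨m, hm⟩ := exists_pow_lt_of_lt_one (show (0 : ℝ) < (κ / 3 ^ i) ^ 2 by positivity)
      (show (1 / 2 : ℝ) < 1 by norm_num)
    refine ⟨m, ?_⟩
    have h4 : Real.sqrt (1 / 2 ^ m) < κ / 3 ^ i := by
      rw [Real.sqrt_lt' (by positivity)]
      rwa [one_div, ← inv_pow, ← one_div]
    calc 3 ^ i * Real.sqrt (1 / 2 ^ m) < 3 ^ i * (κ / 3 ^ i) :=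
          mul_lt_mul_of_pos_left h4 h3
      _ = κ := by field_simp
  have h2m : (0 : ℝ) < 2 ^ m := by positivity
  have hlt : Real.sqrt (max 0 (v - ε / 2 ^ m)) < Real.sqrt v := by
    apply Real.sqrt_lt_sqrt (le_max_left _ _)
    rw [max_lt_iff]
    refine ⟨hv0, ?_⟩
    have : 0 < ε / 2 ^ m := by positivity
    linarith
  obtain ⟨q, hq1, hq2⟩ := exists_rat_btwn hlt
  have hq0 : (0 : ℝ) < q := lt_of_le_of_lt (Real.sqrt_nonneg _) hq1
  have hqv : (q : ℝ) ^ 2 ≤ v := by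
    have h1 : (q : ℝ) ^ 2 ≤ Real.sqrt v ^ 2 := pow_le_pow_left₀ hq0.le hq2.le 2
    rwa [Real.sq_sqrt hv0.le] at h1
  have hql : v - ε / 2 ^ m ≤ (q : ℝ) ^ 2 := by
    have h1 : Real.sqrt (max 0 (v - ε / 2 ^ m)) ^ 2 ≤ (q : ℝ) ^ 2 :=
      pow_le_pow_left₀ (Real.sqrt_nonneg _) hq1.le 2
    rw [Real.sq_sqrt (le_max_left _ _)] at h1
    exact (le_max_right _ _).trans h1
  have hq1' : (q : ℝ) < 1 := by nlinarith
  obtain ⟨a, B, hB, haB, hρ⟩ := rat_noise q (by exact_mod_cast hq0) (by exact_mod_cast hq1')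
  refine ⟨m, a, B, hB, ?_, ?_, ?_⟩
  · have hs0 : 0 < Real.sqrt (2 + 1 / ε) := Real.sqrt_pos.mpr (by positivity)
    have hd0 : 0 < Real.sqrt ((2 : ℝ) ^ j) := Real.sqrt_pos.mpr hd
    refine ngap hB haB _ (by rw [← hv]; positivity) ?_
    intro n hn
    rw [hρ]
    refine (level_bound ε ((q : ℝ) ^ 2) hε0 hε1 (by positivity) (by rw [← hv]; exact hqv) n
      hn).trans (le_of_eq ?_)
    rw [div_pow, mul_pow, Real.sq_sqrt hd.le, Real.sq_sqrt (by positivity)]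
    field_simp
  · rw [nval hB haB, hρ, ← hv]
    apply mul_le_mul_of_nonneg_right _ (Nat.cast_nonneg _)
    have h1 : ε / 2 ^ m ≤ (1 - (q : ℝ) ^ 2) / 2 ^ m :=
      div_le_div_of_nonneg_right (by linarith) h2m.le
    linarith
  · intro L M
    have hτ : 0 < δ / 2 ^ j := by positivity
    refine (nvalue hB haB L M i (δ / 2 ^ j) hτ).trans ?_
    apply mul_le_mul_of_nonneg_right _ (Nat.cast_nonneg _)
    rw [hρ]
    have h1 : 3 ^ i * Real.sqrt (1 / 2 ^ (j + m)) ≤ κ := by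
      refine le_trans ?_ hm.le
      apply mul_le_mul_of_nonneg_left _ (by positivity)
      apply Real.sqrt_le_sqrt
      apply one_div_le_one_div_of_le h2m
      exact pow_le_pow_right₀ (by norm_num) (by omega)
    have h2 : ((q : ℝ) ^ 2) ^ i ≤ κ := (pow_le_pow_left₀ (by positivity) hqv i).trans hi.le
    have h3 : (3 ^ i * Real.sqrt (1 / 2 ^ (j + m)) + ((q : ℝ) ^ 2) ^ i) / (2 * (δ / 2 ^ j)) ≤
        (κ + κ) / (2 * (δ / 2 ^ j)) :=
      div_le_div_of_nonneg_right (by linarith) (by positivity)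
    have h4 : (κ + κ) / (2 * (δ / 2 ^ j)) + δ / 2 ^ j * 2 ^ j / 2 = δ := by
      rw [hκ]
      field_simp
      ring
    linarith

end Pool.Agent.H818R3.Defl
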