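import Mathlib

/-!
# The random structure with one hyperedge relation in every arity

A set `E` of finite subsets of `ℕ` with the extension property is homogeneous.
-/

namespace Pool.Agent.H818R3

/-- The extension property of a family of finite sets of natural numbers. -/
def ExtProp (E : Finset ℕ → Prop) : Prop :=
  ∀ (A : Finset ℕ) (P : Finset ℕ → Prop), ∃ x, x ∉ A ∧ ∀ S ⊆ A, (E (insert x S) ↔ P S)

/-- An explicit family: `F` is an edge when `F` minus its largest element `m` belongs to the `m`-th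
finite set of finite sets of natural numbers, for the given enumeration `dec`. -/
def HEof (dec : ℕ → Finset (Finset ℕ)) (F : Finset ℕ) : Prop :=
  ∃ h : F.Nonempty, F.erase (F.max' h) ∈ dec (F.max' h)

theorem extProp_HEof (dec : ℕ → Finset (Finset ℕ)) (enc : Finset (Finset ℕ) → ℕ)
    (hde : ∀ x, dec (enc x) = x) : ExtProp (HEof dec) := by
  classical
  intro A P
  let E0 : Finset (Finset ℕ) := A.powerset.filter P
  let b : ℕ := A.sup id + 1
  have hb : ∀ a ∈ A, a < b := fun a ha => Nat.lt_succ_of_le (Finset.le_sup (f := id) ha)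
  let c : ℕ → ℕ := fun j => enc (insert {b + j} E0)
  have hcj : ∀ j, dec (c j) = insert {b + j} E0 := fun j => hde _
  have hc : Function.Injective c := by
    intro i j hij
    have h1 : insert {b + i} E0 = insert {b + j} E0 := by rw [← hcj, ← hcj, hij]
    have h2 : ({b + i} : Finset ℕ) ∈ insert {b + j} E0 := by
      rw [← h1]; exact Finset.mem_insert_self _ _
    rcases Finset.mem_insert.1 h2 with h3 | h3
    · have := Finset.singleton_injective h3
      omega
    · have h4 := (Finset.mem_powerset.1 (Finset.mem_filter.1 h3).1) (Finset.mem_singleton_self _)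
      have := hb _ h4
      omega
  obtain ⟨j, hj⟩ : ∃ j, b ≤ c j := by
    by_contra hcon
    push Not at hcon
    have : Set.Infinite (Set.range c) := Set.infinite_range_of_injective hc
    exact this ((Set.finite_Iio b).subset (by rintro _ ⟨j, rfl⟩; exact hcon j))
  refine ⟨c j, fun h => by have := hb _ h; omega, ?_⟩
  intro S hS
  have hne : (insert (c j) S).Nonempty := Finset.insert_nonempty _ _
  have hmem : c j ∉ S := fun h => by have := hb _ (hS h); omega
  have hmax : (insert (c j) S).max' hne = c j := by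
    apply le_antisymm
    · apply Finset.max'_le
      intro y hy
      rcases Finset.mem_insert.1 hy with h | h
      · exact h.le
      · have := hb _ (hS h); omega
    · exact Finset.le_max' _ _ (Finset.mem_insert_self _ _)
  constructor
  · rintro ⟨h, h1⟩
    rw [hmax, Finset.erase_insert hmem, hcj] at h1
    rcases Finset.mem_insert.1 h1 with h2 | h2
    · exfalso
      have h3 : b + j ∈ S := by rw [h2]; exact Finset.mem_singleton_self _
      have := hb _ (hS h3)
      omega
    · exact (Finset.mem_filter.1 h2).2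
  · intro hP
    refine ⟨hne, ?_⟩
    rw [hmax, Finset.erase_insert hmem, hcj]
    exact Finset.mem_insert_of_mem (Finset.mem_filter.2 ⟨Finset.mem_powerset.2 hS, hP⟩)

theorem exists_extProp : ∃ E : Finset ℕ → Prop, ExtProp E :=
  ⟨_, extProp_HEof (Denumerable.ofNat (Finset (Finset ℕ)))
    (@Encodable.encode (Finset (Finset ℕ)) Denumerable.finset.toEncodable)
    (fun x => Denumerable.ofNat_encode x)⟩

/-- Finite partial isomorphisms. -/
def Good (E : Finset ℕ → Prop) (p : Finset (ℕ × ℕ)) : Prop :=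
  (∀ a ∈ p, ∀ b ∈ p, (a.1 = b.1 ↔ a.2 = b.2)) ∧
    ∀ q ⊆ p, (E (q.image Prod.fst) ↔ E (q.image Prod.snd))

theorem Good.forth {E : Finset ℕ → Prop} (hE : ExtProp E) {p : Finset (ℕ × ℕ)} (hp : Good E p)
    (a : ℕ) : ∃ b, Good E (insert (a, b) p) := by
  classical
  by_cases ha : ∃ b, (a, b) ∈ p
  · obtain ⟨b, hb⟩ := ha
    exact ⟨b, by rw [Finset.insert_eq_of_mem hb]; exact hp⟩
  push Not at ha
  obtain ⟨b, hb, hS⟩ := hE (p.image Prod.snd)
    (fun S => E (insert a ((p.filter (fun x => x.2 ∈ S)).image Prod.fst)))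
  have hb' : ∀ x, (x, b) ∉ p := fun x hx => hb (Finset.mem_image.2 ⟨(x, b), hx, rfl⟩)
  refine ⟨b, ?_, ?_⟩
  · intro x hx y hy
    rcases Finset.mem_insert.1 hx with rfl | hx <;> rcases Finset.mem_insert.1 hy with rfl | hy
    · simp
    · constructor
      · intro h; exfalso; apply ha y.2; simp only at h; rw [h]; exact hy
      · intro h; exfalso; apply hb' y.1; simp only at h; rw [h]; exact hy
    · constructor
      · intro h; exfalso; apply ha x.2; simp only at h; rw [← h]; exact hx
      · intro h; exfalso; apply hb' x.1; simp only at h; rw [← h]; exact hx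
    · exact hp.1 x hx y hy
  · intro q hq
    by_cases hab : (a, b) ∈ q
    · have hq0 : q.erase (a, b) ⊆ p := by
        intro x hx
        rcases Finset.mem_insert.1 (hq (Finset.mem_of_mem_erase hx)) with h | h
        · exact absurd h (Finset.ne_of_mem_erase hx)
        · exact h
      set q0 := q.erase (a, b) with hq0def
      have hqe : q = insert (a, b) q0 := (Finset.insert_erase hab).symm
      have h1 : q.image Prod.fst = insert a (q0.image Prod.fst) := by
        rw [hqe, Finset.image_insert]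
      have h2 : q.image Prod.snd = insert b (q0.image Prod.snd) := by
        rw [hqe, Finset.image_insert]
      rw [h1, h2, hS (q0.image Prod.snd) (Finset.image_subset_image hq0)]
      have h3 : (p.filter (fun x => x.2 ∈ q0.image Prod.snd)).image Prod.fst = q0.image Prod.fst := by
        ext y
        simp only [Finset.mem_image, Finset.mem_filter]
        constructor
        · rintro ⟨x, ⟨hx, z, hz, hzx⟩, rfl⟩
          exact ⟨z, hz, (hp.1 z (hq0 hz) x hx).2 hzx⟩
        · rintro ⟨z, hz, rfl⟩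
          exact ⟨z, ⟨hq0 hz, z, hz, rfl⟩, rfl⟩
      rw [h3]
    · apply hp.2
      intro x hx
      rcases Finset.mem_insert.1 (hq hx) with h | h
      · exact absurd (h ▸ hx) hab
      · exact h

theorem Good.swap {E : Finset ℕ → Prop} {p : Finset (ℕ × ℕ)} (hp : Good E p) :
    Good E (p.image Prod.swap) := by
  classical
  refine ⟨?_, ?_⟩
  · intro x hx y hy
    obtain ⟨x', hx', rfl⟩ := Finset.mem_image.1 hx
    obtain ⟨y', hy', rfl⟩ := Finset.mem_image.1 hy
    exact (hp.1 x' hx' y' hy').symm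
  · intro q hq
    have h1 : q.image Prod.swap ⊆ p := by
      intro x hx
      obtain ⟨x', hx', rfl⟩ := Finset.mem_image.1 hx
      obtain ⟨y, hy, hyx⟩ := Finset.mem_image.1 (hq hx')
      rw [← hyx, Prod.swap_swap]; exact hy
    have h2 := hp.2 _ h1
    rw [Finset.image_image, Finset.image_image] at h2
    exact h2.symm

theorem Good.back {E : Finset ℕ → Prop} (hE : ExtProp E) {p : Finset (ℕ × ℕ)} (hp : Good E p)
    (b : ℕ) : ∃ a, Good E (insert (a, b) p) := by
  classical
  obtain ⟨a, ha⟩ := hp.swap.forth hE b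
  refine ⟨a, ?_⟩
  have h := ha.swap
  rw [Finset.image_insert, Finset.image_image] at h
  have h1 : p.image (Prod.swap ∘ Prod.swap) = p := by
    rw [Prod.swap_swap_eq, Finset.image_id]
  rw [h1] at h
  exact h

/-- Automorphisms. -/
def IsAut (E : Finset ℕ → Prop) (α : Equiv.Perm ℕ) : Prop :=
  ∀ F : Finset ℕ, E (F.image α) ↔ E F

/-- Every finite partial isomorphism extends to an automorphism. -/
theorem Good.extend {E : Finset ℕ → Prop} (hE : ExtProp E) {p : Finset (ℕ × ℕ)}
    (hp : Good E p) : ∃ α : Equiv.Perm ℕ, IsAut E α ∧ ∀ x ∈ p, α x.1 = x.2 := by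
  classical
  let P := {p : Finset (ℕ × ℕ) // Good E p}
  let D : ℕ ⊕ ℕ → Order.Cofinal P := fun s => match s with
    | Sum.inl a =>
      { carrier := {q | ∃ b, (a, b) ∈ q.1}
        isCofinal := by
          intro q
          obtain ⟨b, hb⟩ := q.2.forth hE a
          exact ⟨⟨_, hb⟩, ⟨b, Finset.mem_insert_self _ _⟩, Finset.subset_insert _ _⟩ }
    | Sum.inr b =>
      { carrier := {q | ∃ a, (a, b) ∈ q.1}
        isCofinal := by
          intro q
          obtain ⟨a, ha⟩ := q.2.back hE b
          exact ⟨⟨_, ha⟩, ⟨a, Finset.mem_insert_self _ _⟩, Finset.subset_insert _ _⟩ }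
  let p0 : P := ⟨p, hp⟩
  let I := Order.idealOfCofinals p0 D
  have hp0 : p0 ∈ I := Order.mem_idealOfCofinals p0 D
  have hI : ∀ s, ∃ q, q ∈ D s ∧ q ∈ I := fun s => Order.cofinal_meets_idealOfCofinals p0 D s
  have hdir : ∀ q ∈ I, ∀ r ∈ I, ∃ t ∈ I, q.1 ⊆ t.1 ∧ r.1 ⊆ t.1 := by
    intro q hq r hr
    obtain ⟨t, ht, h1, h2⟩ := I.directed q hq r hr
    exact ⟨t, ht, h1, h2⟩
  have hf : ∀ a : ℕ, ∃ b, ∃ q ∈ I, (a, b) ∈ q.1 := by
    intro a
    obtain ⟨q, ⟨b, hb⟩, hq⟩ := hI (Sum.inl a)
    exact ⟨b, q, hq, hb⟩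
  have hg : ∀ b : ℕ, ∃ a, ∃ q ∈ I, (a, b) ∈ q.1 := by
    intro b
    obtain ⟨q, ⟨a, ha⟩, hq⟩ := hI (Sum.inr b)
    exact ⟨a, q, hq, ha⟩
  choose f hf using hf
  choose g hg using hg
  have hun : ∀ x y : ℕ × ℕ, (∃ q ∈ I, x ∈ q.1) → (∃ q ∈ I, y ∈ q.1) → (x.1 = y.1 ↔ x.2 = y.2) := by
    rintro x y ⟨q, hq, hx⟩ ⟨r, hr, hy⟩
    obtain ⟨t, ht, h1, h2⟩ := hdir q hq r hr
    exact t.2.1 x (h1 hx) y (h2 hy)
  let α : Equiv.Perm ℕ :=
    { toFun := f
      invFun := g
      left_inv := fun a => (hun (g (f a), f a) (a, f a) (hg (f a)) (hf a)).2 rfl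
      right_inv := fun b => (hun (g b, f (g b)) (g b, b) (hf (g b)) (hg b)).1 rfl }
  have hα : ∀ q ∈ I, ∀ x ∈ q.1, α x.1 = x.2 := by
    intro q hq x hx
    exact (hun (x.1, f x.1) x (hf x.1) ⟨q, hq, hx⟩).1 rfl
  refine ⟨α, ?_, fun x hx => hα p0 hp0 x hx⟩
  intro F
  -- all points of F in one q
  have hq : ∃ q ∈ I, ∀ a ∈ F, (a, α a) ∈ q.1 := by
    induction F using Finset.induction_on with
    | empty => exact ⟨p0, hp0, by simp⟩
    | insert a F _ ih =>
      obtain ⟨q, hq, h1⟩ := ih
      obtain ⟨r, hr, h2⟩ := hf a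
      obtain ⟨t, ht, h3, h4⟩ := hdir q hq r hr
      refine ⟨t, ht, ?_⟩
      intro x hx
      rcases Finset.mem_insert.1 hx with rfl | hx
      · exact h4 h2
      · exact h3 (h1 x hx)
  obtain ⟨q, hq, h1⟩ := hq
  have h2 := q.2.2 (F.image (fun a => (a, α a))) (by
    intro x hx
    obtain ⟨a, ha, rfl⟩ := Finset.mem_image.1 hx
    exact h1 a ha)
  rw [Finset.image_image, Finset.image_image] at h2
  have h3 : F.image (Prod.fst ∘ fun a => (a, α a)) = F := by
    have : (Prod.fst ∘ fun a : ℕ => (a, α a)) = id := rfl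
    rw [this, Finset.image_id]
  rw [h3] at h2
  exact h2.symm

/-- Homogeneity for tuples. -/
theorem homogeneous {E : Finset ℕ → Prop} (hE : ExtProp E) {n : ℕ} (s t : Fin n → ℕ)
    (h1 : ∀ i j, s i = s j ↔ t i = t j)
    (h2 : ∀ I : Finset (Fin n), E (I.image s) ↔ E (I.image t)) :
    ∃ α : Equiv.Perm ℕ, IsAut E α ∧ ∀ i, α (s i) = t i := by
  classical
  have hgood : Good E (Finset.univ.image (fun i => (s i, t i))) := by
    refine ⟨?_, ?_⟩
    · intro x hx y hy
      obtain ⟨i, _, rfl⟩ := Finset.mem_image.1 hx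
      obtain ⟨j, _, rfl⟩ := Finset.mem_image.1 hy
      exact h1 i j
    · intro q hq
      have h3 : q = (Finset.univ.filter (fun i => (s i, t i) ∈ q)).image (fun i => (s i, t i)) := by
        ext x
        simp only [Finset.mem_image, Finset.mem_filter, Finset.mem_univ, true_and]
        constructor
        · intro hx
          obtain ⟨i, _, rfl⟩ := Finset.mem_image.1 (hq hx)
          exact ⟨i, hx, rfl⟩
        · rintro ⟨i, hi, rfl⟩
          exact hi
      rw [h3, Finset.image_image, Finset.image_image]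
      exact h2 _
  obtain ⟨α, hα, h3⟩ := hgood.extend hE
  exact ⟨α, hα, fun i => h3 (s i, t i) (Finset.mem_image.2 ⟨i, Finset.mem_univ i, rfl⟩)⟩

end Pool.Agent.H818R3
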