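import Mathlib

/-!
# Recurrence in closed oligomorphic transformation semigroups
-/

namespace Pool.Agent.H818R3

open Filter Topology

variable {Y : Type*}

/-- A set `S` of self-maps of `Y` is closed for pointwise convergence (`Y` discrete). -/
def PtClosed (S : Set (Y → Y)) : Prop :=
  ∀ f : Y → Y, (∀ B : Finset Y, ∃ g ∈ S, ∀ y ∈ B, g y = f y) → f ∈ S

/-- Finitely many tuples represent all orbits of `n`-tuples. -/
def FinOrb (G : Set (Equiv.Perm Y)) : Prop :=
  ∀ n : ℕ, ∃ T : Set (Fin n → Y), T.Finite ∧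
    ∀ x : Fin n → Y, ∃ t ∈ T, ∃ g ∈ G, x = fun i => g (t i)

theorem recurrence [Countable Y] [Nonempty Y] (S : Set (Y → Y)) (hS : PtClosed S)
    (hcomp : ∀ f ∈ S, ∀ g ∈ S, f ∘ g ∈ S) (G : Subgroup (Equiv.Perm Y))
    (hG : ∀ g ∈ G, (g : Y → Y) ∈ S) (hfin : FinOrb (G : Set (Equiv.Perm Y)))
    (e : Y → Y) (he : e ∈ S) :
    ∃ v ∈ S, ∀ B : Finset Y, ∃ g ∈ G, ∃ g' ∈ G, ∃ m : ℕ, ∀ y ∈ B,
      g (e^[m + 1] (g' (v y))) = v y := by
  classical
  obtain ⟨enum, henum⟩ := exists_surjective_nat Y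
  choose idx hidx using henum
  choose T hT using hfin
  have hTf : ∀ k, (T k).Finite := fun k => (hT k).1
  -- the class of the tuple
  have hrep : ∀ k n : ℕ, ∃ t : T k, ∃ g ∈ G, (fun i : Fin k => e^[n] (enum i)) = fun i => g (t.1 i) := by
    intro k n
    obtain ⟨t, ht, g, hg, h⟩ := (hT k).2 (fun i : Fin k => e^[n] (enum i))
    exact ⟨⟨t, ht⟩, g, hg, h⟩
  choose cls hcls using hrep
  have : ∀ k, Finite (T k) := fun k => hTf k
  let _ : ∀ k, TopologicalSpace (T k) := fun k => ⊥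
  have : ∀ k, DiscreteTopology (T k) := fun k => ⟨rfl⟩
  have : ∀ k, CompactSpace (T k) := fun k => inferInstance
  obtain ⟨c, φ, hφ, hlim⟩ := CompactSpace.tendsto_subseq (fun n : ℕ => fun k => cls k n)
  have hev : ∀ k : ℕ, ∀ᶠ n in atTop, ∀ m ≥ n, cls k (φ m) = c k := by
    intro k
    have h1 : Tendsto (fun n => cls k (φ n)) atTop (𝓝 (c k)) :=
      (continuous_apply k).continuousAt.tendsto.comp hlim
    rw [nhds_discrete, tendsto_pure] at h1
    obtain ⟨N, hN⟩ := eventually_atTop.1 h1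
    filter_upwards [eventually_ge_atTop N] with n hn m hm
    exact hN m (hn.trans hm)
  obtain ⟨ψ, hψ, hψ'⟩ := extraction_forall_of_eventually hev
  set nn : ℕ → ℕ := fun k => φ (ψ k) with hnn
  have hnnmono : StrictMono nn := hφ.comp hψ
  have hclk : ∀ k, ∃ a ∈ G, ∀ i : ℕ, i < k → a (e^[nn (k+1)] (enum i)) = e^[nn k] (enum i) := by
    intro k
    have h1 : cls k (nn k) = c k := hψ' k (ψ k) le_rfl
    have h2 : cls k (nn (k+1)) = c k := hψ' k (ψ (k+1)) (hψ.monotone (Nat.le_succ k))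
    obtain ⟨g1, hg1, e1⟩ := hcls k (nn k)
    obtain ⟨g2, hg2, e2⟩ := hcls k (nn (k+1))
    refine ⟨g1 * g2⁻¹, G.mul_mem hg1 (G.inv_mem hg2), ?_⟩
    intro i hi
    have e1' := congrFun e1 ⟨i, hi⟩
    have e2' := congrFun e2 ⟨i, hi⟩
    simp only at e1' e2'
    rw [e1', e2', h1, h2]
    simp
  choose a haG ha using hclk
  let h : ℕ → Equiv.Perm Y := fun k => Nat.rec 1 (fun j hj => hj * a j) k
  have h0 : h 0 = 1 := rfl
  have hsucc : ∀ k, h (k+1) = h k * a k := fun k => rfl
  have hhG : ∀ k, h k ∈ G := by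
    intro k
    induction k with
    | zero => rw [h0]; exact G.one_mem
    | succ k ih => rw [hsucc]; exact G.mul_mem ih (haG k)
  let w : ℕ → Y → Y := fun k y => h k (e^[nn k] y)
  have hw : ∀ k, ∀ i < k, w (k+1) (enum i) = w k (enum i) := by
    intro k i hi
    change h (k+1) (e^[nn (k+1)] (enum i)) = h k (e^[nn k] (enum i))
    rw [hsucc, Equiv.Perm.mul_apply, ha k i hi]
  have hw' : ∀ i k, i < k → w k (enum i) = w (i+1) (enum i) := by
    intro i k hik
    induction k with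
    | zero => omega
    | succ k ih =>
      rcases Nat.lt_or_ge i k with h1 | h1
      · rw [hw k i h1, ih h1]
      · have : i = k := by omega
        subst this
        rfl
  let v : Y → Y := fun y => w (idx y + 1) y
  have hv : ∀ y k, idx y < k → w k y = v y := by
    intro y k hk
    have := hw' (idx y) k hk
    rw [hidx] at this
    exact this
  have heS : ∀ n, e^[n] ∈ S := by
    intro n
    induction n with
    | zero =>
      have := hG 1 G.one_mem
      simpa using this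
    | succ n ih =>
      rw [Function.iterate_succ']
      exact hcomp e he _ ih
  have hwS : ∀ k, w k ∈ S := fun k => hcomp _ (hG _ (hhG k)) _ (heS (nn k))
  have hbound : ∀ B : Finset Y, ∃ k, ∀ y ∈ B, idx y < k := by
    intro B
    refine ⟨B.sup idx + 1, fun y hy => Nat.lt_succ_of_le (Finset.le_sup (f := idx) hy)⟩
  refine ⟨v, ?_, ?_⟩
  · apply hS
    intro B
    obtain ⟨k, hk⟩ := hbound B
    exact ⟨w k, hwS k, fun y hy => hv y k (hk y hy)⟩
  · intro B
    obtain ⟨k, hk⟩ := hbound B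
    have hlt : nn k < nn (k+1) := hnnmono (Nat.lt_succ_self k)
    obtain ⟨m, hm⟩ : ∃ m, nn (k+1) = (m + 1) + nn k := ⟨nn (k+1) - nn k - 1, by omega⟩
    refine ⟨h (k+1), hhG (k+1), (h k)⁻¹, G.inv_mem (hhG k), m, ?_⟩
    intro y hy
    have e1 : w k y = v y := hv y k (hk y hy)
    have e2 : w (k+1) y = v y := hv y (k+1) (Nat.lt_succ_of_lt (hk y hy))
    have e3 : (h k)⁻¹ (v y) = e^[nn k] y := by
      rw [← e1]; simp [w]
    rw [e3, ← Function.iterate_add_apply, ← hm]
    exact e2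

end Pool.Agent.H818R3
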