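import Pool.Agent.H818R3.Topo
import Pool.Agent.H818R3.Recur

/-!
# Essentially unary clones of transformation monoids
-/

namespace Pool.Agent.H818R3

open Topology

variable {Ω : Type*}

/-- The clone of all operations `x ↦ m (x i)` with `m` in a transformation monoid. -/
def monoClone (M : Set (Ω → Ω)) (h1 : id ∈ M) (hc : ∀ f ∈ M, ∀ g ∈ M, f ∘ g ∈ M) :
    FunctionClone Ω where
  ops n := {f | ∃ m ∈ M, ∃ i : Fin (n + 1), f = fun x => m (x i)}
  proj_mem n i := ⟨id, h1, i, rfl⟩
  comp_mem n m f g hf hg := by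
    obtain ⟨a, ha, i, rfl⟩ := hf
    obtain ⟨b, hb, j, hj⟩ := hg i
    exact ⟨a ∘ b, hc a ha b hb, j, by funext x; exact congrArg a (congrFun hj x)⟩

variable {M : Set (Ω → Ω)} {h1 : id ∈ M} {hc : ∀ f ∈ M, ∀ g ∈ M, f ∘ g ∈ M}

theorem monoClone_unary {α : Ω → Ω} : (monoClone M h1 hc).Unary α ↔ α ∈ M := by
  constructor
  · rintro ⟨m, hm, i, h⟩
    have : α = m := by
      funext x
      exact congrFun h (fun _ => x)
    rw [this]; exact hm
  · intro h
    exact ⟨α, h, 0, rfl⟩

theorem monoClone_closed (hM : PtClosed M) : (monoClone M h1 hc).Closed := by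
  classical
  intro n
  apply closed_of
  intro f hf
  obtain ⟨i, hi⟩ : ∃ i : Fin (n + 1), ∀ B : Finset (Fin (n + 1) → Ω), ∃ m ∈ M,
      ∀ b ∈ B, m (b i) = f b := by
    by_contra hcon
    push Not at hcon
    choose B hB using hcon
    obtain ⟨g, ⟨m, hm, i, rfl⟩, hg⟩ := hf (Finset.univ.biUnion B)
    obtain ⟨b, hb, hne⟩ := hB i m hm
    exact hne (hg b (Finset.mem_biUnion.2 ⟨i, Finset.mem_univ i, hb⟩))
  refine ⟨fun ω => f (fun _ => ω), ?_, i, ?_⟩
  · apply hM
    intro D
    obtain ⟨m, hm, h⟩ := hi (D.image (fun ω => fun _ => ω))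
    exact ⟨m, hm, fun ω hω => h _ (Finset.mem_image.2 ⟨ω, hω, rfl⟩)⟩
  · funext x
    obtain ⟨m, hm, h⟩ := hi {x, fun _ => x i}
    have e1 := h x (by simp)
    have e2 := h (fun _ => x i) (by simp)
    exact e1.symm.trans e2

/-- If no member of `M` is constant then the representation `x ↦ m (x i)` is unique. -/
theorem rep_unique {m m' : Ω → Ω} (hm : ∃ p q, m p ≠ m q) {n : ℕ} {i i' : Fin (n + 1)}
    (h : (fun x : Fin (n + 1) → Ω => m (x i)) = fun x => m' (x i')) : m = m' ∧ i = i' := by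
  classical
  have h2 : m = m' := by
    funext ω
    exact congrFun h (fun _ => ω)
  refine ⟨h2, ?_⟩
  by_contra hne
  obtain ⟨p, q, hpq⟩ := hm
  have := congrFun h (fun l => if l = i then p else q)
  simp only [if_true] at this
  rw [if_neg (fun h => hne h.symm)] at this
  rw [← h2] at this
  exact hpq this

end Pool.Agent.H818R3
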