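import Pool.Agent.H818R3.TagIso

/-!
# Two tagged clones: piecewise continuous isomorphism, no homeomorphic isomorphism
-/

namespace Pool.Agent.H818R3

open Topology

/-! ## Topology of subspaces of operations -/

section sub

variable {Ω Ω' : Type*} {n : ℕ}

theorem isOpen_sub {T : Set (Op Ω n)} (S : Set T)
    (h : ∀ f ∈ S, ∃ B : Finset (Fin (n + 1) → Ω), ∀ f' : T, (∀ b ∈ B, f'.1 b = f.1 b) → f' ∈ S) :
    IsOpen S := by
  rw [isOpen_iff_forall_mem_open]
  intro f hf
  obtain ⟨B, hB⟩ := h f hf
  exact ⟨Subtype.val ⁻¹' {g : Op Ω n | ∀ b ∈ B, g b = f.1 b}, fun g hg => hB g hg,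
    (isOpen_agree f.1 B).preimage continuous_subtype_val, fun b _ => rfl⟩

theorem finset_of_isOpen_sub {T : Set (Op Ω n)} {S : Set T} (hS : IsOpen S) {f : T} (hf : f ∈ S) :
    ∃ B : Finset (Fin (n + 1) → Ω), ∀ f' : T, (∀ b ∈ B, f'.1 b = f.1 b) → f' ∈ S := by
  obtain ⟨U, hU, rfl⟩ := isOpen_induced_iff.1 hS
  obtain ⟨B, hB⟩ := exists_finset_of_open hU (f := f.1) hf
  exact ⟨B, fun f' hf' => hB f'.1 hf'⟩

theorem mem_closure_sub {T : Set (Op Ω n)} {S : Set T} {f : T}
    (h : ∀ B : Finset (Fin (n + 1) → Ω), ∃ g ∈ S, ∀ b ∈ B, g.1 b = f.1 b) : f ∈ closure S := by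
  rw [mem_closure_iff]
  intro U hU hf
  obtain ⟨B, hB⟩ := finset_of_isOpen_sub hU hf
  obtain ⟨g, hg, h1⟩ := h B
  exact ⟨g, hB g h1, hg⟩

theorem exists_of_mem_closure_sub {T : Set (Op Ω n)} {S : Set T} {f : T} (h : f ∈ closure S)
    (B : Finset (Fin (n + 1) → Ω)) : ∃ g ∈ S, ∀ b ∈ B, g.1 b = f.1 b := by
  rw [mem_closure_iff] at h
  obtain ⟨g, hg, hgS⟩ := h (Subtype.val ⁻¹' {g : Op Ω n | ∀ b ∈ B, g b = f.1 b})
    ((isOpen_agree f.1 B).preimage continuous_subtype_val) (fun b _ => rfl)
  exact ⟨g, hgS, hg⟩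

theorem continuousOn_sub {T : Set (Op Ω n)} {T' : Set (Op Ω' n)} (Φ : T → T') (K : Set T)
    (h : ∀ f ∈ K, ∀ b, ∃ B : Finset (Fin (n + 1) → Ω), ∀ f' ∈ K, (∀ b ∈ B, f'.1 b = f.1 b) →
      (Φ f').1 b = (Φ f).1 b) : ContinuousOn Φ K := by
  rw [continuousOn_iff_continuous_restrict]
  apply continuous_to_op
  intro b
  let _ : TopologicalSpace Ω' := ⊥
  have _ : DiscreteTopology Ω' := ⟨rfl⟩
  apply IsLocallyConstant.continuous
  rw [IsLocallyConstant.iff_exists_open]
  intro f
  obtain ⟨B, hB⟩ := h f.1 f.2 b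
  refine ⟨Subtype.val ⁻¹' (Subtype.val ⁻¹' {g : Op Ω n | ∀ b ∈ B, g b = f.1.1 b}),
    ((isOpen_agree f.1.1 B).preimage continuous_subtype_val).preimage continuous_subtype_val,
    fun b _ => rfl, ?_⟩
  intro g hg
  exact hB g.1 g.2 hg

end sub

/-! ## Clone homomorphisms in two continuous pieces -/

/-- In every arity the map is continuous on some closed set and on the complement of this set. -/
def CloneHom.TwoPiece {Ω Ω' : Type*} {C : FunctionClone Ω} {D : FunctionClone Ω'}
    (φ : CloneHom C D) : Prop :=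
  ∀ n : ℕ, ∃ K : Set (C.ops n), IsClosed K ∧ ContinuousOn (φ.map n) K ∧
    ContinuousOn (φ.map n) Kᶜ

/-! ## A topological invariant -/

section invariant

variable {Ω Ω' : Type*}

/-- The unary members which are units for composition. -/
def unitsOf (C : FunctionClone Ω) : Set (C.ops 0) :=
  {u | ∃ v : C.ops 0, C.comp u (fun _ => v) = C.proj 0 0 ∧ C.comp v (fun _ => u) = C.proj 0 0}

/-- The orbit of a unary member under the units. -/
def orbOf (C : FunctionClone Ω) (m : C.ops 0) : Set (C.ops 0) :=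
  {x | ∃ u ∈ unitsOf C, x = C.comp u (fun _ => m)}

/-- Some unary member outside the closure of the units has an orbit with open closure. -/
def HasOpenOrb (C : FunctionClone Ω) : Prop :=
  ∃ m : C.ops 0, m ∉ closure (unitsOf C) ∧ IsOpen (closure (orbOf C m))

theorem hasOpenOrb_transfer {C : FunctionClone Ω} {D : FunctionClone Ω'} (ψ : CloneHom C D)
    (hiso : ψ.IsIso) (hψ : ψ.IsHomeo) (hC : HasOpenOrb C) : HasOpenOrb D := by
  let h : C.ops 0 ≃ₜ D.ops 0 := (hψ 0).homeomorph
  have hh : ∀ x, h x = ψ.map 0 x := fun x => rfl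
  have hinj : Function.Injective (ψ.map 0) := (hiso 0).1
  have hcomp : ∀ a b : C.ops 0, h (C.comp a (fun _ => b)) = D.comp (h a) (fun _ => h b) :=
    fun a b => ψ.map_comp 0 0 a (fun _ => b)
  have hproj : h (C.proj 0 0) = D.proj 0 0 := ψ.map_proj 0 0
  have hunits : h '' unitsOf C = unitsOf D := by
    ext y
    constructor
    · rintro ⟨u, ⟨v, h1, h2⟩, rfl⟩
      exact ⟨h v, by rw [← hcomp, h1, hproj], by rw [← hcomp, h2, hproj]⟩
    · rintro ⟨v, h1, h2⟩
      refine ⟨h.symm y, ⟨h.symm v, ?_, ?_⟩, h.apply_symm_apply y⟩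
      · apply h.injective
        rw [hcomp, hproj, h.apply_symm_apply, h.apply_symm_apply, h1]
      · apply h.injective
        rw [hcomp, hproj, h.apply_symm_apply, h.apply_symm_apply, h2]
  obtain ⟨m, hm1, hm2⟩ := hC
  have horb : h '' orbOf C m = orbOf D (h m) := by
    ext y
    constructor
    · rintro ⟨x, ⟨u, hu, rfl⟩, rfl⟩
      exact ⟨h u, by rw [← hunits]; exact ⟨u, hu, rfl⟩, hcomp u m⟩
    · rintro ⟨u', hu', rfl⟩
      rw [← hunits] at hu'
      obtain ⟨u, hu, rfl⟩ := hu'
      exact ⟨_, ⟨u, hu, rfl⟩, hcomp u m⟩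
  refine ⟨h m, ?_, ?_⟩
  · rw [← hunits, ← h.image_closure]
    rintro ⟨x, hx, hxm⟩
    rw [h.injective hxm] at hx
    exact hm1 hx
  · rw [← horb, ← h.image_closure]
    exact h.isOpenMap _ hm2

end invariant

/-! ## Facts on tagged clones -/

section tagged

variable {E : Finset ℕ → Prop} {Z Z' : Bool → (ℕ → Prop) → Prop}
  {tg : (ℕ → Prop) → Bool → Bool}

theorem op0_eq (f : (tagClone E Z).ops 0) (x : Fin 1 → Pt) : f.1 x = opM f (x 0) := by
  rw [op_eq f]
  have : opI f = 0 := by
    apply Fin.ext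
    have := (opI f).isLt
    have h0 : ((0 : Fin (0 + 1)) : ℕ) = 0 := rfl
    omega
  rw [this]

theorem units_emb {u : (tagClone E Z).ops 0} (hu : u ∈ unitsOf (tagClone E Z)) :
    ∃ e, Emb E e ∧ opM u = Sum.map e id := by
  obtain ⟨v, h1, _⟩ := hu
  have h2 : ∀ p : Pt, opM u (opM v p) = p := by
    intro p
    have := congrFun (congrArg Subtype.val h1) (fun _ => p)
    change u.1 (fun _ => v.1 (fun _ => p)) = p at this
    rw [op0_eq, op0_eq] at this
    exact this
  rcases opM_mem u with ⟨e, he, h⟩ | ⟨w, j, _, _, h⟩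
  · exact ⟨e, he, h⟩
  · exfalso
    have hv : ∀ b, ∃ c, opM v (Sum.inr b) = Sum.inr c := by
      intro b
      rcases opM_mem v with ⟨e', _, h'⟩ | ⟨w', j', _, _, h'⟩
      · exact ⟨b, by rw [h']; rfl⟩
      · exact ⟨j', by rw [h']; rfl⟩
    obtain ⟨c, hc⟩ := hv false
    obtain ⟨d, hd⟩ := hv true
    have e1 := h2 (Sum.inr false)
    have e2 := h2 (Sum.inr true)
    rw [hc, h] at e1
    rw [hd, h] at e2
    have : (Sum.inr false : Pt) = Sum.inr true := e1.symm.trans e2
    exact absurd this (by simp)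

theorem aut_units {α : Equiv.Perm ℕ} (hα : IsAut E α) :
    (mkOp (autPerm_mem hα) 0 : (tagClone E Z).ops 0) ∈ unitsOf (tagClone E Z) := by
  refine ⟨mkOp (autPerm_symm_mem hα) 0, ?_, ?_⟩
  · apply Subtype.ext
    funext x
    exact (autPerm α).apply_symm_apply (x 0)
  · apply Subtype.ext
    funext x
    exact (autPerm α).symm_apply_apply (x 0)

theorem bound_inl (B : Finset (Fin 1 → Pt)) : ∃ N : ℕ, ∀ b ∈ B, ∀ i, b 0 = Sum.inl i → i < N := by
  refine ⟨(B.image (fun b => (b 0).elim id (fun _ => 0))).sup id + 1, ?_⟩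
  intro b hb i hi
  apply Nat.lt_succ_of_le
  have : i ∈ B.image (fun b => (b 0).elim id (fun _ => 0)) :=
    Finset.mem_image.2 ⟨b, hb, by rw [hi]; rfl⟩
  exact Finset.le_sup (f := id) this

theorem kap_congr {u u' : ℕ → ℕ} {k : ℕ} (h : ∀ i < k + 1, u' i = u i) :
    kap E u' k ↔ kap E u k := by
  unfold kap
  rw [image_congr_range (N := k + 1) (Finset.Subset.refl _) h]

end tagged

/-! ## The two tag conditions -/

/-- First condition: tag `false` is always allowed, tag `true` only for sequences without edges. -/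
def Zc (j : Bool) (κ : ℕ → Prop) : Prop := j = true → ∀ k, ¬ κ k

/-- Second condition: the tag is the parity of the least size carrying edges (if any). -/
def Zd (j : Bool) (κ : ℕ → Prop) : Prop :=
  ∀ k, κ k → (∀ i < k, ¬ κ i) → j = decide (k % 2 = 0)

theorem closedTag_Zc : ClosedTag Zc := by
  intro j κ h hj k hk
  obtain ⟨κ', h1, h2⟩ := h (k+1)
  exact h1 hj k ((h2 k (by omega)).2 hk)

theorem closedTag_Zd : ClosedTag Zd := by
  intro j κ h k hk hk'
  obtain ⟨κ', h1, h2⟩ := h (k+1)
  exact h1 k ((h2 k (by omega)).2 hk) (fun i hi hi' => hk' i hi ((h2 i (by omega)).1 hi'))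

open Classical in
/-- the change of tags from the first to the second clone -/
noncomputable def tgc (κ : ℕ → Prop) (j : Bool) : Bool :=
  if h : ∃ k, κ k then decide (Nat.find h % 2 = 0) else j

open Classical in
/-- the change of tags from the second to the first clone -/
noncomputable def tgd (κ : ℕ → Prop) (j : Bool) : Bool :=
  if ∃ k, κ k then false else j

theorem tgc_mem : ∀ κ j, Zc j κ → Zd (tgc κ j) κ := by
  classical
  intro κ j _ k hk hk'
  have hex : ∃ k, κ k := ⟨k, hk⟩
  unfold tgc
  rw [dif_pos hex]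
  have : Nat.find hex = k := by
    apply le_antisymm (Nat.find_min' hex hk)
    by_contra hlt
    exact hk' _ (by omega) (Nat.find_spec hex)
  rw [this]

theorem tgd_mem : ∀ κ j, Zd j κ → Zc (tgd κ j) κ := by
  classical
  intro κ j _ hj k hk
  unfold tgd at hj
  rw [if_pos ⟨k, hk⟩] at hj
  exact absurd hj (by simp)

theorem tgd_tgc : ∀ κ j, Zc j κ → tgd κ (tgc κ j) = j := by
  classical
  intro κ j h
  unfold tgd tgc
  by_cases hex : ∃ k, κ k
  · rw [if_pos hex]
    obtain ⟨k, hk⟩ := hex
    cases j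
    · rfl
    · exact absurd hk (h rfl k)
  · rw [if_neg hex, dif_neg hex]

theorem tgc_tgd : ∀ κ j, Zd j κ → tgc κ (tgd κ j) = j := by
  classical
  intro κ j h
  unfold tgd tgc
  by_cases hex : ∃ k, κ k
  · rw [dif_pos hex]
    exact (h _ (Nat.find_spec hex) (fun i hi => Nat.find_min hex hi)).symm
  · rw [if_neg hex, dif_neg hex]

theorem tgc_congr {κ κ' : ℕ → Prop} {k : ℕ} (hk : κ k) (hk' : ∀ i < k, ¬ κ i)
    (h : ∀ i ≤ k, (κ' i ↔ κ i)) (j j' : Bool) : tgc κ' j' = tgc κ j := by
  classical
  have hex : ∃ k, κ k := ⟨k, hk⟩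
  have hex' : ∃ k, κ' k := ⟨k, (h k le_rfl).2 hk⟩
  unfold tgc
  rw [dif_pos hex, dif_pos hex']
  have e1 : Nat.find hex = k := by
    apply le_antisymm (Nat.find_min' hex hk)
    by_contra hlt
    exact hk' _ (by omega) (Nat.find_spec hex)
  have e2 : Nat.find hex' = k := by
    apply le_antisymm (Nat.find_min' hex' ((h k le_rfl).2 hk))
    by_contra hlt
    exact hk' _ (by omega) ((h _ (by omega)).1 (Nat.find_spec hex'))
  rw [e1, e2]

variable {E : Finset ℕ → Prop}

/-- The isomorphism between the two clones. -/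
noncomputable def theIso (E : Finset ℕ → Prop) : CloneHom (tagClone E Zc) (tagClone E Zd) :=
  chgHom tgc_mem

theorem theIso_isIso : (theIso E).IsIso := chgHom_isIso tgc_mem tgd_mem tgd_tgc tgc_tgd

theorem theIso_apply {n : ℕ} (f : (tagClone E Zc).ops n) (b : Fin (n + 1) → Pt) :
    ((theIso E).map n f).1 b = chg E tgc (opM f) (b (opI f)) := rfl

theorem theIso_twoPiece : (theIso E).TwoPiece := by
  classical
  intro n
  let K : Set ((tagClone E Zc).ops n) :=
    {f | opM f (Sum.inr false) = opM f (Sum.inr true) ∧ ∀ k, ¬ kap E (seqPart (opM f)) k}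
  refine ⟨K, ?_, ?_, ?_⟩
  · rw [← isOpen_compl_iff]
    apply isOpen_sub
    intro f hf
    by_cases hc : opM f (Sum.inr false) = opM f (Sum.inr true)
    · have : ∃ k, kap E (seqPart (opM f)) k := by
        by_contra hcon
        push Not at hcon
        exact hf ⟨hc, hcon⟩
      obtain ⟨k, hk⟩ := this
      obtain ⟨B, hB⟩ := local_det f ((Finset.range (k+1)).image Sum.inl)
      refine ⟨B, fun f' hf' hfK => ?_⟩
      have h1 := (hB f' hf').2
      apply hfK.2 k
      rw [kap_congr (u := seqPart (opM f))]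
      · exact hk
      · intro i hi
        unfold seqPart
        rw [h1 _ (Finset.mem_image.2 ⟨i, Finset.mem_range.2 hi, rfl⟩)]
    · obtain ⟨B, hB⟩ := local_det f {Sum.inr false, Sum.inr true}
      refine ⟨B, fun f' hf' hfK => ?_⟩
      have h1 := (hB f' hf').2
      apply hc
      rw [← h1 _ (by simp), ← h1 _ (by simp)]
      exact hfK.1
  · apply continuousOn_sub
    intro f hf b
    have hkey : ∀ f ∈ K, ∀ b, ((theIso E).map n f).1 b = f.1 b := by
      intro f hf b
      rw [theIso_apply, op_eq f]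
      change chg E tgc (opM f) (b (opI f)) = opM f (b (opI f))
      rcases opM_mem f with ⟨h, hh, he⟩ | ⟨u, j, hu, hj, he⟩
      · rw [he, chg_emb]
      · have hs : seqPart (opM f) = u := by rw [he]; rfl
        have hno : ¬ ∃ k, kap E u k := by
          rintro ⟨k, hk⟩
          apply hf.2 k
          rw [hs]; exact hk
        rw [he, chg_tag]
        unfold tgc
        rw [dif_neg hno]
    refine ⟨{b}, fun f' hf' hb => ?_⟩
    rw [hkey f hf b, hkey f' hf' b]
    exact hb b (by simp)
  · apply continuousOn_sub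
    intro f hf b
    rw [theIso_apply]
    by_cases hc : opM f (Sum.inr false) = opM f (Sum.inr true)
    · have hex : ∃ k, kap E (seqPart (opM f)) k := by
        by_contra hcon
        push Not at hcon
        exact hf ⟨hc, hcon⟩
      obtain ⟨B, hB⟩ := local_det f ({Sum.inr false, Sum.inr true, b (opI f)} ∪
        (Finset.range (Nat.find hex + 1)).image Sum.inl)
      refine ⟨B, fun f' _ hf' => ?_⟩
      rw [theIso_apply]
      obtain ⟨h1, h2⟩ := hB f' hf'
      rw [h1]
      have e1 : opM f' (Sum.inr false) = opM f (Sum.inr false) := h2 _ (by simp)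
      have e2 : opM f' (Sum.inr true) = opM f (Sum.inr true) := h2 _ (by simp)
      have e3 : opM f' (b (opI f)) = opM f (b (opI f)) := h2 _ (by simp)
      have e4 : tgc (kap E (seqPart (opM f'))) (tagPart (opM f')) =
          tgc (kap E (seqPart (opM f))) (tagPart (opM f)) := by
        apply tgc_congr (Nat.find_spec hex) (fun i hi => Nat.find_min hex hi)
        intro i hi
        apply kap_congr
        intro l hl
        unfold seqPart
        rw [h2 _ (Finset.mem_union_right _ (Finset.mem_image.2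
          ⟨l, Finset.mem_range.2 (by omega), rfl⟩))]
      unfold chg
      rw [e1, e2, if_pos hc, if_pos hc, e4]
      rcases hb : b (opI f) with k | c
      · rw [hb] at e3
        simp only [Sum.map_inl]
        unfold seqPart
        rw [e3]
      · simp only [Sum.map_inr]
    · obtain ⟨B, hB⟩ := local_det f ({Sum.inr false, Sum.inr true, b (opI f)})
      refine ⟨B, fun f' _ hf' => ?_⟩
      rw [theIso_apply]
      obtain ⟨h1, h2⟩ := hB f' hf'
      rw [h1]
      have e1 : opM f' (Sum.inr false) = opM f (Sum.inr false) := h2 _ (by simp)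
      have e2 : opM f' (Sum.inr true) = opM f (Sum.inr true) := h2 _ (by simp)
      have e3 : opM f' (b (opI f)) = opM f (b (opI f)) := h2 _ (by simp)
      unfold chg
      rw [e1, e2, if_neg hc, if_neg hc, e3]

theorem hasOpenOrb_c (hE : ExtProp E) : HasOpenOrb (tagClone E Zc) := by
  classical
  obtain ⟨u0, hu0, hk0, _⟩ := exists_unif hE (fun _ => False) 0 id (by intro i hi; omega) (by
    intro F hF hne
    obtain ⟨x, hx⟩ := hne
    have := Finset.mem_range.1 (hF hx)
    omega)
  have hmem : (Sum.map u0 (fun _ : Bool => true) : Pt → Pt) ∈ tagMon E Zc :=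
    Or.inr ⟨u0, true, hu0, fun _ k hk => (hk0 k).1 hk, rfl⟩
  let m0 : (tagClone E Zc).ops 0 := mkOp hmem 0
  have hm0 : ∀ x, m0.1 x = Sum.map u0 (fun _ : Bool => true) (x 0) := fun x => rfl
  refine ⟨m0, ?_, ?_⟩
  · intro hcl
    obtain ⟨g, hg, h1⟩ := exists_of_mem_closure_sub hcl {fun _ => Sum.inr false}
    obtain ⟨e, _, he⟩ := units_emb hg
    have h2 := h1 (fun _ => Sum.inr false) (by simp)
    rw [op0_eq, he, hm0] at h2
    simp at h2
  · have hO : closure (orbOf (tagClone E Zc) m0) =
        {x : (tagClone E Zc).ops 0 | opM x (Sum.inr false) = Sum.inr true} := by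
      ext x
      constructor
      · intro hx
        obtain ⟨y, ⟨g, hg, rfl⟩, h1⟩ := exists_of_mem_closure_sub hx {fun _ => Sum.inr false}
        obtain ⟨e, _, he⟩ := units_emb hg
        have h2 := h1 (fun _ => Sum.inr false) (by simp)
        rw [op0_eq x] at h2
        change opM x (Sum.inr false) = Sum.inr true
        rw [← h2]
        change g.1 (fun _ => m0.1 (fun _ => Sum.inr false)) = _
        rw [op0_eq, he, hm0]
        rfl
      · intro hx
        change opM x (Sum.inr false) = Sum.inr true at hx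
        rcases opM_mem x with ⟨h, hh, he⟩ | ⟨u, j, hu, hj, he⟩
        · rw [he] at hx
          simp at hx
        · have hjt : j = true := by
            rw [he] at hx
            exact Sum.inr_injective hx
          subst hjt
          apply mem_closure_sub
          intro B
          obtain ⟨N, hN⟩ := bound_inl B
          obtain ⟨α, hα, h1⟩ := Unif.conj hE hu0 hu
            (fun k => ⟨fun h => absurd ((hk0 k).1 h) (by simp), fun h => absurd h (hj rfl k)⟩) N
          refine ⟨_, ⟨_, aut_units hα, rfl⟩, ?_⟩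
          intro b hb
          change autPerm α (m0.1 b) = x.1 b
          rw [hm0, op0_eq, he]
          rcases hb0 : b 0 with i | c
          · simp only [Sum.map_inl]
            change Sum.inl (α (u0 i)) = Sum.inl (u i)
            rw [h1 i (hN b hb i hb0)]
          · rfl
    rw [hO]
    apply isOpen_sub
    intro f hf
    obtain ⟨B, hB⟩ := local_det f {Sum.inr false}
    refine ⟨B, fun f' hf' => ?_⟩
    change opM f' (Sum.inr false) = Sum.inr true
    rw [(hB f' hf').2 _ (by simp)]
    exact hf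

theorem not_hasOpenOrb_d (hE : ExtProp E) : ¬ HasOpenOrb (tagClone E Zd) := by
  classical
  rintro ⟨m, hm1, hm2⟩
  rcases opM_mem m with ⟨h, hh, he⟩ | ⟨u, j, hu, hj, he⟩
  · apply hm1
    apply mem_closure_sub
    intro B
    obtain ⟨N, hN⟩ := bound_inl B
    obtain ⟨α, hα, h1⟩ := hh.approx hE N
    refine ⟨_, aut_units hα, ?_⟩
    intro b hb
    change autPerm α (b 0) = m.1 b
    rw [op0_eq, he]
    rcases hb0 : b 0 with i | c
    · change Sum.inl (α i) = Sum.inl (h i)
      rw [h1 i (hN b hb i hb0)]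
    · rfl
  · have hself : m ∈ closure (orbOf (tagClone E Zd) m) := by
      apply subset_closure
      refine ⟨(tagClone E Zd).proj 0 0, ⟨(tagClone E Zd).proj 0 0, rfl, rfl⟩, ?_⟩
      rfl
    obtain ⟨B, hB⟩ := finset_of_isOpen_sub hm2 hself
    obtain ⟨N, hN⟩ := bound_inl B
    set κ := kap E u with hκ
    -- the place to be changed
    obtain ⟨N', hNN', hZ⟩ : ∃ N', N ≤ N' ∧ Zd j (fun k => if k = N' then ¬ κ k else κ k) := by
      by_cases hex : ∃ k, κ k
      · refine ⟨N + Nat.find hex + 1, by omega, ?_⟩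
        intro k hk hk'
        have hf1 := Nat.find_spec hex
        have hk0 : k ≤ Nat.find hex := by
          by_contra hlt
          apply hk' (Nat.find hex) (by omega)
          rw [if_neg (by omega)]
          exact hf1
        rw [if_neg (by omega)] at hk
        have hk1 : k = Nat.find hex := le_antisymm hk0 (Nat.find_min' hex hk)
        rw [hk1]
        exact hj _ hf1 (fun i hi => Nat.find_min hex hi)
      · push Not at hex
        refine ⟨if j then 2 * N else 2 * N + 1, by split_ifs <;> omega, ?_⟩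
        intro k hk _
        by_cases hkN : k = if j then 2 * N else 2 * N + 1
        · rw [hkN]
          cases j
          · simp only [Bool.false_eq_true, if_false]
            symm
            rw [decide_eq_false_iff_not]
            omega
          · simp only [if_true]
            symm
            rw [decide_eq_true_iff]
            omega
        · rw [if_neg hkN] at hk
          exact absurd hk (hex k)
    obtain ⟨u', hu', hk', huu'⟩ := exists_unif hE (fun k => if k = N' then ¬ κ k else κ k) N u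
      (fun i _ l _ h => hu.1 h)
      (by
        intro F hF hne
        rw [hu.kap_iff F hne]
        have h1 : F.card ≤ N := by
          have := Finset.card_le_card hF
          rwa [Finset.card_range] at this
        have h2 := hne.card_pos
        rw [if_neg (by omega)])
    have hkap : kap E u' = fun k => if k = N' then ¬ κ k else κ k := by
      funext k; exact propext (hk' k)
    have hmem : (Sum.map u' (fun _ : Bool => j) : Pt → Pt) ∈ tagMon E Zd :=
      Or.inr ⟨u', j, hu', by rw [hkap]; exact hZ, rfl⟩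
    have hin := hB (mkOp hmem 0) (by
      intro b hb
      change Sum.map u' (fun _ : Bool => j) (b 0) = m.1 b
      rw [op0_eq, he]
      rcases hb0 : b 0 with i | c
      · simp only [Sum.map_inl]
        rw [huu' i (hN b hb i hb0)]
      · rfl)
    obtain ⟨y, ⟨g, hg, rfl⟩, h1⟩ := exists_of_mem_closure_sub hin
      ((Finset.range (N' + 1)).image (fun i => fun _ => Sum.inl i))
    obtain ⟨e, hee, hge⟩ := units_emb hg
    have h2 : ∀ i < N' + 1, u' i = e (u i) := by
      intro i hi
      have h3 := h1 (fun _ => Sum.inl i) (Finset.mem_image.2 ⟨i, Finset.mem_range.2 hi, rfl⟩)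
      have h4 : g.1 (fun _ => m.1 (fun _ => Sum.inl i)) = Sum.inl (u' i) := h3
      rw [op0_eq, op0_eq, hge, he] at h4
      exact (Sum.inl_injective h4).symm
    have h5 : kap E u' N' ↔ kap E u N' := by
      rw [kap_congr (u := e ∘ u) h2, hee.kap_comp]
    rw [hkap, ← hκ] at h5
    simp only [if_true] at h5
    tauto

/-- **Main example.** -/
theorem main_example (hE : ExtProp E) :
    (tagClone E Zc).Closed ∧ (tagClone E Zd).Closed ∧ (tagClone E Zc).Oligomorphic ∧
      (tagClone E Zd).Oligomorphic ∧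
      (∃ φ : CloneHom (tagClone E Zc) (tagClone E Zd), φ.IsIso ∧ φ.TwoPiece) ∧
      ∀ ψ : CloneHom (tagClone E Zc) (tagClone E Zd), ψ.IsIso → ¬ ψ.IsHomeo :=
  ⟨tagClone_closed closedTag_Zc, tagClone_closed closedTag_Zd, tagClone_oligomorphic hE,
    tagClone_oligomorphic hE, ⟨theIso E, theIso_isIso, theIso_twoPiece⟩,
    fun ψ h1 h2 => not_hasOpenOrb_d hE (hasOpenOrb_transfer ψ h1 h2 (hasOpenOrb_c hE))⟩

end Pool.Agent.H818R3
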