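import Pool.Agent.H818R3.Recur

/-!
# Parity maps on the Cantor space
-/

namespace Pool.Agent.H818R3

open Filter Topology

variable {Y : Type*}

/-- `x` with the `k`-th bit flipped. -/
def flipBit (k : ℕ) (x : ℕ → Bool) : ℕ → Bool := Function.update x k (!x k)

theorem flipBit_self (k : ℕ) (x : ℕ → Bool) : flipBit k x k = !x k := by
  simp [flipBit]

theorem flipBit_ne {k i : ℕ} (h : i ≠ k) (x : ℕ → Bool) : flipBit k x i = x i := by
  simp [flipBit, h]

theorem flipBit_flipBit (k : ℕ) (x : ℕ → Bool) : flipBit k (flipBit k x) = x := by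
  funext i
  by_cases h : i = k
  · subst h; simp [flipBit_self]
  · rw [flipBit_ne h, flipBit_ne h]

theorem continuous_flipBit (k : ℕ) : Continuous (flipBit k) := by
  apply continuous_pi
  intro i
  by_cases h : i = k
  · subst h
    have : (fun x : ℕ → Bool => flipBit i x i) = fun x => !(x i) := by
      funext x; exact flipBit_self i x
    rw [this]
    exact (continuous_of_discreteTopology (f := Bool.not)).comp (continuous_apply i)
  · have : (fun x : ℕ → Bool => flipBit k x i) = fun x => x i := by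
      funext x; exact flipBit_ne h x
    rw [this]
    exact continuous_apply i

/-- The flip as a homeomorphism. -/
def flipHomeo (k : ℕ) : (ℕ → Bool) ≃ₜ (ℕ → Bool) where
  toFun := flipBit k
  invFun := flipBit k
  left_inv := flipBit_flipBit k
  right_inv := flipBit_flipBit k
  continuous_toFun := continuous_flipBit k
  continuous_invFun := continuous_flipBit k

/-- A set of points of the Cantor space which is switched to its complement by each change of
one bit does not have the Baire property. -/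
theorem not_baire_of_parity (A : Set (ℕ → Bool)) (hA : ∀ x k, flipBit k x ∈ A ↔ x ∉ A) :
    ¬ BaireMeasurableSet A := by
  intro hB
  obtain ⟨U, hU, hAU⟩ := hB.residualEq_isOpen
  have hR : {x | x ∈ A ↔ x ∈ U} ∈ residual (ℕ → Bool) := by
    filter_upwards [hAU] with x hx
    exact Eq.to_iff hx
  have hflip : ∀ k, ∀ R ∈ residual (ℕ → Bool), {x | flipBit k x ∈ R} ∈ residual (ℕ → Bool) := by
    intro k R hRR
    exact tendsto_residual_of_isOpenMap (continuous_flipBit k) (flipHomeo k).isOpenMap hRR
  by_cases hne : U.Nonempty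
  · obtain ⟨x0, hx0⟩ := hne
    -- a cylinder in U
    obtain ⟨n, hn⟩ : ∃ n : ℕ, ∀ x : ℕ → Bool, (∀ i < n, x i = x0 i) → x ∈ U := by
      obtain ⟨I, u, hu, hsub⟩ := isOpen_pi_iff.1 hU x0 hx0
      refine ⟨I.sup id + 1, fun x hx => hsub ?_⟩
      intro i hi
      have : x i = x0 i := hx i (Nat.lt_succ_of_le (Finset.le_sup (f := id) hi))
      rw [this]
      exact (hu i hi).2
    have hopen : IsOpen {x : ℕ → Bool | ∀ i < n, x i = x0 i} := by
      have : {x : ℕ → Bool | ∀ i < n, x i = x0 i} = ⋂ i ∈ Finset.range n, (fun x : ℕ → Bool => x i) ⁻¹' {x0 i} := by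
        ext x; simp
      rw [this]
      exact isOpen_biInter_finset (fun i _ => (isOpen_discrete _).preimage (continuous_apply i))
    have hd : Dense ({x | x ∈ A ↔ x ∈ U} ∩ {x | flipBit n x ∈ {x | x ∈ A ↔ x ∈ U}}) :=
      dense_of_mem_residual (inter_mem hR (hflip n _ hR))
    obtain ⟨z, hz1, hz2, hz3⟩ := hd.inter_open_nonempty _ hopen ⟨x0, fun i _ => rfl⟩
    have hzU : z ∈ U := hn z hz1
    have hzU' : flipBit n z ∈ U := hn _ (fun i hi => by rw [flipBit_ne (by omega)]; exact hz1 i hi)
    have h1 : z ∈ A := hz2.2 hzU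
    have h2 : flipBit n z ∈ A := hz3.2 hzU'
    exact (hA z n).1 h2 h1
  · have hU0 : U = ∅ := Set.not_nonempty_iff_eq_empty.1 hne
    have hd : Dense ({x | x ∈ A ↔ x ∈ U} ∩ {x | flipBit 0 x ∈ {x | x ∈ A ↔ x ∈ U}}) :=
      dense_of_mem_residual (inter_mem hR (hflip 0 _ hR))
    obtain ⟨z, hz2, hz3⟩ := hd.nonempty
    have h1 : z ∉ A := fun h => by have := hz2.1 h; rw [hU0] at this; exact this
    have h2 : flipBit 0 z ∉ A := fun h => by have := hz3.1 h; rw [hU0] at this; exact this
    exact h2 ((hA z 0).2 h1)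

/-- The main construction: a sign on a closed oligomorphic transformation semigroup that is not
locally constant at some point gives rise to a continuous parity map. -/
theorem parity_map [Countable Y] [Nonempty Y] (S : Set (Y → Y)) (hS : PtClosed S)
    (hcomp : ∀ f ∈ S, ∀ g ∈ S, f ∘ g ∈ S) (G : Subgroup (Equiv.Perm Y))
    (hG : ∀ g ∈ G, (g : Y → Y) ∈ S) (hfin : FinOrb (G : Set (Equiv.Perm Y)))
    (ρ : (Y → Y) → Bool) (hρ : ∀ f ∈ S, ∀ g ∈ S, ρ (f ∘ g) = xor (ρ f) (ρ g))
    (e : Y → Y) (he : e ∈ S)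
    (hdisc : ∀ B : Finset Y, ∃ e' ∈ S, (∀ y ∈ B, e' y = e y) ∧ ρ e' = !ρ e) :
    ∃ F : (ℕ → Bool) → Y → Y, (∀ x, F x ∈ S) ∧
      (∀ y : Y, ∃ n : ℕ, ∀ x x' : ℕ → Bool, (∀ i < n, x i = x' i) → F x y = F x' y) ∧
      ∀ x k, ρ (F (flipBit k x)) = !ρ (F x) := by
  classical
  obtain ⟨v, hvS, hv⟩ := recurrence S hS hcomp G hG hfin e he
  obtain ⟨enum, henum⟩ := exists_surjective_nat Y
  choose idx hidx using henum
  let B : ℕ → Finset Y := fun N => (Finset.range N).image enum
  have hB : ∀ N y, idx y < N → y ∈ B N := fun N y hy =>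
    Finset.mem_image.2 ⟨idx y, Finset.mem_range.2 hy, hidx y⟩
  have hv' := fun N => hv (B N)
  choose g hgG g' hgG' m hm using hv'
  have heS : ∀ n, e^[n] ∈ S := by
    intro n
    induction n with
    | zero =>
      have := hG 1 G.one_mem
      simpa using this
    | succ n ih =>
      rw [Function.iterate_succ']
      exact hcomp e he _ ih
  have hd := fun N => hdisc ((B N).image (fun y => e^[m N] (g' N (v y))))
  choose e' he'S he' hρe' using hd
  -- the two versions
  let c : ℕ → Bool → Y → Y := fun N b => if b then e' N else e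
  have hcS : ∀ N b, c N b ∈ S := by
    intro N b; cases b
    · exact he
    · exact he'S N
  have hcρ : ∀ N b, ρ (c N (!b)) = !ρ (c N b) := by
    intro N b; cases b
    · exact hρe' N
    · change ρ e = !ρ (e' N)
      rw [hρe' N]; simp
  let U : ℕ → Bool → Y → Y := fun N b => (g N : Y → Y) ∘ (c N b ∘ (e^[m N] ∘ (g' N : Y → Y)))
  have hUS : ∀ N b, U N b ∈ S := fun N b =>
    hcomp _ (hG _ (hgG N)) _ (hcomp _ (hcS N b) _ (hcomp _ (heS _) _ (hG _ (hgG' N))))
  have hUρ : ∀ N b, ρ (U N (!b)) = !ρ (U N b) := by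
    intro N b
    have hin : e^[m N] ∘ (g' N : Y → Y) ∈ S := hcomp _ (heS _) _ (hG _ (hgG' N))
    have key : ∀ b, ρ (U N b) = xor (ρ (g N)) (xor (ρ (c N b)) (ρ (e^[m N] ∘ (g' N : Y → Y)))) := by
      intro b
      rw [hρ _ (hG _ (hgG N)) _ (hcomp _ (hcS N b) _ hin), hρ _ (hcS N b) _ hin]
    rw [key, key, hcρ]
    cases ρ (g N) <;> cases ρ (c N b) <;> cases ρ (e^[m N] ∘ (g' N : Y → Y)) <;> rfl
  have hUv : ∀ N b, ∀ y ∈ B N, U N b (v y) = v y := by
    intro N b y hy
    cases b
    · have := hm N y hy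
      rw [Function.iterate_succ_apply'] at this
      exact this
    · have h1 := he' N (e^[m N] (g' N (v y))) (Finset.mem_image.2 ⟨y, hy, rfl⟩)
      have := hm N y hy
      rw [Function.iterate_succ_apply', ← h1] at this
      exact this
  -- finite products
  let W : (ℕ → Bool) → ℕ → ℕ → Y → Y := fun x j n =>
    Nat.rec (motive := fun _ => ℕ → Y → Y) (fun _ y => y)
      (fun _ r j y => U j (x j) (r (j + 1) y)) n j
  have hW0 : ∀ x j y, W x j 0 y = y := fun _ _ _ => rfl
  have hWs : ∀ x j n y, W x j (n+1) y = U j (x j) (W x (j+1) n y) := fun _ _ _ _ => rfl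
  have hWe : ∀ x n j y, W x j (n+1) y = W x j n (U (j+n) (x (j+n)) y) := by
    intro x n
    induction n with
    | zero => intro j y; simp [hWs, hW0]
    | succ n ih =>
      intro j y
      rw [hWs x j (n+1) y, ih (j+1) y, hWs x j n]
      have : j + 1 + n = j + (n + 1) := by ring
      rw [this]
  have hstab : ∀ x j n y, idx y < j + n → W x j (n+1) (v y) = W x j n (v y) := by
    intro x j n y hy
    rw [hWe, hUv _ _ y (hB _ _ hy)]
  have hstab' : ∀ x j y n, idx y < n → W x j n (v y) = W x j (idx y + 1) (v y) := by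
    intro x j y n hn
    induction n with
    | zero => omega
    | succ n ih =>
      rcases Nat.lt_or_ge (idx y) n with h1 | h1
      · rw [hstab x j n y (by omega), ih h1]
      · have : n = idx y := by omega
        rw [this]
  let F : (ℕ → Bool) → ℕ → Y → Y := fun x j y => W x j (idx y + 1) (v y)
  have hF : ∀ x j y n, idx y < n → W x j n (v y) = F x j y := hstab'
  have hWS : ∀ x n j, (fun y => W x j n y) ∈ S := by
    intro x n
    induction n with
    | zero =>
      intro j
      exact hG 1 G.one_mem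
    | succ n ih =>
      intro j
      exact hcomp _ (hUS j (x j)) _ (ih (j+1))
  have hFS : ∀ x j, F x j ∈ S := by
    intro x j
    apply hS
    intro D
    refine ⟨(fun y => W x j (D.sup idx + 1) y) ∘ v,
      hcomp _ (hWS x (D.sup idx + 1) j) _ hvS, ?_⟩
    intro y hy
    exact hF x j y _ (Nat.lt_succ_of_le (Finset.le_sup (f := idx) hy))
  have hFrec : ∀ x j, F x j = U j (x j) ∘ F x (j+1) := by
    intro x j
    funext y
    have h1 := hF x j y (idx y + 1 + 1) (by omega)
    rw [← h1, hWs x j (idx y + 1)]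
    rfl
  have hFρ : ∀ x j, ρ (F x j) = xor (ρ (U j (x j))) (ρ (F x (j+1))) := by
    intro x j
    rw [hFrec, hρ _ (hUS j (x j)) _ (hFS x (j+1))]
  have hWdep : ∀ x x' n j, (∀ i, j ≤ i → i < j + n → x i = x' i) → ∀ y, W x j n y = W x' j n y := by
    intro x x' n
    induction n with
    | zero => intro j _ y; rfl
    | succ n ih =>
      intro j hx y
      rw [hWs, hWs, hx j le_rfl (by omega), ih (j+1) (fun i h1 h2 => hx i (by omega) (by omega))]
  refine ⟨fun x => F x 0, fun x => hFS x 0, ?_, ?_⟩
  · intro y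
    refine ⟨idx y + 1, fun x x' h => ?_⟩
    exact hWdep x x' (idx y + 1) 0 (fun i _ hi => h i (by omega)) (v y)
  · intro x k
    have htail : F (flipBit k x) (k+1) = F x (k+1) := by
      funext y
      have hne : ∀ i, k + 1 ≤ i → flipBit k x i = x i := fun i hi => flipBit_ne (by omega) x
      exact hWdep (flipBit k x) x (idx y + 1) (k+1) (fun i hi _ => hne i hi) (v y)
    have hk : ρ (F (flipBit k x) k) = !ρ (F x k) := by
      rw [hFρ, hFρ x k, htail, flipBit_self, hUρ]
      cases ρ (U k (x k)) <;> cases ρ (F x (k+1)) <;> rfl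
    have hdown : ∀ d, d ≤ k → ρ (F (flipBit k x) (k - d)) = !ρ (F x (k - d)) := by
      intro d
      induction d with
      | zero => intro _; simpa using hk
      | succ d ih =>
        intro hd
        have h1 : k - (d+1) + 1 = k - d := by omega
        rw [hFρ, hFρ x (k - (d+1)), h1, ih (by omega), flipBit_ne (by omega)]
        cases ρ (U (k - (d+1)) (x (k - (d+1)))) <;> cases ρ (F x (k-d)) <;> rfl
    have := hdown k le_rfl
    simpa using this

end Pool.Agent.H818R3
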