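import Pool.Agent.H818R3.Topo
import Pool.Agent.H818R3.Parity

/-!
# Homomorphisms from oligomorphic clones to the clone of projections
-/

namespace Pool.Agent.H818R3

open Topology

variable {Ω : Type*}

/-- The self-map of `Ω × Ω` given by a binary operation. -/
def hat (f : Op Ω 1) : Ω × Ω → Ω × Ω := fun p => (f ![p.1, p.2], f ![p.2, p.1])

theorem eta2 (x : Fin 2 → Ω) : ![x 0, x 1] = x := by
  funext i; fin_cases i <;> rfl

theorem hat_injective : Function.Injective (hat : Op Ω 1 → _) := by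
  intro f g h
  funext x
  have := congrArg Prod.fst (congrFun h (x 0, x 1))
  simp only [hat] at this
  rw [eta2] at this
  exact this

/-- The swapped operation. -/
def FunctionClone.swap (C : FunctionClone Ω) (f : C.ops 1) : C.ops 1 :=
  C.comp f ![C.proj 1 1, C.proj 1 0]

theorem FunctionClone.swap_apply (C : FunctionClone Ω) (f : C.ops 1) (x : Fin 2 → Ω) :
    (C.swap f).1 x = f.1 ![x 1, x 0] := by
  have h : (fun i : Fin 2 => ((![C.proj 1 1, C.proj 1 0] : Fin 2 → C.ops 1) i).1 x) =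
      ![x 1, x 0] := by
    funext i; fin_cases i <;> rfl
  exact congrArg (fun y : Fin 2 → Ω => f.1 y) h

/-- The product of binary operations used below. -/
def FunctionClone.bull (C : FunctionClone Ω) (f g : C.ops 1) : C.ops 1 :=
  C.comp f ![g, C.swap g]

theorem FunctionClone.bull_apply (C : FunctionClone Ω) (f g : C.ops 1) (x : Fin 2 → Ω) :
    (C.bull f g).1 x = f.1 ![g.1 x, g.1 ![x 1, x 0]] := by
  have h : (fun i : Fin 2 => ((![g, C.swap g] : Fin 2 → C.ops 1) i).1 x) =
      ![g.1 x, g.1 ![x 1, x 0]] := by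
    funext i; fin_cases i
    · rfl
    · exact C.swap_apply g x
  exact congrArg (fun y : Fin 2 → Ω => f.1 y) h

theorem hat_bull (C : FunctionClone Ω) (f g : C.ops 1) :
    hat (C.bull f g).1 = hat f.1 ∘ hat g.1 := by
  funext p
  simp only [hat, Function.comp]
  rw [C.bull_apply, C.bull_apply]
  rfl

theorem proj_ne : projClone.proj 1 0 ≠ projClone.proj 1 1 := by
  intro h
  have := congrFun (congrArg Subtype.val h) ![true, false]
  exact absurd this (by simp [FunctionClone.proj])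

theorem comp_proj {D : FunctionClone Ω} {n m : ℕ} (i : Fin (n + 1)) (g : Fin (n + 1) → D.ops m) :
    D.comp (D.proj n i) g = g i := rfl

theorem proj_cases (n : ℕ) (p : projClone.ops n) : ∃ i, p = projClone.proj n i := by
  obtain ⟨f, i, rfl⟩ := p
  exact ⟨i, rfl⟩

theorem proj_cases_one (p : projClone.ops 1) : p = projClone.proj 1 0 ∨ p = projClone.proj 1 1 := by
  obtain ⟨i, rfl⟩ := proj_cases 1 p
  fin_cases i
  · exact Or.inl rfl
  · exact Or.inr rfl

section

variable (C : FunctionClone Ω) (ξ : CloneHom C projClone)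

theorem xi_swap (g : C.ops 1) :
    (ξ.map 1 g = projClone.proj 1 0 → ξ.map 1 (C.swap g) = projClone.proj 1 1) ∧
    (ξ.map 1 g = projClone.proj 1 1 → ξ.map 1 (C.swap g) = projClone.proj 1 0) := by
  have h : ξ.map 1 (C.swap g) =
      projClone.comp (ξ.map 1 g) (fun i => ξ.map 1 ((![C.proj 1 1, C.proj 1 0] : Fin 2 → C.ops 1) i)) :=
    ξ.map_comp 1 1 g _
  constructor
  · intro h1
    rw [h, h1, comp_proj]
    exact ξ.map_proj 1 1
  · intro h1
    rw [h, h1, comp_proj]
    exact ξ.map_proj 1 0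

theorem xi_bull (f g : C.ops 1) :
    (ξ.map 1 f = projClone.proj 1 0 → ξ.map 1 (C.bull f g) = ξ.map 1 g) ∧
    (ξ.map 1 f = projClone.proj 1 1 → ξ.map 1 (C.bull f g) = ξ.map 1 (C.swap g)) := by
  have h : ξ.map 1 (C.bull f g) =
      projClone.comp (ξ.map 1 f) (fun i => ξ.map 1 ((![g, C.swap g] : Fin 2 → C.ops 1) i)) :=
    ξ.map_comp 1 1 f _
  constructor
  · intro h1
    rw [h, h1, comp_proj]
    rfl
  · intro h1
    rw [h, h1, comp_proj]
    rfl

open Classical in
/-- the sign of a self-map of `Ω × Ω` -/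
noncomputable def sgn (F : Ω × Ω → Ω × Ω) : Bool :=
  if ∃ f : C.ops 1, hat f.1 = F ∧ ξ.map 1 f = projClone.proj 1 1 then true else false

theorem sgn_hat_true (f : C.ops 1) : sgn C ξ (hat f.1) = true ↔ ξ.map 1 f = projClone.proj 1 1 := by
  unfold sgn
  constructor
  · intro h
    split_ifs at h with h1
    obtain ⟨f', h2, h3⟩ := h1
    have : f' = f := Subtype.ext (hat_injective h2)
    rw [← this]; exact h3
  · intro h
    rw [if_pos ⟨f, rfl, h⟩]

theorem sgn_hat_false (f : C.ops 1) : sgn C ξ (hat f.1) = false ↔ ξ.map 1 f = projClone.proj 1 0 := by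
  constructor
  · intro h
    rcases proj_cases_one (ξ.map 1 f) with h1 | h1
    · exact h1
    · rw [(sgn_hat_true C ξ f).2 h1] at h
      exact absurd h (by simp)
  · intro h
    by_contra h1
    rw [Bool.not_eq_false, sgn_hat_true, h] at h1
    exact proj_ne h1

theorem sgn_bull (f g : C.ops 1) :
    sgn C ξ (hat (C.bull f g).1) = xor (sgn C ξ (hat f.1)) (sgn C ξ (hat g.1)) := by
  rcases proj_cases_one (ξ.map 1 f) with hf | hf <;> rcases proj_cases_one (ξ.map 1 g) with hg | hg
  · rw [(sgn_hat_false C ξ f).2 hf, (sgn_hat_false C ξ g).2 hg]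
    exact (sgn_hat_false C ξ _).2 (((xi_bull C ξ f g).1 hf).trans hg)
  · rw [(sgn_hat_false C ξ f).2 hf, (sgn_hat_true C ξ g).2 hg]
    exact (sgn_hat_true C ξ _).2 (((xi_bull C ξ f g).1 hf).trans hg)
  · rw [(sgn_hat_true C ξ f).2 hf, (sgn_hat_false C ξ g).2 hg]
    exact (sgn_hat_true C ξ _).2 (((xi_bull C ξ f g).2 hf).trans ((xi_swap C ξ g).1 hg))
  · rw [(sgn_hat_true C ξ f).2 hf, (sgn_hat_true C ξ g).2 hg]
    exact (sgn_hat_false C ξ _).2 (((xi_bull C ξ f g).2 hf).trans ((xi_swap C ξ g).2 hg))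

end

section group

variable (C : FunctionClone Ω)

theorem unary_id : C.Unary id := C.proj_mem 0 0

theorem unary_comp {α β : Ω → Ω} (hα : C.Unary α) (hβ : C.Unary β) : C.Unary (α ∘ β) :=
  C.comp_mem 0 0 (fun x => α (x 0)) (fun _ => fun x => β (x 0)) hα (fun _ => hβ)

/-- The group of invertible unary members. -/
def unitGroup : Subgroup (Equiv.Perm Ω) where
  carrier := {α | C.Invertible α}
  one_mem' := ⟨unary_id C, unary_id C⟩
  mul_mem' := by
    intro a b ha hb
    exact ⟨unary_comp C (α := a) (β := b) ha.1 hb.1,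
      unary_comp C (α := b.symm) (β := a.symm) hb.2 ha.2⟩
  inv_mem' := by
    intro a ha
    exact ⟨ha.2, ha.1⟩

/-- The diagonal action on `Ω × Ω`. -/
def diagHom : Equiv.Perm Ω →* Equiv.Perm (Ω × Ω) where
  toFun α := α.prodCongr α
  map_one' := by ext p <;> rfl
  map_mul' a b := by ext p <;> rfl

theorem finOrb_diag (h : C.Oligomorphic) :
    FinOrb ((unitGroup C).map diagHom : Set (Equiv.Perm (Ω × Ω))) := by
  intro n
  obtain ⟨T, hT, hx⟩ := h (n + n)
  refine ⟨(fun t : Fin (n+n) → Ω => fun i : Fin n => (t (Fin.castAdd n i), t (Fin.natAdd n i))) '' T,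
    hT.image _, ?_⟩
  intro x
  obtain ⟨t, ht, α, hα, hxt⟩ := hx (Fin.append (fun i => (x i).1) (fun i => (x i).2))
  refine ⟨_, ⟨t, ht, rfl⟩, diagHom α, ⟨α, hα, rfl⟩, ?_⟩
  funext i
  have h1 := congrFun hxt (Fin.castAdd n i)
  have h2 := congrFun hxt (Fin.natAdd n i)
  rw [Fin.append_left] at h1
  rw [Fin.append_right] at h2
  exact Prod.ext h1 h2

/-- The self-maps of `Ω × Ω` given by binary members of the clone. -/
def hatSet : Set (Ω × Ω → Ω × Ω) := {F | ∃ f : C.ops 1, hat f.1 = F}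

theorem hatSet_comp : ∀ f ∈ hatSet C, ∀ g ∈ hatSet C, f ∘ g ∈ hatSet C := by
  rintro _ ⟨f, rfl⟩ _ ⟨g, rfl⟩
  exact ⟨C.bull f g, hat_bull C f g⟩

theorem hatSet_group : ∀ g ∈ (unitGroup C).map diagHom, (g : Ω × Ω → Ω × Ω) ∈ hatSet C := by
  rintro _ ⟨α, hα, rfl⟩
  refine ⟨⟨fun x => α (x 0), C.comp_mem 0 1 (fun x => α (x 0)) (fun _ => fun x => x 0) hα.1
    (fun _ => C.proj_mem 1 0)⟩, ?_⟩
  funext p
  rfl

theorem hatSet_closed (hC : C.Closed) : PtClosed (hatSet C) := by
  classical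
  intro F hF
  let f : Op Ω 1 := fun x => (F (x 0, x 1)).1
  have hf : f ∈ C.ops 1 := by
    apply mem_of_closed (hC 1)
    intro B
    obtain ⟨_, ⟨g, rfl⟩, hg⟩ := hF (B.image (fun x : Fin 2 → Ω => (x 0, x 1)))
    refine ⟨g.1, g.2, ?_⟩
    intro b hb
    have h1 := hg _ (Finset.mem_image.2 ⟨b, hb, rfl⟩)
    have h2 := congrArg Prod.fst h1
    simp only [hat] at h2
    rw [eta2] at h2
    exact h2
  refine ⟨⟨f, hf⟩, ?_⟩
  funext p
  obtain ⟨_, ⟨g, rfl⟩, hg⟩ := hF {p, (p.2, p.1)}
  have h1 := hg p (by simp)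
  have h2 := hg (p.2, p.1) (by simp)
  refine Prod.ext rfl ?_
  change (F (p.2, p.1)).1 = (F p).2
  rw [← h1, ← h2]
  rfl

end group

/-- The identification minor used to pass to binary operations. -/
def minor (C : FunctionClone Ω) {n : ℕ} (i : Fin (n + 1)) (f : C.ops n) : C.ops 1 :=
  C.comp f (fun l => if l = i then C.proj 1 0 else C.proj 1 1)

theorem minor_apply (C : FunctionClone Ω) {n : ℕ} (i : Fin (n + 1)) (f : C.ops n)
    (x : Fin 2 → Ω) : (minor C i f).1 x = f.1 (fun l => if l = i then x 0 else x 1) := by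
  have h : (fun l => ((if l = i then C.proj 1 0 else C.proj 1 1 : C.ops 1)).1 x) =
      (fun l => if l = i then x 0 else x 1) := by
    funext l
    split_ifs <;> rfl
  exact congrArg (fun y : Fin (n+1) → Ω => f.1 y) h

/-- **Dichotomy.** A homomorphism from a closed oligomorphic clone to the clone of projections
which is not continuous yields a continuous parity map on the Cantor space. -/
theorem dichotomy [Countable Ω] [Nonempty Ω] (C : FunctionClone Ω) (hC : C.Closed)
    (hol : C.Oligomorphic) (ξ : CloneHom C projClone) (hξ : ¬ ξ.Cont) :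
    ∃ F : (ℕ → Bool) → C.ops 1, Continuous F ∧
      ∀ x k, (ξ.map 1 (F (flipBit k x)) = projClone.proj 1 0 ↔
        ¬ ξ.map 1 (F x) = projClone.proj 1 0) := by
  classical
  unfold CloneHom.Cont at hξ
  push Not at hξ
  obtain ⟨n, hn⟩ := hξ
  -- a point where the map is not locally constant
  have h1 : ∃ f : C.ops n, ∀ B : Finset (Fin (n + 1) → Ω), ∃ f' : C.ops n,
      (∀ b ∈ B, f'.1 b = f.1 b) ∧ ξ.map n f' ≠ ξ.map n f := by
    by_contra hcon
    push Not at hcon
    apply hn
    apply IsLocallyConstant.continuous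
    rw [IsLocallyConstant.iff_exists_open]
    intro f
    obtain ⟨B, hB⟩ := hcon f
    refine ⟨Subtype.val ⁻¹' {g : Op Ω n | ∀ b ∈ B, g b = f.1 b},
      (isOpen_agree f.1 B).preimage continuous_subtype_val, fun b _ => rfl, ?_⟩
    intro g hg
    exact hB g hg
  obtain ⟨f, hf⟩ := h1
  obtain ⟨i, hi⟩ := proj_cases n (ξ.map n f)
  have h2 : ∃ j : Fin (n + 1), j ≠ i ∧ ∀ B : Finset (Fin (n + 1) → Ω), ∃ f' : C.ops n,
      (∀ b ∈ B, f'.1 b = f.1 b) ∧ ξ.map n f' = projClone.proj n j := by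
    by_contra hcon
    push Not at hcon
    have hcon' : ∀ j : Fin (n+1), ∃ B : Finset (Fin (n + 1) → Ω), j ≠ i → ∀ f' : C.ops n,
        (∀ b ∈ B, f'.1 b = f.1 b) → ξ.map n f' ≠ projClone.proj n j := by
      intro j
      by_cases hj : j = i
      · exact ⟨∅, fun h => absurd hj h⟩
      · obtain ⟨B, hB⟩ := hcon j hj
        exact ⟨B, fun _ => hB⟩
    choose B hB using hcon'
    obtain ⟨f', hf', hne⟩ := hf (Finset.univ.biUnion B)
    obtain ⟨j, hj⟩ := proj_cases n (ξ.map n f')
    by_cases hji : j = i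
    · exact hne (by rw [hj, hi, hji])
    · exact hB j hji f' (fun b hb => hf' b (Finset.mem_biUnion.2 ⟨j, Finset.mem_univ j, hb⟩)) hj
  obtain ⟨j, hji, hj⟩ := h2
  have hminor : ∀ f' : C.ops n, ∀ l, ξ.map n f' = projClone.proj n l →
      ξ.map 1 (minor C i f') = if l = i then projClone.proj 1 0 else projClone.proj 1 1 := by
    intro f' l hl
    have h3 : ξ.map 1 (minor C i f') = projClone.comp (ξ.map n f')
        (fun l => ξ.map 1 (if l = i then C.proj 1 0 else C.proj 1 1)) := ξ.map_comp n 1 f' _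
    rw [h3, hl, comp_proj]
    split_ifs
    · exact ξ.map_proj 1 0
    · exact ξ.map_proj 1 1
  have he0 : ξ.map 1 (minor C i f) = projClone.proj 1 0 := by
    rw [hminor f i hi, if_pos rfl]
  obtain ⟨F, hFS, hFdep, hFflip⟩ := parity_map (hatSet C) (hatSet_closed C hC) (hatSet_comp C)
    ((unitGroup C).map diagHom) (hatSet_group C) (finOrb_diag C hol) (sgn C ξ)
    (by
      rintro _ ⟨f, rfl⟩ _ ⟨g, rfl⟩
      rw [← hat_bull]
      exact sgn_bull C ξ f g)
    (hat (minor C i f).1) ⟨_, rfl⟩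
    (by
      intro B
      obtain ⟨f', hf', hf'j⟩ := hj (B.biUnion (fun p =>
        {(fun l => if l = i then p.1 else p.2), (fun l => if l = i then p.2 else p.1)}))
      refine ⟨hat (minor C i f').1, ⟨_, rfl⟩, ?_, ?_⟩
      · intro p hp
        simp only [hat]
        rw [minor_apply, minor_apply, minor_apply, minor_apply]
        refine Prod.ext ?_ ?_
        · exact hf' _ (Finset.mem_biUnion.2 ⟨p, hp, by simp⟩)
        · exact hf' _ (Finset.mem_biUnion.2 ⟨p, hp, by simp⟩)
      · rw [(sgn_hat_false C ξ _).2 he0]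
        apply (sgn_hat_true C ξ _).2
        rw [hminor f' j hf'j, if_neg hji])
  choose G hG using hFS
  have hGval : ∀ x b, (G x).1 b = (F x (b 0, b 1)).1 := by
    intro x b
    rw [← hG x]
    simp only [hat]
    rw [eta2]
  refine ⟨G, ?_, ?_⟩
  · apply continuous_to_op
    intro b
    obtain ⟨N, hN⟩ := hFdep (b 0, b 1)
    apply continuous_of_bits _ N
    intro x x' hxx
    rw [hGval, hGval, hN x x' hxx]
  · intro x k
    have h4 := hFflip x k
    rw [← hG, ← hG] at h4
    rw [← sgn_hat_false, ← sgn_hat_false, h4]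
    cases sgn C ξ (hat (G x).1) <;> simp

end Pool.Agent.H818R3
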