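import Pool.Agent.H818R3.Hyper

/-!
# Uniform sequences in a structure with the extension property
-/

namespace Pool.Agent.H818R3

/-- Self-embeddings. -/
def Emb (E : Finset ℕ → Prop) (h : ℕ → ℕ) : Prop :=
  Function.Injective h ∧ ∀ F : Finset ℕ, E (F.image h) ↔ E F

/-- Uniform sequences: injective sequences such that `E` holds or fails on all sets of terms of the
same size. -/
def Unif (E : Finset ℕ → Prop) (u : ℕ → ℕ) : Prop :=
  Function.Injective u ∧ ∀ F F' : Finset ℕ, F.card = F'.card → (E (F.image u) ↔ E (F'.image u))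

/-- The sizes (minus one) at which the sequence carries edges. -/
def kap (E : Finset ℕ → Prop) (u : ℕ → ℕ) : ℕ → Prop := fun k => E ((Finset.range (k + 1)).image u)

variable {E : Finset ℕ → Prop}

theorem Unif.kap_iff {u : ℕ → ℕ} (hu : Unif E u) (F : Finset ℕ) (hF : F.Nonempty) :
    E (F.image u) ↔ kap E u (F.card - 1) := by
  apply hu.2
  rw [Finset.card_range]
  have := hF.card_pos
  omega

theorem emb_id : Emb E id := ⟨Function.injective_id, fun F => by rw [Finset.image_id]⟩

theorem Emb.comp {h h' : ℕ → ℕ} (hh : Emb E h) (hh' : Emb E h') : Emb E (h ∘ h') :=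
  ⟨hh.1.comp hh'.1, fun F => by rw [← Finset.image_image, hh.2, hh'.2]⟩

theorem Emb.comp_unif {h u : ℕ → ℕ} (hh : Emb E h) (hu : Unif E u) : Unif E (h ∘ u) :=
  ⟨hh.1.comp hu.1, fun F F' hF => by
    rw [← Finset.image_image, ← Finset.image_image, hh.2, hh.2]; exact hu.2 F F' hF⟩

theorem Emb.kap_comp {h u : ℕ → ℕ} (hh : Emb E h) : kap E (h ∘ u) = kap E u := by
  funext k
  apply propext
  unfold kap
  rw [← Finset.image_image, hh.2]

theorem Unif.comp_inj {u h : ℕ → ℕ} (hu : Unif E u) (hh : Function.Injective h) :
    Unif E (u ∘ h) :=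
  ⟨hu.1.comp hh, fun F F' hF => by
    rw [← Finset.image_image, ← Finset.image_image]
    apply hu.2
    rw [Finset.card_image_of_injective _ hh, Finset.card_image_of_injective _ hh, hF]⟩

theorem Unif.kap_comp {u h : ℕ → ℕ} (hu : Unif E u) (hh : Function.Injective h) :
    kap E (u ∘ h) = kap E u := by
  funext k
  apply propext
  unfold kap
  rw [← Finset.image_image]
  apply hu.2
  rw [Finset.card_image_of_injective _ hh]

/-- Extension of uniform finite sequences to uniform sequences of prescribed kind. -/
theorem exists_unif (hE : ExtProp E) (κ : ℕ → Prop) (N : ℕ) (u0 : ℕ → ℕ)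
    (hinj : ∀ i < N, ∀ j < N, u0 i = u0 j → i = j)
    (h0 : ∀ F ⊆ Finset.range N, F.Nonempty → (E (F.image u0) ↔ κ (F.card - 1))) :
    ∃ u : ℕ → ℕ, Unif E u ∧ (∀ k, kap E u k ↔ κ k) ∧ ∀ i < N, u i = u0 i := by
  classical
  choose next hnext using fun A : Finset ℕ => hE A (fun S => κ S.card)
  let A : ℕ → Finset ℕ := fun n => Nat.rec ((Finset.range N).image u0) (fun _ B => insert (next B) B) n
  have hA0 : A 0 = (Finset.range N).image u0 := rfl
  have hAs : ∀ n, A (n+1) = insert (next (A n)) (A n) := fun _ => rfl
  let u : ℕ → ℕ := fun k => if k < N then u0 k else next (A (k - N))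
  have hu1 : ∀ k < N, u k = u0 k := fun k hk => if_pos hk
  have hu2 : ∀ n, u (N + n) = next (A n) := by
    intro n
    have : ¬ (N + n < N) := by omega
    simp only [u, this, if_false]
    congr 2
    omega
  have hA : ∀ n, A n = (Finset.range (N + n)).image u := by
    intro n
    induction n with
    | zero =>
      rw [hA0]
      ext y
      simp only [Finset.mem_image, Finset.mem_range, Nat.add_zero]
      constructor
      · rintro ⟨i, hi, rfl⟩; exact ⟨i, hi, hu1 i hi⟩
      · rintro ⟨i, hi, rfl⟩; exact ⟨i, hi, (hu1 i hi).symm⟩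
    | succ n ih =>
      rw [hAs, ← Nat.add_assoc, Finset.range_add_one, Finset.image_insert, ← ih, hu2]
  have hlt : ∀ i k, i < k → u i ≠ u k := by
    intro i k hik heq
    by_cases hk : k < N
    · rw [hu1 i (by omega), hu1 k hk] at heq
      have := hinj i (by omega) k hk heq
      omega
    · obtain ⟨n, rfl⟩ : ∃ n, k = N + n := ⟨k - N, by omega⟩
      have h1 : u i ∈ A n := by
        rw [hA n]
        exact Finset.mem_image.2 ⟨i, Finset.mem_range.2 hik, rfl⟩
      rw [heq, hu2] at h1
      exact (hnext (A n)).1 h1
  have hui : Function.Injective u := by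
    intro i k h
    rcases Nat.lt_trichotomy i k with h1 | h1 | h1
    · exact absurd h (hlt i k h1)
    · exact h1
    · exact absurd h.symm (hlt k i h1)
  have hkey : ∀ F : Finset ℕ, F.Nonempty → (E (F.image u) ↔ κ (F.card - 1)) := by
    intro F hF
    set k := F.max' hF with hk
    by_cases hkN : k < N
    · have hsub : F ⊆ Finset.range N := by
        intro x hx
        exact Finset.mem_range.2 (lt_of_le_of_lt (Finset.le_max' F x hx) hkN)
      have h1 : F.image u = F.image u0 := by
        apply Finset.image_congr
        intro x hx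
        exact hu1 x (Finset.mem_range.1 (hsub hx))
      rw [h1]
      exact h0 F hsub hF
    · obtain ⟨n, hn⟩ : ∃ n, k = N + n := ⟨k - N, by omega⟩
      have hkF : k ∈ F := Finset.max'_mem F hF
      have hFe : F = insert k (F.erase k) := (Finset.insert_erase hkF).symm
      have hcard : (F.erase k).card = F.card - 1 := Finset.card_erase_of_mem hkF
      have hsub : (F.erase k).image u ⊆ A n := by
        rw [hA n]
        apply Finset.image_subset_image
        intro x hx
        have h1 : x ≤ k := Finset.le_max' F x (Finset.mem_of_mem_erase hx)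
        have h2 : x ≠ k := Finset.ne_of_mem_erase hx
        exact Finset.mem_range.2 (by omega)
      have h2 := (hnext (A n)).2 _ hsub
      rw [Finset.card_image_of_injective _ hui, hcard] at h2
      rw [← h2, ← hu2 n, ← hn, ← Finset.image_insert, ← hFe]
  refine ⟨u, ⟨hui, ?_⟩, ?_, hu1⟩
  · intro F F' hFF
    rcases F.eq_empty_or_nonempty with h | h
    · subst h
      have : F' = ∅ := Finset.card_eq_zero.1 (by rw [← hFF]; rfl)
      subst this
      exact Iff.rfl
    · have h' : F'.Nonempty := by
        rw [← Finset.card_pos, ← hFF, Finset.card_pos]; exact h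
      rw [hkey F h, hkey F' h', hFF]
  · intro k
    have := hkey (Finset.range (k+1)) ⟨0, by simp⟩
    rw [Finset.card_range] at this
    exact this

/-- Two uniform sequences of the same kind are conjugate by automorphisms on finite sets. -/
theorem Unif.conj (hE : ExtProp E) {u u' : ℕ → ℕ} (hu : Unif E u) (hu' : Unif E u')
    (h : ∀ k, kap E u k ↔ kap E u' k) (N : ℕ) :
    ∃ α : Equiv.Perm ℕ, IsAut E α ∧ ∀ i < N, α (u i) = u' i := by
  classical
  obtain ⟨α, hα, h1⟩ := homogeneous hE (fun i : Fin N => u i) (fun i : Fin N => u' i)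
    (by
      intro i j
      constructor
      · intro h2; rw [hu.1 h2]
      · intro h2; rw [hu'.1 h2])
    (by
      intro I
      rcases I.eq_empty_or_nonempty with h2 | h2
      · subst h2; simp
      · have e1 : I.image (fun i : Fin N => u i) = (I.image (fun i : Fin N => (i : ℕ))).image u := by
          rw [Finset.image_image]; rfl
        have e2 : I.image (fun i : Fin N => u' i) = (I.image (fun i : Fin N => (i : ℕ))).image u' := by
          rw [Finset.image_image]; rfl
        rw [e1, e2, hu.kap_iff _ (h2.image _), hu'.kap_iff _ (h2.image _)]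
        exact h _)
  exact ⟨α, hα, fun i hi => h1 ⟨i, hi⟩⟩

/-- Embeddings are limits of automorphisms. -/
theorem Emb.approx (hE : ExtProp E) {h : ℕ → ℕ} (hh : Emb E h) (N : ℕ) :
    ∃ α : Equiv.Perm ℕ, IsAut E α ∧ ∀ i < N, α i = h i := by
  classical
  obtain ⟨α, hα, h1⟩ := homogeneous hE (fun i : Fin N => (i : ℕ)) (fun i : Fin N => h i)
    (by
      intro i j
      constructor
      · intro h2; rw [h2]
      · intro h2; exact hh.1 h2)
    (by
      intro I
      have e2 : I.image (fun i : Fin N => h i) = (I.image (fun i : Fin N => (i : ℕ))).image h := by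
        rw [Finset.image_image]; rfl
      rw [e2, hh.2])
  exact ⟨α, hα, fun i hi => h1 ⟨i, hi⟩⟩

end Pool.Agent.H818R3
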