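import Pool.Agent.H818R3.Mono
import Pool.Agent.H818R3.Unif

/-!
# The tagged clones
-/

namespace Pool.Agent.H818R3

open Topology

/-- The domain: the vertices `Sum.inl k` and two further points `Sum.inr false`,
`Sum.inr true`. -/
abbrev Pt : Type := ℕ ⊕ Bool

/-- The transformation monoid: self-embeddings of the vertex set, fixing the two further points,
and uniform sequences `u` together with a tag `j`, allowed when `Z j (kap E u)` holds. -/
def tagMon (E : Finset ℕ → Prop) (Z : Bool → (ℕ → Prop) → Prop) : Set (Pt → Pt) :=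
  {m | (∃ h, Emb E h ∧ m = Sum.map h id) ∨
    ∃ u j, Unif E u ∧ Z j (kap E u) ∧ m = Sum.map u (fun _ => j)}

variable {E : Finset ℕ → Prop} {Z : Bool → (ℕ → Prop) → Prop}

theorem id_mem_tagMon : id ∈ tagMon E Z := by
  left
  refine ⟨id, emb_id, ?_⟩
  funext p
  rcases p with p | p <;> rfl

theorem comp_mem_tagMon : ∀ f ∈ tagMon E Z, ∀ g ∈ tagMon E Z, f ∘ g ∈ tagMon E Z := by
  rintro f hf g hg
  rcases hf with ⟨h, hh, rfl⟩ | ⟨u, j, hu, hj, rfl⟩ <;>
    rcases hg with ⟨h', hh', rfl⟩ | ⟨u', j', hu', hj', rfl⟩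
  · left
    exact ⟨h ∘ h', hh.comp hh', by funext p; rcases p with p | p <;> rfl⟩
  · right
    refine ⟨h ∘ u', j', hh.comp_unif hu', ?_, by funext p; rcases p with p | p <;> rfl⟩
    rw [hh.kap_comp]; exact hj'
  · right
    refine ⟨u ∘ h', j, hu.comp_inj hh'.1, ?_, by funext p; rcases p with p | p <;> rfl⟩
    rw [hu.kap_comp hh'.1]; exact hj
  · right
    refine ⟨u ∘ u', j, hu.comp_inj hu'.1, ?_, by funext p; rcases p with p | p <;> rfl⟩
    rw [hu.kap_comp hu'.1]; exact hj

/-- The tagged clone. -/
def tagClone (E : Finset ℕ → Prop) (Z : Bool → (ℕ → Prop) → Prop) : FunctionClone Pt :=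
  monoClone (tagMon E Z) id_mem_tagMon comp_mem_tagMon

/-- A condition on subsets of `ℕ` is closed. -/
def ClosedTag (Z : Bool → (ℕ → Prop) → Prop) : Prop :=
  ∀ j κ, (∀ n : ℕ, ∃ κ' : ℕ → Prop, Z j κ' ∧ ∀ i < n, (κ' i ↔ κ i)) → Z j κ

theorem image_congr_range {u u' : ℕ → ℕ} {N : ℕ} {F : Finset ℕ} (hF : F ⊆ Finset.range N)
    (h : ∀ i < N, u i = u' i) : F.image u = F.image u' := by
  apply Finset.image_congr
  intro x hx
  exact h x (Finset.mem_range.1 (hF hx))

theorem finset_sub_range (F : Finset ℕ) : ∃ N, F ⊆ Finset.range N :=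
  ⟨F.sup id + 1, fun x hx => Finset.mem_range.2 (Nat.lt_succ_of_le (Finset.le_sup (f := id) hx))⟩

theorem tagMon_closed (hZ : ClosedTag Z) : PtClosed (tagMon E Z) := by
  classical
  intro m hm
  -- the finite test sets
  let T : ℕ → Finset Pt := fun N => (Finset.range N).image Sum.inl ∪ {Sum.inr false, Sum.inr true}
  have hT1 : ∀ N i, i < N → (Sum.inl i : Pt) ∈ T N := fun N i hi =>
    Finset.mem_union_left _ (Finset.mem_image.2 ⟨i, Finset.mem_range.2 hi, rfl⟩)
  have hT2 : ∀ N b, (Sum.inr b : Pt) ∈ T N := fun N b =>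
    Finset.mem_union_right _ (by cases b <;> simp)
  have hl : ∀ i : ℕ, ∃ k : ℕ, m (Sum.inl i) = Sum.inl k := by
    intro i
    obtain ⟨g, hg, h⟩ := hm (T (i+1))
    have h1 := h _ (hT1 (i+1) i (by omega))
    rcases hg with ⟨f, _, rfl⟩ | ⟨u, j, _, _, rfl⟩
    · exact ⟨f i, h1.symm⟩
    · exact ⟨u i, h1.symm⟩
  choose f hf using hl
  by_cases hc : m (Sum.inr false) = m (Sum.inr true)
  · -- tagged type
    right
    have key : ∀ N, ∃ u j, Unif E u ∧ Z j (kap E u) ∧ (∀ i < N, u i = f i) ∧
        ∀ b, m (Sum.inr b) = Sum.inr j := by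
      intro N
      obtain ⟨g, hg, h⟩ := hm (T N)
      rcases hg with ⟨e, he, rfl⟩ | ⟨u, j, hu, hj, rfl⟩
      · exfalso
        have e1 := h _ (hT2 N false)
        have e2 := h _ (hT2 N true)
        rw [← e1, ← e2] at hc
        exact absurd hc (by simp)
      · refine ⟨u, j, hu, hj, ?_, ?_⟩
        · intro i hi
          have := h _ (hT1 N i hi)
          rw [hf] at this
          exact Sum.inl_injective this
        · intro b
          exact (h _ (hT2 N b)).symm
    obtain ⟨_, j, _, _, _, hj⟩ := key 0
    have key' : ∀ N, ∃ u, Unif E u ∧ Z j (kap E u) ∧ (∀ i < N, u i = f i) := by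
      intro N
      obtain ⟨u, j', hu, hju, huf, hj'⟩ := key N
      have : j' = j := by
        have := (hj' true).symm.trans (hj true)
        exact Sum.inr_injective this
      rw [this] at hju
      exact ⟨u, hu, hju, huf⟩
    refine ⟨f, j, ⟨?_, ?_⟩, ?_, ?_⟩
    · intro a b hab
      obtain ⟨u, hu, _, huf⟩ := key' (max a b + 1)
      apply hu.1
      rw [huf a (by omega), huf b (by omega), hab]
    · intro F F' hFF
      obtain ⟨N, hN⟩ := finset_sub_range (F ∪ F')
      obtain ⟨u, hu, _, huf⟩ := key' N
      rw [← image_congr_range (Finset.union_subset_left hN) huf,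
        ← image_congr_range (Finset.union_subset_right hN) huf]
      exact hu.2 F F' hFF
    · apply hZ
      intro n
      obtain ⟨u, hu, hju, huf⟩ := key' n
      refine ⟨kap E u, hju, ?_⟩
      intro i hi
      unfold kap
      rw [image_congr_range (N := n) (by
        intro x hx
        have := Finset.mem_range.1 hx
        exact Finset.mem_range.2 (by omega)) huf]
    · funext p
      rcases p with p | p
      · exact hf p
      · exact hj p
  · left
    have key : ∀ N, ∃ e, Emb E e ∧ (∀ i < N, e i = f i) ∧ ∀ b, m (Sum.inr b) = Sum.inr b := by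
      intro N
      obtain ⟨g, hg, h⟩ := hm (T N)
      rcases hg with ⟨e, he, rfl⟩ | ⟨u, j, hu, hj, rfl⟩
      · refine ⟨e, he, ?_, ?_⟩
        · intro i hi
          have := h _ (hT1 N i hi)
          rw [hf] at this
          exact Sum.inl_injective this
        · intro b
          exact (h _ (hT2 N b)).symm
      · exfalso
        apply hc
        rw [← h _ (hT2 N false), ← h _ (hT2 N true)]
        rfl
    refine ⟨f, ⟨?_, ?_⟩, ?_⟩
    · intro a b hab
      obtain ⟨e, he, hef, _⟩ := key (max a b + 1)
      apply he.1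
      rw [hef a (by omega), hef b (by omega), hab]
    · intro F
      obtain ⟨N, hN⟩ := finset_sub_range F
      obtain ⟨e, he, hef, _⟩ := key N
      rw [← image_congr_range hN hef]
      exact he.2 F
    · obtain ⟨_, _, _, hj⟩ := key 0
      funext p
      rcases p with p | p
      · exact hf p
      · exact hj p

theorem tagClone_closed (hZ : ClosedTag Z) : (tagClone E Z).Closed :=
  monoClone_closed (tagMon_closed hZ)

theorem isAut_symm {α : Equiv.Perm ℕ} (h : IsAut E α) : IsAut E α.symm := by
  intro F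
  rw [← h (F.image α.symm), Finset.image_image]
  have : (α : ℕ → ℕ) ∘ α.symm = id := by funext x; simp
  rw [this, Finset.image_id]

theorem IsAut.emb {α : Equiv.Perm ℕ} (h : IsAut E α) : Emb E α := ⟨α.injective, h⟩

/-- The invertible member given by an automorphism. -/
def autPerm (α : Equiv.Perm ℕ) : Equiv.Perm Pt := Equiv.sumCongr α (Equiv.refl Bool)

theorem autPerm_mem {α : Equiv.Perm ℕ} (h : IsAut E α) : (autPerm α : Pt → Pt) ∈ tagMon E Z := by
  left
  refine ⟨α, h.emb, ?_⟩
  funext p
  rcases p with p | p <;> rfl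

theorem autPerm_symm_mem {α : Equiv.Perm ℕ} (h : IsAut E α) :
    ((autPerm α).symm : Pt → Pt) ∈ tagMon E Z := by
  left
  refine ⟨α.symm, (isAut_symm h).emb, ?_⟩
  funext p
  rcases p with p | p <;> rfl

theorem autPerm_invertible {α : Equiv.Perm ℕ} (h : IsAut E α) :
    (tagClone E Z).Invertible (autPerm α) :=
  ⟨monoClone_unary.2 (autPerm_mem h), monoClone_unary.2 (autPerm_symm_mem h)⟩

theorem tagClone_oligomorphic (hE : ExtProp E) : (tagClone E Z).Oligomorphic := by
  classical
  intro n
  let s : (Fin n → Pt) → Fin n → ℕ := fun x i => (x i).elim id (fun _ => 0)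
  let code : (Fin n → Pt) → (Fin n → Option Bool) × (Fin n → Fin n → Bool) × (Finset (Fin n) → Bool) :=
    fun x => (fun i => (x i).elim (fun _ => none) some, fun i j => decide (s x i = s x j),
      fun I => decide (E (I.image (s x))))
  have hcode : ∀ x y, code x = code y → ∃ α : Equiv.Perm Pt, (tagClone E Z).Invertible α ∧
      x = fun i => α (y i) := by
    intro x y hxy
    have c1 := congrFun (congrArg Prod.fst hxy)
    have c2 := fun i j => congrFun (congrFun (congrArg (fun z => z.2.1) hxy) i) j
    have c3 := congrFun (congrArg (fun z => z.2.2) hxy)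
    obtain ⟨α, hα, h⟩ := homogeneous hE (s y) (s x)
      (by
        intro i j
        have := c2 i j
        simp only [code] at this
        exact (decide_eq_decide.1 this).symm)
      (by
        intro I
        have := c3 I
        simp only [code] at this
        exact (decide_eq_decide.1 this).symm)
    refine ⟨autPerm α, autPerm_invertible hα, ?_⟩
    funext i
    have h1 := c1 i
    have h2 := h i
    simp only [code, s] at h1 h2
    rcases hx : x i with a | a <;> rcases hy : y i with b | b
    · rw [hx, hy] at h2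
      simp only [Sum.elim_inl, id] at h2
      change Sum.inl a = Sum.inl (α b)
      rw [h2]
    · rw [hx, hy] at h1; simp at h1
    · rw [hx, hy] at h1; simp at h1
    · rw [hx, hy] at h1
      simp only [Sum.elim_inr, Option.some.injEq] at h1
      change Sum.inr a = Sum.inr b
      rw [h1]
  choose rep hrep using fun k : Set.range code => k.2
  refine ⟨Set.range rep, Set.finite_range rep, ?_⟩
  intro x
  refine ⟨rep ⟨code x, x, rfl⟩, ⟨_, rfl⟩, ?_⟩
  obtain ⟨α, hα, h⟩ := hcode x (rep ⟨code x, x, rfl⟩) (hrep ⟨code x, x, rfl⟩).symm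
  exact ⟨α, hα, h⟩

end Pool.Agent.H818R3
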