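import Pool.Agent.H818R3.TagClone

/-!
# Isomorphisms between tagged clones changing the tags
-/

namespace Pool.Agent.H818R3

open Topology

/-- The sequence part of a transformation of `Pt`. -/
def seqPart (m : Pt → Pt) : ℕ → ℕ := fun k => (m (Sum.inl k)).elim id (fun _ => 0)

/-- The tag of a transformation of `Pt`. -/
def tagPart (m : Pt → Pt) : Bool := (m (Sum.inr false)).elim (fun _ => false) id

open Classical in
/-- The change of tags. -/
noncomputable def chg (E : Finset ℕ → Prop) (tg : (ℕ → Prop) → Bool → Bool) (m : Pt → Pt) :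
    Pt → Pt :=
  if m (Sum.inr false) = m (Sum.inr true) then
    Sum.map (seqPart m) (fun _ => tg (kap E (seqPart m)) (tagPart m))
  else m

variable {E : Finset ℕ → Prop} {Z Z' : Bool → (ℕ → Prop) → Prop}
  {tg tg' : (ℕ → Prop) → Bool → Bool}

theorem chg_emb (h : ℕ → ℕ) : chg E tg (Sum.map h id) = Sum.map h id := by
  unfold chg
  rw [if_neg (by simp)]

theorem chg_tag (u : ℕ → ℕ) (j : Bool) :
    chg E tg (Sum.map u (fun _ => j)) = Sum.map u (fun _ => tg (kap E u) j) := by
  have h : (Sum.map u (fun _ => j) : Pt → Pt) (Sum.inr false) =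
      (Sum.map u (fun _ => j) : Pt → Pt) (Sum.inr true) := rfl
  unfold chg
  rw [if_pos h]
  rfl

theorem chg_mem (htg : ∀ κ j, Z j κ → Z' (tg κ j) κ) {m : Pt → Pt} (hm : m ∈ tagMon E Z) :
    chg E tg m ∈ tagMon E Z' := by
  rcases hm with ⟨h, hh, rfl⟩ | ⟨u, j, hu, hj, rfl⟩
  · rw [chg_emb]; exact Or.inl ⟨h, hh, rfl⟩
  · rw [chg_tag]; exact Or.inr ⟨u, _, hu, htg _ _ hj, rfl⟩

theorem chg_comp {m m' : Pt → Pt} (hm : m ∈ tagMon E Z) (hm' : m' ∈ tagMon E Z) :
    chg E tg (m ∘ m') = chg E tg m ∘ chg E tg m' := by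
  rcases hm with ⟨h, hh, rfl⟩ | ⟨u, j, hu, hj, rfl⟩ <;>
    rcases hm' with ⟨h', hh', rfl⟩ | ⟨u', j', hu', hj', rfl⟩
  · have e : (Sum.map h id : Pt → Pt) ∘ Sum.map h' id = Sum.map (h ∘ h') id := by
      funext p; rcases p with p | p <;> rfl
    rw [e, chg_emb, chg_emb, chg_emb, e]
  · have e : ∀ t : Bool, (Sum.map h id : Pt → Pt) ∘ Sum.map u' (fun _ : Bool => t) =
        Sum.map (h ∘ u') (fun _ : Bool => t) := by
      intro t; funext p; rcases p with p | p <;> rfl
    rw [e, chg_emb, chg_tag, chg_tag, e, hh.kap_comp]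
  · have e : ∀ t : Bool, (Sum.map u (fun _ : Bool => t) : Pt → Pt) ∘ Sum.map h' id =
        Sum.map (u ∘ h') (fun _ : Bool => t) := by
      intro t; funext p; rcases p with p | p <;> rfl
    rw [e, chg_emb, chg_tag, chg_tag, e, hu.kap_comp hh'.1]
  · have e : ∀ t t' : Bool, (Sum.map u (fun _ : Bool => t) : Pt → Pt) ∘
        Sum.map u' (fun _ : Bool => t') = Sum.map (u ∘ u') (fun _ : Bool => t) := by
      intro t t'; funext p; rcases p with p | p <;> rfl
    rw [e, chg_tag, chg_tag, chg_tag, e, hu.kap_comp hu'.1]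

theorem chg_chg (hinv : ∀ κ j, Z j κ → tg' κ (tg κ j) = j) {m : Pt → Pt} (hm : m ∈ tagMon E Z) :
    chg E tg' (chg E tg m) = m := by
  rcases hm with ⟨h, hh, rfl⟩ | ⟨u, j, hu, hj, rfl⟩
  · rw [chg_emb, chg_emb]
  · rw [chg_tag, chg_tag, hinv _ _ hj]

theorem nonconst {m : Pt → Pt} (hm : m ∈ tagMon E Z) : m (Sum.inl 0) ≠ m (Sum.inl 1) := by
  rcases hm with ⟨h, hh, rfl⟩ | ⟨u, j, hu, hj, rfl⟩
  · intro h1
    have := hh.1 (Sum.inl_injective h1)
    omega
  · intro h1
    have := hu.1 (Sum.inl_injective h1)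
    omega

/-- The transformation underlying a member of the tagged clone. -/
noncomputable def opM {n : ℕ} (f : (tagClone E Z).ops n) : Pt → Pt := f.2.choose

theorem opM_mem {n : ℕ} (f : (tagClone E Z).ops n) : opM f ∈ tagMon E Z := f.2.choose_spec.1

/-- The variable on which a member of the tagged clone depends. -/
noncomputable def opI {n : ℕ} (f : (tagClone E Z).ops n) : Fin (n + 1) :=
  f.2.choose_spec.2.choose

theorem op_eq {n : ℕ} (f : (tagClone E Z).ops n) : f.1 = fun x => opM f (x (opI f)) :=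
  f.2.choose_spec.2.choose_spec

theorem op_unique {n : ℕ} (f : (tagClone E Z).ops n) {m : Pt → Pt} {i : Fin (n + 1)}
    (h : f.1 = fun x => m (x i)) : opM f = m ∧ opI f = i := by
  apply rep_unique ⟨_, _, nonconst (opM_mem f)⟩
  rw [← op_eq f]
  exact h

/-- A member of the tagged clone from a transformation and a variable. -/
def mkOp {n : ℕ} {m : Pt → Pt} (hm : m ∈ tagMon E Z) (i : Fin (n + 1)) : (tagClone E Z).ops n :=
  ⟨fun x => m (x i), m, hm, i, rfl⟩

theorem opM_mkOp {n : ℕ} {m : Pt → Pt} (hm : m ∈ tagMon E Z) (i : Fin (n + 1)) :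
    opM (mkOp hm i) = m := (op_unique (mkOp hm i) rfl).1

theorem opI_mkOp {n : ℕ} {m : Pt → Pt} (hm : m ∈ tagMon E Z) (i : Fin (n + 1)) :
    opI (mkOp hm i) = i := (op_unique (mkOp hm i) rfl).2

theorem op_ext {n : ℕ} {f g : (tagClone E Z).ops n} (h1 : opM f = opM g) (h2 : opI f = opI g) :
    f = g := by
  apply Subtype.ext
  rw [op_eq f, op_eq g, h1, h2]

/-- The clone homomorphism changing the tags. -/
noncomputable def chgHom (htg : ∀ κ j, Z j κ → Z' (tg κ j) κ) :
    CloneHom (tagClone E Z) (tagClone E Z') where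
  map n f := mkOp (chg_mem htg (opM_mem f)) (opI f)
  map_proj n i := by
    have h := op_unique ((tagClone E Z).proj n i) (m := id) (i := i) rfl
    apply op_ext
    · rw [opM_mkOp, h.1]
      have h' := op_unique ((tagClone E Z').proj n i) (m := id) (i := i) rfl
      rw [h'.1]
      have : (id : Pt → Pt) = Sum.map id id := by funext p; rcases p with p | p <;> rfl
      rw [this, chg_emb]
    · rw [opI_mkOp, h.2]
      have h' := op_unique ((tagClone E Z').proj n i) (m := id) (i := i) rfl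
      rw [h'.2]
  map_comp n m f g := by
    have h := op_unique ((tagClone E Z).comp f g) (m := opM f ∘ opM (g (opI f)))
      (i := opI (g (opI f))) (by
        change (fun x => f.1 (fun i => (g i).1 x)) = _
        rw [op_eq f]
        funext x
        change opM f ((g (opI f)).1 x) = _
        rw [op_eq (g (opI f))]
        rfl)
    apply op_ext
    · rw [opM_mkOp, h.1, chg_comp (opM_mem f) (opM_mem _)]
      symm
      refine (op_unique _ (i := opI (g (opI f))) ?_).1
      rfl
    · rw [opI_mkOp, h.2]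
      symm
      refine (op_unique _ (m := chg E tg (opM f) ∘ chg E tg (opM (g (opI f)))) ?_).2
      rfl

theorem opM_chgHom (htg : ∀ κ j, Z j κ → Z' (tg κ j) κ) {n : ℕ} (f : (tagClone E Z).ops n) :
    opM ((chgHom htg).map n f) = chg E tg (opM f) :=
  opM_mkOp (chg_mem htg (opM_mem f)) (opI f)

theorem opI_chgHom (htg : ∀ κ j, Z j κ → Z' (tg κ j) κ) {n : ℕ} (f : (tagClone E Z).ops n) :
    opI ((chgHom htg).map n f) = opI f :=
  opI_mkOp (chg_mem htg (opM_mem f)) (opI f)

theorem chgHom_isIso (htg : ∀ κ j, Z j κ → Z' (tg κ j) κ) (htg' : ∀ κ j, Z' j κ → Z (tg' κ j) κ)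
    (hinv : ∀ κ j, Z j κ → tg' κ (tg κ j) = j) (hinv' : ∀ κ j, Z' j κ → tg κ (tg' κ j) = j) :
    (chgHom (E := E) htg).IsIso := by
  intro n
  apply Function.bijective_iff_has_inverse.2
  refine ⟨(chgHom (E := E) htg').map n, ?_, ?_⟩
  · intro f
    apply op_ext
    · rw [opM_chgHom, opM_chgHom, chg_chg hinv (opM_mem f)]
    · rw [opI_chgHom, opI_chgHom]
  · intro f
    apply op_ext
    · rw [opM_chgHom, opM_chgHom, chg_chg hinv' (opM_mem f)]
    · rw [opI_chgHom, opI_chgHom]

/-- Local determination: agreement on a suitable finite set forces the same variable and the same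
transformation on a prescribed finite set. -/
theorem local_det {n : ℕ} (f : (tagClone E Z).ops n) (D : Finset Pt) :
    ∃ B : Finset (Fin (n + 1) → Pt), ∀ f' : (tagClone E Z).ops n, (∀ b ∈ B, f'.1 b = f.1 b) →
      opI f' = opI f ∧ ∀ d ∈ D, opM f' d = opM f d := by
  classical
  refine ⟨D.image (fun d => fun _ => d) ∪ {(fun _ => Sum.inl 0),
    (fun l => if l = opI f then Sum.inl 1 else Sum.inl 0)}, ?_⟩
  intro f' hf'
  constructor
  · by_contra hne
    have e1 := hf' (fun _ => Sum.inl 0) (by simp)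
    have e2 := hf' (fun l => if l = opI f then Sum.inl 1 else Sum.inl 0) (by simp)
    rw [op_eq f, op_eq f'] at e1 e2
    simp only [if_true] at e2
    rw [if_neg hne] at e2
    exact nonconst (opM_mem f) (e1.symm.trans e2)
  · intro d hd
    have e1 := hf' (fun _ => d) (Finset.mem_union_left _ (Finset.mem_image.2 ⟨d, hd, rfl⟩))
    rw [op_eq f, op_eq f'] at e1
    exact e1

end Pool.Agent.H818R3
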