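import Pool.Agent.H818R3.Clone

/-!
# Elementary facts on the topology of pointwise convergence
-/

namespace Pool.Agent.H818R3

open Topology

variable {Ω : Type*} {Ω' : Type*} {n : ℕ}

theorem exists_finset_of_open {U : Set (Op Ω n)} (hU : IsOpen U) {f : Op Ω n} (hf : f ∈ U) :
    ∃ B : Finset (Fin (n + 1) → Ω), ∀ g : Op Ω n, (∀ b ∈ B, g b = f b) → g ∈ U := by
  let _ : TopologicalSpace Ω := ⊥
  obtain ⟨I, u, hu, hsub⟩ := (isOpen_pi_iff (ι := Fin (n+1) → Ω) (A := fun _ => Ω)).1 hU f hf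
  refine ⟨I, fun g hg => hsub ?_⟩
  intro b hb
  have := (hu b hb).2
  rw [← hg b hb] at this
  exact this

theorem continuous_eval (b : Fin (n + 1) → Ω) :
    @Continuous (Op Ω n) Ω _ ⊥ (fun f => f b) := by
  let _ : TopologicalSpace Ω := ⊥
  exact continuous_apply (A := fun _ : Fin (n+1) → Ω => Ω) b

theorem isOpen_agree (f : Op Ω n) (B : Finset (Fin (n + 1) → Ω)) :
    IsOpen {g : Op Ω n | ∀ b ∈ B, g b = f b} := by
  let _ : TopologicalSpace Ω := ⊥
  have _ : DiscreteTopology Ω := ⟨rfl⟩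
  have : {g : Op Ω n | ∀ b ∈ B, g b = f b} = ⋂ b ∈ B, (fun g : Op Ω n => g b) ⁻¹' {f b} := by
    ext g; simp
  rw [this]
  exact isOpen_biInter_finset (fun b _ => (isOpen_discrete _).preimage (continuous_eval b))

theorem mem_of_closed {S : Set (Op Ω n)} (hS : IsClosed S) (f : Op Ω n)
    (h : ∀ B : Finset (Fin (n + 1) → Ω), ∃ g ∈ S, ∀ b ∈ B, g b = f b) : f ∈ S := by
  by_contra hf
  obtain ⟨B, hB⟩ := exists_finset_of_open hS.isOpen_compl (show f ∈ Sᶜ from hf)
  obtain ⟨g, hg, hgB⟩ := h B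
  exact hB g hgB hg

theorem closed_of {S : Set (Op Ω n)}
    (h : ∀ f : Op Ω n, (∀ B : Finset (Fin (n + 1) → Ω), ∃ g ∈ S, ∀ b ∈ B, g b = f b) → f ∈ S) :
    IsClosed S := by
  rw [← isOpen_compl_iff, isOpen_iff_forall_mem_open]
  intro f hf
  have : ¬ ∀ B : Finset (Fin (n + 1) → Ω), ∃ g ∈ S, ∀ b ∈ B, g b = f b := fun hh => hf (h f hh)
  push Not at this
  obtain ⟨B, hB⟩ := this
  refine ⟨{g : Op Ω n | ∀ b ∈ B, g b = f b}, ?_, isOpen_agree f B, fun b _ => rfl⟩
  intro g hg hgS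
  obtain ⟨b, hb, hne⟩ := hB g hgS
  exact hne (hg b hb)

/-- A map into operations is continuous when all its evaluations are continuous. -/
theorem continuous_to_op {X : Type*} [TopologicalSpace X] {S : Set (Op Ω n)} (F : X → S)
    (h : ∀ b, @Continuous X Ω _ ⊥ (fun x => (F x).1 b)) : Continuous F := by
  let _ : TopologicalSpace Ω := ⊥
  apply continuous_induced_rng.2
  exact continuous_pi (A := fun _ : Fin (n+1) → Ω => Ω) h

/-- A function on the Cantor space depending on finitely many bits is continuous. -/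
theorem continuous_of_bits {α : Type*} (f : (ℕ → Bool) → α) (n : ℕ)
    (h : ∀ x x' : ℕ → Bool, (∀ i < n, x i = x' i) → f x = f x') :
    @Continuous (ℕ → Bool) α _ ⊥ f := by
  let _ : TopologicalSpace α := ⊥
  have _ : DiscreteTopology α := ⟨rfl⟩
  apply IsLocallyConstant.continuous
  rw [IsLocallyConstant.iff_exists_open]
  intro x
  refine ⟨⋂ i ∈ Finset.range n, (fun y : ℕ → Bool => y i) ⁻¹' {x i}, ?_, by simp, ?_⟩
  · exact isOpen_biInter_finset (fun i _ => (isOpen_discrete _).preimage (continuous_apply i))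
  · intro y hy
    simp only [Finset.mem_range, Set.mem_iInter, Set.mem_preimage, Set.mem_singleton_iff] at hy
    exact h y x hy

end Pool.Agent.H818R3
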